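import Pool.Agent.Y757.EM.LH

set_option autoImplicit false

/-! Equivalences with the Lindelöf hypothesis; plain forms of the functions. -/

namespace Pool.Agent.Y757.EM

open MeasureTheory Set Filter Topology Pool.Agent.Y757.LS Real ZU
open scoped ENNReal

noncomputable section

/-- translation of the half line -/
lemma Ioi_shift {E : Type*} [NormedAddCommGroup E] [NormedSpace ℝ E] (f : ℝ → E) (a : ℝ) :
    (∫ s in Ioi (0:ℝ), f (a + s)) = ∫ σ in Ioi a, f σ := by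
  have h := (measurePreserving_add_left (volume : Measure ℝ) a).setIntegral_preimage_emb
    (measurableEmbedding_addLeft a) f (Ioi a)
  have e : (fun x => a + x) ⁻¹' Ioi a = Ioi 0 := by
    ext x; simp
  rw [e] at h
  exact h

lemma Ioi_shift_int {E : Type*} [NormedAddCommGroup E] (f : ℝ → E) (a : ℝ) :
    IntegrableOn (fun s => f (a + s)) (Ioi 0) ↔ IntegrableOn f (Ioi a) := by
  have h := (measurePreserving_add_left (volume : Measure ℝ) a).integrableOn_comp_preimage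
    (measurableEmbedding_addLeft a) (f := f) (s := Ioi a)
  have e : (fun x => a + x) ⁻¹' Ioi a = Ioi 0 := by
    ext x; simp
  rw [e] at h
  exact h

lemma pt_shift (s t : ℝ) : pt s t = (((1 / 2 : ℝ) + s : ℝ) : ℂ) + (t : ℂ) * Complex.I := by
  unfold pt; push_cast; ring

lemma JJ_eq (t : ℝ) : JJ t = ∫ σ in Ioi (1 / 2 : ℝ), Real.log ‖riemannZeta ((σ : ℂ) + (t : ℂ) * Complex.I)‖ := by
  rw [← Ioi_shift (fun σ : ℝ => Real.log ‖riemannZeta ((σ : ℂ) + (t : ℂ) * Complex.I)‖) (1 / 2)]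
  unfold JJ lz
  simp only [pt_shift]

lemma JJ_integrable {t : ℝ} (ht : 1 ≤ t) :
    IntegrableOn (fun σ : ℝ => Real.log ‖riemannZeta ((σ : ℂ) + (t : ℂ) * Complex.I)‖) (Ioi (1 / 2)) := by
  rw [← Ioi_shift_int]
  have h := lz_int ht
  unfold lz at h
  simp only [pt_shift] at h
  exact h

lemma cf_eq {p : ℕ} (hp : 2 ≤ p) (m : ℕ) (x : ℝ) : cf p m * x =
    x / (((m : ℝ) + 1) ^ 2 * (p : ℝ) ^ (((m : ℝ) + 1) / 2) * Real.log p) := by
  have hp1 : (0:ℝ) < p := by exact_mod_cast (by omega : 0 < p)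
  have h1 : rp p 0 ^ (m + 1) = ((p : ℝ) ^ (((m : ℝ) + 1) / 2))⁻¹ := by
    unfold rp
    rw [← Real.rpow_natCast, ← Real.rpow_mul hp1.le, ← Real.rpow_neg hp1.le]
    congr 1
    push_cast
    ring
  unfold cf
  rw [h1]
  have hl : Real.log p ≠ 0 := (Real.log_pos (by exact_mod_cast (by omega : 1 < p))).ne'
  have h2 : (p : ℝ) ^ (((m : ℝ) + 1) / 2) ≠ 0 := (Real.rpow_pos_of_pos hp1 _).ne'
  field_simp

lemma Lp_eq {p : ℕ} (hp : 2 ≤ p) (θ : ℝ) : Lp p θ =
    ∑' m : ℕ, Real.cos (2 * Real.pi * (m + 1) * θ) / (((m : ℝ) + 1) ^ 2 * (p : ℝ) ^ (((m : ℝ) + 1) / 2) * Real.log p) := by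
  unfold Lp
  exact tsum_congr fun m => cf_eq hp m _

/-- the moments of zeta -/
theorem hyp_of_moment {k : ℕ} (h : ∀ ε : ℝ, 0 < ε → ∃ A : ℝ, ∀ T : ℝ, 1 ≤ T →
    ∫ t in (1:ℝ)..T, Z t ^ (2 * k) ≤ A * T ^ (1 + ε)) : HypK k := by
  intro ε hε
  obtain ⟨A₀, hA₀⟩ := h ε hε
  set A : ℝ := max A₀ 0 with hA
  have hA0 : 0 ≤ A := le_max_right _ _
  set B : ℝ := ∫ t in (0:ℝ)..1, Z t ^ (2 * k) with hB
  have hZ0 : ∀ t, 0 ≤ Z t := fun t => by unfold Z; exact norm_nonneg _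
  have hB0 : 0 ≤ B := intervalIntegral.integral_nonneg zero_le_one fun t _ => pow_nonneg (hZ0 t) _
  have hcont : Continuous (fun t => Z t ^ (2 * k)) := Z_continuous.pow _
  refine ⟨(2 * (B + A)) * (1 + 1) ^ (1 + ε), by positivity,
    PB_of_ge (X := 1) (by positivity) (by positivity) zero_le_one fun T hT => ?_⟩
  have hT0 : 0 < T := by linarith
  have hm : Measurable (fun t : ℝ => ENNReal.ofReal (‖GG (pt 0 t)‖ ^ (2 * k))) :=
    (((GG_measurable.comp (pt_meas 0)).norm).pow_const _).ennreal_ofReal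
  refine (sym_int (fun t => by rw [GG_conj]) hm T).trans ?_
  have h1 : ∫⁻ t in Ioc 0 T, ENNReal.ofReal (‖GG (pt 0 t)‖ ^ (2 * k)) ≤
      ∫⁻ t in Ioc 0 T, ENNReal.ofReal (Z t ^ (2 * k)) := by
    refine setLIntegral_mono' measurableSet_Ioc fun t ht => ENNReal.ofReal_le_ofReal ?_
    have hne : pt 0 t ≠ 1 := by
      intro h
      have := congrArg Complex.re h
      rw [pt_re, Complex.one_re] at this
      norm_num at this
    have h1 : ‖GG (pt 0 t)‖ ≤ Z t := by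
      rw [GG_of_ne hne, norm_mul, Z_eq]
      exact mul_le_of_le_one_left (norm_nonneg _) (ratio_le (by rw [pt_re]; norm_num))
    exact pow_le_pow_left₀ (norm_nonneg _) h1 _
  have hi : IntegrableOn (fun t => Z t ^ (2 * k)) (Ioc 0 T) := hcont.integrableOn_Ioc
  have h2 : ∫⁻ t in Ioc 0 T, ENNReal.ofReal (Z t ^ (2 * k)) = ENNReal.ofReal (∫ t in (0:ℝ)..T, Z t ^ (2 * k)) := by
    rw [intervalIntegral.integral_of_le hT0.le]
    exact (ofReal_integral_eq_lintegral_ofReal hi (Eventually.of_forall fun t => pow_nonneg (hZ0 t) _)).symm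
  have h3 : ∫ t in (0:ℝ)..T, Z t ^ (2 * k) = B + ∫ t in (1:ℝ)..T, Z t ^ (2 * k) :=
    (intervalIntegral.integral_add_adjacent_intervals (hcont.intervalIntegrable _ _)
      (hcont.intervalIntegrable _ _)).symm
  have h4 : ∫ t in (1:ℝ)..T, Z t ^ (2 * k) ≤ A * T ^ (1 + ε) := by
    refine (hA₀ T hT).trans ?_
    gcongr
    exact le_max_left _ _
  have e2 : (2 : ℝ≥0∞) = ENNReal.ofReal 2 := by simp
  calc _ ≤ 2 * ENNReal.ofReal (B + A * T ^ (1 + ε)) := by
        gcongr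
        refine h1.trans ?_
        rw [h2, h3]
        apply ENNReal.ofReal_le_ofReal
        linarith
    _ = ENNReal.ofReal (2 * (B + A * T ^ (1 + ε))) := by
        rw [e2, ← ENNReal.ofReal_mul (by norm_num)]
    _ ≤ _ := by
        apply ENNReal.ofReal_le_ofReal
        have b1 : (1:ℝ) ≤ (1 + T) ^ (1 + ε) := Real.one_le_rpow (by linarith) (by linarith)
        have b2 : T ^ (1 + ε) ≤ (1 + T) ^ (1 + ε) := by
          apply Real.rpow_le_rpow hT0.le (by linarith) (by linarith)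
        have b3 : B * 1 ≤ B * (1 + T) ^ (1 + ε) := by gcongr
        have b4 : A * T ^ (1 + ε) ≤ A * (1 + T) ^ (1 + ε) := by gcongr
        linarith

/-- boundedness of an exponential moment -/
def Bdd (c : ℝ) : Prop := ∃ A : ℝ, ∀ T : ℝ, 1 ≤ T → ∫ t in (1:ℝ)..T, Real.exp (c * JJ t) ≤ A * T

/-- the formula from a bounded moment -/
theorem formula_of_bdd {c : ℝ} (hb : Bdd c) {l : ℂ} (h0 : 0 ≤ l.re) (hc : l.re < c) :
    Tendsto (fun T : ℝ => av T (fun t => Complex.exp (l * (JJ t : ℂ)))) atTop (𝓝 (CC l)) := by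
  obtain ⟨A, hA⟩ := hb
  refine main_of h0 hc (A := max A 0) (le_max_right _ _) fun T hT => ⟨expJ_ii (by linarith) hT, ?_⟩
  refine (hA T hT).trans ?_
  have : 0 ≤ T := by linarith
  gcongr
  exact le_max_left _ _

/-- the complex exponentials are integrable -/
lemma cexpJ_ii {l : ℂ} (hl : 0 ≤ l.re) {T : ℝ} (hT : 1 ≤ T) :
    IntervalIntegrable (fun t => Complex.exp (l * (JJ t : ℂ))) volume 1 T := by
  have h := expJ_ii hl hT
  have hJm : Measurable (fun t => Complex.exp (l * (JJ t : ℂ))) :=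
    Complex.measurable_exp.comp ((Complex.measurable_ofReal.comp JJ_meas).const_mul l)
  rw [intervalIntegrable_iff_integrableOn_Ioc_of_le hT] at h ⊢
  refine Integrable.mono' h hJm.aestronglyMeasurable (Eventually.of_forall fun t => ?_)
  rw [Complex.norm_exp, Complex.re_mul_ofReal]

lemma bdd_of_hyp {k : ℕ} (hk : 1 ≤ k) (hyp : HypK k) {c : ℝ} (hc : 0 < c) (hc8 : c < 8 * k) : Bdd c := by
  obtain ⟨A, _, h⟩ := exp_J hk hyp hc hc8
  exact ⟨A, fun T hT => (h T hT).2⟩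

/-- the formula gives bounded moments -/
lemma bdd_of_formula {c : ℝ} (h : Tendsto (fun T : ℝ => av T (fun t => Complex.exp ((c : ℂ) * (JJ t : ℂ)))) atTop
    (𝓝 (CC c))) : ∃ A T₀ : ℝ, ∀ T : ℝ, T₀ ≤ T → ∫ t in (1:ℝ)..T, Real.exp (c * JJ t) ≤ A * T := by
  have h3 := h.norm.eventually (gt_mem_nhds (show ‖CC (c:ℂ)‖ < ‖CC (c:ℂ)‖ + 1 by linarith))
  rw [eventually_atTop] at h3
  obtain ⟨T₀, hT₀⟩ := h3
  refine ⟨‖CC (c:ℂ)‖ + 1, max 1 T₀, fun T hT => ?_⟩
  have hT1 : 1 ≤ T := (le_max_left _ _).trans hT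
  have hT0 : 0 < T := by linarith
  have h4 := (hT₀ T ((le_max_right _ _).trans hT)).le
  unfold av at h4
  have e : ∀ t : ℝ, Complex.exp ((c:ℂ) * (JJ t : ℂ)) = ((Real.exp (c * JJ t) : ℝ) : ℂ) := by
    intro t; push_cast; rfl
  simp only [e] at h4
  rw [intervalIntegral.integral_ofReal, ← Complex.ofReal_mul, Complex.norm_real, Real.norm_of_nonneg (by
    have : 0 ≤ ∫ t in (1:ℝ)..T, Real.exp (c * JJ t) :=
      intervalIntegral.integral_nonneg hT1 fun t _ => (Real.exp_pos _).le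
    positivity), one_div, inv_mul_le_iff₀ hT0] at h4
  linarith

/-- all moments bounded (eventually) give the Lindelöf hypothesis -/
theorem lh_of_all (h : ∀ c : ℝ, 0 < c → ∃ A T₀ : ℝ, ∀ T : ℝ, T₀ ≤ T →
    ∫ t in (1:ℝ)..T, Real.exp (c * JJ t) ≤ A * T) : Exponent 0 := by
  rw [lindelof_iff]
  intro ε hε
  obtain ⟨A, T₀, hb⟩ := h (2 / ε) (by positivity)
  obtain ⟨T₁, hT₁⟩ := pointwise (c := 2 / ε) (by positivity) hb (ε := ε / 2) (by positivity)
  refine ⟨T₁, fun t ht => (hT₁ t ht).trans (le_of_eq ?_)⟩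
  congr 1
  rw [one_div_div]
  ring

/-- a single moment gives a bound of the exponent -/
theorem exponent_of_bdd {κ c A T₀ : ℝ} (hκ : 0 ≤ κ) (hc : 0 < c) (hL : Law κ (1 / c))
    (hb : ∀ T : ℝ, T₀ ≤ T → ∫ t in (1:ℝ)..T, Real.exp (c * JJ t) ≤ A * T) : Exponent κ := by
  obtain ⟨a, ha, hLa⟩ := hL.exists_gt
  obtain ⟨T₁, hT₁⟩ := pointwise hc hb (ε := a - 1 / c) (by linarith)
  refine crit hκ hLa (T₀ := T₁) fun t ht => (hT₁ t ht).trans (le_of_eq ?_)
  congr 1
  ring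

/-- pointwise upper bounds of the integral to infinity -/
theorem pointwise_JJ {c A T₀ : ℝ} (hc : 0 < c)
    (hb : ∀ T : ℝ, T₀ ≤ T → ∫ t in (1:ℝ)..T, Real.exp (c * JJ t) ≤ A * T) {ε : ℝ} (hε : 0 < ε) :
    ∃ T₁ : ℝ, ∀ t : ℝ, T₁ ≤ t → JJ t ≤ (1 / c + ε) * Real.log t := by
  obtain ⟨T₁, hT₁⟩ := pointwise hc hb (ε := ε / 2) (by positivity)
  have hl5 : 0 ≤ Real.log 5 := Real.log_nonneg (by norm_num)
  have ht0 := tail_nonneg (3/4) 0
  set D : ℝ := 3/2 * Real.log 5 + 8 * tail (3/4) 0 with hD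
  have hJJ : ∀ t : ℝ, 1 ≤ t → JJ t ≤ LS.J t + D := by
    intro t ht
    have e : Ioi (0:ℝ) = Ioc 0 (3/2) ∪ Ioi (3/2) := (Ioc_union_Ioi_eq_Ioi (by norm_num)).symm
    have hi := lz_int ht
    have h2 : JJ t = (∫ s in Ioc (0:ℝ) (3/2), lz s t) + ∫ s in Ioi (3/2:ℝ), lz s t := by
      unfold JJ
      rw [e]
      exact setIntegral_union (by
        rw [Set.disjoint_left]
        intro x hx hx2
        exact absurd hx.2 (not_le.2 hx2)) measurableSet_Ioi (lz_ioc ht)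
        (hi.mono_set (Ioi_subset_Ioi (by norm_num)))
    have hpr : pr 0 = ∅ := by unfold pr; simp
    have h3 : ∫ s in Ioi (3/2:ℝ), lz s t ≤ 8 * tail (3/4) 0 := by
      have h4 := (Xi_far_int 0 t).2
      have e0 : ∀ s, Xi 0 s t = lz s t := fun s => by unfold Xi; rw [hpr]; simp
      simp only [e0] at h4
      have h5 := norm_integral_le_integral_norm (μ := volume.restrict (Ioi (3/2:ℝ))) (fun s => lz s t)
      simp only [Real.norm_eq_abs] at h5
      exact (le_abs_self _).trans (h5.trans h4)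
    rw [J_eq, intervalIntegral.integral_of_le (by norm_num)]
    rw [h2]
    unfold lz at h3 ⊢
    linarith
  refine ⟨max (max 1 T₁) (Real.exp (2 * D / ε)), fun t ht => ?_⟩
  have ht1 : 1 ≤ t := ((le_max_left _ _).trans (le_max_left _ _)).trans ht
  have ht2 : T₁ ≤ t := ((le_max_right _ _).trans (le_max_left _ _)).trans ht
  have ht3 : Real.exp (2 * D / ε) ≤ t := (le_max_right _ _).trans ht
  have hlt : 2 * D / ε ≤ Real.log t := (Real.le_log_iff_exp_le (by linarith)).2 ht3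
  rw [div_le_iff₀ hε] at hlt
  have h1 := hJJ t ht1
  have h2 := hT₁ t ht2
  have h3 : (1 / c + ε / 2) * Real.log t = (1 / c + ε) * Real.log t - ε / 2 * Real.log t := by ring
  linarith

end

end Pool.Agent.Y757.EM
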