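import Pool.Agent.Y757.EM.App
import Pool.Agent.Y757.LS.Loc

set_option autoImplicit false

/-! Closeness in mean of the horizontal integral and the sums over primes. -/

namespace Pool.Agent.Y757.EM

open MeasureTheory Set Filter Topology Pool.Agent.Y757.LS Real ZU
open scoped ENNReal

noncomputable section

/-- the horizontal integral of `log |ζ|` -/
def JJ (t : ℝ) : ℝ := ∫ s in Ioi (0:ℝ), lz s t

lemma lz_meas : Measurable (fun q : ℝ × ℝ => lz q.1 q.2) := by
  have hz : Measurable riemannZeta := by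
    have h1 : ContinuousOn riemannZeta ({1}ᶜ : Set ℂ) := fun z hz =>
      (differentiableAt_riemannZeta hz).continuousAt.continuousWithinAt
    refine measurable_of_continuousOn_compl_singleton 1 h1
  unfold lz
  exact Real.measurable_log.comp ((hz.comp pt_measurable).norm)

lemma lz_meas_comp {α : Type*} [MeasurableSpace α] {u v : α → ℝ} (hu : Measurable u)
    (hv : Measurable v) : Measurable (fun x => lz (u x) (v x)) := by
  have h1 : Measurable (fun x => (u x, v x)) := hu.prodMk hv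
  have h2 := lz_meas.comp h1
  have h3 : ((fun p : ℝ × ℝ => lz p.1 p.2) ∘ fun x => (u x, v x)) = fun x => lz (u x) (v x) := by
    funext x
    rfl
  rw [h3] at h2
  exact h2

lemma JJ_meas : Measurable JJ := by
  unfold JJ
  have h2 : StronglyMeasurable (Function.uncurry fun (t s : ℝ) => lz s t) :=
    (lz_meas_comp measurable_snd measurable_fst).stronglyMeasurable
  exact (h2.integral_prod_right (ν := volume.restrict (Ioi 0))).measurable

lemma Xi_meas (N : ℕ) (t : ℝ) : Measurable (fun s => Xi N s t) := by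
  unfold Xi
  refine (lz_meas_comp measurable_id measurable_const).sub ?_
  exact Finset.measurable_fun_sum _ fun p _ => psi_meas_comp p measurable_id measurable_const

lemma exp_far : IntegrableOn (fun s : ℝ => Real.exp (-(Real.log 2) * (s - 1))) (Ioi (3/2)) ∧
    ∫ s in Ioi (3/2 : ℝ), Real.exp (-(Real.log 2) * (s - 1)) ≤ 2 := by
  have hl := Real.log_two_gt_d9
  have e : ∀ s : ℝ, Real.exp (-(Real.log 2) * (s - 1)) = 2 * Real.exp (-(Real.log 2) * s) := by
    intro s
    have : -(Real.log 2) * (s - 1) = Real.log 2 + -(Real.log 2) * s := by ring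
    rw [this, Real.exp_add, Real.exp_log (by norm_num)]
  simp only [e]
  constructor
  · exact (integrableOn_exp_mul_Ioi (by linarith) _).const_mul 2
  · rw [integral_const_mul, integral_exp_mul_Ioi (by linarith)]
    have h1 : Real.exp (-(Real.log 2) * (3/2)) ≤ 1 / 2 := by
      have : Real.exp (-(Real.log 2) * (3/2)) ≤ Real.exp (-(Real.log 2)) := by
        apply Real.exp_le_exp.2; linarith
      rw [Real.exp_neg, Real.exp_log (by norm_num)] at this
      linarith
    rw [neg_div_neg_eq]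
    have h2 : Real.exp (-(Real.log 2) * (3/2)) / Real.log 2 ≤ 1 := by
      rw [div_le_one (by linarith)]; linarith
    linarith

lemma Xi_far_int (N : ℕ) (t : ℝ) : IntegrableOn (fun s => Xi N s t) (Ioi (3/2)) ∧
    ∫ s in Ioi (3/2 : ℝ), |Xi N s t| ≤ 8 * tail (3/4) N := by
  obtain ⟨h1, h2⟩ := exp_far
  have ht := tail_nonneg (3/4) N
  have h3 : ∀ s ∈ Ioi (3/2 : ℝ), ‖Xi N s t‖ ≤ 4 * tail (3/4) N * Real.exp (-(Real.log 2) * (s - 1)) := by
    intro s hs
    have hs' : (3/2 : ℝ) < s := hs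
    rw [Real.norm_eq_abs]
    exact Xi_far N (by linarith) t
  have h4 : IntegrableOn (fun s => Xi N s t) (Ioi (3/2)) := by
    refine Integrable.mono' (h1.const_mul (4 * tail (3/4) N)) (Xi_meas N t).aestronglyMeasurable ?_
    rw [ae_restrict_iff' measurableSet_Ioi]
    exact Eventually.of_forall h3
  refine ⟨h4, ?_⟩
  calc ∫ s in Ioi (3/2 : ℝ), |Xi N s t| ≤ ∫ s in Ioi (3/2 : ℝ),
        4 * tail (3/4) N * Real.exp (-(Real.log 2) * (s - 1)) :=
        setIntegral_mono_on h4.abs (h1.const_mul _) measurableSet_Ioi h3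
    _ = 4 * tail (3/4) N * ∫ s in Ioi (3/2 : ℝ), Real.exp (-(Real.log 2) * (s - 1)) := integral_const_mul _ _
    _ ≤ 4 * tail (3/4) N * 2 := by gcongr
    _ = _ := by ring

lemma lz_ioc {t : ℝ} (ht : 1 ≤ t) : IntegrableOn (fun s => lz s t) (Ioc 0 (3/2)) :=
  (intervalIntegrable_iff_integrableOn_Ioc_of_le (by norm_num)).1
    (zeta_intervalIntegrable (by rwa [abs_of_pos (by linarith)]))

lemma psi_sum_int (N : ℕ) (t : ℝ) : IntegrableOn (fun s => ∑ p ∈ pr N, psi p s t) (Ioi 0) :=
  integrable_finsetSum _ fun _ hp => psi_integrable (pr_two hp) t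

lemma Xi_int (N : ℕ) {t : ℝ} (ht : 1 ≤ t) : IntegrableOn (fun s => Xi N s t) (Ioi 0) := by
  have e : Ioi (0:ℝ) = Ioc 0 (3/2) ∪ Ioi (3/2) := (Ioc_union_Ioi_eq_Ioi (by norm_num)).symm
  rw [e]
  refine IntegrableOn.union ?_ (Xi_far_int N t).1
  exact (lz_ioc ht).sub ((psi_sum_int N t).mono_set Ioc_subset_Ioi_self)

lemma lz_int {t : ℝ} (ht : 1 ≤ t) : IntegrableOn (fun s => lz s t) (Ioi 0) := by
  have h := (Xi_int 0 ht).add (psi_sum_int 0 t)
  refine h.congr (Eventually.of_forall fun s => ?_)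
  simp only [Xi, Pi.add_apply]
  ring

lemma JJ_sub (N : ℕ) {t : ℝ} (ht : 1 ≤ t) : JJ t - XN N t = ∫ s in Ioi (0:ℝ), Xi N s t := by
  unfold JJ XN Xi
  rw [integral_sub (lz_int ht) (psi_sum_int N t), integral_finsetSum _ (fun p hp => psi_integrable (pr_two hp) t)]
  congr 1
  exact Finset.sum_congr rfl fun p hp => (psi_int (pr_two hp) t).symm

/-- the integral of the positive part -/
def UU (N : ℕ) (t : ℝ) : ℝ := ∫ s in (0:ℝ)..(3/2), log⁺ ‖Gn N (pt s t)‖

lemma Gn_ii (N : ℕ) (t : ℝ) : IntervalIntegrable (fun s => log⁺ ‖Gn N (pt s t)‖) volume 0 (3/2) := by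
  obtain ⟨K, hK, h⟩ := (Gn_strip N).gr
  rw [intervalIntegrable_iff_integrableOn_Ioc_of_le (by norm_num)]
  refine Integrable.mono' (g := fun _ => K * (1 + |t|)) (integrable_const _) ?_ ?_
  · have h1 : Measurable (fun s : ℝ => pt s t) := by unfold pt; fun_prop
    exact (Real.continuous_posLog.measurable.comp (((Gn_meas N).comp h1).norm)).aestronglyMeasurable
  · rw [ae_restrict_iff' measurableSet_Ioc]
    refine Eventually.of_forall fun s hs => ?_
    rw [Real.norm_of_nonneg posLog_nonneg]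
    have := h (pt s t) (by rw [pt_re]; linarith [hs.1]) (by rw [pt_re]; linarith [hs.2])
    rwa [pt_im] at this

lemma UU_meas (N : ℕ) : Measurable (UU N) := by
  unfold UU
  simp only [intervalIntegral.integral_of_le (show (0:ℝ) ≤ 3 / 2 by norm_num)]
  have h1 : Measurable (fun q : ℝ × ℝ => log⁺ ‖Gn N (pt q.2 q.1)‖) := by
    have h2 : Measurable (fun q : ℝ × ℝ => pt q.2 q.1) := by unfold pt; fun_prop
    exact Real.continuous_posLog.measurable.comp (((Gn_meas N).comp h2).norm)
  have h2 : StronglyMeasurable (Function.uncurry fun (t s : ℝ) => log⁺ ‖Gn N (pt s t)‖) :=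
    h1.stronglyMeasurable
  exact (h2.integral_prod_right (ν := volume.restrict (Ioc 0 (3/2)))).measurable

lemma UU_nonneg (N : ℕ) (t : ℝ) : 0 ≤ UU N t :=
  intervalIntegral.integral_nonneg (by norm_num) fun s _ => posLog_nonneg

lemma II_le (t : ℝ) (ht : 1 ≤ t) : II 0 (3/2) t ≤ ∫ s in Ioc (0:ℝ) (3/2), lz s t := by
  have h1 := (J_close (t := t) (by rwa [abs_of_pos (by linarith)])).1
  rw [J_eq, intervalIntegral.integral_of_le (by norm_num)] at h1
  exact h1

lemma abs_bound (N : ℕ) {t : ℝ} (ht : 1 ≤ t) : |JJ t - XN N t| ≤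
    2 * UU N t + 12 * t⁻¹ - II 0 (3/2) t + ∑ p ∈ pr N, PI p 0 (3/2) t + 8 * tail (3/4) N := by
  have hi := Xi_int N ht
  have h1 : |JJ t - XN N t| ≤ ∫ s in Ioi (0:ℝ), |Xi N s t| := by
    rw [JJ_sub N ht, ← Real.norm_eq_abs]
    exact norm_integral_le_integral_norm _
  have e : Ioi (0:ℝ) = Ioc 0 (3/2) ∪ Ioi (3/2) := (Ioc_union_Ioi_eq_Ioi (by norm_num)).symm
  have hi1 : IntegrableOn (fun s => Xi N s t) (Ioc 0 (3/2)) := hi.mono_set Ioc_subset_Ioi_self
  have h2 : ∫ s in Ioi (0:ℝ), |Xi N s t| = (∫ s in Ioc (0:ℝ) (3/2), |Xi N s t|) + ∫ s in Ioi (3/2:ℝ), |Xi N s t| := by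
    rw [e]
    exact setIntegral_union (by
      rw [Set.disjoint_left]
      intro x hx hx2
      exact absurd hx.2 (not_le.2 hx2)) measurableSet_Ioi hi1.abs (Xi_far_int N t).1.abs
  have hG : IntegrableOn (fun s => log⁺ ‖Gn N (pt s t)‖) (Ioc 0 (3/2)) :=
    (intervalIntegrable_iff_integrableOn_Ioc_of_le (by norm_num)).1 (Gn_ii N t)
  have h3 : ∫ s in Ioc (0:ℝ) (3/2), |Xi N s t| ≤
      ∫ s in Ioc (0:ℝ) (3/2), (2 * (log⁺ ‖Gn N (pt s t)‖ + 4 / t) - Xi N s t) := by
    have hcst : IntegrableOn (fun _ : ℝ => 4 / t) (Ioc 0 (3/2)) := integrable_const _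
    have hG2 : IntegrableOn (fun s => 2 * (log⁺ ‖Gn N (pt s t)‖ + 4 / t)) (Ioc 0 (3/2)) :=
      (hG.add hcst).const_mul 2
    refine integral_mono_ae hi1.abs (hG2.sub hi1) ?_
    filter_upwards [ae_ne (a := 0) (b := 3/2) (by norm_num) (by norm_num) t, ae_restrict_mem measurableSet_Ioc]
      with s hs hs2
    have hz : riemannZeta (pt s t) ≠ 0 := by
      have ht' : 1 ≤ |t| := by rwa [abs_of_pos (by linarith)]
      exact (GG_ne_iff (by linarith [hs2.1]) ht').1 hs
    have h4 := Xi_le N hs2.1.le ht hz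
    have h5 : 0 ≤ log⁺ ‖Gn N (pt s t)‖ := posLog_nonneg
    have h6 : 0 ≤ 4 / t := by positivity
    rw [abs_le]
    constructor <;> linarith
  have h4 : ∫ s in Ioc (0:ℝ) (3/2), (2 * (log⁺ ‖Gn N (pt s t)‖ + 4 / t) - Xi N s t) =
      2 * UU N t + 12 * t⁻¹ - ∫ s in Ioc (0:ℝ) (3/2), Xi N s t := by
    have hcst : IntegrableOn (fun _ : ℝ => 4 / t) (Ioc 0 (3/2)) := integrable_const _
    have hG2 : IntegrableOn (fun s => 2 * (log⁺ ‖Gn N (pt s t)‖ + 4 / t)) (Ioc 0 (3/2)) :=
      (hG.add hcst).const_mul 2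
    rw [integral_sub hG2 hi1, integral_const_mul, integral_add hG hcst]
    congr 1
    unfold UU
    rw [intervalIntegral.integral_of_le (by norm_num), setIntegral_const, Measure.real, Real.volume_Ioc,
      ENNReal.toReal_ofReal (by norm_num), smul_eq_mul]
    field_simp
    ring
  have h5 : ∫ s in Ioc (0:ℝ) (3/2), Xi N s t = (∫ s in Ioc (0:ℝ) (3/2), lz s t) -
      ∑ p ∈ pr N, PI p 0 (3/2) t := by
    unfold Xi PI
    rw [integral_sub (lz_ioc ht) ((psi_sum_int N t).mono_set Ioc_subset_Ioi_self),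
      integral_finsetSum _ (fun p hp => (psi_integrable (pr_two hp) t).mono_set Ioc_subset_Ioi_self)]
    congr 1
    refine Finset.sum_congr rfl fun p _ => ?_
    rw [intervalIntegral.integral_of_le (by norm_num)]
  have h6 := II_le t ht
  have h7 := (Xi_far_int N t).2
  linarith

theorem close {ε : ℝ} (hε : 0 < ε) : ∃ N₀ : ℕ, ∀ N : ℕ, N₀ ≤ N → ∃ T₀ : ℝ, 1 ≤ T₀ ∧ ∀ T : ℝ, T₀ ≤ T →
    IntervalIntegrable (fun t => |JJ t - XN N t|) volume 1 T ∧
    ∫ t in (1:ℝ)..T, |JJ t - XN N t| ≤ ε * T := by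
  obtain ⟨N₁, hN₁, happ⟩ := app_mean (ε := ε / 16) (by positivity)
  have ht := (tail_tendsto (σ := 3/4) (by norm_num)).eventually (gt_mem_nhds (show (0:ℝ) < ε / 64 by positivity))
  rw [eventually_atTop] at ht
  obtain ⟨N₂, hN₂⟩ := ht
  refine ⟨max N₁ N₂, fun N hN => ?_⟩
  obtain ⟨T₁, hT₁, h1⟩ := happ N ((le_max_left _ _).trans hN)
  have htail := (hN₂ N ((le_max_right _ _).trans hN)).le
  have htail0 := tail_nonneg (3/4) N
  obtain ⟨T₂, hT₂, h2⟩ := low_mean (ε := ε / 8) (by positivity)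
  -- the logarithmic terms
  have hlog : Tendsto (fun T : ℝ => (12 * Real.log T + 18 * (pr N).card) / T) atTop (𝓝 0) := by
    have a1 : Tendsto (fun T : ℝ => Real.log T / T) atTop (𝓝 0) :=
      Real.isLittleO_log_id_atTop.tendsto_div_nhds_zero
    have a2 : Tendsto (fun T : ℝ => T⁻¹) atTop (𝓝 0) := tendsto_inv_atTop_zero
    have a3 := (a1.const_mul 12).add (a2.const_mul (18 * ((pr N).card : ℝ)))
    rw [mul_zero, mul_zero, add_zero] at a3
    refine a3.congr' ?_
    filter_upwards [eventually_gt_atTop 0] with T hT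
    field_simp
  have hl2 := hlog.eventually (gt_mem_nhds (show (0:ℝ) < ε / 4 by positivity))
  rw [eventually_atTop] at hl2
  obtain ⟨T₃, hT₃⟩ := hl2
  refine ⟨max T₁ (max T₂ T₃), le_max_of_le_left hT₁, fun T hT => ?_⟩
  have hTa : T₁ ≤ T := (le_max_left _ _).trans hT
  have hTb : T₂ ≤ T := ((le_max_left _ _).trans (le_max_right _ _)).trans hT
  have hTc : T₃ ≤ T := ((le_max_right _ _).trans (le_max_right _ _)).trans hT
  have hT1 : 1 ≤ T := hT₁.trans hTa
  have hT0 : 0 < T := by linarith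
  -- the positive part
  have hU : ∫⁻ t in Ioc 1 T, ENNReal.ofReal (UU N t) ≤ ENNReal.ofReal (ε / 16 * T) := by
    refine le_trans ?_ (h1 T hTa)
    have hm : Measurable (fun q : ℝ × ℝ => uL (Gn N) q.2 q.1) := by
      unfold uL
      have h2 : Measurable (fun q : ℝ × ℝ => pt q.2 q.1) := by unfold pt; fun_prop
      exact (Real.continuous_posLog.measurable.comp (((Gn_meas N).comp h2).norm)).ennreal_ofReal
    calc ∫⁻ t in Ioc 1 T, ENNReal.ofReal (UU N t) ≤
          ∫⁻ t in Ioc 1 T, ∫⁻ s in Ioc (0:ℝ) (3/2), uL (Gn N) s t := by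
          refine lintegral_mono fun t => ?_
          unfold UU uL
          rw [intervalIntegral.integral_of_le (by norm_num)]
          exact ofReal_integral_le fun s => posLog_nonneg
      _ = ∫⁻ s in Ioc (0:ℝ) (3/2), ∫⁻ t in Ioc 1 T, uL (Gn N) s t := by
          rw [lintegral_lintegral_swap]
          exact hm.aemeasurable
      _ ≤ _ := by
          refine lintegral_mono fun s => lintegral_mono_set ?_
          intro t ht
          exact ⟨by linarith [ht.1], ht.2⟩
  have hUi : IntegrableOn (UU N) (Ioc 1 T) := by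
    refine ⟨(UU_meas N).aestronglyMeasurable, ?_⟩
    rw [hasFiniteIntegral_iff_ofReal (Eventually.of_forall fun t => UU_nonneg N t)]
    exact hU.trans_lt ENNReal.ofReal_lt_top
  have hUii : IntervalIntegrable (UU N) volume 1 T :=
    (intervalIntegrable_iff_integrableOn_Ioc_of_le hT1).2 hUi
  have hUv : ∫ t in (1:ℝ)..T, UU N t ≤ ε / 16 * T := by
    rw [intervalIntegral.integral_of_le hT1]
    rw [← ofReal_integral_eq_lintegral_ofReal hUi (Eventually.of_forall fun t => UU_nonneg N t)] at hU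
    exact (ENNReal.ofReal_le_ofReal_iff (by positivity)).1 hU
  have hIi : IntervalIntegrable (II 0 (3/2)) volume 1 T := by
    obtain ⟨C, hC, hL⟩ := II_Lgr
    exact hL.ii hC (II_measurable 0 (3/2)) 1 T
  have hPi : IntervalIntegrable (fun t => ∑ p ∈ pr N, PI p 0 (3/2) t) volume 1 T := by
    have := IntervalIntegrable.sum (pr N) (f := fun p => fun t => PI p 0 (3/2) t) (μ := volume) (a := 1) (b := T)
      (fun p hp => (PI_av (pr_two hp) le_rfl (by norm_num) hT1).1)
    refine this.congr ?_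
    intro s _
    simp
  have hinv : IntervalIntegrable (fun t : ℝ => 12 * t⁻¹) volume 1 T := by
    refine ContinuousOn.intervalIntegrable ?_
    rw [uIcc_of_le hT1]
    intro t ht
    have : t ≠ 0 := by linarith [ht.1]
    exact (continuousAt_const.mul (continuousAt_inv₀ this)).continuousWithinAt
  have hci : IntervalIntegrable (fun _ : ℝ => 8 * tail (3/4) N) volume 1 T := intervalIntegrable_const
  set B : ℝ → ℝ := fun t => 2 * UU N t + 12 * t⁻¹ - II 0 (3/2) t + ∑ p ∈ pr N, PI p 0 (3/2) t + 8 * tail (3/4) N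
    with hB
  have hBi : IntervalIntegrable B volume 1 T :=
    ((((hUii.const_mul 2).add hinv).sub hIi).add hPi).add hci
  have hmeas : Measurable (fun t => |JJ t - XN N t|) := (JJ_meas.sub (XN_cont N).measurable).abs
  have hJi : IntervalIntegrable (fun t => |JJ t - XN N t|) volume 1 T := by
    rw [intervalIntegrable_iff_integrableOn_Ioc_of_le hT1] at hBi ⊢
    refine Integrable.mono' hBi hmeas.aestronglyMeasurable ?_
    rw [ae_restrict_iff' measurableSet_Ioc]
    refine Eventually.of_forall fun t ht => ?_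
    rw [Real.norm_eq_abs, abs_abs]
    exact abs_bound N ht.1.le
  refine ⟨hJi, ?_⟩
  have h3 := intervalIntegral.integral_mono_on hT1 hJi hBi (fun t ht => abs_bound N ht.1)
  have h4 : ∫ t in (1:ℝ)..T, B t = 2 * (∫ t in (1:ℝ)..T, UU N t) + 12 * Real.log T -
      (∫ t in (1:ℝ)..T, II 0 (3/2) t) + (∑ p ∈ pr N, ∫ t in (1:ℝ)..T, PI p 0 (3/2) t) +
      8 * tail (3/4) N * (T - 1) := by
    simp only [hB]
    rw [intervalIntegral.integral_add ((((hUii.const_mul 2).add hinv).sub hIi).add hPi) hci,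
      intervalIntegral.integral_add (((hUii.const_mul 2).add hinv).sub hIi) hPi,
      intervalIntegral.integral_sub ((hUii.const_mul 2).add hinv) hIi,
      intervalIntegral.integral_add (hUii.const_mul 2) hinv, intervalIntegral.integral_const_mul,
      intervalIntegral.integral_const_mul, integral_inv_of_pos one_pos hT0, div_one,
      intervalIntegral.integral_const, intervalIntegral.integral_finsetSum
        (fun p hp => (PI_av (pr_two hp) le_rfl (by norm_num) hT1).1), smul_eq_mul]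
    ring
  have h5 : ∑ p ∈ pr N, ∫ t in (1:ℝ)..T, PI p 0 (3/2) t ≤ 18 * (pr N).card := by
    calc _ ≤ ∑ p ∈ pr N, (18:ℝ) := by
          refine Finset.sum_le_sum fun p hp => ?_
          have := (le_abs_self _).trans (PI_av (pr_two hp) le_rfl (by norm_num : (0:ℝ) ≤ 3/2) hT1).2
          linarith
      _ = _ := by rw [Finset.sum_const, nsmul_eq_mul]; ring
  have h6 := h2 T hTb
  have h7 := hT₃ T hTc
  rw [div_lt_iff₀ hT0] at h7
  have h8 : tail (3/4) N * (T - 1) ≤ ε / 64 * T := by
    have : 0 ≤ ε := hε.le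
    nlinarith
  rw [h4] at h3
  nlinarith

end

end Pool.Agent.Y757.EM
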