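import Pool.Agent.Y757.EM.Mom
import Pool.Agent.Y757.LS.L

set_option autoImplicit false

/-! Bounded exponential moments of the horizontal integrals of `log⁺ |GG|`. -/

namespace Pool.Agent.Y757.EM

open MeasureTheory Set Filter Topology Pool.Agent.Y757.LS Real ZU
open scoped ENNReal

noncomputable section

/-- `log⁺ |GG|` -/
def vv (s t : ℝ) : ℝ := log⁺ ‖GG (pt s t)‖

lemma vv_nonneg (s t : ℝ) : 0 ≤ vv s t := posLog_nonneg

lemma vv_meas : Measurable (fun p : ℝ × ℝ => vv p.1 p.2) := by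
  unfold vv
  exact Real.continuous_posLog.measurable.comp ((GG_measurable.comp pt_measurable).norm)

lemma vv_meas_comp {α : Type*} [MeasurableSpace α] {u v : α → ℝ} (hu : Measurable u)
    (hv : Measurable v) : Measurable (fun x => vv (u x) (v x)) := by
  have h1 : Measurable (fun x => (u x, v x)) := hu.prodMk hv
  have h2 := vv_meas.comp h1
  have h3 : ((fun p : ℝ × ℝ => vv p.1 p.2) ∘ fun x => (u x, v x)) = fun x => vv (u x) (v x) := by
    funext x
    rfl
  rw [h3] at h2
  exact h2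

lemma vv_upper : ∃ C : ℝ, 0 ≤ C ∧ ∀ s t : ℝ, -(3/2) ≤ s → s ≤ 10 → vv s t ≤ C + 4 * Real.log (1 + |t|) := by
  obtain ⟨C, hC, h⟩ := LS.upper
  refine ⟨C, hC, fun s t hs hs1 => ?_⟩
  have h1 := (h s t hs hs1).2 0 le_rfl
  unfold gN at h1
  rw [Real.exp_zero, one_mul, sub_zero] at h1
  exact h1

lemma vv_int {a b t : ℝ} (ha : -(3/2) ≤ a) (hab : a ≤ b) (hb : b ≤ 10) :
    IntervalIntegrable (fun s => vv s t) volume a b := by
  obtain ⟨C, hC, h⟩ := vv_upper
  rw [intervalIntegrable_iff_integrableOn_Ioc_of_le hab]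
  refine Integrable.mono' (g := fun _ => C + 4 * Real.log (1 + |t|)) (integrable_const _)
    (vv_meas_comp measurable_id measurable_const).aestronglyMeasurable ?_
  rw [ae_restrict_iff' measurableSet_Ioc]
  refine Eventually.of_forall fun s hs => ?_
  rw [Real.norm_of_nonneg (vv_nonneg _ _)]
  exact h s t (by linarith [hs.1]) (by linarith [hs.2])

lemma vv_right {η : ℝ} (hη : 0 < η) : ∃ C : ℝ, 0 ≤ C ∧ ∀ s t : ℝ, 1 / 2 + η ≤ s → vv s t ≤ C := by
  obtain ⟨C, hC, h⟩ := right_bound hη
  refine ⟨C, hC, fun s t hs => ?_⟩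
  obtain ⟨h1, h2⟩ := h s t hs
  unfold vv
  rw [posLog_apply]
  exact max_le hC ((le_abs_self _).trans h2)

lemma GG_strip : StripF GG 0 3 := by
  refine ⟨GG_measurable, fun z h0 _ => GG_analyticAt (by linarith), ?_⟩
  obtain ⟨C, hC, h⟩ := vv_upper
  refine ⟨C + 4, by positivity, fun z h0 h1 => ?_⟩
  have h2 := h (z.re - 1 / 2) z.im (by linarith) (by linarith)
  have e : pt (z.re - 1 / 2) z.im = z := by
    apply Complex.ext
    · rw [pt_re]; ring
    · rw [pt_im]
  unfold vv at h2
  rw [e] at h2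
  have h3 := log_one_add_le |z.im| (abs_nonneg _)
  have h4 := abs_nonneg z.im
  nlinarith [mul_nonneg hC h4]

lemma uL_eq (s t : ℝ) : uL GG s t = ENNReal.ofReal (vv s t) := rfl

/-- subdivision of an interval -/
lemma subdiv {f : ℝ → ℝ≥0∞} (hf : Measurable f) (a : ℝ) {ℓ : ℝ} (hℓ : 0 < ℓ) (Q : ℕ) :
    ∫⁻ s in Ioc a (a + Q * ℓ), f s = ∑ q ∈ Finset.range Q, ∫⁻ r in Ioc 0 ℓ, f (a + r + q * ℓ) := by
  induction Q with
  | zero => simp
  | succ Q ih =>
    rw [Finset.sum_range_succ, ← ih]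
    have e : Ioc a (a + (Q + 1 : ℕ) * ℓ) = Ioc a (a + Q * ℓ) ∪ Ioc (a + Q * ℓ) (a + (Q + 1 : ℕ) * ℓ) := by
      refine (Ioc_union_Ioc_eq_Ioc ?_ ?_).symm
      · have : (0:ℝ) ≤ Q * ℓ := by positivity
        linarith
      · push_cast; nlinarith
    rw [e, lintegral_union measurableSet_Ioc (by
      rw [Set.disjoint_left]
      intro x hx hx2
      exact absurd hx.2 (not_le.2 hx2.1))]
    congr 1
    have h3 := (measurePreserving_add_right volume (a + Q * ℓ)).setLIntegral_comp_preimage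
      (s := Ioc (a + Q * ℓ) (a + (Q + 1 : ℕ) * ℓ)) measurableSet_Ioc hf
    have e2 : (fun x => x + (a + Q * ℓ)) ⁻¹' Ioc (a + Q * ℓ) (a + (Q + 1 : ℕ) * ℓ) = Ioc 0 ℓ := by
      ext x
      simp only [mem_preimage, mem_Ioc]
      push_cast
      constructor <;> rintro ⟨h1, h2⟩ <;> constructor <;> linarith
    rw [e2] at h3
    rw [← h3]
    refine lintegral_congr fun x => ?_
    congr 1; ring

lemma exp_pow_le {x : ℝ} (hx : 0 ≤ x) {k : ℕ} {c : ℝ} (hc : c ≤ 2 * k) :
    Real.exp (c * log⁺ x) ≤ 1 + x ^ (2 * k) := by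
  rcases le_total x 1 with h | h
  · rw [(Real.posLog_eq_zero_iff x).2 (by rwa [abs_of_nonneg hx]), mul_zero, Real.exp_zero]
    have : 0 ≤ x ^ (2 * k) := by positivity
    linarith
  · have hx0 : 0 < x := by linarith
    rw [Real.posLog_eq_log (by rwa [abs_of_nonneg hx])]
    have hl := Real.log_nonneg h
    calc Real.exp (c * Real.log x) ≤ Real.exp ((2 * k : ℕ) * Real.log x) := by
          apply Real.exp_le_exp.2
          push_cast
          gcongr
      _ = x ^ (2 * k) := by rw [Real.exp_nat_mul, Real.exp_log hx0]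
      _ ≤ _ := by linarith

/-- the far part -/
lemma far_part {k : ℕ} (hk : 1 ≤ k) (hyp : HypK k) {a H c : ℝ} (ha : 0 < a) (ha1 : a ≤ 1 / 2)
    (hH : 1 / 2 < H) (hH1 : H ≤ 1) {n : ℕ} (hc : 0 < c)
    (hcM : c * (H * (1 + 1 / 2 ^ n) / 2) ≤ 2 * k) :
    ∃ A : ℝ, 0 ≤ A ∧ PB 0 (fun t => ENNReal.ofReal (Real.exp (c * ∫ s in a..(a + H), vv s t))) A 1 := by
  obtain ⟨A0, hA0, hmom⟩ := mom hk hyp ha
  obtain ⟨C, hC, hright⟩ := vv_right (η := H - 1 / 2) (by linarith)
  obtain ⟨K, hK, hgrid⟩ := grid 1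
  have h2n : (1:ℝ) ≤ 2 ^ n := one_le_pow₀ (by norm_num)
  set ℓ : ℝ := H / 2 ^ n with hℓ
  have hℓ0 : 0 < ℓ := by positivity
  have hℓH : 2 ^ n * ℓ = H := by rw [hℓ]; field_simp
  have hℓ1 : ℓ ≤ 1 := by
    rw [hℓ, div_le_one (by positivity)]; linarith
  obtain ⟨μ, hμ, hg⟩ := hgrid n ℓ hℓ0 (by rw [hℓH]; exact hH1)
  set ν : Measure ℝ := ∑ q ∈ Finset.range (2 ^ n), μ q with hν
  have hle : ∀ q ∈ Finset.range (2 ^ n), q ≤ 2 ^ n := fun q hq => (Finset.mem_range.1 hq).le
  have hmsum : ∀ Q : ℕ, Q ≤ 2 ^ n → Good (∑ q ∈ Finset.range Q, μ q)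
      (∑ q ∈ Finset.range Q, (1 - (q : ℝ) / 2 ^ n)) := by
    intro Q
    induction Q with
    | zero => intro _; simpa using good_zero
    | succ Q ih =>
      intro hQ
      rw [Finset.sum_range_succ, Finset.sum_range_succ]
      refine (ih (by omega)).add ?_ ?_ (hμ Q (by omega)).1
      · refine Finset.sum_nonneg fun q hq => ?_
        rw [sub_nonneg, div_le_one (by positivity)]
        rw [Finset.mem_range] at hq
        exact_mod_cast (by omega : q ≤ 2 ^ n)
      · rw [sub_nonneg, div_le_one (by positivity)]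
        exact_mod_cast (by omega : Q ≤ 2 ^ n)
  have hmass : ∑ q ∈ Finset.range (2 ^ n), (1 - (q : ℝ) / 2 ^ n) = 2 ^ n * ((1 + 1 / 2 ^ n) / 2) := by
    have h1 : ∀ Q : ℕ, ∑ q ∈ Finset.range Q, (1 - (q : ℝ) / 2 ^ n) = Q - Q * (Q - 1) / 2 / 2 ^ n := by
      intro Q
      induction Q with
      | zero => simp
      | succ Q ih => rw [Finset.sum_range_succ, ih]; push_cast; ring
    rw [h1]
    push_cast
    field_simp
    ring
  have hgood : Good ν (2 ^ n * ((1 + 1 / 2 ^ n) / 2)) := (hmsum (2 ^ n) le_rfl).congr hmass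
  have hνf := hgood.finite
  have hμf : ∀ q ∈ Finset.range (2 ^ n), IsFiniteMeasure (μ q) := fun q hq => (hμ q (hle q hq)).1.finite
  set ρ : Measure (ℝ × ℝ) := (volume.restrict (Ioc 0 ℓ)).prod ν with hρ
  set M : ℝ := H * (1 + 1 / 2 ^ n) / 2 with hM
  have hM0 : 0 < M := by positivity
  have hρm : ρ univ = ENNReal.ofReal M := by
    rw [hρ, ← univ_prod_univ, Measure.prod_prod, hgood.mass, Measure.restrict_apply_univ, Real.volume_Ioc,
      ← ENNReal.ofReal_mul (by linarith)]
    congr 1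
    rw [hM, ← hℓH]
    ring
  have hmeas : ∀ t : ℝ, Measurable (fun x : ℝ × ℝ => vv (a + x.1) (t + x.2)) := fun t =>
    vv_meas_comp (measurable_const.add measurable_fst) (measurable_const.add measurable_snd)
  have hbound : ∀ t : ℝ, ENNReal.ofReal (∫ s in a..(a + H), vv s t) ≤
      ∫⁻ x, ENNReal.ofReal (vv (a + x.1) (t + x.2)) ∂ρ + ENNReal.ofReal C := by
    intro t
    have hm1 : Measurable (fun s => uL GG s t) :=
      (vv_meas_comp measurable_id measurable_const).ennreal_ofReal
    have hm2 : ∀ r : ℝ, Measurable (fun y => ENNReal.ofReal (vv (a + r) (t + y))) := fun r =>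
      (vv_meas_comp measurable_const (measurable_const_add t)).ennreal_ofReal
    rw [intervalIntegral.integral_of_le (by linarith)]
    refine (ofReal_integral_le fun s => vv_nonneg s t).trans ?_
    have hsub := subdiv hm1 a hℓ0 (2 ^ n)
    push_cast at hsub
    rw [hℓH] at hsub
    simp only [uL_eq] at hsub
    rw [hsub]
    have hq : ∀ q ∈ Finset.range (2 ^ n), ∫⁻ r in Ioc 0 ℓ, ENNReal.ofReal (vv (a + r + q * ℓ) t) ≤
        ∫⁻ r in Ioc 0 ℓ, (∫⁻ y, ENNReal.ofReal (vv (a + r) (t + y)) ∂(μ q) + ENNReal.ofReal C) := by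
      intro q hq
      refine setLIntegral_mono' measurableSet_Ioc fun r hr => ?_
      exact hg (uL GG) 0 3 (a + r) (ENNReal.ofReal C) (sub_log GG_strip) (by linarith [hr.1])
        (by rw [hℓH]; linarith [hr.2]) (fun t' => by
          rw [hℓH, uL_eq]
          exact ENNReal.ofReal_le_ofReal (hright _ t' (by linarith [hr.1]))) q (hle q hq) t
    refine (Finset.sum_le_sum hq).trans ?_
    have hsplit : ∀ q ∈ Finset.range (2 ^ n), ∫⁻ r in Ioc 0 ℓ,
        (∫⁻ y, ENNReal.ofReal (vv (a + r) (t + y)) ∂(μ q) + ENNReal.ofReal C) =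
        (∫⁻ r in Ioc 0 ℓ, ∫⁻ y, ENNReal.ofReal (vv (a + r) (t + y)) ∂(μ q)) +
          ENNReal.ofReal (C * ℓ) := by
      intro q _
      rw [lintegral_add_right _ measurable_const, setLIntegral_const, Real.volume_Ioc, sub_zero,
        ← ENNReal.ofReal_mul hC]
    rw [Finset.sum_congr rfl hsplit, Finset.sum_add_distrib, Finset.sum_const, Finset.card_range,
      nsmul_eq_mul]
    refine add_le_add (le_of_eq ?_) ?_
    · rw [hρ, lintegral_prod _ ((hmeas t).ennreal_ofReal.aemeasurable)]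
      rw [← lintegral_finsetSum' _ (fun q hq => by
        have := hμf q hq
        have h5 : Measurable (fun p : ℝ × ℝ => ENNReal.ofReal (vv (a + p.1) (t + p.2))) :=
          (hmeas t).ennreal_ofReal
        exact h5.lintegral_prod_right'.aemeasurable)]
      refine lintegral_congr fun r => ?_
      rw [hν, lintegral_finsetSum_measure]
    · have : ((2 ^ n : ℕ) : ℝ≥0∞) = ENNReal.ofReal (2 ^ n) := by
        rw [ENNReal.ofReal_pow (by norm_num)]; simp
      rw [this, ← ENNReal.ofReal_mul (by positivity)]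
      apply ENNReal.ofReal_le_ofReal
      calc (2:ℝ) ^ n * (C * ℓ) = C * (2 ^ n * ℓ) := by ring
        _ = C * H := by rw [hℓH]
        _ ≤ C := by nlinarith
  have hjen : ∀ t : ℝ, ENNReal.ofReal (Real.exp (c * ∫ s in a..(a + H), vv s t)) ≤
      ENNReal.ofReal (Real.exp (c * C) / M) *
        ∫⁻ x, ENNReal.ofReal (Real.exp (c * M * vv (a + x.1) (t + x.2))) ∂ρ := fun t =>
    jensen hM0 hρm (hmeas t) (fun x => vv_nonneg _ _) hc hC (hbound t)
  set E : ℝ := Real.exp (c * C) / M with hE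
  obtain ⟨F, hF⟩ : ∃ F : ℝ → ℝ → ℝ≥0∞, ∀ r t, F r t = ENNReal.ofReal (1 + ‖GG (pt (a + r) t)‖ ^ (2 * k)) :=
    ⟨_, fun _ _ => rfl⟩
  have hFm : Measurable (fun p : ℝ × ℝ => F p.1 p.2) := by
    have h1 : Measurable (fun p : ℝ × ℝ => pt (a + p.1) p.2) := by
      unfold pt
      fun_prop
    have h2 : Measurable (fun p : ℝ × ℝ => GG (pt (a + p.1) p.2)) := GG_measurable.comp h1
    simp only [hF]
    exact ((h2.norm.pow_const _).const_add 1).ennreal_ofReal
  have hFm3 : Measurable (fun p : (ℝ × ℝ) × ℝ => F p.1.2 (p.1.1 + p.2)) := by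
    have h1 : Measurable (fun p : (ℝ × ℝ) × ℝ => (p.1.2, p.1.1 + p.2)) := by fun_prop
    exact hFm.comp h1
  refine ⟨E * (((2 + A0) * (∫⁻ y, wt y ∂ν).toReal) * ℓ), by positivity, fun T hT => ?_⟩
  have hFPB : ∀ r ∈ Ioc 0 ℓ, PB 0 (F r) (2 + A0) 1 := by
    intro r hr
    have h1 := hmom (a + r) (by linarith [hr.1]) (by linarith [hr.2])
    have h2 := (PB_const (T₀ := 0) le_rfl (c := 1) zero_le_one le_rfl).add le_rfl (by norm_num) hA0 h1
      measurable_const
    refine PB.mono (by simpa using h2) fun t => ?_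
    simp only [hF]
    rw [ENNReal.ofReal_add zero_le_one (by positivity)]
    simp
  calc ∫⁻ t in Icc (-T) T, ENNReal.ofReal (Real.exp (c * ∫ s in a..(a + H), vv s t))
      ≤ ∫⁻ t in Icc (-T) T, ENNReal.ofReal E * ∫⁻ r in Ioc 0 ℓ, Kop ν (F r) t := by
        refine lintegral_mono fun t => (hjen t).trans ?_
        gcongr
        have hme : Measurable (fun x : ℝ × ℝ => ENNReal.ofReal (Real.exp (c * M * vv (a + x.1) (t + x.2)))) :=
          (Real.measurable_exp.comp ((hmeas t).const_mul (c * M))).ennreal_ofReal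
        rw [hρ, lintegral_prod _ hme.aemeasurable]
        refine lintegral_mono fun r => ?_
        unfold Kop
        refine lintegral_mono fun y => ?_
        rw [hF]
        apply ENNReal.ofReal_le_ofReal
        exact exp_pow_le (norm_nonneg _) hcM
    _ = ENNReal.ofReal E * ∫⁻ r in Ioc 0 ℓ, ∫⁻ t in Icc (-T) T, Kop ν (F r) t := by
        rw [lintegral_const_mul' _ _ ENNReal.ofReal_ne_top]
        congr 1
        rw [lintegral_lintegral_swap]
        exact hFm3.lintegral_prod_right'.aemeasurable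
    _ ≤ ENNReal.ofReal E * ∫⁻ r in Ioc 0 ℓ, ENNReal.ofReal
          (((2 + A0) * (∫⁻ y, wt y ∂ν).toReal) * (1 + T) ^ (1:ℝ)) := by
        refine mul_le_mul' le_rfl ?_
        refine setLIntegral_mono' measurableSet_Ioc fun r hr => ?_
        have hFrm : Measurable (F r) := by
          have h1 : Measurable (fun t : ℝ => (r, t)) := by fun_prop
          exact hFm.comp h1
        exact PB.kop le_rfl hgood hFrm (by positivity) zero_le_one (by norm_num) (hFPB r hr) T hT
    _ = _ := by
        rw [setLIntegral_const, Real.volume_Ioc, sub_zero, ← ENNReal.ofReal_mul (by positivity),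
          ← ENNReal.ofReal_mul (by positivity)]
        congr 1
        ring

/-- the near part -/
lemma near_part {c : ℝ} (hc : 0 < c) : ∃ a₀ : ℝ, 0 < a₀ ∧ a₀ ≤ 2 / 5 ∧ ∀ a : ℝ, 0 < a → a ≤ a₀ →
    ∃ A : ℝ, 0 ≤ A ∧ PB 0 (fun t => ENNReal.ofReal (Real.exp (c * ∫ s in (0:ℝ)..a, vv s t))) A 1 := by
  obtain ⟨C, hC, h2⟩ := second
  refine ⟨min (2 / 5) (1 / c), by positivity, min_le_left _ _, fun a ha ha1 => ?_⟩
  have ha2 : a ≤ 2 / 5 := ha1.trans (min_le_left _ _)
  have hca : c * a ≤ 2 * (1 / 2 : ℝ) := by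
    have := ha1.trans (min_le_right _ _)
    rw [le_div_iff₀ hc] at this
    linarith
  have hi : IntervalIntegrable (fun s : ℝ => s ^ (-(1/2) : ℝ)) volume 0 a :=
    intervalIntegral.intervalIntegrable_rpow' (by norm_num)
  have hi2 : IntegrableOn (fun s : ℝ => s ^ (-(1/2) : ℝ)) (Ioc 0 a) :=
    (intervalIntegrable_iff_integrableOn_Ioc_of_le ha.le).1 hi
  set I0 : ℝ := ∫ s in Ioc 0 a, s ^ (-(1/2) : ℝ) with hI0
  have hI00 : 0 ≤ I0 := setIntegral_nonneg measurableSet_Ioc fun s hs => Real.rpow_nonneg hs.1.le _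
  set D : ℝ := 2 + (2 + C) / 2 with hD
  have hD0 : 0 ≤ D := by positivity
  refine ⟨1 / a * (D * I0), by positivity, fun T hT => ?_⟩
  have hjen : ∀ t : ℝ, ENNReal.ofReal (Real.exp (c * ∫ s in (0:ℝ)..a, vv s t)) ≤
      ENNReal.ofReal (1 / a) * ∫⁻ s in Ioc 0 a, ENNReal.ofReal (1 + ‖GG (pt s t)‖) := by
    intro t
    have hm : Measurable (fun s => vv s t) := vv_meas_comp measurable_id measurable_const
    have h3 := jensen (ρ := volume.restrict (Ioc 0 a)) ha (by simp) hm (fun s => vv_nonneg s t) hc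
      (C := 0) le_rfl (X := ∫ s in (0:ℝ)..a, vv s t) (by
        rw [intervalIntegral.integral_of_le ha.le, ENNReal.ofReal_zero, add_zero]
        exact ofReal_integral_le fun s => vv_nonneg s t)
    rw [mul_zero, Real.exp_zero] at h3
    refine h3.trans ?_
    gcongr with s
    unfold vv
    have hx := norm_nonneg (GG (pt s t))
    rcases le_total ‖GG (pt s t)‖ 1 with h | h
    · rw [(Real.posLog_eq_zero_iff _).2 (by rwa [abs_of_nonneg hx]), mul_zero, Real.exp_zero]
      linarith
    · rw [Real.posLog_eq_log (by rwa [abs_of_nonneg hx])]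
      have hl := Real.log_nonneg h
      calc Real.exp (c * a * Real.log ‖GG (pt s t)‖) ≤ Real.exp (Real.log ‖GG (pt s t)‖) := by
            apply Real.exp_le_exp.2
            nlinarith
        _ = ‖GG (pt s t)‖ := Real.exp_log (by linarith)
        _ ≤ _ := by linarith
  have hGm : Measurable (fun p : ℝ × ℝ => ENNReal.ofReal (1 + ‖GG (pt p.2 p.1)‖)) := by
    have h1 : Measurable (fun p : ℝ × ℝ => pt p.2 p.1) := by unfold pt; fun_prop
    exact (((GG_measurable.comp h1).norm).const_add 1).ennreal_ofReal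
  have hline : ∀ s ∈ Ioc (0:ℝ) a, ∫⁻ t in Icc (-T) T, ENNReal.ofReal (1 + ‖GG (pt s t)‖) ≤
      ENNReal.ofReal (D * (1 + T) * s ^ (-(1/2) : ℝ)) := by
    intro s hs
    have h4 := h2 s hs.1 (hs.2.trans ha2) T hT
    have hs0 : 0 < s := hs.1
    have hs1 : s ≤ 1 := by linarith [hs.2]
    set r : ℝ := s ^ (-(1/2) : ℝ) with hr
    have hr0 : 0 < r := by positivity
    have hr1 : 1 ≤ r := Real.one_le_rpow_of_pos_of_le_one_of_nonpos hs0 hs1 (by norm_num)
    have hrs : r * (r * s) = 1 := by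
      have : r * r = s⁻¹ := by
        rw [hr, ← Real.rpow_add hs0, ← Real.rpow_neg_one]; norm_num
      rw [← mul_assoc, this, inv_mul_cancel₀ hs0.ne']
    calc ∫⁻ t in Icc (-T) T, ENNReal.ofReal (1 + ‖GG (pt s t)‖)
        ≤ ∫⁻ t in Icc (-T) T, (ENNReal.ofReal (1 + r / 2) + ENNReal.ofReal (r * s / 2) * uS GG s t) := by
          refine lintegral_mono fun t => ?_
          unfold uS
          rw [← ENNReal.ofReal_mul (by positivity), ← ENNReal.ofReal_add (by positivity) (by positivity)]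
          apply ENNReal.ofReal_le_ofReal
          set x := ‖GG (pt s t)‖ with hx
          have h5 : 0 ≤ (r * s) * (x - r) ^ 2 := by positivity
          have h6 : (r * s) * (x - r) ^ 2 = r * s * x ^ 2 - 2 * (r * (r * s)) * x + r * (r * (r * s)) := by
            ring
          rw [h6, hrs] at h5
          linarith
      _ = ENNReal.ofReal (1 + r / 2) * ENNReal.ofReal (T - -T) +
            ENNReal.ofReal (r * s / 2) * ∫⁻ t in Icc (-T) T, uS GG s t := by
          rw [lintegral_add_left measurable_const, setLIntegral_const, Real.volume_Icc,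
            lintegral_const_mul' _ _ ENNReal.ofReal_ne_top]
      _ ≤ ENNReal.ofReal (1 + r / 2) * ENNReal.ofReal (T - -T) +
            ENNReal.ofReal (r * s / 2) * ENNReal.ofReal (C / s * (1 + T) ^ (1:ℝ)) := by gcongr
      _ ≤ _ := by
          rw [← ENNReal.ofReal_mul (by positivity), ← ENNReal.ofReal_mul (by positivity),
            ← ENNReal.ofReal_add (by
              have : 0 ≤ T - -T := by linarith
              positivity) (by positivity)]
          apply ENNReal.ofReal_le_ofReal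
          rw [Real.rpow_one]
          have e : r * s / 2 * (C / s * (1 + T)) = r * C / 2 * (1 + T) := by field_simp
          rw [e, hD]
          nlinarith [mul_nonneg hC.le hT, mul_nonneg (sub_nonneg.2 hr1) hT]
  calc ∫⁻ t in Icc (-T) T, ENNReal.ofReal (Real.exp (c * ∫ s in (0:ℝ)..a, vv s t))
      ≤ ∫⁻ t in Icc (-T) T, ENNReal.ofReal (1 / a) * ∫⁻ s in Ioc 0 a, ENNReal.ofReal (1 + ‖GG (pt s t)‖) :=
        lintegral_mono hjen
    _ = ENNReal.ofReal (1 / a) * ∫⁻ s in Ioc 0 a, ∫⁻ t in Icc (-T) T, ENNReal.ofReal (1 + ‖GG (pt s t)‖) := by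
        rw [lintegral_const_mul' _ _ ENNReal.ofReal_ne_top]
        congr 1
        rw [lintegral_lintegral_swap]
        exact hGm.aemeasurable
    _ ≤ ENNReal.ofReal (1 / a) * ∫⁻ s in Ioc 0 a, ENNReal.ofReal (D * (1 + T) * s ^ (-(1/2) : ℝ)) := by
        refine mul_le_mul' le_rfl ?_
        exact setLIntegral_mono' measurableSet_Ioc hline
    _ = _ := by
        rw [← ofReal_integral_eq_lintegral_ofReal (hi2.const_mul _) (by
          rw [Filter.EventuallyLE, ae_restrict_iff' measurableSet_Ioc]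
          refine Eventually.of_forall fun s hs => ?_
          have := Real.rpow_nonneg hs.1.le (-(1/2) : ℝ)
          simp only [Pi.zero_apply]
          positivity), integral_const_mul, ← ENNReal.ofReal_mul (by positivity), Real.rpow_one]
        congr 1
        ring

/-- the horizontal integral of `log⁺ |GG|` -/
def WW (t : ℝ) : ℝ := ∫ s in (0:ℝ)..(3/2), vv s t

lemma WW_nonneg (t : ℝ) : 0 ≤ WW t :=
  intervalIntegral.integral_nonneg (by norm_num) fun s _ => vv_nonneg s t

lemma WW_meas : Measurable WW := by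
  unfold WW
  simp only [intervalIntegral.integral_of_le (show (0:ℝ) ≤ 3 / 2 by norm_num)]
  have h2 : StronglyMeasurable (Function.uncurry fun (t s : ℝ) => vv s t) :=
    (vv_meas_comp measurable_snd measurable_fst).stronglyMeasurable
  exact (h2.integral_prod_right (ν := volume.restrict (Ioc 0 (3 / 2)))).measurable

/-- (U) -/
theorem exp_moment {k : ℕ} (hk : 1 ≤ k) (hyp : HypK k) {c : ℝ} (hc : 0 < c) (hc8 : c < 8 * k) :
    ∃ A : ℝ, 0 ≤ A ∧ PB 0 (fun t => ENNReal.ofReal (Real.exp (c * WW t))) A 1 := by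
  have hk0 : (1:ℝ) ≤ k := by exact_mod_cast hk
  set ρ : ℝ := 8 * k / c with hρ
  have hρ1 : 1 < ρ := by rw [hρ, lt_div_iff₀ hc]; linarith
  set η : ℝ := min 1 ((ρ - 1) / 7) with hη
  have hη0 : 0 < η := lt_min one_pos (by linarith)
  have hη1 : η ≤ 1 := min_le_left _ _
  have hη2 : η ≤ (ρ - 1) / 7 := min_le_right _ _
  have hcube : (1 + η) ^ 3 ≤ ρ := by
    have h1 : η ^ 2 ≤ η := by nlinarith
    have h2 : η ^ 3 ≤ η := by
      have : η ^ 3 = η ^ 2 * η := by ring
      rw [this]; nlinarith [sq_nonneg η]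
    nlinarith
  set H : ℝ := (1 + η) / 2 with hH
  obtain ⟨n, hn⟩ := exists_pow_lt_of_lt_one hη0 (by norm_num : (1/2 : ℝ) < 1)
  have hn' : 1 / 2 ^ n ≤ η := by
    rw [one_div, ← inv_pow, ← one_div]; exact hn.le
  set p : ℝ := 1 + η with hp
  set q : ℝ := (1 + η) / η with hq
  have hq0 : 0 < q := by positivity
  obtain ⟨a₀, ha0, ha1, hnear⟩ := near_part (c := c * q) (by positivity)
  obtain ⟨A1, hA1, h1⟩ := hnear a₀ ha0 le_rfl
  obtain ⟨A2, hA2, h2⟩ := far_part hk hyp (a := a₀) (H := H) (c := c * p) (n := n) ha0 (by linarith)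
    (by rw [hH]; linarith) (by rw [hH]; linarith) (by positivity) (by
      have h3 : 1 + 1 / 2 ^ n ≤ 1 + η := by linarith
      calc c * p * (H * (1 + 1 / 2 ^ n) / 2) ≤ c * p * (H * (1 + η) / 2) := by gcongr
        _ = c * (1 + η) ^ 3 / 4 := by rw [hp, hH]; ring
        _ ≤ c * ρ / 4 := by gcongr
        _ = 2 * k := by rw [hρ]; field_simp; ring)
  obtain ⟨C, hC, hright⟩ := vv_right (η := η / 2) (by positivity)
  refine ⟨Real.exp (c * (2 * C)) * (A1 + A2), by positivity, ?_⟩
  have hm1 : Measurable (fun t => ENNReal.ofReal (Real.exp (c * q * ∫ s in (0:ℝ)..a₀, vv s t))) := by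
    simp only [intervalIntegral.integral_of_le ha0.le]
    have h2 : StronglyMeasurable (Function.uncurry fun (t s : ℝ) => vv s t) :=
      (vv_meas_comp measurable_snd measurable_fst).stronglyMeasurable
    have h3 := (h2.integral_prod_right (ν := volume.restrict (Ioc 0 a₀))).measurable
    exact (Real.measurable_exp.comp (h3.const_mul (c * q))).ennreal_ofReal
  have h3 := (h1.add le_rfl hA1 hA2 h2 hm1).const_mul (c := Real.exp (c * (2 * C))) (Real.exp_pos _).le
  refine PB.mono h3 fun t => ?_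
  rw [← ENNReal.ofReal_add (Real.exp_pos _).le (Real.exp_pos _).le, ← ENNReal.ofReal_mul (Real.exp_pos _).le]
  apply ENNReal.ofReal_le_ofReal
  have hHa : a₀ + H ≤ 3 / 2 := by rw [hH]; linarith
  have i1 := vv_int (a := 0) (b := a₀) (t := t) (by norm_num) ha0.le (by linarith)
  have i2 := vv_int (a := a₀) (b := a₀ + H) (t := t) (by linarith) (by rw [hH]; linarith) (by linarith)
  have i3 := vv_int (a := a₀ + H) (b := 3 / 2) (t := t) (by rw [hH]; linarith) hHa (by norm_num)
  have hW : WW t = (∫ s in (0:ℝ)..a₀, vv s t) + (∫ s in a₀..(a₀ + H), vv s t) +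
      ∫ s in (a₀ + H)..(3 / 2), vv s t := by
    unfold WW
    rw [intervalIntegral.integral_add_adjacent_intervals i1 i2,
      intervalIntegral.integral_add_adjacent_intervals (i1.trans i2) i3]
  have h4 : ∫ s in (a₀ + H)..(3 / 2), vv s t ≤ 2 * C := by
    have := intervalIntegral.integral_mono_on hHa i3 (intervalIntegrable_const (c := C))
      (fun s hs => hright s t (by have := hs.1; rw [hH] at this; linarith))
    rw [intervalIntegral.integral_const, smul_eq_mul] at this
    have h5 : (3 / 2 - (a₀ + H)) * C ≤ 2 * C := by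
      apply mul_le_mul_of_nonneg_right _ hC
      rw [hH]; linarith
    linarith
  set x := ∫ s in (0:ℝ)..a₀, vv s t with hx
  set y := ∫ s in a₀..(a₀ + H), vv s t with hy
  have hxy : c * (x + y) ≤ max (c * q * x) (c * p * y) := by
    have h6 : 1 / q + 1 / p = 1 := by rw [hp, hq]; field_simp; ring
    have h7 : c * (x + y) = 1 / q * (c * q * x) + 1 / p * (c * p * y) := by
      have : 0 < p := by positivity
      field_simp
    rw [h7]
    have h8 : 0 < 1 / q := by positivity
    have h9 : 0 < 1 / p := by positivity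
    calc _ ≤ 1 / q * max (c * q * x) (c * p * y) + 1 / p * max (c * q * x) (c * p * y) := by
          gcongr
          · exact le_max_left _ _
          · exact le_max_right _ _
      _ = _ := by rw [← add_mul, h6, one_mul]
  calc Real.exp (c * WW t) ≤ Real.exp (c * (2 * C) + max (c * q * x) (c * p * y)) := by
        apply Real.exp_le_exp.2
        rw [hW]
        nlinarith
    _ = Real.exp (c * (2 * C)) * Real.exp (max (c * q * x) (c * p * y)) := Real.exp_add _ _
    _ ≤ _ := by
        gcongr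
        rcases le_total (c * q * x) (c * p * y) with h | h
        · rw [max_eq_right h]
          have := Real.exp_pos (c * q * x)
          linarith
        · rw [max_eq_left h]
          have := Real.exp_pos (c * p * y)
          linarith

end

end Pool.Agent.Y757.EM
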