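import Pool.Agent.Y757.EM.Xi
import Pool.Agent.Y757.EM.Int
import Pool.Agent.Helper240.ZU.C3

set_option autoImplicit false

/-! Zeta times the Euler polynomial is close to one in mean. -/

namespace Pool.Agent.Y757.EM

open MeasureTheory Set Filter Topology Pool.Agent.Y757.LS Real ZU
open scoped ENNReal

noncomputable section

/-- the Euler polynomial -/
def EN (N : ℕ) (z : ℂ) : ℂ := EM N (fun _ => 1) z

/-- the analytic version of zeta times the Euler polynomial -/
def Gn (N : ℕ) (z : ℂ) : ℂ := GG z * EN N z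

lemma EN_norm (N : ℕ) {s : ℝ} (hs : 0 ≤ s) (t : ℝ) :
    ‖EN N (pt s t)‖ = Real.exp (-∑ p ∈ pr N, psi p s t) := by
  unfold EN EM
  rw [norm_prod, ← Finset.sum_neg_distrib, Real.exp_sum]
  refine Finset.prod_congr rfl fun p hp => ?_
  rw [one_mul]
  unfold psi
  rw [neg_neg, Real.exp_log]
  rw [norm_pos_iff, sub_ne_zero]
  intro h
  have h1 := z_norm (pr_two hp) s t
  rw [← h, norm_one] at h1
  have h2 := rp_le' (pr_two hp) hs
  linarith

lemma EN_le (N : ℕ) {z : ℂ} (hz : 0 < z.re) : ‖EN N z‖ ≤ 2 ^ (pr N).card :=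
  ZU.J_c3.rough_mv_EM_le N z hz

lemma EN_conj (N : ℕ) (s t : ℝ) : ‖EN N (pt s (-t))‖ = ‖EN N (pt s t)‖ := by
  have e1 : pt s (-t) = (starRingEnd ℂ) (pt s t) := by
    unfold pt
    simp [Complex.conj_ofReal, map_ofNat]
  have e2 : EN N ((starRingEnd ℂ) (pt s t)) = (starRingEnd ℂ) (EN N (pt s t)) := by
    unfold EN EM
    rw [map_prod]
    refine Finset.prod_congr rfl fun n hn => ?_
    rw [map_sub, map_one, one_mul, one_mul, ← map_neg]
    rw [Complex.cpow_conj _ _ (by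
      rw [Complex.natCast_arg]
      exact Real.pi_pos.ne), Complex.conj_natCast]
  rw [e1, e2, RCLike.norm_conj]

lemma Gn_conj (N : ℕ) (s t : ℝ) : ‖Gn N (pt s (-t))‖ = ‖Gn N (pt s t)‖ := by
  unfold Gn
  rw [norm_mul, norm_mul, GG_conj, EN_conj]

lemma EN_diff (N : ℕ) : Differentiable ℂ (EN N) := by
  unfold EN EM
  refine Differentiable.fun_finsetProd fun p hp => ?_
  refine (differentiable_const _).sub ((differentiable_const _).mul ?_)
  exact Differentiable.const_cpow (by fun_prop) (Or.inl (by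
    have := (pr_pr hp).ne_zero
    exact_mod_cast this))

lemma Gn_meas (N : ℕ) : Measurable (Gn N) := GG_measurable.mul (EN_diff N).continuous.measurable

lemma Gn_strip (N : ℕ) : StripF (Gn N) 0 5 := by
  refine ⟨Gn_meas N, fun z h0 _ => (GG_analyticAt (by linarith)).mul ((EN_diff N).analyticAt z), ?_⟩
  obtain ⟨C, hC, h⟩ := vv_upper
  set B : ℝ := 2 ^ (pr N).card with hB
  have hB1 : 1 ≤ B := one_le_pow₀ (by norm_num)
  have hlB := Real.log_nonneg hB1
  refine ⟨C + 4 + Real.log B, by positivity, fun z h0 h1 => ?_⟩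
  have h2 := h (z.re - 1 / 2) z.im (by linarith) (by linarith)
  have e : pt (z.re - 1 / 2) z.im = z := by
    apply Complex.ext
    · rw [pt_re]; ring
    · rw [pt_im]
  unfold vv at h2
  rw [e] at h2
  have h3 := log_one_add_le |z.im| (abs_nonneg _)
  have h4 := abs_nonneg z.im
  have h5 : log⁺ ‖EN N z‖ ≤ Real.log B := by
    rw [← Real.posLog_eq_log (by rwa [abs_of_nonneg (by linarith)] : 1 ≤ |B|)]
    exact Real.posLog_le_posLog (norm_nonneg _) (EN_le N (by linarith))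
  unfold Gn
  rw [norm_mul]
  refine Real.posLog_mul.trans ?_
  nlinarith [mul_nonneg hC h4, mul_nonneg hlB h4]

/-- right of `1` -/
lemma Gn_far (N : ℕ) {s : ℝ} (hs : 1 ≤ s) (t : ℝ) : log⁺ ‖Gn N (pt s t)‖ ≤ 4 * tail (3/4) N := by
  have hre := pt_re s t
  have hne : pt s t ≠ 1 := by
    intro h
    rw [h] at hre
    simp at hre
    linarith
  have hz : riemannZeta (pt s t) ≠ 0 := riemannZeta_ne_zero_of_one_lt_re (by rw [pt_re]; linarith)
  have ht := tail_nonneg (3/4) N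
  have h1 : ‖Gn N (pt s t)‖ ≤ Real.exp (4 * tail (3/4) N) := by
    unfold Gn
    rw [GG_of_ne hne, norm_mul, norm_mul, EN_norm N (by linarith)]
    have h2 : ‖riemannZeta (pt s t)‖ = Real.exp (lz s t) := by
      unfold lz; rw [Real.exp_log (norm_pos_iff.2 hz)]
    have h3 := ratio_le (s := pt s t) (by rw [hre]; linarith)
    rw [h2, mul_assoc, ← Real.exp_add, ← sub_eq_add_neg]
    have h4 : Real.exp (lz s t - ∑ p ∈ pr N, psi p s t) ≤ Real.exp (4 * tail (3/4) N) := by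
      apply Real.exp_le_exp.2
      have h5 := (le_abs_self _).trans (Xi_far N hs t)
      unfold Xi at h5
      have h6 : Real.exp (-(Real.log 2) * (s - 1)) ≤ 1 := by
        rw [Real.exp_le_one_iff]
        have := Real.log_pos (by norm_num : (1:ℝ) < 2)
        nlinarith
      have h7 : 4 * tail (3/4) N * Real.exp (-(Real.log 2) * (s - 1)) ≤ 4 * tail (3/4) N * 1 := by gcongr
      linarith
    calc _ ≤ 1 * Real.exp (4 * tail (3/4) N) := by gcongr
      _ = _ := one_mul _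
  calc log⁺ ‖Gn N (pt s t)‖ ≤ log⁺ (Real.exp (4 * tail (3/4) N)) :=
        Real.posLog_le_posLog (norm_nonneg _) h1
    _ = 4 * tail (3/4) N := by
        rw [Real.posLog_eq_log, Real.log_exp]
        rw [abs_of_pos (Real.exp_pos _)]
        exact Real.one_le_exp (by positivity)

lemma Xi_le (N : ℕ) {s t : ℝ} (hs : 0 ≤ s) (ht : 1 ≤ t) (hz : riemannZeta (pt s t) ≠ 0) :
    Xi N s t ≤ log⁺ ‖Gn N (pt s t)‖ + 4 / t := by
  have hne := pt_ne_one (s := s) (t := t) (by rw [abs_of_pos (by linarith)]; exact ht)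
  have h2 := ratio_ge (s := pt s t) (by rw [pt_re]; linarith) (η := 1) (by norm_num) (by
    refine ht.trans ((le_of_eq ?_).trans (Complex.abs_im_le_norm _))
    rw [Complex.sub_im, pt_im, Complex.one_im, sub_zero, abs_of_pos (by linarith)])
  have h3 : 0 < ‖(pt s t - 1) / (pt s t + 3)‖ := lt_of_lt_of_le (by norm_num) h2
  have h4 := log_ratio (s := s) (t := t) (by linarith) ht
  have h5 : Real.log ‖Gn N (pt s t)‖ = Real.log ‖(pt s t - 1) / (pt s t + 3)‖ + Xi N s t := by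
    unfold Gn Xi lz
    rw [GG_of_ne hne, norm_mul, norm_mul, EN_norm N hs, Real.log_mul (by
      have := norm_pos_iff.2 hz
      positivity) (Real.exp_pos _).ne', Real.log_mul h3.ne' (norm_ne_zero_iff.2 hz), Real.log_exp]
    ring
  have h6 : Real.log ‖Gn N (pt s t)‖ ≤ log⁺ ‖Gn N (pt s t)‖ := by
    rw [posLog_apply]; exact le_max_right _ _
  have h7 := (abs_le.1 h4).1
  linarith

lemma tail_le {N : ℕ} (hN : 1 ≤ N) {s : ℝ} (hs : 0 < s) : tail (1/2 + s) N ≤ (N : ℝ) ^ (-s) / s := by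
  obtain ⟨h1, h2⟩ := tsum_le hs
  have hN0 : (0:ℝ) < N := by exact_mod_cast hN
  unfold tail
  have hle : ∀ n : ℕ, (if N < n then (n : ℝ) ^ (-(2 * (1/2 + s))) else 0) ≤
      (N : ℝ) ^ (-s) * (if n ≤ 1 then 0 else (n : ℝ) ^ (-(1 + s))) := by
    intro n
    split_ifs with h3 h4 h4
    · omega
    · have hn0 : (0:ℝ) < n := by exact_mod_cast (by omega : 0 < n)
      have hNn : (N:ℝ) ≤ n := by exact_mod_cast h3.le
      have e : (n : ℝ) ^ (-(2 * (1/2 + s))) = (n : ℝ) ^ (-s) * (n : ℝ) ^ (-(1 + s)) := by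
        rw [← Real.rpow_add hn0]; congr 1; ring
      rw [e]
      refine mul_le_mul_of_nonneg_right ?_ (by positivity)
      exact Real.rpow_le_rpow_of_nonpos hN0 hNn (by linarith)
    · rw [mul_zero]
    · positivity
  have hs1 : Summable (fun n : ℕ => (if N < n then (n : ℝ) ^ (-(2 * (1/2 + s))) else 0)) := by
    refine Summable.of_nonneg_of_le (fun n => ?_) hle (h1.mul_left _)
    split_ifs <;> positivity
  calc _ ≤ ∑' n : ℕ, (N : ℝ) ^ (-s) * (if n ≤ 1 then 0 else (n : ℝ) ^ (-(1 + s))) :=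
        hs1.tsum_le_tsum hle (h1.mul_left _)
    _ = (N : ℝ) ^ (-s) * ∑' n : ℕ, (if n ≤ 1 then 0 else (n : ℝ) ^ (-(1 + s))) := tsum_mul_left
    _ ≤ (N : ℝ) ^ (-s) * (1 / s) := by gcongr
    _ = _ := by ring

/-- the bound on a line -/
lemma base_av {N : ℕ} (hN : 1 ≤ N) {s : ℝ} (hs : 0 < s) (hs1 : s ≤ 2 / 5) {δ : ℝ} (hδ : 0 < δ) :
    ∃ T₀ : ℝ, 1 ≤ T₀ ∧ ∀ T : ℝ, T₀ ≤ T → ∫⁻ t in Icc (-T) T, uL (Gn N) s t ≤
      ENNReal.ofReal (2 * (2 * √((N : ℝ) ^ (-s) / s) + δ) * T) := by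
  obtain ⟨T0, hT0, h⟩ := ZU.rough_mv (1/2 + s) (1/2 + s) (by linarith) le_rfl (by linarith) 1 one_pos N {1}
    (by
      intro n hn
      rw [Finset.mem_singleton] at hn
      subst hn
      refine ⟨le_rfl, fun p hp h => ?_⟩
      have := Nat.dvd_one.1 h
      exact absurd this hp.ne_one) (fun _ => 1) (by simp) (δ ^ 2) (by positivity)
  refine ⟨max 1 T0, le_max_left _ _, fun T hT => ?_⟩
  have hT1 : 1 ≤ T := (le_max_left _ _).trans hT
  have hmem : ((1/2 + s : ℝ) : ℂ) ∈ rect (1/2 + s) (1/2 + s) 1 := by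
    refine ⟨?_, ?_, ?_⟩
    · rw [Complex.ofReal_re]
    · rw [Complex.ofReal_re]
    · rw [Complex.ofReal_im, abs_zero]; norm_num
  have h1 := h T ((le_max_right _ _).trans hT) _ hmem
  have hDir : ∀ t : ℝ, Dir {1} (fun _ => 1) t = 1 := by
    intro t; unfold Dir; simp
  have hpt : ∀ t : ℝ, ((1/2 + s : ℝ) : ℂ) + (t : ℂ) * Complex.I = pt s t := by
    intro t; unfold pt; push_cast; ring
  simp only [hDir, hpt, norm_one, one_pow, one_mul, Finset.card_singleton, Nat.cast_one] at h1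
  set x : ℝ → ℝ := fun t => ‖riemannZeta (pt s t) * EN N (pt s t) - 1‖ with hx
  have hxc : Continuous x := by
    have c1 := zeta_pt_cont s (by linarith)
    have c2 : Continuous (fun t : ℝ => EN N (pt s t)) :=
      (EN_diff N).continuous.comp (by unfold pt; fun_prop)
    exact ((c1.mul c2).sub continuous_const).norm
  have h1' : ∫ t in (0:ℝ)..T, x t ^ 2 ≤ T * (4 * tail (1/2 + s) N + δ ^ 2) := h1
  have htl := tail_nonneg (1/2 + s) N
  set η : ℝ := √(4 * tail (1/2 + s) N + δ ^ 2) with hη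
  have hη0 : 0 < η := Real.sqrt_pos.2 (by positivity)
  have hη2 : η ^ 2 = 4 * tail (1/2 + s) N + δ ^ 2 := Real.sq_sqrt (by positivity)
  have hηle : η ≤ 2 * √((N : ℝ) ^ (-s) / s) + δ := by
    have hb : 0 ≤ (N : ℝ) ^ (-s) / s := by positivity
    have hsq := Real.sqrt_nonneg ((N : ℝ) ^ (-s) / s)
    have hss := Real.sq_sqrt hb
    refine Real.sqrt_le_iff.2 ⟨by positivity, ?_⟩
    have := tail_le hN hs
    nlinarith [mul_nonneg hsq hδ.le]
  have h2 : ∫ t in (0:ℝ)..T, x t ≤ η * T := by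
    have h3 : ∀ t ∈ Icc (0:ℝ) T, x t ≤ η / 2 + 1 / (2 * η) * x t ^ 2 := by
      intro t _
      have h4 : 0 ≤ (x t - η) ^ 2 := sq_nonneg _
      have h5 : η / 2 + 1 / (2 * η) * x t ^ 2 - x t = (x t - η) ^ 2 / (2 * η) := by field_simp; ring
      have h6 : 0 ≤ (x t - η) ^ 2 / (2 * η) := by positivity
      linarith
    have hx2 : Continuous (fun t => x t ^ 2) := hxc.pow 2
    have i0 : IntervalIntegrable x volume 0 T := hxc.intervalIntegrable 0 T
    have i1 : IntervalIntegrable (fun _ : ℝ => η / 2) volume 0 T := intervalIntegrable_const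
    have i2 : IntervalIntegrable (fun t => 1 / (2 * η) * x t ^ 2) volume 0 T :=
      (hx2.intervalIntegrable 0 T).const_mul _
    have h7 := intervalIntegral.integral_mono_on (by linarith : (0:ℝ) ≤ T) i0 (i1.add i2) h3
    rw [intervalIntegral.integral_add i1 i2,
      intervalIntegral.integral_const, intervalIntegral.integral_const_mul, smul_eq_mul, sub_zero] at h7
    have h8 : 1 / (2 * η) * ∫ t in (0:ℝ)..T, x t ^ 2 ≤ 1 / (2 * η) * (T * η ^ 2) := by
      rw [hη2]; gcongr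
    have h9 : 1 / (2 * η) * (T * η ^ 2) = T * η / 2 := by field_simp
    linarith
  have hsym : ∀ t, uL (Gn N) s (-t) = uL (Gn N) s t := fun t => by unfold uL; rw [Gn_conj]
  refine (sym_int hsym (uL_meas (Gn_meas N) s) T).trans ?_
  have h10 : ∫⁻ t in Ioc 0 T, uL (Gn N) s t ≤ ENNReal.ofReal (η * T) := by
    calc _ ≤ ∫⁻ t in Ioc 0 T, ENNReal.ofReal (x t) := by
          refine setLIntegral_mono' measurableSet_Ioc fun t ht => ?_
          unfold uL
          apply ENNReal.ofReal_le_ofReal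
          have hne : pt s t ≠ 1 := by
            intro h
            have := congrArg Complex.im h
            rw [pt_im, Complex.one_im] at this
            exact ht.1.ne' this
          have h11 : ‖Gn N (pt s t)‖ ≤ 1 + x t := by
            have h12 : ‖Gn N (pt s t)‖ ≤ ‖riemannZeta (pt s t) * EN N (pt s t)‖ := by
              unfold Gn
              rw [norm_mul, norm_mul]
              exact mul_le_mul_of_nonneg_right (GG_le_zeta (by linarith) ht.1.ne') (norm_nonneg _)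
            have h13 := norm_add_le (1:ℂ) (riemannZeta (pt s t) * EN N (pt s t) - 1)
            rw [add_sub_cancel, norm_one] at h13
            exact h12.trans h13
          have hx0 : 0 ≤ x t := norm_nonneg _
          calc log⁺ ‖Gn N (pt s t)‖ ≤ log⁺ (1 + x t) := Real.posLog_le_posLog (norm_nonneg _) h11
            _ = Real.log (1 + x t) := Real.posLog_eq_log (by rw [abs_of_nonneg (by linarith)]; linarith)
            _ ≤ x t := log_one_add_le _ hx0
      _ = ENNReal.ofReal (∫ t in (0:ℝ)..T, x t) := by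
          rw [intervalIntegral.integral_of_le (by linarith),
            ofReal_integral_eq_lintegral_ofReal hxc.integrableOn_Ioc
              (Eventually.of_forall fun t => norm_nonneg _)]
      _ ≤ _ := ENNReal.ofReal_le_ofReal h2
  have e2 : (2 : ℝ≥0∞) = ENNReal.ofReal 2 := by simp
  calc _ ≤ 2 * ENNReal.ofReal (η * T) := by gcongr
    _ = ENNReal.ofReal (2 * (η * T)) := by rw [e2, ← ENNReal.ofReal_mul (by norm_num)]
    _ ≤ _ := by
        apply ENNReal.ofReal_le_ofReal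
        have : η * T ≤ (2 * √((N : ℝ) ^ (-s) / s) + δ) * T := by gcongr
        linarith

lemma first_moment : ∃ D : ℝ, 0 ≤ D ∧ ∀ s T : ℝ, 0 < s → s ≤ 2 / 5 → 0 ≤ T →
    ∫⁻ t in Icc (-T) T, ENNReal.ofReal ‖GG (pt s t)‖ ≤ ENNReal.ofReal (D * (1 + T) * s ^ (-(1/2) : ℝ)) := by
  obtain ⟨C, hC, h2⟩ := second
  refine ⟨2 + (2 + C) / 2, by positivity, fun s T hs0 hs2 hT => ?_⟩
  have h4 := h2 s hs0 hs2 T hT
  have hs1 : s ≤ 1 := by linarith
  set r : ℝ := s ^ (-(1/2) : ℝ) with hr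
  have hr0 : 0 < r := by positivity
  have hr1 : 1 ≤ r := Real.one_le_rpow_of_pos_of_le_one_of_nonpos hs0 hs1 (by norm_num)
  have hrs : r * (r * s) = 1 := by
    have : r * r = s⁻¹ := by
      rw [hr, ← Real.rpow_add hs0, ← Real.rpow_neg_one]; norm_num
    rw [← mul_assoc, this, inv_mul_cancel₀ hs0.ne']
  calc ∫⁻ t in Icc (-T) T, ENNReal.ofReal ‖GG (pt s t)‖
      ≤ ∫⁻ t in Icc (-T) T, (ENNReal.ofReal (r / 2) + ENNReal.ofReal (r * s / 2) * uS GG s t) := by
        refine lintegral_mono fun t => ?_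
        unfold uS
        rw [← ENNReal.ofReal_mul (by positivity), ← ENNReal.ofReal_add (by positivity) (by positivity)]
        apply ENNReal.ofReal_le_ofReal
        set x := ‖GG (pt s t)‖ with hx
        have h5 : 0 ≤ (r * s) * (x - r) ^ 2 := by positivity
        have h6 : (r * s) * (x - r) ^ 2 = r * s * x ^ 2 - 2 * (r * (r * s)) * x + r * (r * (r * s)) := by
          ring
        rw [h6, hrs] at h5
        linarith
    _ = ENNReal.ofReal (r / 2) * ENNReal.ofReal (T - -T) +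
          ENNReal.ofReal (r * s / 2) * ∫⁻ t in Icc (-T) T, uS GG s t := by
        rw [lintegral_add_left measurable_const, setLIntegral_const, Real.volume_Icc,
          lintegral_const_mul' _ _ ENNReal.ofReal_ne_top]
    _ ≤ ENNReal.ofReal (r / 2) * ENNReal.ofReal (T - -T) +
          ENNReal.ofReal (r * s / 2) * ENNReal.ofReal (C / s * (1 + T) ^ (1:ℝ)) := by gcongr
    _ ≤ _ := by
        rw [← ENNReal.ofReal_mul (by positivity), ← ENNReal.ofReal_mul (by positivity),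
          ← ENNReal.ofReal_add (by
            have : 0 ≤ T - -T := by linarith
            positivity) (by positivity)]
        apply ENNReal.ofReal_le_ofReal
        rw [Real.rpow_one]
        have e : r * s / 2 * (C / s * (1 + T)) = r * C / 2 * (1 + T) := by field_simp
        rw [e]
        nlinarith [mul_nonneg hC.le hT, mul_nonneg hr0.le hT, mul_nonneg (sub_nonneg.2 hr1) hT]

/-- domination -/
lemma dom (N : ℕ) : ∃ D : ℝ, 0 ≤ D ∧ ∀ s T : ℝ, 0 < s → s ≤ 2 / 5 → 1 ≤ T →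
    ∫⁻ t in Icc (-T) T, uL (Gn N) s t ≤ ENNReal.ofReal (D * s ^ (-(1/2) : ℝ) * T) := by
  obtain ⟨D, hD, h⟩ := first_moment
  set B : ℝ := 2 ^ (pr N).card with hB
  have hB1 : 1 ≤ B := one_le_pow₀ (by norm_num)
  refine ⟨B * (2 * D), by positivity, fun s T hs hs1 hT => ?_⟩
  calc ∫⁻ t in Icc (-T) T, uL (Gn N) s t ≤ ∫⁻ t in Icc (-T) T, ENNReal.ofReal B * ENNReal.ofReal ‖GG (pt s t)‖ := by
        refine lintegral_mono fun t => ?_
        unfold uL
        rw [← ENNReal.ofReal_mul (by positivity)]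
        apply ENNReal.ofReal_le_ofReal
        have h1 : ‖Gn N (pt s t)‖ ≤ B * ‖GG (pt s t)‖ := by
          unfold Gn
          rw [norm_mul, mul_comm]
          exact mul_le_mul_of_nonneg_right (EN_le N (by rw [pt_re]; linarith)) (norm_nonneg _)
        refine le_trans ?_ h1
        have hx := norm_nonneg (Gn N (pt s t))
        rw [posLog_apply]
        refine max_le hx ?_
        rcases hx.eq_or_lt with h2 | h2
        · rw [← h2, Real.log_zero]
        · have := Real.log_le_sub_one_of_pos h2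
          linarith
    _ = ENNReal.ofReal B * ∫⁻ t in Icc (-T) T, ENNReal.ofReal ‖GG (pt s t)‖ :=
        lintegral_const_mul' _ _ ENNReal.ofReal_ne_top
    _ ≤ ENNReal.ofReal B * ENNReal.ofReal (D * (1 + T) * s ^ (-(1/2) : ℝ)) := by
        gcongr
        exact h s T hs hs1 (by linarith)
    _ ≤ _ := by
        rw [← ENNReal.ofReal_mul (by positivity)]
        apply ENNReal.ofReal_le_ofReal
        have h3 : 0 ≤ s ^ (-(1/2) : ℝ) := by positivity
        have h4 : D * (1 + T) ≤ D * (2 * T) := by gcongr; linarith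
        calc B * (D * (1 + T) * s ^ (-(1/2) : ℝ)) ≤ B * (D * (2 * T) * s ^ (-(1/2) : ℝ)) := by gcongr
          _ = _ := by ring

lemma uL_joint (N : ℕ) : Measurable (fun q : ℝ × ℝ => uL (Gn N) q.1 q.2) := by
  unfold uL
  exact (Real.continuous_posLog.measurable.comp (((Gn_meas N).comp pt_measurable).norm)).ennreal_ofReal

lemma regA {ε : ℝ} (hε : 0 < ε) : ∃ N₀ : ℕ, 1 ≤ N₀ ∧ ∀ N : ℕ, N₀ ≤ N → ∃ n₀ : ℕ, ∀ n : ℕ, n₀ ≤ n →
    ∫⁻ s in Ioc (0:ℝ) (2 / 5), ∫⁻ t in Icc (-(n:ℝ)) n, uL (Gn N) s t ≤ ENNReal.ofReal (ε * n) := by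
  have hi0 : IntegrableOn (fun s : ℝ => s ^ (-(1/2) : ℝ)) (Ioc 0 (2/5)) :=
    (intervalIntegrable_iff_integrableOn_Ioc_of_le (by norm_num)).1
      (intervalIntegral.intervalIntegrable_rpow' (by norm_num))
  have hfin : ∀ c : ℝ, ∫⁻ s in Ioc (0:ℝ) (2/5), ENNReal.ofReal (c * s ^ (-(1/2) : ℝ)) ≠ ⊤ := fun c =>
    (hi0.const_mul c).lintegral_lt_top.ne
  -- the limit in N
  have hlim : Tendsto (fun N : ℕ => ∫⁻ s in Ioc (0:ℝ) (2/5), ENNReal.ofReal (4 * √((N : ℝ) ^ (-s) / s)))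
      atTop (𝓝 (∫⁻ _ in Ioc (0:ℝ) (2/5), 0)) := by
    refine tendsto_lintegral_filter_of_dominated_convergence (fun s => ENNReal.ofReal (4 * s ^ (-(1/2) : ℝ)))
      ?_ ?_ (hfin 4) ?_
    · refine Eventually.of_forall fun N => ?_
      have : Measurable (fun s : ℝ => (N : ℝ) ^ (-s) / s) :=
        (measurable_const.pow measurable_neg).div measurable_id
      exact (this.sqrt.const_mul 4).ennreal_ofReal
    · filter_upwards [eventually_ge_atTop 1] with N hN
      rw [ae_restrict_iff' measurableSet_Ioc]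
      refine Eventually.of_forall fun s hs => ENNReal.ofReal_le_ofReal ?_
      have hN1 : (1:ℝ) ≤ N := by exact_mod_cast hN
      have h1 : (N : ℝ) ^ (-s) ≤ 1 := Real.rpow_le_one_of_one_le_of_nonpos hN1 (by linarith [hs.1])
      have hs0 := hs.1
      have h2 : √((N : ℝ) ^ (-s) / s) ≤ s ^ (-(1/2) : ℝ) := by
        rw [Real.sqrt_le_left (by positivity), ← Real.rpow_natCast, ← Real.rpow_mul hs0.le]
        rw [show (-(1/2) : ℝ) * ((2:ℕ):ℝ) = -1 by push_cast; ring, Real.rpow_neg_one, div_le_iff₀ hs0,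
          inv_mul_cancel₀ hs0.ne']
        exact h1
      gcongr
    · rw [ae_restrict_iff' measurableSet_Ioc]
      refine Eventually.of_forall fun s hs => ?_
      have hs0 := hs.1
      have h1 : Tendsto (fun N : ℕ => (N : ℝ) ^ (-s)) atTop (𝓝 0) :=
        (tendsto_rpow_neg_atTop hs0).comp tendsto_natCast_atTop_atTop
      have h2 : Tendsto (fun N : ℕ => 4 * √((N : ℝ) ^ (-s) / s)) atTop (𝓝 (4 * √(0 / s))) :=
        ((Real.continuous_sqrt.tendsto _).comp (h1.div_const s)).const_mul 4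
      rw [zero_div, Real.sqrt_zero, mul_zero] at h2
      have h3 := (ENNReal.continuous_ofReal.tendsto 0).comp h2
      rw [ENNReal.ofReal_zero] at h3
      exact h3
  rw [lintegral_zero] at hlim
  have hε2 : (0 : ℝ≥0∞) < ENNReal.ofReal ε := ENNReal.ofReal_pos.2 hε
  have h1 := hlim.eventually (gt_mem_nhds hε2)
  rw [eventually_atTop] at h1
  obtain ⟨N₀, hN₀⟩ := h1
  refine ⟨max 1 N₀, le_max_left _ _, fun N hN => ?_⟩
  have hN1 : 1 ≤ N := (le_max_left _ _).trans hN
  have h2 := hN₀ N ((le_max_right _ _).trans hN)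
  obtain ⟨D, hD, hdom⟩ := dom N
  set f : ℕ → ℝ → ℝ≥0∞ := fun n s => ENNReal.ofReal (1 / n) * ∫⁻ t in Icc (-(n:ℝ)) n, uL (Gn N) s t with hf
  have hfm : ∀ n, Measurable (f n) := fun n => by
    have h3 : Measurable (fun s : ℝ => ∫⁻ t in Icc (-(n:ℝ)) n, uL (Gn N) s t) :=
      (uL_joint N).lintegral_prod_right'
    exact h3.const_mul _
  have hbd : ∀ n, f n ≤ᵐ[volume.restrict (Ioc 0 (2/5))] fun s => ENNReal.ofReal (D * s ^ (-(1/2) : ℝ)) := by
    intro n
    rw [Filter.EventuallyLE, ae_restrict_iff' measurableSet_Ioc]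
    refine Eventually.of_forall fun s hs => ?_
    simp only [hf]
    rcases Nat.eq_zero_or_pos n with h0 | h0
    · subst h0
      simp
    · have hn1 : (1:ℝ) ≤ n := by exact_mod_cast h0
      have hn0 : (0:ℝ) < n := by linarith
      have hs0 := hs.1
      calc _ ≤ ENNReal.ofReal (1 / n) * ENNReal.ofReal (D * s ^ (-(1/2) : ℝ) * n) := by
            gcongr
            exact hdom s n hs.1 hs.2 hn1
        _ = _ := by
            rw [← ENNReal.ofReal_mul (by positivity)]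
            congr 1
            field_simp
  have hls := limsup_lintegral_le (μ := volume.restrict (Ioc (0:ℝ) (2/5))) _ hfm hbd (hfin D)
  have hpt : ∀ s ∈ Ioc (0:ℝ) (2/5), limsup (fun n => f n s) atTop ≤
      ENNReal.ofReal (4 * √((N : ℝ) ^ (-s) / s)) := by
    intro s hs
    refine ENNReal.le_of_forall_pos_le_add fun δ hδ _ => ?_
    have hδ' : (0:ℝ) < δ := by exact_mod_cast hδ
    obtain ⟨T₀, hT₀, hT⟩ := base_av hN1 hs.1 hs.2 (δ := δ / 2) (by positivity)
    refine limsup_le_of_le (by isBoundedDefault) ?_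
    obtain ⟨m, hm⟩ := exists_nat_ge T₀
    filter_upwards [eventually_ge_atTop m] with n hn
    have hn' : (m:ℝ) ≤ n := by exact_mod_cast hn
    have hn0 : (0:ℝ) < n := by linarith
    have h4 := hT n (by linarith)
    simp only [hf]
    calc _ ≤ ENNReal.ofReal (1 / n) * ENNReal.ofReal (2 * (2 * √((N : ℝ) ^ (-s) / s) + δ / 2) * n) := by
          gcongr
      _ = ENNReal.ofReal (4 * √((N : ℝ) ^ (-s) / s) + δ) := by
          rw [← ENNReal.ofReal_mul (by positivity)]
          congr 1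
          field_simp
          ring
      _ = ENNReal.ofReal (4 * √((N : ℝ) ^ (-s) / s)) + δ := by
          rw [ENNReal.ofReal_add (by positivity) hδ'.le, ENNReal.ofReal_coe_nnreal]
  have h5 : limsup (fun n => ∫⁻ s in Ioc (0:ℝ) (2/5), f n s) atTop < ENNReal.ofReal ε := by
    refine lt_of_le_of_lt (hls.trans ?_) h2
    exact setLIntegral_mono' measurableSet_Ioc hpt
  have h6 := eventually_lt_of_limsup_lt h5
  rw [eventually_atTop] at h6
  obtain ⟨n₀, hn₀⟩ := h6
  refine ⟨max 1 n₀, fun n hn => ?_⟩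
  have h7 := hn₀ n ((le_max_right _ _).trans hn)
  have hn1 : (1:ℝ) ≤ n := by exact_mod_cast (le_max_left _ _).trans hn
  have hn0 : (0:ℝ) < n := by linarith
  simp only [hf] at h7
  rw [lintegral_const_mul' _ _ ENNReal.ofReal_ne_top] at h7
  set I := ∫⁻ s in Ioc (0:ℝ) (2/5), ∫⁻ t in Icc (-(n:ℝ)) n, uL (Gn N) s t with hI
  have h8 : I = ENNReal.ofReal n * (ENNReal.ofReal (1 / n) * I) := by
    rw [← mul_assoc, ← ENNReal.ofReal_mul hn0.le, mul_one_div_cancel hn0.ne', ENNReal.ofReal_one, one_mul]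
  rw [h8, mul_comm ε, ENNReal.ofReal_mul hn0.le]
  gcongr

/-- a measure-theoretic form of the grid inequality for a single step -/
lemma regB {ε : ℝ} (hε : 0 < ε) : ∃ N₀ : ℕ, 1 ≤ N₀ ∧ ∀ N : ℕ, N₀ ≤ N → ∃ T₀ : ℝ, 1 ≤ T₀ ∧ ∀ T : ℝ, T₀ ≤ T →
    ∀ s : ℝ, 2 / 5 ≤ s → s ≤ 3 / 2 → ∫⁻ t in Icc (-T) T, uL (Gn N) s t ≤ ENNReal.ofReal (ε * T) := by
  obtain ⟨K, hK, hgrid⟩ := grid (9 / 2)
  obtain ⟨n₀, hn₀⟩ := exists_scale (δ := 1 / 15) (by norm_num)
  set K' : ℝ := (max 1 K.toReal) ^ n₀ with hK'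
  have hK'0 : 0 < K' := by positivity
  -- choose N
  have h1 : Tendsto (fun N : ℕ => (4 * √((N : ℝ) ^ (-(1/3 : ℝ)) / (1/3)) * K' * 2 + 8 * tail (3/4) N)) atTop
      (𝓝 (4 * √(0 / (1/3)) * K' * 2 + 8 * 0)) := by
    have a1 : Tendsto (fun N : ℕ => (N : ℝ) ^ (-(1/3 : ℝ))) atTop (𝓝 0) :=
      (tendsto_rpow_neg_atTop (by norm_num)).comp tendsto_natCast_atTop_atTop
    have a2 := ((Real.continuous_sqrt.tendsto _).comp (a1.div_const (1/3 : ℝ)))
    exact (((a2.const_mul 4).mul_const K').mul_const 2).add ((tail_tendsto (σ := 3/4) (by norm_num)).const_mul 8)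
  rw [zero_div, Real.sqrt_zero] at h1
  have e0 : (4 * 0 * K' * 2 + 8 * 0 : ℝ) = 0 := by ring
  rw [e0] at h1
  have h2 := h1.eventually (gt_mem_nhds (show (0:ℝ) < ε / 2 by positivity))
  rw [eventually_atTop] at h2
  obtain ⟨N₀, hN₀⟩ := h2
  refine ⟨max 1 N₀, le_max_left _ _, fun N hN => ?_⟩
  have hN1 : 1 ≤ N := (le_max_left _ _).trans hN
  have h3 := hN₀ N ((le_max_right _ _).trans hN)
  set q : ℝ := √((N : ℝ) ^ (-(1/3 : ℝ)) / (1/3)) with hq
  have hq0 : 0 ≤ q := Real.sqrt_nonneg _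
  have ht0 := tail_nonneg (3/4) N
  set δ : ℝ := ε / (8 * K') with hδ
  have hδ0 : 0 < δ := by positivity
  obtain ⟨T₀, hT₀, hb⟩ := base_av hN1 (s := 1/3) (by norm_num) (by norm_num) hδ0
  refine ⟨T₀, hT₀, fun T hT s hs hs2 => ?_⟩
  have hT1 : 1 ≤ T := hT₀.trans hT
  obtain ⟨n, hnn, hn1, hn2⟩ := hn₀ (s - 1/3) (by linarith) (by linarith)
  obtain ⟨μ, hμ, hgr⟩ := hgrid n (s - 1/3) (by linarith) hn2
  have hn0 : 1 ≤ 2 ^ n := Nat.one_le_two_pow
  have hcf := fun t => Gn_far N (s := 1/3 + 2 ^ n * (s - 1/3)) (by linarith) t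
  have h5 := hgr (uL (Gn N)) 0 5 (1/3) (ENNReal.ofReal (4 * tail (3/4) N)) (sub_log (Gn_strip N))
    (by norm_num) (by linarith) (fun t => ENNReal.ofReal_le_ofReal (hcf t)) 1 hn0
  obtain ⟨hgood, hmom⟩ := hμ 1 hn0
  have hbase : PB T₀ (uL (Gn N) (1/3)) (2 * (2 * q + δ)) 1 := by
    intro T' hT'
    refine (hb T' hT').trans (ENNReal.ofReal_le_ofReal ?_)
    rw [Real.rpow_one]
    have : 0 ≤ 2 * (2 * q + δ) := by positivity
    nlinarith
  have hkop := PB.kop (T₀ := T₀) (by linarith) hgood (uL_meas (Gn_meas N) (1/3)) (by positivity)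
    zero_le_one (by norm_num) hbase T hT
  have hmomr : (∫⁻ y, wt y ∂(μ 1)).toReal ≤ K' := by
    have h7 : (∫⁻ y, wt y ∂(μ 1)).toReal ≤ (K ^ n).toReal :=
      ENNReal.toReal_mono (ENNReal.pow_ne_top hK) hmom
    rw [ENNReal.toReal_pow] at h7
    refine h7.trans ?_
    calc K.toReal ^ n ≤ (max 1 K.toReal) ^ n := by
          gcongr
          exact le_max_right _ _
      _ ≤ _ := pow_le_pow_right₀ (le_max_left _ _) hnn
  calc ∫⁻ t in Icc (-T) T, uL (Gn N) s t
      ≤ ∫⁻ t in Icc (-T) T, (Kop (μ 1) (uL (Gn N) (1/3)) t + ENNReal.ofReal (4 * tail (3/4) N)) := by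
        refine lintegral_mono fun t => ?_
        have := h5 t
        simp only [Nat.cast_one, one_mul] at this
        rw [show (1:ℝ)/3 + (s - 1/3) = s by ring] at this
        exact this
    _ = (∫⁻ t in Icc (-T) T, Kop (μ 1) (uL (Gn N) (1/3)) t) +
          ENNReal.ofReal (4 * tail (3/4) N) * ENNReal.ofReal (T - -T) := by
        rw [lintegral_add_right _ measurable_const, setLIntegral_const, Real.volume_Icc]
    _ ≤ ENNReal.ofReal (2 * (2 * q + δ) * (∫⁻ y, wt y ∂(μ 1)).toReal * (1 + T) ^ (1:ℝ)) +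
          ENNReal.ofReal (4 * tail (3/4) N * (2 * T)) := by
        rw [← ENNReal.ofReal_mul (by positivity)]
        exact add_le_add hkop (ENNReal.ofReal_le_ofReal (le_of_eq (by ring)))
    _ ≤ _ := by
        rw [← ENNReal.ofReal_add (by positivity) (by positivity)]
        apply ENNReal.ofReal_le_ofReal
        rw [Real.rpow_one]
        have h8 : 2 * (2 * q + δ) * (∫⁻ y, wt y ∂(μ 1)).toReal * (1 + T) ≤
            2 * (2 * q + δ) * K' * (2 * T) := by
          have : 1 + T ≤ 2 * T := by linarith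
          gcongr
        have h9 : δ * K' = ε / 8 := by rw [hδ]; field_simp
        nlinarith

/-- (P1) -/
theorem app_mean {ε : ℝ} (hε : 0 < ε) : ∃ N₀ : ℕ, 1 ≤ N₀ ∧ ∀ N : ℕ, N₀ ≤ N → ∃ T₀ : ℝ, 1 ≤ T₀ ∧
    ∀ T : ℝ, T₀ ≤ T →
    ∫⁻ s in Ioc (0:ℝ) (3 / 2), ∫⁻ t in Icc (-T) T, uL (Gn N) s t ≤ ENNReal.ofReal (ε * T) := by
  obtain ⟨N1, hN1, h1⟩ := regA (ε := ε / 4) (by positivity)
  obtain ⟨N2, hN2, h2⟩ := regB (ε := ε / 4) (by positivity)
  refine ⟨max N1 N2, hN1.trans (le_max_left _ _), fun N hN => ?_⟩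
  obtain ⟨n₀, h3⟩ := h1 N ((le_max_left _ _).trans hN)
  obtain ⟨T₀, hT₀, h4⟩ := h2 N ((le_max_right _ _).trans hN)
  refine ⟨max T₀ n₀, le_max_of_le_left hT₀, fun T hT => ?_⟩
  have hTT : T₀ ≤ T := (le_max_left _ _).trans hT
  have hTn : (n₀:ℝ) ≤ T := (le_max_right _ _).trans hT
  have hT1 : 1 ≤ T := hT₀.trans hTT
  set m := ⌈T⌉₊ with hm
  have hmT : T ≤ m := Nat.le_ceil T
  have hm2 : (m:ℝ) ≤ 2 * T := by
    have := Nat.ceil_lt_add_one (by linarith : 0 ≤ T)
    linarith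
  have hmn : n₀ ≤ m := by exact_mod_cast hTn.trans hmT
  have e : Ioc (0:ℝ) (3/2) = Ioc 0 (2/5) ∪ Ioc (2/5) (3/2) :=
    (Ioc_union_Ioc_eq_Ioc (by norm_num) (by norm_num)).symm
  rw [e]
  refine (lintegral_union_le _ _ _).trans ?_
  have hA : ∫⁻ s in Ioc (0:ℝ) (2/5), ∫⁻ t in Icc (-T) T, uL (Gn N) s t ≤ ENNReal.ofReal (ε / 2 * T) := by
    calc _ ≤ ∫⁻ s in Ioc (0:ℝ) (2/5), ∫⁻ t in Icc (-(m:ℝ)) m, uL (Gn N) s t := by
          refine lintegral_mono fun s => lintegral_mono_set (Icc_subset_Icc (by linarith) hmT)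
      _ ≤ ENNReal.ofReal (ε / 4 * m) := h3 m hmn
      _ ≤ _ := by
          apply ENNReal.ofReal_le_ofReal
          have : ε / 4 * m ≤ ε / 4 * (2 * T) := by gcongr
          linarith
  have hB : ∫⁻ s in Ioc (2/5:ℝ) (3/2), ∫⁻ t in Icc (-T) T, uL (Gn N) s t ≤ ENNReal.ofReal (ε / 2 * T) := by
    calc _ ≤ ∫⁻ s in Ioc (2/5:ℝ) (3/2), ENNReal.ofReal (ε / 4 * T) :=
          setLIntegral_mono' measurableSet_Ioc fun s hs => h4 T hTT s hs.1.le hs.2
      _ = ENNReal.ofReal (ε / 4 * T * (3/2 - 2/5)) := by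
          rw [setLIntegral_const, Real.volume_Ioc, ← ENNReal.ofReal_mul (by positivity)]
      _ ≤ _ := by
          apply ENNReal.ofReal_le_ofReal
          have : 0 ≤ ε * T := by positivity
          nlinarith
  refine (add_le_add hA hB).trans (le_of_eq ?_)
  rw [← ENNReal.ofReal_add (by positivity) (by positivity)]
  congr 1; ring

end

end Pool.Agent.Y757.EM
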