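import Pool.Agent.Helper240.ZU.C0
import Pool.Agent.Helper240.ZU.A3
import Pool.Agent.Helper112.Arith

set_option autoImplicit false

/-! The powers of the partial sums of zeta. -/

namespace Pool.Agent.Y757.EM

open MeasureTheory Set Filter Topology LSeries ZU

noncomputable section

/-- the coefficients of `D_N` -/
def aN (N : ℕ) : ℕ → ℂ := fun n => if 1 ≤ n ∧ n ≤ N then 1 else 0

/-- the coefficients of `D_N ^ k` -/
def ck (N : ℕ) : ℕ → ℕ → ℂ
  | 0 => fun n => if n = 1 then 1 else 0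
  | (k + 1) => LSeries.convolution (aN N) (ck N k)

lemma ck_succ (N k n : ℕ) : ck N (k + 1) n = ∑ p ∈ n.divisorsAntidiagonal, aN N p.1 * ck N k p.2 := by
  have : ck N (k + 1) = LSeries.convolution (aN N) (ck N k) := rfl
  rw [this, LSeries.convolution_def]

lemma ck_supp (N k : ℕ) : ∀ n, ck N k n ≠ 0 → n ∈ Finset.Icc 1 (N ^ k) := by
  induction k with
  | zero =>
    intro n hn
    unfold ck at hn
    have : n = 1 := by by_contra h; simp [h] at hn
    subst this; simp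
  | succ k ih =>
    intro n hn
    rw [ck_succ] at hn
    obtain ⟨p, hp, hne⟩ := Finset.exists_ne_zero_of_sum_ne_zero hn
    rw [Nat.mem_divisorsAntidiagonal] at hp
    have h1 : aN N p.1 ≠ 0 := left_ne_zero_of_mul hne
    have h2 : ck N k p.2 ≠ 0 := right_ne_zero_of_mul hne
    have h3 : 1 ≤ p.1 ∧ p.1 ≤ N := by
      by_contra h; exact h1 (by unfold aN; rw [if_neg h])
    have h4 := Finset.mem_Icc.1 (ih _ h2)
    rw [Finset.mem_Icc, ← hp.1, pow_succ, mul_comm (N ^ k)]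
    exact ⟨Nat.mul_pos h3.1 h4.1, Nat.mul_le_mul h3.2 h4.2⟩

lemma ck_bound {ε C : ℝ} (hε : 0 < ε) (hC : 1 ≤ C)
    (hd : ∀ n : ℕ, 1 ≤ n → (n.divisors.card : ℝ) ≤ C * (n : ℝ) ^ ε) (N k : ℕ) :
    ∀ n : ℕ, 1 ≤ n → ‖ck N k n‖ ≤ (C * (n : ℝ) ^ ε) ^ k := by
  induction k with
  | zero =>
    intro n hn
    unfold ck
    rw [pow_zero]
    split_ifs <;> simp
  | succ k ih =>
    intro n hn
    rw [ck_succ]
    have hn0 : (0:ℝ) < n := by exact_mod_cast hn
    have h1 : ∀ p ∈ n.divisorsAntidiagonal, ‖aN N p.1 * ck N k p.2‖ ≤ (C * (n : ℝ) ^ ε) ^ k := by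
      intro p hp
      rw [Nat.mem_divisorsAntidiagonal] at hp
      have hp2 : 1 ≤ p.2 := Nat.pos_of_ne_zero (by rintro h; rw [h, mul_zero] at hp; omega)
      have hp2n : p.2 ≤ n := Nat.le_of_dvd hn ⟨p.1, by rw [mul_comm]; exact hp.1.symm⟩
      rw [norm_mul]
      have ha : ‖aN N p.1‖ ≤ 1 := by unfold aN; split_ifs <;> simp
      have hb := ih p.2 hp2
      have hc : (C * (p.2 : ℝ) ^ ε) ^ k ≤ (C * (n : ℝ) ^ ε) ^ k := by
        have : (p.2 : ℝ) ≤ n := by exact_mod_cast hp2n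
        gcongr
      calc ‖aN N p.1‖ * ‖ck N k p.2‖ ≤ 1 * (C * (n : ℝ) ^ ε) ^ k :=
            mul_le_mul ha (hb.trans hc) (norm_nonneg _) zero_le_one
        _ = _ := one_mul _
    refine (norm_sum_le _ _).trans ((Finset.sum_le_card_nsmul _ _ _ h1).trans ?_)
    rw [nsmul_eq_mul, pow_succ, mul_comm]
    have hcard : (n.divisorsAntidiagonal.card : ℝ) = n.divisors.card := by
      rw [← Nat.map_div_right_divisors, Finset.card_map]
    rw [hcard]
    exact mul_le_mul_of_nonneg_left (hd n hn) (by positivity)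

lemma finite_term {f : ℕ → ℂ} {S : Finset ℕ} (hf : ∀ n, f n ≠ 0 → n ∈ S) (s : ℂ) :
    LSeriesSummable f s ∧ LSeries f s = ∑ n ∈ S, LSeries.term f s n := by
  have h : ∀ n ∉ S, LSeries.term f s n = 0 := by
    intro n hn
    have : f n = 0 := by by_contra h; exact hn (hf n h)
    rcases Nat.eq_zero_or_pos n with h0 | h0
    · subst h0; simp
    · rw [LSeries.term_of_ne_zero (by omega), this, zero_div]
  exact ⟨summable_of_ne_finset_zero h, tsum_eq_sum h⟩

lemma term_eq {f : ℕ → ℂ} {n : ℕ} (hn : 1 ≤ n) (s : ℂ) : LSeries.term f s n = f n * (n : ℂ) ^ (-s) := by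
  rw [LSeries.term_of_ne_zero (by omega), Complex.cpow_neg, div_eq_mul_inv]

lemma DN_pow (N k : ℕ) (z : ℂ) :
    DN N z ^ k = ∑ n ∈ Finset.Icc 1 (N ^ k), ck N k n * (n : ℂ) ^ (-z) := by
  have hA : ∀ n, aN N n ≠ 0 → n ∈ Finset.Icc 1 N := by
    intro n hn
    have h3 : 1 ≤ n ∧ n ≤ N := by
      by_contra h; exact hn (by unfold aN; rw [if_neg h])
    exact Finset.mem_Icc.2 h3
  have h1 : LSeries (aN N) z = DN N z := by
    rw [(finite_term hA z).2]
    unfold DN
    refine Finset.sum_congr rfl fun n hn => ?_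
    rw [Finset.mem_Icc] at hn
    rw [term_eq hn.1, aN, if_pos hn, one_mul]
  have h2 : ∀ k, LSeries (ck N k) z = DN N z ^ k := by
    intro k
    induction k with
    | zero =>
      rw [(finite_term (ck_supp N 0) z).2, pow_zero, pow_zero]
      simp [term_eq, ck]
    | succ k ih =>
      have : ck N (k + 1) = LSeries.convolution (aN N) (ck N k) := rfl
      rw [this, LSeries_convolution' (finite_term hA z).1 (finite_term (ck_supp N k) z).1, h1, ih,
        pow_succ, mul_comm]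
  rw [← h2 k, (finite_term (ck_supp N k) z).2]
  refine Finset.sum_congr rfl fun n hn => ?_
  rw [term_eq (Finset.mem_Icc.1 hn).1]

/-- mean square of a Dirichlet polynomial -/
lemma dir_ms (Q : ℕ) (x : ℕ → ℂ) (T : ℝ) :
    ∫ t in (0:ℝ)..T, ‖Dir (Finset.Icc 1 Q) x t‖ ^ 2 ≤
      T * ∑ n ∈ Finset.Icc 1 Q, ‖x n‖ ^ 2 + 2 * Q * (∑ n ∈ Finset.Icc 1 Q, ‖x n‖) ^ 2 := by
  have hS : ∀ n ∈ Finset.Icc 1 Q, 1 ≤ n := fun n hn => (Finset.mem_Icc.1 hn).1
  have h1 : |(∫ t in (0 : ℝ)..T, ‖Dir (Finset.Icc 1 Q) x t‖ ^ 2) -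
      T * ∑ n ∈ Finset.Icc 1 Q, ‖x n‖ ^ 2| ≤ 2 * Q * (∑ n ∈ Finset.Icc 1 Q, ‖x n‖) ^ 2 := by
    rw [← Real.norm_eq_abs, ← Complex.norm_real, ZU.J_c0.hz_int _ hS x T, sq, Finset.sum_mul_sum,
      Finset.mul_sum]
    refine (norm_sum_le _ _).trans (Finset.sum_le_sum fun m hm => ?_)
    rw [Finset.mul_sum]
    refine (norm_sum_le _ _).trans (Finset.sum_le_sum fun n hn => ?_)
    rw [Finset.mem_Icc] at hm hn
    split_ifs with h
    · rw [norm_zero]
      positivity
    · have hL : (0:ℝ) < Q := by exact_mod_cast (by omega : 0 < Q)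
      have hlow : 1 / (Q:ℝ) ≤ |Real.log m - Real.log n| := by
        rcases lt_or_gt_of_ne h with h' | h'
        · have := ZU.J_a3.gm_log hm.1 hm.2 hn.1 hn.2 h'
          rw [abs_sub_comm]
          exact this.trans (le_abs_self _)
        · have := ZU.J_a3.gm_log hn.1 hn.2 hm.1 hm.2 h'
          exact this.trans (le_abs_self _)
      have hpos : 0 < |Real.log m - Real.log n| := lt_of_lt_of_le (by positivity) hlow
      have hw : Real.log m - Real.log n ≠ 0 := abs_pos.1 hpos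
      rw [norm_mul, norm_mul, RCLike.norm_conj]
      have h2 := ZU.J_c0.hz_J (Real.log m - Real.log n) T hw
      have h3 : 2 / |Real.log m - Real.log n| ≤ 2 * Q := by
        rw [div_le_iff₀ hpos]
        have : 1 ≤ (Q:ℝ) * |Real.log m - Real.log n| := by
          rw [div_le_iff₀ hL] at hlow
          linarith
        nlinarith
      calc ‖x m‖ * ‖x n‖ * _ ≤ ‖x m‖ * ‖x n‖ * (2 * Q) := by
            gcongr
            exact h2.trans h3
        _ = _ := by ring
  have := (abs_le.1 h1).2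
  linarith

end

end Pool.Agent.Y757.EM
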