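import Pool.Agent.Y757.EM.Sec
import Pool.Agent.Y757.EM.Coef

set_option autoImplicit false

/-! The mean value of `|zeta| ^ (2 k)` to the right of the critical line, from a bound
`T ^ (1 + ε)` on the critical line. -/

namespace Pool.Agent.Y757.EM

open MeasureTheory Set Filter Topology Pool.Agent.Y757.LS Real ZU
open scoped ENNReal

noncomputable section

/-- the ratio -/
def RR (z : ℂ) : ℂ := (z - 1) / (z + 3)

lemma RR_le {z : ℂ} (hz : -1 ≤ z.re) : ‖RR z‖ ≤ 1 := ratio_le hz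

lemma GG_eq_RR {z : ℂ} (h : z ≠ 1) : GG z = RR z * riemannZeta z := GG_of_ne h

lemma DN_le {N : ℕ} {z : ℂ} (hz : 0 ≤ z.re) : ‖DN N z‖ ≤ N := by
  unfold DN
  refine (norm_sum_le _ _).trans ?_
  calc ∑ n ∈ Finset.Icc 1 N, ‖(n : ℂ) ^ (-z)‖ ≤ ∑ n ∈ Finset.Icc 1 N, (1 : ℝ) := by
        refine Finset.sum_le_sum fun n hn => ?_
        rw [Finset.mem_Icc] at hn
        rw [Complex.norm_natCast_cpow_of_pos (by omega), Complex.neg_re]
        exact Real.rpow_le_one_of_one_le_of_nonpos (by exact_mod_cast hn.1) (by linarith)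
    _ = N := by simp

lemma DN_an (N : ℕ) : Differentiable ℂ (DN N) := by
  have : DN N = fun z => ∑ n ∈ Finset.Icc 1 N, (n : ℂ) ^ (-z) := rfl
  rw [this]
  refine Differentiable.fun_sum fun n hn => ?_
  rw [Finset.mem_Icc] at hn
  refine Differentiable.const_cpow (by fun_prop) (Or.inl ?_)
  exact_mod_cast (by omega : n ≠ 0)

lemma zeta_sub_DN {N : ℕ} (hN : 1 ≤ N) {z : ℂ} (hz : 2 ≤ z.re) :
    ‖riemannZeta z - DN N z‖ ≤ 2 * (N : ℝ) ^ (2 - z.re) ∧ ‖riemannZeta z‖ ≤ 2 ∧ ‖DN N z‖ ≤ 2 := by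
  have hz1 : 1 < z.re := by linarith
  have hN0 : (0:ℝ) < N := by exact_mod_cast hN
  have hsum : Summable (fun n : ℕ => 1 / (n : ℝ) ^ 2) := Real.summable_one_div_nat_pow.2 (by norm_num)
  have htot : ∑' n : ℕ, 1 / (n : ℝ) ^ 2 ≤ 2 := by
    rw [hasSum_zeta_two.tsum_eq]
    have := Real.pi_lt_d2
    have := Real.pi_pos
    nlinarith
  have hterm : ∀ n : ℕ, ‖(1 : ℂ) / (n : ℂ) ^ z‖ ≤ 1 / (n : ℝ) ^ 2 := by
    intro n
    rcases Nat.eq_zero_or_pos n with h | h
    · subst h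
      rw [Nat.cast_zero, Complex.zero_cpow (by intro h; rw [h] at hz1; simp at hz1; linarith)]
      simp
    · rw [norm_div, norm_one, Complex.norm_natCast_cpow_of_pos h]
      have h1 : (1:ℝ) ≤ n := by exact_mod_cast h
      have h2 : (n : ℝ) ^ 2 ≤ (n : ℝ) ^ z.re := by
        rw [← Real.rpow_two]
        exact Real.rpow_le_rpow_of_exponent_le h1 hz
      exact one_div_le_one_div_of_le (by positivity) h2
  have hs : Summable (fun n : ℕ => (1 : ℂ) / (n : ℂ) ^ z) := Summable.of_norm_bounded hsum hterm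
  have hzeta : riemannZeta z = ∑' n : ℕ, 1 / (n : ℂ) ^ z := zeta_eq_tsum_one_div_nat_cpow hz1
  have hDN : DN N z = ∑ n ∈ Finset.Icc 1 N, 1 / (n : ℂ) ^ z := by
    unfold DN
    refine Finset.sum_congr rfl fun n _ => ?_
    rw [Complex.cpow_neg, one_div]
  have hsub : ∀ S : Finset ℕ, ∑ n ∈ S, 1 / (n : ℝ) ^ 2 ≤ 2 := fun S =>
    (hsum.sum_le_tsum S (fun n _ => by positivity)).trans htot
  refine ⟨?_, ?_, ?_⟩
  · have h1 := hs.sum_add_tsum_subtype_compl (Finset.Icc 1 N)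
    rw [hzeta, hDN, ← h1, add_sub_cancel_left]
    have hs2 : Summable (fun n : {x // x ∉ Finset.Icc 1 N} => (N : ℝ) ^ (2 - z.re) * (1 / ((n : ℕ) : ℝ) ^ 2)) :=
      (hsum.subtype _).mul_left _
    have hb : ∀ n : {x // x ∉ Finset.Icc 1 N}, ‖(1 : ℂ) / ((n : ℕ) : ℂ) ^ z‖ ≤
        (N : ℝ) ^ (2 - z.re) * (1 / ((n : ℕ) : ℝ) ^ 2) := by
      rintro ⟨n, hn⟩
      simp only
      rcases Nat.eq_zero_or_pos n with h | h
      · subst h
        rw [Nat.cast_zero, Complex.zero_cpow (by intro h; rw [h] at hz1; simp at hz1; linarith)]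
        simp
      · have hNn : (N:ℝ) ≤ n := by
          have : N < n := by
            by_contra h'
            exact hn (Finset.mem_Icc.2 ⟨h, by omega⟩)
          exact_mod_cast this.le
        have hn0 : (0:ℝ) < n := by exact_mod_cast h
        rw [norm_div, norm_one, Complex.norm_natCast_cpow_of_pos h, one_div, ← Real.rpow_neg hn0.le]
        have e : (n : ℝ) ^ (-z.re) = (n : ℝ) ^ (2 - z.re) * (1 / (n : ℝ) ^ 2) := by
          rw [one_div, ← Real.rpow_two, ← Real.rpow_neg hn0.le, ← Real.rpow_add hn0]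
          congr 1; ring
        rw [e]
        refine mul_le_mul_of_nonneg_right ?_ (by positivity)
        exact Real.rpow_le_rpow_of_nonpos hN0 hNn (by linarith)
    refine (tsum_of_norm_bounded hs2.hasSum hb).trans ?_
    rw [tsum_mul_left, mul_comm]
    refine mul_le_mul_of_nonneg_right ?_ (by positivity)
    exact (Summable.tsum_subtype_le (fun n : ℕ => 1 / (n : ℝ) ^ 2) {n | n ∉ Finset.Icc 1 N}
      (fun n => by positivity) hsum).trans htot
  · rw [hzeta]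
    exact (tsum_of_norm_bounded hsum.hasSum hterm).trans htot
  · rw [hDN]
    exact (norm_sum_le _ _).trans ((Finset.sum_le_sum fun n _ => hterm n).trans (hsub _))

lemma pow_sub_le {a b : ℂ} {M : ℝ} (hM : 0 ≤ M) (ha : ‖a‖ ≤ M) (hb : ‖b‖ ≤ M) (k : ℕ) :
    ‖a ^ k - b ^ k‖ ≤ k * M ^ (k - 1) * ‖a - b‖ := by
  rw [← Commute.geom_sum₂_mul (Commute.all a b), norm_mul]
  refine mul_le_mul_of_nonneg_right ?_ (norm_nonneg _)
  refine (norm_sum_le _ _).trans ?_
  calc ∑ i ∈ Finset.range k, ‖a ^ i * b ^ (k - 1 - i)‖ ≤ ∑ i ∈ Finset.range k, M ^ (k - 1) := by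
        refine Finset.sum_le_sum fun i hi => ?_
        rw [Finset.mem_range] at hi
        rw [norm_mul, norm_pow, norm_pow]
        calc ‖a‖ ^ i * ‖b‖ ^ (k - 1 - i) ≤ M ^ i * M ^ (k - 1 - i) := by gcongr
          _ = M ^ (k - 1) := by rw [← pow_add]; congr 1; omega
    _ = _ := by simp

/-- the difference, weighted -/
def FN (k N : ℕ) (z : ℂ) : ℂ :=
  (N : ℂ) ^ ((z - 1 / 2) / 3) * (GG z ^ k - (RR z * DN N z) ^ k)

lemma norm_wgt {N : ℕ} (hN : 1 ≤ N) (z : ℂ) :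
    ‖(N : ℂ) ^ ((z - 1 / 2) / 3)‖ = (N : ℝ) ^ ((z.re - 1 / 2) / 3) := by
  rw [Complex.norm_natCast_cpow_of_pos (by omega)]
  congr 1
  have : (z - 1 / 2) / 3 = ((1 / 3 : ℝ) : ℂ) * (z - ((1 / 2 : ℝ) : ℂ)) := by push_cast; ring
  rw [this, Complex.re_ofReal_mul, Complex.sub_re, Complex.ofReal_re]
  ring

lemma RR_an {z : ℂ} (hz : -3 < z.re) : AnalyticAt ℂ RR z := by
  unfold RR
  exact AnalyticAt.div (by fun_prop) (by fun_prop) (add_three_ne hz)

lemma FN_strip (k : ℕ) {N : ℕ} (hN : 1 ≤ N) : StripF (FN k N) 0 (9 / 2) := by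
  have hNC : (N : ℂ) ≠ 0 := by exact_mod_cast (by omega : N ≠ 0)
  refine ⟨?_, ?_, ?_⟩
  · unfold FN RR
    have h1 := GG_measurable
    have h2 : Measurable (DN N) := (DN_an N).continuous.measurable
    have h3 : Measurable (fun z : ℂ => (N : ℂ) ^ ((z - 1 / 2) / 3)) :=
      (Continuous.const_cpow (by fun_prop) (Or.inl hNC)).measurable
    refine h3.mul ((h1.pow_const k).sub (Measurable.pow_const ?_ k))
    exact Measurable.mul ((measurable_id.sub_const 1).div (measurable_id.add_const 3)) h2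
  · intro z hz _
    have h1 : AnalyticAt ℂ (fun z : ℂ => (N : ℂ) ^ ((z - 1 / 2) / 3)) z := by
      have : Differentiable ℂ (fun z : ℂ => (N : ℂ) ^ ((z - 1 / 2) / 3)) :=
        Differentiable.const_cpow (by fun_prop) (Or.inl hNC)
      exact this.analyticAt z
    unfold FN
    exact h1.mul (((GG_analyticAt (by linarith)).pow k).sub
      (((RR_an (by linarith)).mul ((DN_an N).analyticAt z)).pow k))
  · obtain ⟨C, hC1, hC⟩ := GG_growth
    set B : ℝ := (N : ℝ) ^ (3/2 : ℝ) * ((C * 7 ^ 4) ^ k + (N : ℝ) ^ k) with hB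
    have hN1 : (1:ℝ) ≤ N := by exact_mod_cast hN
    have hB1 : 1 ≤ B := by
      have h1 : (1:ℝ) ≤ (N : ℝ) ^ (3/2 : ℝ) := Real.one_le_rpow hN1 (by norm_num)
      have h2 : (1:ℝ) ≤ (C * 7 ^ 4) ^ k := one_le_pow₀ (by linarith)
      have h3 : (0:ℝ) ≤ (N : ℝ) ^ k := by positivity
      nlinarith
    have hlB := Real.log_nonneg hB1
    refine ⟨Real.log B + 4 * k, by positivity, fun z h0 h1 => ?_⟩
    have hz : ‖z‖ + 1 ≤ 7 * (1 + |z.im|) := by
      have h2 := Complex.norm_le_abs_re_add_abs_im z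
      have h3 : |z.re| ≤ 5 := by rw [abs_le]; constructor <;> linarith
      have := abs_nonneg z.im
      linarith
    have him := abs_nonneg z.im
    have hF : ‖FN k N z‖ ≤ B * (1 + |z.im|) ^ (4 * k) := by
      unfold FN
      rw [norm_mul, norm_wgt hN]
      have h4 : (N : ℝ) ^ ((z.re - 1 / 2) / 3) ≤ (N : ℝ) ^ (3/2 : ℝ) :=
        Real.rpow_le_rpow_of_exponent_le hN1 (by linarith)
      have h5 : ‖GG z‖ ^ k ≤ (C * 7 ^ 4) ^ k * (1 + |z.im|) ^ (4 * k) := by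
        rw [pow_mul, ← mul_pow]
        refine pow_le_pow_left₀ (norm_nonneg _) ((hC z (by linarith)).trans ?_) k
        rw [mul_assoc, ← mul_pow]
        gcongr
      have h6 : ‖RR z * DN N z‖ ^ k ≤ (N : ℝ) ^ k * (1 + |z.im|) ^ (4 * k) := by
        have h7 : ‖RR z * DN N z‖ ≤ N := by
          rw [norm_mul]
          calc ‖RR z‖ * ‖DN N z‖ ≤ 1 * N := by
                gcongr
                · exact RR_le (by linarith)
                · exact DN_le (by linarith)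
            _ = N := one_mul _
        have h8 : (1:ℝ) ≤ (1 + |z.im|) ^ (4 * k) := one_le_pow₀ (by linarith)
        calc ‖RR z * DN N z‖ ^ k ≤ (N:ℝ) ^ k * 1 := by rw [mul_one]; gcongr
          _ ≤ _ := by gcongr
      calc _ ≤ (N : ℝ) ^ (3/2 : ℝ) * ((C * 7 ^ 4) ^ k * (1 + |z.im|) ^ (4 * k) +
            (N : ℝ) ^ k * (1 + |z.im|) ^ (4 * k)) := by
            refine mul_le_mul h4 ?_ (norm_nonneg _) (by positivity)
            refine (norm_sub_le _ _).trans ?_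
            rw [norm_pow, norm_pow]
            exact add_le_add h5 h6
        _ = _ := by rw [hB]; ring
    calc log⁺ ‖FN k N z‖ ≤ log⁺ (B * (1 + |z.im|) ^ (4 * k)) :=
          Real.posLog_le_posLog (norm_nonneg _) hF
      _ = Real.log (B * (1 + |z.im|) ^ (4 * k)) := by
          apply Real.posLog_eq_log
          have : (1:ℝ) ≤ (1 + |z.im|) ^ (4 * k) := one_le_pow₀ (by linarith)
          rw [abs_of_nonneg (by positivity)]
          nlinarith
      _ = Real.log B + 4 * k * Real.log (1 + |z.im|) := by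
          rw [Real.log_mul (by positivity) (by positivity), Real.log_pow]
          push_cast; ring
      _ ≤ _ := by
          have h9 := log_one_add_le |z.im| him
          have hk : (0:ℝ) ≤ k := by positivity
          nlinarith [mul_le_mul_of_nonneg_left h9 hk, mul_nonneg hlB him]

lemma FN_far (k : ℕ) {N : ℕ} (hN : 1 ≤ N) {s : ℝ} (hs : 9 / 4 ≤ s) (t : ℝ) :
    uS (FN k N) s t ≤ ENNReal.ofReal ((k * 2 ^ (k - 1) * 2) ^ 2) := by
  unfold uS
  apply ENNReal.ofReal_le_ofReal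
  refine pow_le_pow_left₀ (norm_nonneg _) ?_ 2
  have hre := pt_re s t
  have hne : pt s t ≠ 1 := by
    intro h
    rw [h] at hre
    simp at hre
    linarith
  obtain ⟨h1, h2, h3⟩ := zeta_sub_DN hN (z := pt s t) (by rw [hre]; linarith)
  have hN1 : (1:ℝ) ≤ N := by exact_mod_cast hN
  have hN0 : (0:ℝ) < N := by linarith
  unfold FN
  rw [norm_mul, norm_wgt hN, GG_eq_RR hne, mul_pow, mul_pow, ← mul_sub, norm_mul, norm_pow, hre]
  have h4 := pow_sub_le (by norm_num) h2 h3 k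
  have h5 : ‖RR (pt s t)‖ ^ k ≤ 1 := pow_le_one₀ (norm_nonneg _) (RR_le (by rw [hre]; linarith))
  rw [hre] at h1
  have h6 : (N : ℝ) ^ ((1 / 2 + s - 1 / 2) / 3) * (N : ℝ) ^ (2 - (1 / 2 + s)) ≤ 1 := by
    rw [← Real.rpow_add hN0]
    exact Real.rpow_le_one_of_one_le_of_nonpos hN1 (by linarith)
  set w := (N : ℝ) ^ ((1 / 2 + s - 1 / 2) / 3) with hw
  set v := (N : ℝ) ^ (2 - (1 / 2 + s)) with hv
  have hw0 : 0 ≤ w := by positivity
  calc w * (‖RR (pt s t)‖ ^ k * ‖riemannZeta (pt s t) ^ k - DN N (pt s t) ^ k‖)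
      ≤ w * (1 * (k * 2 ^ (k - 1) * (2 * v))) := by
        gcongr
        exact h4.trans (by gcongr)
    _ = (k * 2 ^ (k - 1) * 2) * (w * v) := by ring
    _ ≤ (k * 2 ^ (k - 1) * 2) * 1 := by gcongr
    _ = _ := mul_one _

lemma DN_conj (N : ℕ) (s t : ℝ) : ‖DN N (pt s (-t))‖ = ‖DN N (pt s t)‖ := by
  have e1 : pt s (-t) = (starRingEnd ℂ) (pt s t) := by
    unfold pt
    simp [Complex.conj_ofReal, map_ofNat]
  have e2 : DN N ((starRingEnd ℂ) (pt s t)) = (starRingEnd ℂ) (DN N (pt s t)) := by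
    unfold DN
    rw [map_sum]
    refine Finset.sum_congr rfl fun n hn => ?_
    rw [Finset.mem_Icc] at hn
    rw [← map_neg]
    rw [Complex.cpow_conj _ _ (by
      rw [Complex.natCast_arg]
      exact Real.pi_pos.ne), Complex.conj_natCast]
  rw [e1, e2, RCLike.norm_conj]

lemma DN_ms (k : ℕ) (hk : 1 ≤ k) {w : ℝ} (hw : 0 < w) : ∃ A : ℝ, 0 ≤ A ∧ ∀ (N : ℕ) (T s v : ℝ),
    1 ≤ N → ((N : ℝ) ^ k) ^ 2 ≤ T → 0 ≤ v → w - 2 * s ≤ v - w →
    ∫⁻ t in Icc (-T) T, ENNReal.ofReal (‖DN N (pt s t)‖ ^ (2 * k)) ≤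
      ENNReal.ofReal (A * T * ((N : ℝ) ^ k) ^ v) := by
  have hk0 : (0:ℝ) < k := by exact_mod_cast hk
  obtain ⟨C, hC0, hC⟩ := Pool.Agent.Helper112.divisor_bound (w / (2 * k)) (by positivity)
  set C' := max C 1 with hC'
  have hZ : Summable (fun n : ℕ => (n : ℝ) ^ (-(1 + w))) :=
    Real.summable_nat_rpow.2 (by linarith)
  set Z := ∑' n : ℕ, (n : ℝ) ^ (-(1 + w)) with hZd
  have hZ0 : 0 ≤ Z := tsum_nonneg fun n => by positivity
  refine ⟨6 * (C' ^ (2 * k) * Z), by positivity, fun N T s v hN hT hv hsv => ?_⟩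
  set Q : ℕ := N ^ k with hQ
  have hQ1 : 1 ≤ Q := Nat.one_le_pow _ _ hN
  have hQr : ((N : ℝ) ^ k) = (Q : ℝ) := by rw [hQ]; push_cast; rfl
  rw [hQr] at hT ⊢
  have hQ0 : (1:ℝ) ≤ Q := by exact_mod_cast hQ1
  have hT0 : 0 < T := by nlinarith
  set x : ℕ → ℂ := fun n => ck N k n * (n : ℂ) ^ (-((1 / 2 + s : ℝ) : ℂ)) with hx
  have hck := ck_bound (ε := w / (2 * k)) (C := C') (by positivity) (le_max_right _ _)
    (fun n hn => (hC n hn).trans (mul_le_mul_of_nonneg_right (le_max_left _ _) (by positivity))) N k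
  have hxn : ∀ n ∈ Finset.Icc 1 Q, ‖x n‖ ^ 2 ≤ C' ^ (2 * k) * (Q : ℝ) ^ v * (n : ℝ) ^ (-(1 + w)) := by
    intro n hn
    rw [Finset.mem_Icc] at hn
    have hn0 : (0:ℝ) < n := by exact_mod_cast hn.1
    have hn1 : (1:ℝ) ≤ n := by exact_mod_cast hn.1
    have h1 := hck n hn.1
    simp only [hx]
    rw [norm_mul, Complex.norm_natCast_cpow_of_pos hn.1, Complex.neg_re, Complex.ofReal_re, mul_pow]
    calc ‖ck N k n‖ ^ 2 * ((n : ℝ) ^ (-(1 / 2 + s))) ^ 2
        ≤ ((C' * (n : ℝ) ^ (w / (2 * k))) ^ k) ^ 2 * ((n : ℝ) ^ (-(1 / 2 + s))) ^ 2 := by gcongr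
      _ = C' ^ (2 * k) * (n : ℝ) ^ (w - 1 - 2 * s) := by
          rw [mul_pow, mul_pow, ← pow_mul, mul_comm k 2, mul_assoc]
          congr 1
          rw [← Real.rpow_natCast, ← Real.rpow_natCast, ← Real.rpow_natCast, ← Real.rpow_mul hn0.le,
            ← Real.rpow_mul hn0.le, ← Real.rpow_mul hn0.le, ← Real.rpow_add hn0]
          congr 1
          push_cast
          field_simp
          ring
      _ ≤ C' ^ (2 * k) * ((Q : ℝ) ^ v * (n : ℝ) ^ (-(1 + w))) := by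
          gcongr
          calc (n : ℝ) ^ (w - 1 - 2 * s) ≤ (n : ℝ) ^ (v + -(1 + w)) :=
                Real.rpow_le_rpow_of_exponent_le hn1 (by linarith)
            _ = (n : ℝ) ^ v * (n : ℝ) ^ (-(1 + w)) := Real.rpow_add hn0 _ _
            _ ≤ _ := by
                gcongr
                exact_mod_cast hn.2
      _ = _ := by ring
  have hsum : ∑ n ∈ Finset.Icc 1 Q, ‖x n‖ ^ 2 ≤ C' ^ (2 * k) * (Q : ℝ) ^ v * Z := by
    refine (Finset.sum_le_sum hxn).trans ?_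
    rw [← Finset.mul_sum]
    refine mul_le_mul_of_nonneg_left ?_ (by positivity)
    exact hZ.sum_le_tsum _ (fun n _ => by positivity)
  have hcs : (∑ n ∈ Finset.Icc 1 Q, ‖x n‖) ^ 2 ≤ Q * ∑ n ∈ Finset.Icc 1 Q, ‖x n‖ ^ 2 := by
    have := sq_sum_le_card_mul_sum_sq (s := Finset.Icc 1 Q) (f := fun n => ‖x n‖)
    simpa using this
  have hms := dir_ms Q x T
  have hDir : ∀ t : ℝ, Dir (Finset.Icc 1 Q) x t = DN N (pt s t) ^ k := by
    intro t
    rw [DN_pow]
    unfold Dir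
    refine Finset.sum_congr rfl fun n hn => ?_
    rw [Finset.mem_Icc] at hn
    simp only [hx]
    rw [mul_assoc, ← Complex.cpow_add _ _ (by exact_mod_cast (by omega : n ≠ 0))]
    congr 2
    unfold pt
    push_cast
    ring
  have hcont : Continuous (fun t : ℝ => ‖DN N (pt s t)‖ ^ (2 * k)) := by
    have h1 : Continuous (fun t : ℝ => pt s t) := by unfold pt; fun_prop
    exact (((DN_an N).continuous.comp h1).norm).pow _
  have hfin : ∫ t in (0:ℝ)..T, ‖DN N (pt s t)‖ ^ (2 * k) ≤ 3 * (C' ^ (2 * k) * Z) * T * (Q:ℝ) ^ v := by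
    have e : ∀ t : ℝ, ‖DN N (pt s t)‖ ^ (2 * k) = ‖Dir (Finset.Icc 1 Q) x t‖ ^ 2 := by
      intro t; rw [hDir, norm_pow, ← pow_mul, mul_comm]
    simp only [e]
    refine hms.trans ?_
    have hs0 : 0 ≤ ∑ n ∈ Finset.Icc 1 Q, ‖x n‖ ^ 2 := Finset.sum_nonneg fun n _ => by positivity
    calc _ ≤ T * ∑ n ∈ Finset.Icc 1 Q, ‖x n‖ ^ 2 + 2 * Q * (Q * ∑ n ∈ Finset.Icc 1 Q, ‖x n‖ ^ 2) := by
          gcongr
      _ = (T + 2 * (Q:ℝ) ^ 2) * ∑ n ∈ Finset.Icc 1 Q, ‖x n‖ ^ 2 := by ring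
      _ ≤ (3 * T) * (C' ^ (2 * k) * (Q : ℝ) ^ v * Z) := by
          gcongr
          linarith
      _ = _ := by ring
  have hmeas : Measurable (fun t : ℝ => ENNReal.ofReal (‖DN N (pt s t)‖ ^ (2 * k))) :=
    hcont.measurable.ennreal_ofReal
  refine (sym_int (fun t => by rw [DN_conj]) hmeas T).trans ?_
  rw [← ofReal_integral_eq_lintegral_ofReal (hcont.integrableOn_Ioc) (Eventually.of_forall fun t => by positivity),
    ← intervalIntegral.integral_of_le hT0.le]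
  have e2 : (2 : ℝ≥0∞) = ENNReal.ofReal 2 := by simp
  rw [e2, ← ENNReal.ofReal_mul (by norm_num)]
  apply ENNReal.ofReal_le_ofReal
  linarith

/-- the hypothesis on the critical line -/
def HypK (k : ℕ) : Prop := ∀ ε : ℝ, 0 < ε → ∃ A : ℝ, 0 ≤ A ∧
  PB 0 (fun t => ENNReal.ofReal (‖GG (pt 0 t)‖ ^ (2 * k))) A (1 + ε)

/-- the number of terms -/
def NT (k : ℕ) (T : ℝ) : ℕ := ⌊T ^ (1 / (2 * k : ℝ))⌋₊

lemma NT_pos {k : ℕ} {T : ℝ} (hT : 1 ≤ T) : 1 ≤ NT k T := by
  unfold NT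
  rw [Nat.one_le_floor_iff]
  exact Real.one_le_rpow hT (by positivity)

lemma NT_pow {k : ℕ} (hk : 1 ≤ k) {T : ℝ} (hT : 1 ≤ T) : ((NT k T : ℝ) ^ k) ^ 2 ≤ T := by
  have hk0 : (0:ℝ) < k := by exact_mod_cast hk
  have h1 : (NT k T : ℝ) ≤ T ^ (1 / (2 * k : ℝ)) := Nat.floor_le (by positivity)
  rw [← pow_mul]
  calc (NT k T : ℝ) ^ (k * 2) ≤ (T ^ (1 / (2 * k : ℝ))) ^ (k * 2) := by gcongr
    _ = T := by
      rw [← Real.rpow_natCast, ← Real.rpow_mul (by linarith)]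
      push_cast
      rw [show 1 / (2 * (k:ℝ)) * (k * 2) = 1 by field_simp, Real.rpow_one]

lemma NT_low {k : ℕ} {T : ℝ} (hT : 1 ≤ T) : T ^ (1 / (2 * k : ℝ)) ≤ 2 * NT k T := by
  have h1 : T ^ (1 / (2 * k : ℝ)) < NT k T + 1 := Nat.lt_floor_add_one _
  have h2 : (1:ℝ) ≤ NT k T := by exact_mod_cast NT_pos (k := k) hT
  linarith

lemma two_sq_add (a b : ℂ) : ‖a - b‖ ^ 2 ≤ 2 * ‖a‖ ^ 2 + 2 * ‖b‖ ^ 2 := by
  have h1 := norm_sub_le a b
  have h2 := norm_nonneg (a - b)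
  nlinarith [sq_nonneg (‖a‖ - ‖b‖)]

lemma exists_scale {δ : ℝ} (hδ : 0 < δ) : ∃ n₀ : ℕ, ∀ s : ℝ, δ ≤ s → s ≤ 3 / 2 →
    ∃ n : ℕ, n ≤ n₀ ∧ 9 / 4 ≤ 2 ^ n * s ∧ 2 ^ n * s ≤ 9 / 2 := by
  obtain ⟨n₀, hn₀⟩ := pow_unbounded_of_one_lt (9 / 4 / δ) (by norm_num : (1:ℝ) < 2)
  refine ⟨n₀, fun s hs hs2 => ?_⟩
  have hex : ∃ n : ℕ, 9 / 4 ≤ 2 ^ n * s := by
    refine ⟨n₀, ?_⟩
    rw [div_lt_iff₀ hδ] at hn₀
    have : (2:ℝ) ^ n₀ * δ ≤ 2 ^ n₀ * s := by gcongr
    linarith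
  classical
  refine ⟨Nat.find hex, ?_, Nat.find_spec hex, ?_⟩
  · apply Nat.find_min'
    rw [div_lt_iff₀ hδ] at hn₀
    have : (2:ℝ) ^ n₀ * δ ≤ 2 ^ n₀ * s := by gcongr
    linarith
  · rcases Nat.eq_zero_or_pos (Nat.find hex) with h | h
    · rw [h]; linarith
    · have h1 := Nat.find_min hex (m := Nat.find hex - 1) (by omega)
      rw [not_le] at h1
      have e : (2:ℝ) ^ (Nat.find hex) = 2 * 2 ^ (Nat.find hex - 1) := by
        rw [← pow_succ']; congr 1; omega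
      rw [e]
      linarith

theorem carl {k : ℕ} (hk : 1 ≤ k) (hyp : HypK k) {δ : ℝ} (hδ : 0 < δ) :
    ∃ A c : ℝ, 0 ≤ A ∧ 0 < c ∧ ∀ T s : ℝ, 1 ≤ T → δ ≤ s → s ≤ 3 / 2 →
    ∫⁻ t in Icc (-T) T, ENNReal.ofReal (‖GG (pt s t) ^ k -
      (RR (pt s t) * DN (NT k T) (pt s t)) ^ k‖ ^ 2) ≤ ENNReal.ofReal (A * (1 + T) ^ (1 - c)) := by
  have hk0 : (0:ℝ) < k := by exact_mod_cast hk
  rcases lt_or_ge (3 / 2) δ with hδ2 | hδ2
  · exact ⟨0, 1, le_rfl, one_pos, fun T s _ h1 h2 => absurd h2 (by linarith)⟩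
  have hk1 : (1:ℝ) ≤ k := by exact_mod_cast hk
  set θ : ℝ := δ / (3 * k) with hθ
  have hθ0 : 0 < θ := by positivity
  have hθ1 : θ ≤ 1 / 2 := by
    rw [hθ, div_le_iff₀ (by positivity)]
    nlinarith
  obtain ⟨A1, hA1, hG⟩ := hyp (θ / 2) (by positivity)
  obtain ⟨A2, hA2, hD⟩ := DN_ms k hk (w := θ / 4) (by positivity)
  obtain ⟨K, hK, hgrid⟩ := grid (9 / 2)
  obtain ⟨n₀, hn₀⟩ := exists_scale hδ
  set K' : ℝ := (max 1 K.toReal) ^ n₀ with hK'
  have hK'0 : 0 ≤ K' := by positivity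
  set Cf : ℝ := (k * 2 ^ (k - 1) * 2) ^ 2 with hCf
  have hCf0 : 0 ≤ Cf := by positivity
  set A0 : ℝ := 2 * A1 + 2 * A2 with hA0
  have hA00 : 0 ≤ A0 := by positivity
  refine ⟨2 ^ (2 * δ / 3) * 2 ^ θ * (A0 * K' + 2 * Cf), θ / 2, by positivity, by positivity,
    fun T s hT hs hs2 => ?_⟩
  set N := NT k T with hN
  have hN1 : 1 ≤ N := NT_pos hT
  have hNr : (1:ℝ) ≤ N := by exact_mod_cast hN1
  have hNT := NT_pow hk hT
  obtain ⟨n, hnn, hn1, hn2⟩ := hn₀ s hs hs2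
  have hs0 : 0 < s := lt_of_lt_of_le hδ hs
  obtain ⟨μ, hμ, hgr⟩ := hgrid n s hs0 hn2
  have hn0 : 1 ≤ 2 ^ n := Nat.one_le_two_pow
  have h1 := hgr (uS (FN k N)) 0 (9 / 2) 0 (ENNReal.ofReal Cf) (sub_sq (FN_strip k hN1)) le_rfl
    (by linarith) (fun t => FN_far k hN1 (by linarith) t) 1 hn0
  obtain ⟨hgood, hmom⟩ := hμ 1 hn0
  have hbase : PB T (uS (FN k N) 0) A0 (1 + θ / 2) := by
    intro T' hT'
    have hT1 : 1 ≤ T' := hT.trans hT'
    have hm1 : Measurable (fun t : ℝ => ENNReal.ofReal (‖GG (pt 0 t)‖ ^ (2 * k))) :=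
      (((GG_measurable.comp (pt_meas 0)).norm).pow_const _).ennreal_ofReal
    calc ∫⁻ t in Icc (-T') T', uS (FN k N) 0 t
        ≤ ∫⁻ t in Icc (-T') T', (2 * ENNReal.ofReal (‖GG (pt 0 t)‖ ^ (2 * k)) +
            2 * ENNReal.ofReal (‖DN N (pt 0 t)‖ ^ (2 * k))) := by
          refine lintegral_mono fun t => ?_
          unfold uS
          have e2 : (2 : ℝ≥0∞) = ENNReal.ofReal 2 := by simp
          rw [e2, ← ENNReal.ofReal_mul (by norm_num), ← ENNReal.ofReal_mul (by norm_num),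
            ← ENNReal.ofReal_add (by positivity) (by positivity)]
          apply ENNReal.ofReal_le_ofReal
          unfold FN
          rw [norm_mul, norm_wgt hN1, pt_re]
          have e3 : (N : ℝ) ^ ((1 / 2 + (0:ℝ) - 1 / 2) / 3) = 1 := by norm_num
          rw [e3, one_mul]
          refine (two_sq_add _ _).trans ?_
          rw [norm_pow, norm_pow, ← pow_mul, ← pow_mul, mul_comm k 2]
          have h5 : ‖RR (pt 0 t) * DN N (pt 0 t)‖ ≤ ‖DN N (pt 0 t)‖ := by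
            rw [norm_mul]
            exact mul_le_of_le_one_left (norm_nonneg _) (RR_le (by rw [pt_re]; norm_num))
          gcongr
      _ = 2 * (∫⁻ t in Icc (-T') T', ENNReal.ofReal (‖GG (pt 0 t)‖ ^ (2 * k))) +
            2 * (∫⁻ t in Icc (-T') T', ENNReal.ofReal (‖DN N (pt 0 t)‖ ^ (2 * k))) := by
          rw [lintegral_add_left (hm1.const_mul 2), lintegral_const_mul' _ _ (by simp),
            lintegral_const_mul' _ _ (by simp)]
      _ ≤ 2 * ENNReal.ofReal (A1 * (1 + T') ^ (1 + θ / 2)) +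
            2 * ENNReal.ofReal (A2 * T' * ((N : ℝ) ^ k) ^ (θ / 2)) := by
          gcongr
          · exact hG T' (by linarith)
          · exact hD N T' 0 (θ / 2) hN1 (hNT.trans hT') (by positivity) (by linarith)
      _ ≤ ENNReal.ofReal (A0 * (1 + T') ^ (1 + θ / 2)) := by
          have e2 : (2 : ℝ≥0∞) = ENNReal.ofReal 2 := by simp
          rw [e2, ← ENNReal.ofReal_mul (by norm_num), ← ENNReal.ofReal_mul (by norm_num),
            ← ENNReal.ofReal_add (by positivity) (by positivity)]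
          apply ENNReal.ofReal_le_ofReal
          have hQ1 : (1:ℝ) ≤ (N : ℝ) ^ k := one_le_pow₀ hNr
          have hQ : (N : ℝ) ^ k ≤ 1 + T' := by nlinarith
          have h6 : T' * ((N : ℝ) ^ k) ^ (θ / 2) ≤ (1 + T') ^ (1 + θ / 2) := by
            rw [Real.rpow_add (by linarith), Real.rpow_one]
            gcongr
            linarith
          rw [hA0]
          nlinarith [mul_le_mul_of_nonneg_left h6 hA2]
  have hkop := PB.kop (T₀ := T) (by linarith) hgood ((sub_sq (FN_strip k hN1)).1 0) hA00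
    (by positivity) (by linarith) hbase T le_rfl
  have hmomr : (∫⁻ y, wt y ∂(μ 1)).toReal ≤ K' := by
    have h7 : (∫⁻ y, wt y ∂(μ 1)).toReal ≤ (K ^ n).toReal :=
      ENNReal.toReal_mono (ENNReal.pow_ne_top hK) hmom
    rw [ENNReal.toReal_pow] at h7
    refine h7.trans ?_
    calc K.toReal ^ n ≤ (max 1 K.toReal) ^ n := by
          gcongr
          exact le_max_right _ _
      _ ≤ _ := pow_le_pow_right₀ (le_max_left _ _) hnn
  have hline : ∫⁻ t in Icc (-T) T, uS (FN k N) s t ≤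
      ENNReal.ofReal ((A0 * K' + 2 * Cf) * (1 + T) ^ (1 + θ / 2)) := by
    calc ∫⁻ t in Icc (-T) T, uS (FN k N) s t
        ≤ ∫⁻ t in Icc (-T) T, (Kop (μ 1) (uS (FN k N) 0) t + ENNReal.ofReal Cf) := by
          refine lintegral_mono fun t => ?_
          have := h1 t
          simp only [Nat.cast_one, one_mul, zero_add] at this
          exact this
      _ = (∫⁻ t in Icc (-T) T, Kop (μ 1) (uS (FN k N) 0) t) +
            ENNReal.ofReal Cf * ENNReal.ofReal (T - -T) := by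
          rw [lintegral_add_right _ measurable_const, setLIntegral_const, Real.volume_Icc]
      _ ≤ ENNReal.ofReal (A0 * (∫⁻ y, wt y ∂(μ 1)).toReal * (1 + T) ^ (1 + θ / 2)) +
            ENNReal.ofReal (Cf * (2 * T)) := by
          rw [← ENNReal.ofReal_mul hCf0]
          exact add_le_add hkop (ENNReal.ofReal_le_ofReal (by linarith))
      _ ≤ _ := by
          rw [← ENNReal.ofReal_add (by positivity) (by positivity)]
          apply ENNReal.ofReal_le_ofReal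
          have h8 : (1 + T) ^ (1:ℝ) ≤ (1 + T) ^ (1 + θ / 2) :=
            Real.rpow_le_rpow_of_exponent_le (by linarith) (by linarith)
          rw [Real.rpow_one] at h8
          have h9 : 0 ≤ (1 + T) ^ (1 + θ / 2) := by positivity
          have h10 : A0 * (∫⁻ y, wt y ∂(μ 1)).toReal ≤ A0 * K' := by gcongr
          nlinarith [mul_le_mul_of_nonneg_right h10 h9]
  have hpt : ∀ t : ℝ, ENNReal.ofReal (‖GG (pt s t) ^ k - (RR (pt s t) * DN N (pt s t)) ^ k‖ ^ 2) =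
      ENNReal.ofReal ((N : ℝ) ^ (-(2 * s / 3))) * uS (FN k N) s t := by
    intro t
    unfold uS FN
    set D := GG (pt s t) ^ k - (RR (pt s t) * DN N (pt s t)) ^ k with hDd
    rw [norm_mul, norm_wgt hN1, pt_re, mul_pow _ ‖D‖, ← ENNReal.ofReal_mul (by positivity), ← mul_assoc]
    congr 1
    have : (N : ℝ) ^ (-(2 * s / 3)) * ((N : ℝ) ^ ((1 / 2 + s - 1 / 2) / 3)) ^ 2 = 1 := by
      rw [← Real.rpow_natCast, ← Real.rpow_mul (by linarith), ← Real.rpow_add (by linarith)]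
      rw [show -(2 * s / 3) + (1 / 2 + s - 1 / 2) / 3 * ((2:ℕ):ℝ) = 0 by push_cast; ring,
        Real.rpow_zero]
    rw [this, one_mul]
  simp only [hpt]
  rw [lintegral_const_mul' _ _ ENNReal.ofReal_ne_top]
  calc _ ≤ ENNReal.ofReal ((N : ℝ) ^ (-(2 * s / 3))) *
        ENNReal.ofReal ((A0 * K' + 2 * Cf) * (1 + T) ^ (1 + θ / 2)) := by gcongr
    _ = ENNReal.ofReal ((N : ℝ) ^ (-(2 * s / 3)) * ((A0 * K' + 2 * Cf) * (1 + T) ^ (1 + θ / 2))) :=
        (ENNReal.ofReal_mul (by positivity)).symm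
    _ ≤ _ := by
        apply ENNReal.ofReal_le_ofReal
        have hb : (N : ℝ) ^ (-(2 * s / 3)) ≤ 2 ^ (2 * δ / 3) * (2 ^ θ * (1 + T) ^ (-θ)) := by
          calc (N : ℝ) ^ (-(2 * s / 3)) ≤ (N : ℝ) ^ (-(2 * δ / 3)) :=
                Real.rpow_le_rpow_of_exponent_le hNr (by linarith)
            _ ≤ (T ^ (1 / (2 * k : ℝ)) / 2) ^ (-(2 * δ / 3)) := by
                apply Real.rpow_le_rpow_of_nonpos (by positivity) _ (by
                  have : 0 < 2 * δ / 3 := by positivity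
                  linarith)
                have := NT_low (k := k) hT
                linarith
            _ = 2 ^ (2 * δ / 3) * T ^ (-θ) := by
                rw [Real.div_rpow (by positivity) (by norm_num), ← Real.rpow_mul (by linarith),
                  Real.rpow_neg (by norm_num : (0:ℝ) ≤ 2), div_inv_eq_mul, mul_comm]
                congr 2
                rw [hθ]
                field_simp
            _ ≤ 2 ^ (2 * δ / 3) * (2 ^ θ * (1 + T) ^ (-θ)) := by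
                gcongr
                calc T ^ (-θ) ≤ ((1 + T) / 2) ^ (-θ) :=
                      Real.rpow_le_rpow_of_nonpos (by positivity) (by linarith) (by linarith)
                  _ = _ := by
                      rw [Real.div_rpow (by positivity) (by norm_num),
                        Real.rpow_neg (by norm_num : (0:ℝ) ≤ 2), div_inv_eq_mul, mul_comm]
        calc _ ≤ (2 ^ (2 * δ / 3) * (2 ^ θ * (1 + T) ^ (-θ))) *
              ((A0 * K' + 2 * Cf) * (1 + T) ^ (1 + θ / 2)) := by gcongr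
          _ = 2 ^ (2 * δ / 3) * 2 ^ θ * (A0 * K' + 2 * Cf) * ((1 + T) ^ (-θ) * (1 + T) ^ (1 + θ / 2)) := by
              ring
          _ = _ := by
              have e9 : (1 + T) ^ (-θ) * (1 + T) ^ (1 + θ / 2) = (1 + T) ^ (1 - θ / 2) := by
                rw [← Real.rpow_add (by linarith)]
                congr 1
                ring
              rw [e9]

end

end Pool.Agent.Y757.EM
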