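import Pool.Agent.Y757.LS.Strip

set_option autoImplicit false

/-! Averages against measures on the line; the grid inequality for functions that are subharmonic
in a strip. -/

namespace Pool.Agent.Y757.EM

open MeasureTheory Set Filter Topology Pool.Agent.Y757.LS
open scoped ENNReal

noncomputable section

/-- weight -/
def wt (y : ℝ) : ℝ≥0∞ := ENNReal.ofReal ((1 + |y|) ^ 2)

lemma wt_meas : Measurable wt := by unfold wt; fun_prop

lemma one_le_wt (y : ℝ) : 1 ≤ wt y := by
  unfold wt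
  rw [ENNReal.one_le_ofReal]
  nlinarith [abs_nonneg y]

lemma wt_add (y z : ℝ) : wt (y + z) ≤ wt y * wt z := by
  unfold wt
  rw [← ENNReal.ofReal_mul (by positivity)]
  apply ENNReal.ofReal_le_ofReal
  rw [← mul_pow]
  have h := abs_add_le y z
  have h1 := abs_nonneg y
  have h2 := abs_nonneg z
  apply pow_le_pow_left₀ (by positivity)
  nlinarith [mul_nonneg h1 h2]

/-- average of `f` against `μ` -/
def Kop (μ : Measure ℝ) (f : ℝ → ℝ≥0∞) (t : ℝ) : ℝ≥0∞ := ∫⁻ y, f (t + y) ∂μ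

/-- measures of mass `m` with a finite second moment -/
structure Good (μ : Measure ℝ) (m : ℝ) : Prop where
  mass : μ univ = ENNReal.ofReal m
  mom : ∫⁻ y, wt y ∂μ ≠ ⊤

lemma Good.finite {μ : Measure ℝ} {m : ℝ} (h : Good μ m) : IsFiniteMeasure μ :=
  ⟨by rw [h.mass]; exact ENNReal.ofReal_lt_top⟩

lemma Kop_mono {μ : Measure ℝ} {f g : ℝ → ℝ≥0∞} (h : ∀ t, f t ≤ g t) (t : ℝ) :
    Kop μ f t ≤ Kop μ g t := lintegral_mono fun _ => h _

lemma Kop_meas {μ : Measure ℝ} [SFinite μ] {f : ℝ → ℝ≥0∞} (hf : Measurable f) :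
    Measurable (Kop μ f) := by
  unfold Kop
  have h1 : Measurable (fun p : ℝ × ℝ => f (p.1 + p.2)) := hf.comp (measurable_fst.add measurable_snd)
  exact h1.lintegral_prod_right'

lemma Kop_add_meas (μ ν : Measure ℝ) (f : ℝ → ℝ≥0∞) (t : ℝ) :
    Kop (μ + ν) f t = Kop μ f t + Kop ν f t := by
  unfold Kop; rw [lintegral_add_measure]

lemma Kop_smul (c : ℝ≥0∞) (μ : Measure ℝ) (f : ℝ → ℝ≥0∞) (t : ℝ) :
    Kop (c • μ) f t = c * Kop μ f t := by
  unfold Kop; rw [lintegral_smul_measure, smul_eq_mul]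

lemma Kop_conv (μ ν : Measure ℝ) [SFinite ν] {f : ℝ → ℝ≥0∞} (hf : Measurable f) (t : ℝ) :
    Kop (μ.conv ν) f t = Kop μ (Kop ν f) t := by
  unfold Kop
  rw [Measure.lintegral_conv (by fun_prop)]
  refine lintegral_congr fun x => lintegral_congr fun y => ?_
  rw [add_assoc]

lemma Kop_const (μ : Measure ℝ) (c : ℝ≥0∞) (t : ℝ) : Kop μ (fun _ => c) t = c * μ univ := by
  unfold Kop; rw [lintegral_const]

lemma Kop_add {μ : Measure ℝ} {f g : ℝ → ℝ≥0∞} (hf : Measurable f) (t : ℝ) :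
    Kop μ (fun t => f t + g t) t = Kop μ f t + Kop μ g t := by
  unfold Kop
  exact lintegral_add_left (hf.comp (measurable_const_add t)) (fun y => g (t + y))

lemma Good.conv {μ ν : Measure ℝ} {m n : ℝ} (hm : 0 ≤ m) (h1 : Good μ m) (h2 : Good ν n) :
    Good (μ.conv ν) (m * n) := by
  have := h1.finite
  have := h2.finite
  constructor
  · have : (μ.conv ν) univ = ∫⁻ _, 1 ∂(μ.conv ν) := by rw [lintegral_one]
    rw [this, Measure.lintegral_conv (by fun_prop)]
    simp only [lintegral_one, lintegral_const]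
    rw [h1.mass, h2.mass, ENNReal.ofReal_mul hm, mul_comm]
  · rw [Measure.lintegral_conv wt_meas]
    have hle : ∫⁻ x, ∫⁻ y, wt (x + y) ∂ν ∂μ ≤ ∫⁻ x, wt x * ∫⁻ y, wt y ∂ν ∂μ := by
      refine lintegral_mono fun x => ?_
      rw [← lintegral_const_mul _ wt_meas]
      exact lintegral_mono fun y => wt_add x y
    rw [lintegral_mul_const _ wt_meas] at hle
    exact ne_top_of_le_ne_top (ENNReal.mul_ne_top h1.mom h2.mom) hle

lemma Good.add {μ ν : Measure ℝ} {m n : ℝ} (hm : 0 ≤ m) (hn : 0 ≤ n) (h1 : Good μ m)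
    (h2 : Good ν n) : Good (μ + ν) (m + n) := by
  constructor
  · rw [Measure.add_apply, h1.mass, h2.mass, ENNReal.ofReal_add hm hn]
  · rw [lintegral_add_measure]
    exact ENNReal.add_ne_top.2 ⟨h1.mom, h2.mom⟩

lemma Good.smul {μ : Measure ℝ} {m : ℝ} (h1 : Good μ m) {c : ℝ} (hc : 0 ≤ c) :
    Good (ENNReal.ofReal c • μ) (c * m) := by
  constructor
  · rw [Measure.smul_apply, h1.mass, smul_eq_mul, ENNReal.ofReal_mul hc]
  · rw [lintegral_smul_measure, smul_eq_mul]
    exact ENNReal.mul_ne_top ENNReal.ofReal_ne_top h1.mom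

lemma good_zero : Good (0 : Measure ℝ) 0 := ⟨by simp, by simp⟩

lemma good_dirac : Good (Measure.dirac (0:ℝ)) 1 :=
  ⟨by simp, by rw [lintegral_dirac' _ wt_meas]; unfold wt; exact ENNReal.ofReal_ne_top⟩

lemma Good.congr {μ : Measure ℝ} {m n : ℝ} (h : Good μ m) (e : m = n) : Good μ n := e ▸ h

/-- the kernel measure -/
def kM (h : ℝ) : Measure ℝ := volume.withDensity fun y => ENNReal.ofReal (ker h y)

lemma kM_lintegral {h : ℝ} (hh : 0 < h) {f : ℝ → ℝ≥0∞} (hf : Measurable f) :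
    ∫⁻ y, f y ∂(kM h) = ∫⁻ y, ENNReal.ofReal (ker h y) * f y := by
  unfold kM
  rw [lintegral_withDensity_eq_lintegral_mul _ (by have := (ker_continuous hh).measurable; fun_prop) hf]
  rfl

lemma kM_good {h : ℝ} (hh : 0 < h) : Good (kM h) 1 := by
  constructor
  · have : (kM h) univ = ∫⁻ _, 1 ∂(kM h) := by rw [lintegral_one]
    rw [this, kM_lintegral hh measurable_const]
    simp only [mul_one]
    rw [← ofReal_integral_eq_lintegral_ofReal (ker_integrable hh)
      (Eventually.of_forall fun y => (ker_pos hh y).le), integral_ker hh]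
  · rw [kM_lintegral hh wt_meas]
    have hi : Integrable (fun y : ℝ => (1 + |y|) ^ 2 * ker h y) := by
      refine ker_integrable_of_le hh (A := 2) (by fun_prop) fun y => ?_
      rw [abs_of_nonneg (by positivity)]
      nlinarith [sq_nonneg (1 - |y|), sq_abs y]
    have e : (fun y => ENNReal.ofReal (ker h y) * wt y) =
        fun y => ENNReal.ofReal ((1 + |y|) ^ 2 * ker h y) := by
      funext y
      unfold wt
      rw [mul_comm, ENNReal.ofReal_mul (by positivity)]
    rw [e]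
    exact hi.lintegral_lt_top.ne

instance kM_sf (h : ℝ) : SFinite (kM h) := by unfold kM; infer_instance

/-- growth of the integral over symmetric intervals -/
def PB (T₀ : ℝ) (f : ℝ → ℝ≥0∞) (A p : ℝ) : Prop :=
  ∀ T : ℝ, T₀ ≤ T → ∫⁻ t in Icc (-T) T, f t ≤ ENNReal.ofReal (A * (1 + T) ^ p)

section
variable {T₀ : ℝ}

lemma PB.mono {f g : ℝ → ℝ≥0∞} {A p : ℝ} (h : PB T₀ f A p) (hg : ∀ t, g t ≤ f t) : PB T₀ g A p :=
  fun T hT => (lintegral_mono fun t => hg t).trans (h T hT)

lemma PB.mono_const (h0 : 0 ≤ T₀) {f : ℝ → ℝ≥0∞} {A B p : ℝ} (h : PB T₀ f A p) (hAB : A ≤ B) :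
    PB T₀ f B p :=
  fun T hT => (h T hT).trans (ENNReal.ofReal_le_ofReal
    (mul_le_mul_of_nonneg_right hAB (Real.rpow_nonneg (by linarith) _)))

lemma PB.add (h0 : 0 ≤ T₀) {f g : ℝ → ℝ≥0∞} {A B p : ℝ} (hA : 0 ≤ A) (hB : 0 ≤ B)
    (hf : PB T₀ f A p) (hg : PB T₀ g B p) (hm : Measurable f) :
    PB T₀ (fun t => f t + g t) (A + B) p := by
  intro T hT
  rw [lintegral_add_left hm]
  have h0 : 0 ≤ (1 + T) ^ p := Real.rpow_nonneg (by linarith) _
  rw [add_mul, ENNReal.ofReal_add (mul_nonneg hA h0) (mul_nonneg hB h0)]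
  exact add_le_add (hf T hT) (hg T hT)

lemma PB.const_mul {f : ℝ → ℝ≥0∞} {A p : ℝ} (hf : PB T₀ f A p) {c : ℝ} (hc : 0 ≤ c) :
    PB T₀ (fun t => ENNReal.ofReal c * f t) (c * A) p := by
  intro T hT
  rw [lintegral_const_mul' _ _ ENNReal.ofReal_ne_top, mul_assoc, ENNReal.ofReal_mul hc]
  gcongr
  exact hf T hT

lemma PB_const (h0 : 0 ≤ T₀) {c p : ℝ} (hc : 0 ≤ c) (hp : 1 ≤ p) :
    PB T₀ (fun _ => ENNReal.ofReal c) (2 * c) p := by
  intro T hT
  rw [setLIntegral_const, Real.volume_Icc, ← ENNReal.ofReal_mul hc]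
  apply ENNReal.ofReal_le_ofReal
  have h1 : (1 + T) ^ (1:ℝ) ≤ (1 + T) ^ p := Real.rpow_le_rpow_of_exponent_le (by linarith) hp
  rw [Real.rpow_one] at h1
  nlinarith [mul_nonneg hc (sub_nonneg.2 h1)]

lemma PB.kop (h0 : 0 ≤ T₀) {μ : Measure ℝ} {m : ℝ} (hμ : Good μ m) {f : ℝ → ℝ≥0∞}
    (hf : Measurable f) {A p : ℝ} (hA : 0 ≤ A) (hp0 : 0 ≤ p) (hp : p ≤ 2) (h : PB T₀ f A p) :
    PB T₀ (Kop μ f) (A * (∫⁻ y, wt y ∂μ).toReal) p := by
  have := hμ.finite
  intro T hT'
  have hT : 0 ≤ T := h0.trans hT'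
  unfold Kop
  have hm : Measurable (fun q : ℝ × ℝ => f (q.1 + q.2)) := hf.comp (measurable_fst.add measurable_snd)
  rw [lintegral_lintegral_swap hm.aemeasurable]
  have key : ∀ y : ℝ, ∫⁻ t in Icc (-T) T, f (t + y) ≤
      ENNReal.ofReal (A * (1 + T) ^ p) * wt y := by
    intro y
    have h1 : ∫⁻ t in Icc (-T) T, f (t + y) = ∫⁻ u in Icc (-T + y) (T + y), f u := by
      have h2 := (measurePreserving_add_right volume y).setLIntegral_comp_preimage
        (s := Icc (-T + y) (T + y)) measurableSet_Icc hf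
      have e : (fun x => x + y) ⁻¹' Icc (-T + y) (T + y) = Icc (-T) T := by
        ext x; simp
      rw [e] at h2
      exact h2
    rw [h1]
    have h2 : Icc (-T + y) (T + y) ⊆ Icc (-(T + |y|)) (T + |y|) := by
      intro x hx
      constructor
      · have := neg_abs_le y; linarith [hx.1]
      · have := le_abs_self y; linarith [hx.2]
    have hy := abs_nonneg y
    refine (lintegral_mono_set h2).trans ((h (T + |y|) (by linarith)).trans ?_)
    unfold wt
    rw [← ENNReal.ofReal_mul (mul_nonneg hA (Real.rpow_nonneg (by linarith) _))]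
    apply ENNReal.ofReal_le_ofReal
    rw [mul_assoc]
    refine mul_le_mul_of_nonneg_left ?_ hA
    have h3 : 1 + (T + |y|) ≤ (1 + T) * (1 + |y|) := by nlinarith [mul_nonneg hT hy]
    calc (1 + (T + |y|)) ^ p ≤ ((1 + T) * (1 + |y|)) ^ p :=
          Real.rpow_le_rpow (by positivity) h3 hp0
      _ = (1 + T) ^ p * (1 + |y|) ^ p := Real.mul_rpow (by linarith) (by linarith)
      _ ≤ (1 + T) ^ p * (1 + |y|) ^ (2:ℝ) := by
          refine mul_le_mul_of_nonneg_left ?_ (Real.rpow_nonneg (by linarith) _)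
          exact Real.rpow_le_rpow_of_exponent_le (by linarith) hp
      _ = (1 + T) ^ p * (1 + |y|) ^ 2 := by rw [Real.rpow_two]
  refine (lintegral_mono key).trans ?_
  rw [lintegral_const_mul _ wt_meas, mul_assoc A, mul_comm (∫⁻ y, wt y ∂μ).toReal,
    ← mul_assoc, ENNReal.ofReal_mul (mul_nonneg hA (Real.rpow_nonneg (by linarith) _)),
    ENNReal.ofReal_toReal hμ.mom]

end

/-- functions with the sub-mean value property in a strip -/
def Sub (u : ℝ → ℝ → ℝ≥0∞) (A B : ℝ) : Prop :=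
  (∀ s, Measurable (u s)) ∧ ∀ s h t, 0 < h → A ≤ s - h → s + h ≤ B →
    u s t ≤ ENNReal.ofReal (1 / 2) * Kop (kM h) (u (s - h)) t +
      ENNReal.ofReal (1 / 2) * Kop (kM h) (u (s + h)) t

lemma kM_mom {h H : ℝ} (hh : 0 < h) (hH : h ≤ H) :
    ∫⁻ y, wt y ∂(kM h) ≤ ENNReal.ofReal (2 + 2 * C0 * H ^ 2) := by
  rw [kM_lintegral hh wt_meas]
  have hi : Integrable (fun y : ℝ => (2 + 2 * (0 + y) ^ 2) * ker h y) := by
    refine ker_integrable_of_le hh (A := 2) (by fun_prop) fun y => ?_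
    rw [abs_of_nonneg (by positivity)]
    nlinarith
  calc _ ≤ ∫⁻ y, ENNReal.ofReal ((2 + 2 * (0 + y) ^ 2) * ker h y) := by
        refine lintegral_mono fun y => ?_
        unfold wt
        rw [mul_comm, ← ENNReal.ofReal_mul (by positivity)]
        apply ENNReal.ofReal_le_ofReal
        have := ker_pos hh y
        gcongr
        nlinarith [sq_nonneg (1 - |y|), sq_abs y]
    _ = ENNReal.ofReal (∫ y, (2 + 2 * (0 + y) ^ 2) * ker h y) :=
        (ofReal_integral_eq_lintegral_ofReal hi (Eventually.of_forall fun y => by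
          have := ker_pos hh y; positivity)).symm
    _ ≤ _ := by
        rw [integral_quad_ker hh]
        apply ENNReal.ofReal_le_ofReal
        have h0 := C0_nonneg
        have : h ^ 2 ≤ H ^ 2 := by gcongr
        nlinarith [mul_le_mul_of_nonneg_left this h0]

lemma conv_mom {μ ν : Measure ℝ} [SFinite ν] {a b : ℝ≥0∞} (h1 : ∫⁻ y, wt y ∂μ ≤ a)
    (h2 : ∫⁻ y, wt y ∂ν ≤ b) : ∫⁻ y, wt y ∂(μ.conv ν) ≤ a * b := by
  rw [Measure.lintegral_conv wt_meas]
  have hle : ∫⁻ x, ∫⁻ y, wt (x + y) ∂ν ∂μ ≤ ∫⁻ x, wt x * ∫⁻ y, wt y ∂ν ∂μ := by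
    refine lintegral_mono fun x => ?_
    rw [← lintegral_const_mul _ wt_meas]
    exact lintegral_mono fun y => wt_add x y
  rw [lintegral_mul_const _ wt_meas] at hle
  exact hle.trans (mul_le_mul' h1 h2)

/-- the grid inequality -/
theorem grid (H : ℝ) : ∃ K : ℝ≥0∞, K ≠ ⊤ ∧ ∀ n : ℕ, ∀ ℓ : ℝ, 0 < ℓ → 2 ^ n * ℓ ≤ H →
    ∃ μ : ℕ → Measure ℝ,
    (∀ q : ℕ, q ≤ 2 ^ n → Good (μ q) (1 - q / 2 ^ n) ∧ ∫⁻ y, wt y ∂(μ q) ≤ K ^ n) ∧
    ∀ (u : ℝ → ℝ → ℝ≥0∞) (A B a : ℝ) (C : ℝ≥0∞), Sub u A B → A ≤ a → a + 2 ^ n * ℓ ≤ B →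
      (∀ t, u (a + 2 ^ n * ℓ) t ≤ C) → ∀ q : ℕ, q ≤ 2 ^ n → ∀ t, u (a + q * ℓ) t ≤ Kop (μ q) (u a) t + C := by
  refine ⟨max 1 (ENNReal.ofReal (2 + 2 * C0 * H ^ 2)), ?_, fun n => ?_⟩
  · rw [Ne, max_eq_top, not_or]
    exact ⟨ENNReal.one_ne_top, ENNReal.ofReal_ne_top⟩
  set K : ℝ≥0∞ := max 1 (ENNReal.ofReal (2 + 2 * C0 * H ^ 2)) with hK
  have hK1 : 1 ≤ K := le_max_left _ _
  induction n with
  | zero =>
    intro ℓ hℓ hℓH
    refine ⟨fun q => if q = 0 then Measure.dirac 0 else 0, ?_, ?_⟩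
    · intro q hq
      rcases Nat.eq_zero_or_pos q with h | h
      · subst h
        refine ⟨by simpa using good_dirac, ?_⟩
        simp only [if_true]
        rw [lintegral_dirac' _ wt_meas]
        simp [wt]
      · have : q = 1 := by simpa using le_antisymm hq h
        subst this
        exact ⟨by simpa using good_zero, by simp⟩
    · intro u A B a C hu hA hB hC q hq t
      rcases Nat.eq_zero_or_pos q with h | h
      · subst h
        simp only [if_true, Nat.cast_zero, zero_mul, add_zero]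
        have h1 : Kop (Measure.dirac 0) (u a) t = u a t := by
          unfold Kop
          have h2 := lintegral_dirac' (0:ℝ) ((hu.1 a).comp (measurable_const_add t))
          simp only [Function.comp_def, add_zero] at h2
          exact h2
        rw [h1]
        exact le_self_add
      · have : q = 1 := by simpa using le_antisymm hq h
        subst this
        have := hC t
        simp only [pow_zero, one_mul] at this
        simp only [Nat.cast_one, one_mul]
        exact this.trans le_add_self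
  | succ n ih =>
    intro ℓ hℓ hℓH
    obtain ⟨μ, hμ, H0⟩ := ih (2 * ℓ) (by positivity) (by rw [pow_succ] at hℓH; linarith)
    have hℓ1 : ℓ ≤ H := by
      refine le_trans ?_ hℓH
      have : (1:ℝ) ≤ 2 ^ (n + 1) := one_le_pow₀ (by norm_num)
      nlinarith
    have hkm : ∫⁻ y, wt y ∂(kM ℓ) ≤ K := (kM_mom hℓ hℓ1).trans (le_max_right _ _)
    set μ' : ℕ → Measure ℝ := fun q => if q % 2 = 0 then μ (q / 2) else
      ENNReal.ofReal (1 / 2) • ((kM ℓ).conv (μ (q / 2))) +
        ENNReal.ofReal (1 / 2) • ((kM ℓ).conv (μ (q / 2 + 1))) with hμ'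
    have hn0 : (0:ℝ) < 2 ^ n := by positivity
    have epow : (2:ℝ) ^ (n + 1) = 2 * 2 ^ n := by rw [pow_succ]; ring
    refine ⟨μ', ?_, ?_⟩
    · intro q hq
      have hdiv := Nat.div_add_mod q 2
      rcases Nat.mod_two_eq_zero_or_one q with h | h
      · rw [hμ']
        simp only [h, if_true]
        have h1 : q / 2 ≤ 2 ^ n := by rw [pow_succ] at hq; omega
        refine ⟨(hμ _ h1).1.congr ?_, (hμ _ h1).2.trans (pow_le_pow_right₀ hK1 (by omega))⟩
        have e : (q : ℝ) = 2 * (q / 2 : ℕ) := by exact_mod_cast (by omega : q = 2 * (q / 2))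
        rw [epow, e]
        field_simp
      · rw [hμ']
        simp only [h, one_ne_zero, if_false]
        have h1 : q / 2 + 1 ≤ 2 ^ n := by rw [pow_succ] at hq; omega
        have h1' : q / 2 ≤ 2 ^ n := by omega
        have g1 := ((kM_good hℓ).conv zero_le_one (hμ _ h1').1).smul (c := 1 / 2) (by norm_num)
        have g2 := ((kM_good hℓ).conv zero_le_one (hμ _ h1).1).smul (c := 1 / 2) (by norm_num)
        have p1 : (0:ℝ) ≤ 1 - (q / 2 : ℕ) / 2 ^ n := by
          rw [sub_nonneg, div_le_one hn0]; exact_mod_cast h1'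
        have p2 : (0:ℝ) ≤ 1 - (q / 2 + 1 : ℕ) / 2 ^ n := by
          rw [sub_nonneg, div_le_one hn0]; exact_mod_cast h1
        refine ⟨(g1.add (by positivity) (by positivity) g2).congr ?_, ?_⟩
        · have e : (q : ℝ) = 2 * (q / 2 : ℕ) + 1 := by exact_mod_cast (by omega : q = 2 * (q / 2) + 1)
          rw [epow, e]
          push_cast
          field_simp
          ring
        · have f1 := (hμ _ h1).1.finite
          have f2 := (hμ _ h1').1.finite
          rw [lintegral_add_measure, lintegral_smul_measure, lintegral_smul_measure, smul_eq_mul,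
            smul_eq_mul]
          have c1 := conv_mom hkm (hμ _ h1').2
          have c2 := conv_mom hkm (hμ _ h1).2
          calc _ ≤ ENNReal.ofReal (1 / 2) * (K * K ^ n) + ENNReal.ofReal (1 / 2) * (K * K ^ n) := by
                gcongr
            _ = K ^ (n + 1) := by
                rw [← add_mul, ← ENNReal.ofReal_add (by norm_num) (by norm_num), pow_succ, mul_comm K]
                norm_num
    · intro u A B a C hu hA hB hC q hq t
      have e2 : a + 2 ^ n * (2 * ℓ) = a + 2 ^ (n + 1) * ℓ := by rw [epow]; ring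
      have H' := H0 u A B a C hu hA (by rw [e2]; exact hB) (by rw [e2]; exact hC)
      have hdiv := Nat.div_add_mod q 2
      rcases Nat.mod_two_eq_zero_or_one q with h | h
      · have h1 : q / 2 ≤ 2 ^ n := by rw [pow_succ] at hq; omega
        have h2 := H' _ h1 t
        have e : (q : ℝ) = 2 * (q / 2 : ℕ) := by exact_mod_cast (by omega : q = 2 * (q / 2))
        have e3 : a + (q / 2 : ℕ) * (2 * ℓ) = a + q * ℓ := by rw [e]; ring
        rw [e3] at h2
        simp only [hμ', h, if_true]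
        exact h2
      · have h1 : q / 2 + 1 ≤ 2 ^ n := by rw [pow_succ] at hq; omega
        have h1' : q / 2 ≤ 2 ^ n := by omega
        have f1 := (hμ _ h1).1.finite
        have f2 := (hμ _ h1').1.finite
        have e : (q : ℝ) = 2 * (q / 2 : ℕ) + 1 := by exact_mod_cast (by omega : q = 2 * (q / 2) + 1)
        have hq0 : (0:ℝ) ≤ (q / 2 : ℕ) := by positivity
        have hq1 : ((q / 2 : ℕ) : ℝ) + 1 ≤ 2 ^ n := by exact_mod_cast h1
        have h3 := hu.2 (a + q * ℓ) ℓ t hℓ (by rw [e]; nlinarith) (by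
          have : a + q * ℓ + ℓ ≤ a + 2 ^ (n + 1) * ℓ := by
            rw [e, epow]; nlinarith
          exact this.trans hB)
        have eL : a + q * ℓ - ℓ = a + (q / 2 : ℕ) * (2 * ℓ) := by rw [e]; ring
        have eR : a + q * ℓ + ℓ = a + (q / 2 + 1 : ℕ) * (2 * ℓ) := by rw [e]; push_cast; ring
        rw [eL, eR] at h3
        refine h3.trans ?_
        have b1 : Kop (kM ℓ) (u (a + (q / 2 : ℕ) * (2 * ℓ))) t ≤
            Kop (kM ℓ) (Kop (μ (q / 2)) (u a)) t + C := by
          refine (Kop_mono (H' _ h1') t).trans ?_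
          rw [Kop_add (Kop_meas (hu.1 a)), Kop_const, (kM_good hℓ).mass]
          simp
        have b2 : Kop (kM ℓ) (u (a + (q / 2 + 1 : ℕ) * (2 * ℓ))) t ≤
            Kop (kM ℓ) (Kop (μ (q / 2 + 1)) (u a)) t + C := by
          refine (Kop_mono (H' _ h1) t).trans ?_
          rw [Kop_add (Kop_meas (hu.1 a)), Kop_const, (kM_good hℓ).mass]
          simp
        simp only [hμ', h, one_ne_zero, if_false]
        rw [Kop_add_meas, Kop_smul, Kop_smul, Kop_conv _ _ (hu.1 a), Kop_conv _ _ (hu.1 a)]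
        calc _ ≤ ENNReal.ofReal (1 / 2) * (Kop (kM ℓ) (Kop (μ (q / 2)) (u a)) t + C) +
            ENNReal.ofReal (1 / 2) * (Kop (kM ℓ) (Kop (μ (q / 2 + 1)) (u a)) t + C) := by gcongr
          _ = _ := by
            rw [mul_add, mul_add]
            have e4 : ENNReal.ofReal (1 / 2) * C + ENNReal.ofReal (1 / 2) * C = C := by
              rw [← add_mul, ← ENNReal.ofReal_add (by norm_num) (by norm_num)]
              norm_num
            calc _ = (ENNReal.ofReal (1 / 2) * Kop (kM ℓ) (Kop (μ (q / 2)) (u a)) t +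
                  ENNReal.ofReal (1 / 2) * Kop (kM ℓ) (Kop (μ (q / 2 + 1)) (u a)) t) +
                  (ENNReal.ofReal (1 / 2) * C + ENNReal.ofReal (1 / 2) * C) := by ring
              _ = _ := by rw [e4]

/-- Jensen -/
theorem jensen {α : Type*} [MeasurableSpace α] {ρ : Measure α} {m : ℝ} (hm : 0 < m)
    (hρ : ρ univ = ENNReal.ofReal m) {f : α → ℝ} (hf : Measurable f) (hf0 : ∀ x, 0 ≤ f x)
    {c X C : ℝ} (hc : 0 < c) (hC : 0 ≤ C)
    (hX : ENNReal.ofReal X ≤ ∫⁻ x, ENNReal.ofReal (f x) ∂ρ + ENNReal.ofReal C) :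
    ENNReal.ofReal (Real.exp (c * X)) ≤
      ENNReal.ofReal (Real.exp (c * C) / m) * ∫⁻ x, ENNReal.ofReal (Real.exp (c * m * f x)) ∂ρ := by
  have : IsFiniteMeasure ρ := ⟨by rw [hρ]; exact ENNReal.ofReal_lt_top⟩
  have hρ0 : ρ ≠ 0 := by
    intro h
    rw [h] at hρ
    simp at hρ
    linarith
  have : NeZero ρ := ⟨hρ0⟩
  by_cases htop : ∫⁻ x, ENNReal.ofReal (Real.exp (c * m * f x)) ∂ρ = ⊤
  · rw [htop, ENNReal.mul_top]
    · exact le_top
    · rw [Ne, ENNReal.ofReal_eq_zero, not_le]; positivity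
  have hcm : 0 < c * m := by positivity
  have he : Integrable (fun x => Real.exp (c * m * f x)) ρ := by
    refine ⟨by fun_prop, ?_⟩
    rw [hasFiniteIntegral_iff_ofReal (Eventually.of_forall fun x => (Real.exp_pos _).le)]
    exact lt_top_iff_ne_top.2 htop
  have hfi : Integrable f ρ := by
    refine (he.const_mul (1 / (c * m))).mono' hf.aestronglyMeasurable (Eventually.of_forall fun x => ?_)
    rw [Real.norm_of_nonneg (hf0 x), one_div, ← div_eq_inv_mul, le_div_iff₀ hcm]
    have := Real.add_one_le_exp (c * m * f x)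
    linarith
  rw [← ofReal_integral_eq_lintegral_ofReal he (Eventually.of_forall fun x => (Real.exp_pos _).le),
    ← ENNReal.ofReal_mul (by positivity)]
  rw [← ofReal_integral_eq_lintegral_ofReal hfi (Eventually.of_forall hf0),
    ← ENNReal.ofReal_add (integral_nonneg hf0) hC] at hX
  have hX' : X ≤ ∫ x, f x ∂ρ + C :=
    (ENNReal.ofReal_le_ofReal_iff (add_nonneg (integral_nonneg hf0) hC)).1 hX
  apply ENNReal.ofReal_le_ofReal
  have hj := convexOn_exp.map_average_le (μ := ρ) (f := fun x => c * m * f x)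
    Real.continuous_exp.continuousOn isClosed_univ (Eventually.of_forall fun x => mem_univ _)
    (hfi.const_mul _) he
  have hr : ρ.real univ = m := by
    rw [Measure.real, hρ, ENNReal.toReal_ofReal hm.le]
  rw [average_eq, average_eq, hr, smul_eq_mul, smul_eq_mul, integral_const_mul] at hj
  have e1 : m⁻¹ * (c * m * ∫ x, f x ∂ρ) = c * ∫ x, f x ∂ρ := by field_simp
  rw [e1] at hj
  calc Real.exp (c * X) ≤ Real.exp (c * C + c * ∫ x, f x ∂ρ) := by
        apply Real.exp_le_exp.2; nlinarith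
    _ = Real.exp (c * C) * Real.exp (c * ∫ x, f x ∂ρ) := Real.exp_add _ _
    _ ≤ Real.exp (c * C) * (m⁻¹ * ∫ x, Real.exp (c * m * f x) ∂ρ) :=
        mul_le_mul_of_nonneg_left hj (Real.exp_pos _).le
    _ = _ := by rw [div_eq_mul_inv]; ring

end

end Pool.Agent.Y757.EM
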