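import Pool.Agent.Y757.EM.Main
import Pool.Agent.Y757.LS.Crit

set_option autoImplicit false

/-! The Lindelöf hypothesis and the exponential moments. -/

namespace Pool.Agent.Y757.EM

open MeasureTheory Set Filter Topology Pool.Agent.Y757.LS Real ZU
open scoped ENNReal

noncomputable section

/-- the hypothesis from the Lindelöf hypothesis -/
theorem hyp_of_LH (h : Exponent 0) {k : ℕ} (hk : 1 ≤ k) : HypK k := by
  intro ε hε
  have hk0 : (0:ℝ) < k := by exact_mod_cast hk
  obtain ⟨C, hC⟩ := h (ε / (2 * k)) (by positivity)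
  set C' := max C 0 with hC'
  have hC'0 : 0 ≤ C' := le_max_right _ _
  refine ⟨2 * C' ^ (2 * k), by positivity, fun T hT => ?_⟩
  calc ∫⁻ t in Icc (-T) T, ENNReal.ofReal (‖GG (pt 0 t)‖ ^ (2 * k))
      ≤ ∫⁻ t in Icc (-T) T, ENNReal.ofReal (C' ^ (2 * k) * (1 + T) ^ ε) := by
        refine setLIntegral_mono' measurableSet_Icc fun t ht => ENNReal.ofReal_le_ofReal ?_
        have hne : pt 0 t ≠ 1 := by
          intro h
          have := congrArg Complex.re h
          rw [pt_re, Complex.one_re] at this
          norm_num at this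
        have h1 : ‖GG (pt 0 t)‖ ≤ Z t := by
          rw [GG_of_ne hne, norm_mul, Z_eq]
          exact mul_le_of_le_one_left (norm_nonneg _) (ratio_le (by rw [pt_re]; norm_num))
        have h2 : |t| ≤ T := abs_le.2 ht
        have h3 : Z t ≤ C' * (1 + T) ^ (ε / (2 * k)) := by
          refine (hC t).trans ?_
          rw [zero_add]
          have h0 := abs_nonneg t
          calc C * (1 + |t|) ^ (ε / (2 * k)) ≤ C' * (1 + |t|) ^ (ε / (2 * k)) := by
                have : 0 ≤ (1 + |t|) ^ (ε / (2 * k)) := by positivity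
                exact mul_le_mul_of_nonneg_right (le_max_left _ _) this
            _ ≤ _ := by gcongr
        calc ‖GG (pt 0 t)‖ ^ (2 * k) ≤ (C' * (1 + T) ^ (ε / (2 * k))) ^ (2 * k) := by
              gcongr
              exact h1.trans h3
          _ = C' ^ (2 * k) * (1 + T) ^ ε := by
              rw [mul_pow, ← Real.rpow_natCast ((1 + T) ^ (ε / (2 * k))), ← Real.rpow_mul (by linarith)]
              congr 2
              push_cast
              field_simp
    _ = ENNReal.ofReal (C' ^ (2 * k) * (1 + T) ^ ε * (T - -T)) := by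
        rw [setLIntegral_const, Real.volume_Icc, ← ENNReal.ofReal_mul (by positivity)]
    _ ≤ _ := by
        apply ENNReal.ofReal_le_ofReal
        rw [Real.rpow_add (by linarith), Real.rpow_one]
        have h4 : 0 ≤ C' ^ (2 * k) * (1 + T) ^ ε := by positivity
        nlinarith

/-- exponential functions of `J` are locally integrable -/
lemma expJ_ii {c : ℝ} (hc : 0 ≤ c) {T : ℝ} (hT : 1 ≤ T) :
    IntervalIntegrable (fun t => Real.exp (c * JJ t)) volume 1 T := by
  obtain ⟨C, hC, hJ⟩ := JJ_le
  obtain ⟨D, hD, hv⟩ := vv_upper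
  have hW : ∀ t ∈ Ioc 1 T, WW t ≤ 3 / 2 * (D + 4 * Real.log (1 + T)) := by
    intro t ht
    unfold WW
    have h1 := intervalIntegral.integral_mono_on (by norm_num : (0:ℝ) ≤ 3/2)
      (vv_int (a := 0) (b := 3/2) (t := t) (by norm_num) (by norm_num) (by norm_num))
      (intervalIntegrable_const (c := D + 4 * Real.log (1 + T))) (fun s hs => by
        refine (hv s t (by linarith [hs.1]) (by linarith [hs.2])).trans ?_
        have h2 : |t| ≤ T := by rw [abs_of_pos (by linarith [ht.1])]; exact ht.2
        have h3 : Real.log (1 + |t|) ≤ Real.log (1 + T) :=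
          Real.log_le_log (by have := abs_nonneg t; linarith) (by linarith)
        linarith)
    rw [intervalIntegral.integral_const, smul_eq_mul, sub_zero] at h1
    exact h1
  rw [intervalIntegrable_iff_integrableOn_Ioc_of_le hT]
  refine Integrable.mono' (g := fun _ => Real.exp (c * (3 / 2 * (D + 4 * Real.log (1 + T)) + C)))
    (integrable_const _) (Real.measurable_exp.comp (JJ_meas.const_mul c)).aestronglyMeasurable ?_
  rw [ae_restrict_iff' measurableSet_Ioc]
  refine Eventually.of_forall fun t ht => ?_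
  rw [Real.norm_of_nonneg (Real.exp_pos _).le]
  apply Real.exp_le_exp.2
  have := hJ t ht.1.le
  have := hW t ht
  gcongr
  linarith

lemma int_exp_sq : ∃ I : ℝ, 0 ≤ I ∧ ∫⁻ R in Ioi (0:ℝ), ENNReal.ofReal (Real.exp (-R) * (1 + R) ^ 2) = ENNReal.ofReal I := by
  have h1 : IntegrableOn (fun R : ℝ => Real.exp (-R) * (1 + R) ^ 2) (Ioi 0) := by
    have h2 := (integrable_sq_exp (a := 1) one_pos).integrableOn (s := Ioi (0:ℝ))
    refine Integrable.mono' (h2.const_mul 2) (by fun_prop) ?_
    rw [ae_restrict_iff' measurableSet_Ioi]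
    refine Eventually.of_forall fun R hR => ?_
    have hR0 : 0 < R := hR
    rw [Real.norm_of_nonneg (by positivity), abs_of_pos hR0]
    have h3 := Real.exp_pos (-R)
    rw [neg_one_mul]
    nlinarith [sq_nonneg (1 - R)]
  refine ⟨∫ R in Ioi (0:ℝ), Real.exp (-R) * (1 + R) ^ 2, setIntegral_nonneg measurableSet_Ioi fun R _ => by positivity, ?_⟩
  rw [ofReal_integral_eq_lintegral_ofReal h1 (Eventually.of_forall fun R => by positivity)]

/-- pointwise bounds of averages over the kernel -/
lemma Kop_pt {F : ℝ → ℝ≥0∞} (hF : Measurable F) {A p : ℝ} (hA : 0 ≤ A) (hp0 : 0 ≤ p) (hp : p ≤ 2)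
    (h : PB 0 F A p) {H : ℝ} (hH : 0 < H) (hH1 : H ≤ 1) :
    ∃ B : ℝ, 0 ≤ B ∧ ∀ t : ℝ, Kop (kM H) F t ≤ ENNReal.ofReal (B * (1 + |t|) ^ p) := by
  obtain ⟨I, hI, hIe⟩ := int_exp_sq
  refine ⟨1 / H * (A * I), by positivity, fun t => ?_⟩
  have ht := abs_nonneg t
  have hFm2 : Measurable (fun y => F (t + y)) := hF.comp (measurable_const_add t)
  unfold Kop
  rw [kM_lintegral hH hFm2]
  have hk : ∀ y : ℝ, ENNReal.ofReal (LS.ker H y) ≤ ENNReal.ofReal (1 / H) *
      ∫⁻ R in Ioi (0:ℝ), (if |y| ≤ R then ENNReal.ofReal (Real.exp (-R)) else 0) := by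
    intro y
    have hy := abs_nonneg y
    have h1 : ∫⁻ R in Ioi (0:ℝ), (if |y| ≤ R then ENNReal.ofReal (Real.exp (-R)) else 0) ≥
        ENNReal.ofReal (Real.exp (-|y|)) := by
      have h2 : ENNReal.ofReal (Real.exp (-|y|)) = ∫⁻ R in Ioi |y|, ENNReal.ofReal (Real.exp (-R)) := by
        rw [← integral_exp_neg_Ioi |y|]
        exact ofReal_integral_eq_lintegral_ofReal (integrableOn_exp_neg_Ioi |y|)
          (Eventually.of_forall fun R => (Real.exp_pos _).le)
      rw [h2]
      calc ∫⁻ R in Ioi |y|, ENNReal.ofReal (Real.exp (-R)) =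
            ∫⁻ R in Ioi |y|, (if |y| ≤ R then ENNReal.ofReal (Real.exp (-R)) else 0) := by
            refine setLIntegral_congr_fun measurableSet_Ioi fun R hR => ?_
            have : |y| < R := hR
            rw [if_pos this.le]
        _ ≤ _ := lintegral_mono_set (Ioi_subset_Ioi hy)
    refine le_trans ?_ (mul_le_mul' le_rfl h1)
    rw [← ENNReal.ofReal_mul (by positivity)]
    apply ENNReal.ofReal_le_ofReal
    refine (ker_le_exp hH y).trans ?_
    have h3 : 1 ≤ π / (2 * H) := by
      rw [le_div_iff₀ (by positivity)]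
      have := Real.pi_gt_three
      linarith
    gcongr
    nlinarith
  have hmR : Measurable (fun q : ℝ × ℝ => (if |q.1| ≤ q.2 then ENNReal.ofReal (Real.exp (-q.2)) else 0) * F (t + q.1)) := by
    refine Measurable.mul ?_ (hFm2.comp measurable_fst)
    refine Measurable.ite ?_ (by fun_prop) measurable_const
    exact measurableSet_le (by fun_prop) measurable_snd
  calc ∫⁻ y, ENNReal.ofReal (LS.ker H y) * F (t + y)
      ≤ ∫⁻ y, ENNReal.ofReal (1 / H) * ∫⁻ R in Ioi (0:ℝ),
          (if |y| ≤ R then ENNReal.ofReal (Real.exp (-R)) else 0) * F (t + y) := by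
        refine lintegral_mono fun y => ?_
        have hmi : Measurable (fun R : ℝ => (if |y| ≤ R then ENNReal.ofReal (Real.exp (-R)) else 0)) := by
          refine Measurable.ite (measurableSet_le measurable_const measurable_id) (by fun_prop) measurable_const
        rw [lintegral_mul_const _ hmi, ← mul_assoc]
        exact mul_le_mul' (hk y) le_rfl
    _ = ENNReal.ofReal (1 / H) * ∫⁻ R in Ioi (0:ℝ), ∫⁻ y,
          (if |y| ≤ R then ENNReal.ofReal (Real.exp (-R)) else 0) * F (t + y) := by
        rw [lintegral_const_mul' _ _ ENNReal.ofReal_ne_top]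
        congr 1
        rw [lintegral_lintegral_swap]
        exact hmR.aemeasurable
    _ ≤ ENNReal.ofReal (1 / H) * ∫⁻ R in Ioi (0:ℝ), ENNReal.ofReal (A * (1 + |t|) ^ p) *
          ENNReal.ofReal (Real.exp (-R) * (1 + R) ^ 2) := by
        refine mul_le_mul' le_rfl ?_
        refine setLIntegral_mono' measurableSet_Ioi fun R hR => ?_
        have hR0 : 0 < R := hR
        calc ∫⁻ y, (if |y| ≤ R then ENNReal.ofReal (Real.exp (-R)) else 0) * F (t + y)
            = ∫⁻ y in Icc (-R) R, ENNReal.ofReal (Real.exp (-R)) * F (t + y) := by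
              rw [← lintegral_indicator measurableSet_Icc]
              refine lintegral_congr fun y => ?_
              by_cases hy : |y| ≤ R
              · rw [if_pos hy, indicator_of_mem (show y ∈ Icc (-R) R from abs_le.1 hy)]
              · rw [if_neg hy, zero_mul, indicator_of_notMem (show y ∉ Icc (-R) R from fun h' => hy (abs_le.2 h'))]
          _ = ENNReal.ofReal (Real.exp (-R)) * ∫⁻ y in Icc (-R) R, F (t + y) :=
              lintegral_const_mul' _ _ ENNReal.ofReal_ne_top
          _ ≤ ENNReal.ofReal (Real.exp (-R)) * ENNReal.ofReal (A * (1 + (|t| + R)) ^ p) := by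
              gcongr
              have h2 : ∫⁻ y in Icc (-R) R, F (t + y) = ∫⁻ u in Icc (t - R) (t + R), F u := by
                have h3 := (measurePreserving_add_left volume t).setLIntegral_comp_preimage
                  (s := Icc (t - R) (t + R)) measurableSet_Icc hF
                have e : (fun x => t + x) ⁻¹' Icc (t - R) (t + R) = Icc (-R) R := by
                  ext x
                  simp only [mem_preimage, mem_Icc]
                  constructor <;> rintro ⟨a, b⟩ <;> constructor <;> linarith
                rw [e] at h3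
                exact h3
              rw [h2]
              refine le_trans (lintegral_mono_set ?_) (h (|t| + R) (by linarith))
              intro x hx
              have a1 := neg_abs_le t
              have a2 := le_abs_self t
              constructor <;> linarith [hx.1, hx.2]
          _ ≤ _ := by
              rw [← ENNReal.ofReal_mul (Real.exp_pos _).le, ← ENNReal.ofReal_mul (by positivity)]
              apply ENNReal.ofReal_le_ofReal
              have h3 : (1 + (|t| + R)) ^ p ≤ (1 + |t|) ^ p * (1 + R) ^ 2 := by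
                calc (1 + (|t| + R)) ^ p ≤ ((1 + |t|) * (1 + R)) ^ p := by
                      apply Real.rpow_le_rpow (by positivity) _ hp0
                      nlinarith [mul_nonneg ht hR0.le]
                  _ = (1 + |t|) ^ p * (1 + R) ^ p := Real.mul_rpow (by positivity) (by positivity)
                  _ ≤ (1 + |t|) ^ p * (1 + R) ^ (2:ℝ) := by
                      gcongr
                      linarith
                  _ = _ := by rw [Real.rpow_two]
              calc Real.exp (-R) * (A * (1 + (|t| + R)) ^ p) ≤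
                    Real.exp (-R) * (A * ((1 + |t|) ^ p * (1 + R) ^ 2)) := by gcongr
                _ = _ := by ring
    _ = _ := by
        rw [lintegral_const_mul' _ _ ENNReal.ofReal_ne_top, hIe, ← ENNReal.ofReal_mul (by positivity),
          ← ENNReal.ofReal_mul (by positivity)]
        congr 1
        ring

/-- the even function of the mean value inequality -/
def Th (h u : ℝ) : ℝ := II (-h) (3/2 - h) u + II h (3/2 + h) u

lemma II_neg (a b u : ℝ) : II a b (-u) = II a b u := by
  unfold II g
  refine intervalIntegral.integral_congr fun s _ => ?_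
  rw [GG_conj]

lemma Th_bd {h : ℝ} (hh : 0 < h) (hh2 : h ≤ 1/2) : ∃ C : ℝ, 0 ≤ C ∧ ∀ u : ℝ, 1 ≤ |u| →
    Th h u ≤ 2 * II 0 (3/2) u + h ^ 2 / 2 * Real.log |u| + C := by
  obtain ⟨C1, hC1, h1⟩ := II_sym
  obtain ⟨C2, hC2, h2⟩ := II_right (η := 1/2) (by norm_num)
  refine ⟨C1 + 2 * C2 + C2, by positivity, fun u hu => ?_⟩
  have h3 := h1 h u hh.le (by linarith) hu
  have e1 := II_split (a := -h) (b := h) (c := 3/2 - h) (by linarith) (by linarith) (by linarith) u
  have e2 := II_split (a := h) (b := 3/2 - h) (c := 3/2 + h) (by linarith) (by linarith) (by linarith) u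
  have e3 := II_split (a := 0) (b := h) (c := 3/2) (by norm_num) hh.le (by linarith) u
  have e4 := II_split (a := h) (b := 3/2 - h) (c := 3/2) (by linarith) (by linarith) (by linarith) u
  have h4 := (abs_le.1 (h2 (3/2 - h) (3/2) u (by linarith) (by linarith) (by norm_num)).1).1
  have h5 := (abs_le.1 (h2 (3/2 - h) (3/2 + h) u (by linarith) (by linarith) (by linarith)).1).2
  have h6 : C2 * (3/2 - (3/2 - h)) ≤ C2 := by nlinarith
  have h7 : C2 * (3/2 + h - (3/2 - h)) ≤ C2 := by nlinarith
  unfold Th
  rw [e1, e2, e3, e4]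
  linarith

/-- bounded exponential moments give pointwise bounds -/
theorem pointwise {c A T₀ : ℝ} (hc : 0 < c)
    (hb : ∀ T : ℝ, T₀ ≤ T → ∫ t in (1:ℝ)..T, Real.exp (c * JJ t) ≤ A * T) {ε : ℝ} (hε : 0 < ε) :
    ∃ T₁ : ℝ, ∀ t : ℝ, T₁ ≤ t → LS.J t ≤ (1 / c + ε) * Real.log t := by
  -- choice of the width
  set h : ℝ := min (1/2) (min (√(2 * ε)) (√(4 / c))) with hh
  have hh0 : 0 < h := lt_min (by norm_num) (lt_min (by positivity) (by positivity))
  have hh2 : h ≤ 1/2 := min_le_left _ _
  have hhε : h ^ 2 ≤ 2 * ε := by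
    have h1 : h ≤ √(2 * ε) := (min_le_right _ _).trans (min_le_left _ _)
    calc h ^ 2 ≤ (√(2 * ε)) ^ 2 := by gcongr
      _ = 2 * ε := Real.sq_sqrt (by positivity)
  have hhc : c * h ^ 2 ≤ 4 := by
    have h1 : h ≤ √(4 / c) := (min_le_right _ _).trans (min_le_right _ _)
    have h2 : h ^ 2 ≤ 4 / c := by
      calc h ^ 2 ≤ (√(4 / c)) ^ 2 := by gcongr
        _ = 4 / c := Real.sq_sqrt (by positivity)
    rw [le_div_iff₀ hc] at h2
    linarith
  obtain ⟨C1, hC1, hT⟩ := Th_bd hh0 hh2
  obtain ⟨C2, hC2, hU⟩ := II_upper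
  have ht0 := tail_nonneg (3/4) 0
  set q : ℝ := c * h ^ 2 / 4 with hq
  have hq0 : 0 ≤ q := by positivity
  have hq1 : q ≤ 1 := by rw [hq]; linarith
  set F : ℝ → ℝ≥0∞ := fun u => ENNReal.ofReal (Real.exp (c * 1 * max (Th h u / 2) 0)) with hF
  have hThm : Measurable (Th h) := (II_measurable _ _).add (II_measurable _ _)
  have hmaxm : Measurable (fun u => max (Th h u / 2) 0) := (hThm.div_const 2).max measurable_const
  have hFm : Measurable F := (Real.measurable_exp.comp (hmaxm.const_mul (c * 1))).ennreal_ofReal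
  have hFsym : ∀ u, F (-u) = F u := by
    intro u
    simp only [hF, Th]
    rw [II_neg, II_neg]
  -- comparison with `JJ`
  have hJI : ∀ u : ℝ, 1 ≤ u → II 0 (3/2) u ≤ JJ u + 8 * tail (3/4) 0 := by
    intro u hu
    have e : Ioi (0:ℝ) = Ioc 0 (3/2) ∪ Ioi (3/2) := (Ioc_union_Ioi_eq_Ioi (by norm_num)).symm
    have hi := lz_int hu
    have h2 : JJ u = (∫ s in Ioc (0:ℝ) (3/2), lz s u) + ∫ s in Ioi (3/2:ℝ), lz s u := by
      unfold JJ
      rw [e]
      exact setIntegral_union (by
        rw [Set.disjoint_left]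
        intro x hx hx2
        exact absurd hx.2 (not_le.2 hx2)) measurableSet_Ioi (lz_ioc hu)
        (hi.mono_set (Ioi_subset_Ioi (by norm_num)))
    have hpr : pr 0 = ∅ := by unfold pr; simp
    have h4 := (Xi_far_int 0 u).2
    have e0 : ∀ s, Xi 0 s u = lz s u := fun s => by unfold Xi; rw [hpr]; simp
    simp only [e0] at h4
    have h5 := norm_integral_le_integral_norm (μ := volume.restrict (Ioi (3/2:ℝ))) (fun s => lz s u)
    simp only [Real.norm_eq_abs] at h5
    have h6 := (abs_le.1 (h5.trans h4)).1
    have h7 := II_le u hu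
    linarith
  set E1 : ℝ := Real.exp (c * (8 * tail (3/4) 0 + C1 / 2)) with hE1
  have hFu : ∀ u : ℝ, 1 ≤ u → ∀ T : ℝ, u ≤ T → F u ≤
      ENNReal.ofReal 1 + ENNReal.ofReal (E1 * T ^ q) * ENNReal.ofReal (Real.exp (c * JJ u)) := by
    intro u hu T hT'
    simp only [hF]
    have hu0 : 0 < u := by linarith
    have hT0 : 0 < T := by linarith
    rw [← ENNReal.ofReal_mul (by positivity), ← ENNReal.ofReal_add (by norm_num) (by positivity)]
    apply ENNReal.ofReal_le_ofReal
    have h3 := hT u (by rw [abs_of_pos hu0]; exact hu)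
    rw [abs_of_pos hu0] at h3
    have h4 := hJI u hu
    have h5 : Real.log u ≤ Real.log T := Real.log_le_log hu0 hT'
    have h6 : Th h u / 2 ≤ JJ u + (8 * tail (3/4) 0 + C1 / 2) + h ^ 2 / 4 * Real.log T := by
      have : h ^ 2 / 4 * Real.log u ≤ h ^ 2 / 4 * Real.log T := by gcongr
      linarith
    rw [mul_one]
    rcases le_total (Th h u / 2) 0 with h7 | h7
    · rw [max_eq_right h7, mul_zero, Real.exp_zero]
      have : 0 ≤ E1 * T ^ q * Real.exp (c * JJ u) := by positivity
      linarith
    · rw [max_eq_left h7]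
      have h8 : Real.exp (c * (Th h u / 2)) ≤ E1 * T ^ q * Real.exp (c * JJ u) := by
        rw [hE1, Real.rpow_def_of_pos hT0, ← Real.exp_add, ← Real.exp_add]
        apply Real.exp_le_exp.2
        calc c * (Th h u / 2) ≤ c * (JJ u + (8 * tail (3/4) 0 + C1 / 2) + h ^ 2 / 4 * Real.log T) := by gcongr
          _ = _ := by rw [hq]; ring
      linarith
  -- the growth bound
  set X : ℝ := max 1 T₀ with hX
  set A' : ℝ := max A 0 with hA'
  have hA'0 : 0 ≤ A' := le_max_right _ _
  set S : ℝ := Real.exp (c * (3 / 2 * (C2 + 4 * Real.log 2))) with hS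
  have hFsmall : ∀ u ∈ Ioc (0:ℝ) 1, F u ≤ ENNReal.ofReal S := by
    intro u hu
    simp only [hF]
    apply ENNReal.ofReal_le_ofReal
    rw [hS, mul_one]
    apply Real.exp_le_exp.2
    refine mul_le_mul_of_nonneg_left ?_ hc.le
    have hl2 : 0 ≤ Real.log 2 := Real.log_nonneg (by norm_num)
    refine max_le ?_ (by positivity)
    have h3 := (hU (-h) (3/2 - h) u (by linarith) (by linarith) (by linarith)).1
    have h4 := (hU h (3/2 + h) u (by linarith) (by linarith) (by linarith)).1
    have h5 : Real.log (1 + |u|) ≤ Real.log 2 := by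
      apply Real.log_le_log (by have := abs_nonneg u; linarith)
      rw [abs_of_pos hu.1]; linarith [hu.2]
    unfold Th
    have e1 : 3/2 - h - -h = 3/2 := by ring
    have e2 : 3/2 + h - h = 3/2 := by ring
    rw [e1] at h3
    rw [e2] at h4
    linarith
  have hPB : ∀ T : ℝ, X ≤ T → ∫⁻ t in Icc (-T) T, F t ≤
      ENNReal.ofReal ((2 * (S + 1 + E1 * A')) * (1 + T) ^ (1 + q)) := by
    intro T hXT
    have hT1 : 1 ≤ T := (le_max_left _ _).trans hXT
    have hT0 : 0 < T := by linarith
    have hTT0 : T₀ ≤ T := (le_max_right _ _).trans hXT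
    refine (sym_int hFsym hFm T).trans ?_
    have e : Ioc (0:ℝ) T = Ioc 0 1 ∪ Ioc 1 T := (Ioc_union_Ioc_eq_Ioc zero_le_one hT1).symm
    have hii := expJ_ii hc.le hT1
    have hio : IntegrableOn (fun t => Real.exp (c * JJ t)) (Ioc 1 T) :=
      (intervalIntegrable_iff_integrableOn_Ioc_of_le hT1).1 hii
    have h3 : ∫⁻ t in Ioc 0 T, F t ≤ ENNReal.ofReal (S + T + E1 * T ^ q * (A' * T)) := by
      rw [e]
      refine (lintegral_union_le _ _ _).trans ?_
      have a1 : ∫⁻ t in Ioc (0:ℝ) 1, F t ≤ ENNReal.ofReal S := by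
        calc _ ≤ ∫⁻ t in Ioc (0:ℝ) 1, ENNReal.ofReal S := setLIntegral_mono' measurableSet_Ioc hFsmall
          _ = ENNReal.ofReal S := by rw [setLIntegral_const, Real.volume_Ioc]; simp
      have a2 : ∫⁻ t in Ioc 1 T, F t ≤ ENNReal.ofReal (T + E1 * T ^ q * (A' * T)) := by
        calc _ ≤ ∫⁻ t in Ioc 1 T, (ENNReal.ofReal 1 +
              ENNReal.ofReal (E1 * T ^ q) * ENNReal.ofReal (Real.exp (c * JJ t))) :=
              setLIntegral_mono' measurableSet_Ioc fun u hu => hFu u hu.1.le T hu.2
          _ = ENNReal.ofReal 1 * ENNReal.ofReal (T - 1) + ENNReal.ofReal (E1 * T ^ q) *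
              ENNReal.ofReal (∫ t in (1:ℝ)..T, Real.exp (c * JJ t)) := by
              rw [lintegral_add_left measurable_const, setLIntegral_const, Real.volume_Ioc,
                lintegral_const_mul' _ _ ENNReal.ofReal_ne_top, intervalIntegral.integral_of_le hT1,
                ofReal_integral_eq_lintegral_ofReal hio (Eventually.of_forall fun t => (Real.exp_pos _).le)]
          _ ≤ ENNReal.ofReal 1 * ENNReal.ofReal (T - 1) + ENNReal.ofReal (E1 * T ^ q) *
              ENNReal.ofReal (A' * T) := by
              gcongr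
              refine (hb T hTT0).trans ?_
              gcongr
              exact le_max_left _ _
          _ ≤ _ := by
              rw [← ENNReal.ofReal_mul (by norm_num), ← ENNReal.ofReal_mul (by positivity),
                ← ENNReal.ofReal_add (by linarith) (by positivity)]
              apply ENNReal.ofReal_le_ofReal
              linarith
      refine (add_le_add a1 a2).trans ?_
      rw [← ENNReal.ofReal_add (by positivity) (by positivity)]
      apply ENNReal.ofReal_le_ofReal
      linarith
    have e2 : (2 : ℝ≥0∞) = ENNReal.ofReal 2 := by simp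
    calc _ ≤ 2 * ENNReal.ofReal (S + T + E1 * T ^ q * (A' * T)) := by gcongr
      _ = ENNReal.ofReal (2 * (S + T + E1 * T ^ q * (A' * T))) := by
          rw [e2, ← ENNReal.ofReal_mul (by norm_num)]
      _ ≤ _ := by
          apply ENNReal.ofReal_le_ofReal
          have b1 : (1:ℝ) ≤ (1 + T) ^ (1 + q) := Real.one_le_rpow (by linarith) (by linarith)
          have b2 : T ≤ (1 + T) ^ (1 + q) := by
            calc T ≤ (1 + T) ^ (1:ℝ) := by rw [Real.rpow_one]; linarith
              _ ≤ _ := Real.rpow_le_rpow_of_exponent_le (by linarith) (by linarith)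
          have b3 : T ^ q * T ≤ (1 + T) ^ (1 + q) := by
            rw [Real.rpow_add (by linarith), Real.rpow_one, mul_comm]
            gcongr
            · linarith
            · linarith
          have b4 : S * 1 ≤ S * (1 + T) ^ (1 + q) := by gcongr
          have b5 : E1 * A' * (T ^ q * T) ≤ E1 * A' * (1 + T) ^ (1 + q) := by gcongr
          nlinarith
  have hPB2 := PB_of_ge (A := 2 * (S + 1 + E1 * A')) (p := 1 + q) (X := X) (by positivity) (by positivity)
    (by have := le_max_left 1 T₀; linarith) hPB
  have hX0 : 0 ≤ X := by have := le_max_left 1 T₀; linarith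
  obtain ⟨B, hB, hK⟩ := Kop_pt hFm (by positivity) (by positivity) (by linarith) hPB2 hh0 (by linarith)
  -- the pointwise inequality
  have hpt : ∀ t : ℝ, 1 ≤ t → Real.exp (c * II 0 (3/2) t) ≤ (B + 1) * (1 + t) ^ (1 + q) := by
    intro t ht
    have hD := D_ineq (a := 0) (b := 3/2) (h := h) hh0 (by linarith) (by norm_num) (by linarith)
      (by linarith) t
    rw [zero_sub, zero_add] at hD
    have j1 := II_ker_integrable (a := -h) (b := 3/2 - h) (h := h) (by linarith) (by linarith) (by linarith) hh0 (by linarith) t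
    have j2 := II_ker_integrable (a := h) (b := 3/2 + h) (h := h) (by linarith) (by linarith) (by linarith) hh0 (by linarith) t
    have hD2 : II 0 (3/2) t ≤ ∫ y, Th h (t + y) / 2 * LS.ker h y := by
      refine hD.trans (le_of_eq ?_)
      rw [← integral_add j1 j2, ← integral_const_mul]
      refine integral_congr_ae (Eventually.of_forall fun y => ?_)
      unfold Th
      ring
    have j3 : Integrable (fun y => Th h (t + y) / 2 * LS.ker h y) := by
      refine ((j1.add j2).const_mul (1/2)).congr (Eventually.of_forall fun y => ?_)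
      unfold Th
      simp only [Pi.add_apply]
      ring
    have j4 : Integrable (fun y => max (Th h (t + y) / 2) 0 * LS.ker h y) := by
      refine j3.pos_part.congr (Eventually.of_forall fun y => ?_)
      have hk := (ker_pos hh0 y).le
      simp only
      rw [max_mul_of_nonneg _ _ hk, zero_mul]
    have hX1 : ENNReal.ofReal (II 0 (3/2) t) ≤ ∫⁻ y, ENNReal.ofReal (max (Th h (t + y) / 2) 0) ∂(kM h) +
        ENNReal.ofReal 0 := by
      rw [ENNReal.ofReal_zero, add_zero]
      have hm' : Measurable (fun y => ENNReal.ofReal (max (Th h (t + y) / 2) 0)) :=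
        (hmaxm.comp (measurable_const_add t)).ennreal_ofReal
      rw [kM_lintegral hh0 hm']
      calc ENNReal.ofReal (II 0 (3/2) t) ≤ ENNReal.ofReal (∫ y, max (Th h (t + y) / 2) 0 * LS.ker h y) := by
            apply ENNReal.ofReal_le_ofReal
            refine hD2.trans (integral_mono j3 j4 fun y => ?_)
            exact mul_le_mul_of_nonneg_right (le_max_left _ _) (ker_pos hh0 y).le
        _ = ∫⁻ y, ENNReal.ofReal (max (Th h (t + y) / 2) 0 * LS.ker h y) :=
            ofReal_integral_eq_lintegral_ofReal j4 (Eventually.of_forall fun y =>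
              mul_nonneg (le_max_right _ _) (ker_pos hh0 y).le)
        _ = _ := by
            refine lintegral_congr fun y => ?_
            rw [mul_comm, ENNReal.ofReal_mul (ker_pos hh0 y).le]
    have hj := jensen (ρ := kM h) (m := 1) one_pos (kM_good hh0).mass
      (f := fun y => max (Th h (t + y) / 2) 0) (hmaxm.comp (measurable_const_add t))
      (fun y => le_max_right _ _) hc le_rfl hX1
    simp only [mul_zero, Real.exp_zero, div_one, ENNReal.ofReal_one, one_mul] at hj
    have h9 : ENNReal.ofReal (Real.exp (c * II 0 (3/2) t)) ≤ ENNReal.ofReal (B * (1 + |t|) ^ (1 + q)) := by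
      refine hj.trans (le_trans (le_of_eq ?_) (hK t))
      unfold Kop
      simp only [hF]
    rw [abs_of_pos (by linarith)] at h9
    have h10 := (ENNReal.ofReal_le_ofReal_iff (by positivity)).1 h9
    have h11 : 0 ≤ (1 + t) ^ (1 + q) := by positivity
    linarith
  -- conclusion
  set D : ℝ := (Real.log (B + 1) + 2 * Real.log 2) / c + 3/2 * Real.log 5 with hD
  have hl5 : 0 ≤ Real.log 5 := Real.log_nonneg (by norm_num)
  have hlB : 0 ≤ Real.log (B + 1) := Real.log_nonneg (by linarith)
  have hl2 : 0 ≤ Real.log 2 := Real.log_nonneg (by norm_num)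
  have hD0 : 0 ≤ D := by positivity
  refine ⟨max 1 (Real.exp (2 * D / ε)), fun t ht => ?_⟩
  have ht1 : 1 ≤ t := (le_max_left _ _).trans ht
  have ht2 : Real.exp (2 * D / ε) ≤ t := (le_max_right _ _).trans ht
  have ht0' : 0 < t := by linarith
  have hlt : 2 * D / ε ≤ Real.log t := (Real.le_log_iff_exp_le ht0').2 ht2
  rw [div_le_iff₀ hε] at hlt
  have hlt0 : 0 ≤ Real.log t := Real.log_nonneg ht1
  have h1 := hpt t ht1
  have h2 := Real.log_le_log (Real.exp_pos _) h1
  rw [Real.log_exp, Real.log_mul (by positivity) (by positivity), Real.log_rpow (by linarith)] at h2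
  have h3 : Real.log (1 + t) ≤ Real.log 2 + Real.log t := by
    rw [← Real.log_mul (by norm_num) (by linarith)]
    exact Real.log_le_log (by linarith) (by linarith)
  have h4 : (1 + q) * Real.log (1 + t) ≤ (1 + q) * (Real.log 2 + Real.log t) := by gcongr
  have h5 : (1 + q) * (Real.log 2 + Real.log t) ≤ 2 * Real.log 2 + (1 + q) * Real.log t := by nlinarith
  have h6 : c * II 0 (3/2) t ≤ Real.log (B + 1) + 2 * Real.log 2 + (1 + q) * Real.log t := by linarith
  have h7 : II 0 (3/2) t ≤ (Real.log (B + 1) + 2 * Real.log 2) / c + (1 + q) / c * Real.log t := by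
    rw [← sub_nonneg]
    have : (Real.log (B + 1) + 2 * Real.log 2) / c + (1 + q) / c * Real.log t - II 0 (3/2) t =
        (Real.log (B + 1) + 2 * Real.log 2 + (1 + q) * Real.log t - c * II 0 (3/2) t) / c := by
      field_simp
    rw [this]
    exact div_nonneg (by linarith) hc.le
  have h8 := (J_close (t := t) (by rw [abs_of_pos ht0']; exact ht1)).2
  have h9 : (1 + q) / c * Real.log t ≤ (1 / c + ε / 2) * Real.log t := by
    refine mul_le_mul_of_nonneg_right ?_ hlt0
    rw [add_div, hq]
    have : c * h ^ 2 / 4 / c = h ^ 2 / 4 := by field_simp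
    rw [this]
    linarith
  have h10 : (1 / c + ε / 2) * Real.log t = (1 / c + ε) * Real.log t - ε / 2 * Real.log t := by ring
  linarith

end

end Pool.Agent.Y757.EM
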