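import Pool.Agent.Y757.EM.Tra

set_option autoImplicit false

/-! The lower bound for the mean value of the horizontal integrals. -/

namespace Pool.Agent.Y757.EM

open MeasureTheory Set Filter Topology Pool.Agent.Y757.LS
open scoped ENNReal

noncomputable section

lemma ker3_low : ∃ κ : ℝ, 0 < κ ∧ ∀ y : ℝ, |y| ≤ 1 → κ ≤ LS.ker 3 y := by
  have hc : ContinuousOn (LS.ker 3) (Icc (-1) 1) := (ker_continuous (by norm_num)).continuousOn
  obtain ⟨y0, _, h⟩ := isCompact_Icc.exists_isMinOn (nonempty_Icc.2 (by norm_num : (-1:ℝ) ≤ 1)) hc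
  refine ⟨LS.ker 3 y0, ker_pos (by norm_num) _, fun y hy => h ?_⟩
  rw [abs_le] at hy
  exact hy

/-- local integrals are controlled by averages over the kernel -/
lemma Lgr_of_ker {f : ℝ → ℝ} (hm : Measurable f) {c₀ : ℝ} (hc₀ : 0 ≤ c₀)
    (h : ∀ v : ℝ, ∫⁻ y, ENNReal.ofReal |f (v + y)| ∂(kM 3) ≤ ENNReal.ofReal (c₀ * (1 + Real.log (1 + |v|)))) :
    ∃ C : ℝ, 0 ≤ C ∧ Lgr f C := by
  obtain ⟨κ, hκ, hk⟩ := ker3_low
  refine ⟨4 * c₀ / (2 * κ), by positivity, fun c R hR => ?_⟩
  have hc := abs_nonneg c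
  have hl : 0 ≤ Real.log (1 + |c|) := Real.log_nonneg (by linarith)
  set g : ℝ → ℝ≥0∞ := fun u => ENNReal.ofReal |f u| with hg
  have hgm : Measurable g := hm.abs.ennreal_ofReal
  have hgm2 : Measurable (fun p : ℝ × ℝ => g (p.1 + p.2)) := hgm.comp (measurable_fst.add measurable_snd)
  set I := ∫⁻ u in Icc (c - R) (c + R), g u with hI
  have h1 : ENNReal.ofReal (2 * κ) * I ≤ ∫⁻ v in Icc (c - R - 1) (c + R + 1), ∫⁻ y, g (v + y) ∂(kM 3) := by
    rw [lintegral_lintegral_swap hgm2.aemeasurable]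
    have hin : ∀ y ∈ Icc (-1:ℝ) 1, I ≤ ∫⁻ v in Icc (c - R - 1) (c + R + 1), g (v + y) := by
      intro y hy
      have h2 := (measurePreserving_add_right volume y).setLIntegral_comp_preimage
        (s := Icc (c - R - 1 + y) (c + R + 1 + y)) measurableSet_Icc hgm
      have e : (fun x => x + y) ⁻¹' Icc (c - R - 1 + y) (c + R + 1 + y) = Icc (c - R - 1) (c + R + 1) := by
        ext x; simp
      rw [e] at h2
      rw [h2]
      exact lintegral_mono_set (Icc_subset_Icc (by linarith [hy.2]) (by linarith [hy.1]))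
    have hmm : Measurable (fun y => ∫⁻ v in Icc (c - R - 1) (c + R + 1), g (v + y)) :=
      hgm2.lintegral_prod_left'
    rw [kM_lintegral (by norm_num) hmm]
    calc ENNReal.ofReal (2 * κ) * I = ∫⁻ y in Icc (-1:ℝ) 1, ENNReal.ofReal κ * I := by
          rw [setLIntegral_const, Real.volume_Icc, mul_comm 2 κ, ENNReal.ofReal_mul hκ.le, mul_assoc,
            mul_assoc, mul_comm (ENNReal.ofReal 2) I]
          norm_num
      _ ≤ ∫⁻ y in Icc (-1:ℝ) 1, ENNReal.ofReal (LS.ker 3 y) *
            ∫⁻ v in Icc (c - R - 1) (c + R + 1), g (v + y) := by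
          refine setLIntegral_mono' measurableSet_Icc fun y hy => ?_
          exact mul_le_mul' (ENNReal.ofReal_le_ofReal (hk y (abs_le.2 hy))) (hin y hy)
      _ ≤ _ := setLIntegral_le_lintegral _ _
  have h2 : ∫⁻ v in Icc (c - R - 1) (c + R + 1), ∫⁻ y, g (v + y) ∂(kM 3) ≤
      ENNReal.ofReal (4 * c₀ * (1 + R) ^ 2 * (1 + Real.log (1 + |c|))) := by
    calc _ ≤ ∫⁻ v in Icc (c - R - 1) (c + R + 1), ENNReal.ofReal (c₀ * (2 + R + Real.log (1 + |c|))) := by
          refine setLIntegral_mono' measurableSet_Icc fun v hv => (h v).trans ?_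
          apply ENNReal.ofReal_le_ofReal
          have hv1 : |v| ≤ |c| + (R + 1) := by
            have h3 : |v - c| ≤ R + 1 := by rw [abs_le]; constructor <;> linarith [hv.1, hv.2]
            have h4 := abs_add_le c (v - c)
            rw [add_sub_cancel] at h4
            linarith
          have h5 : Real.log (1 + |v|) ≤ Real.log (1 + |c|) + (1 + R) := by
            have h6 : 1 + |v| ≤ (1 + |c|) * (1 + (1 + R)) := by nlinarith
            have h7 := Real.log_le_log (by have := abs_nonneg v; linarith) h6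
            rw [Real.log_mul (by linarith) (by linarith)] at h7
            have h8 := log_one_add_le (1 + R) (by linarith)
            linarith
          exact mul_le_mul_of_nonneg_left (by linarith) hc₀
      _ = ENNReal.ofReal (c₀ * (2 + R + Real.log (1 + |c|)) * (2 * (1 + R))) := by
          rw [setLIntegral_const, Real.volume_Icc, ← ENNReal.ofReal_mul (by positivity)]
          congr 1; ring
      _ ≤ _ := by
          apply ENNReal.ofReal_le_ofReal
          have h9 : 2 + R + Real.log (1 + |c|) ≤ 2 * (1 + R) * (1 + Real.log (1 + |c|)) := by nlinarith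
          calc c₀ * (2 + R + Real.log (1 + |c|)) * (2 * (1 + R)) ≤
                c₀ * (2 * (1 + R) * (1 + Real.log (1 + |c|))) * (2 * (1 + R)) := by gcongr
            _ = _ := by ring
  have h3 := h1.trans h2
  have h4 : ENNReal.ofReal (1 / (2 * κ)) * (ENNReal.ofReal (2 * κ) * I) = I := by
    rw [← mul_assoc, ← ENNReal.ofReal_mul (by positivity), one_div, inv_mul_cancel₀ (by positivity),
      ENNReal.ofReal_one, one_mul]
  rw [← h4]
  calc _ ≤ ENNReal.ofReal (1 / (2 * κ)) *
        ENNReal.ofReal (4 * c₀ * (1 + R) ^ 2 * (1 + Real.log (1 + |c|))) := by gcongr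
    _ = _ := by
        rw [← ENNReal.ofReal_mul (by positivity)]
        congr 1
        ring

lemma II_Lgr : ∃ C : ℝ, 0 ≤ C ∧ Lgr (II 0 (3/2)) C := by
  obtain ⟨C1, hC1, h1⟩ := II_upper
  obtain ⟨C2, hC2, h2⟩ := IN_avg_lower
  have h3 : (0:ℝ) < 3 := by norm_num
  have hm := II_measurable 0 (3/2)
  set c₁ : ℝ := 3 / 2 * (C1 + 4) with hc₁
  have hup : ∀ t : ℝ, II 0 (3/2) t ≤ c₁ * (1 + Real.log (1 + |t|)) := by
    intro t
    have h4 := (h1 0 (3/2) t (by norm_num) (by norm_num) (by norm_num)).1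
    have h5 : 0 ≤ Real.log (1 + |t|) := Real.log_nonneg (by have := abs_nonneg t; linarith)
    rw [hc₁]
    nlinarith [mul_nonneg hC1 h5]
  set B : ℝ := 2 + 2 * C0 * 3 ^ 2 with hB
  have hB0 : 0 ≤ B := by have := C0_nonneg; positivity
  refine Lgr_of_ker hm (c₀ := 2 * (c₁ * (1 + B)) + C2 * (3/2)) (by positivity) fun v => ?_
  have hv := abs_nonneg v
  have hl : 0 ≤ Real.log (1 + |v|) := Real.log_nonneg (by linarith)
  have hi := II_ker_integrable (a := 0) (b := 3/2) (h := 3) (by norm_num) (by norm_num) (by norm_num) h3 le_rfl v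
  have hlow : -(C2 * (3/2)) ≤ ∫ y, II 0 (3/2) (v + y) * LS.ker 3 y := by
    have h6 := IN_ker_tendsto (a := 0) (b := 3/2) (h := 3) (by norm_num) (by norm_num) (by norm_num) h3 le_rfl v
    refine ge_of_tendsto' h6 fun n => ?_
    have := h2 n 0 (3/2) v (Nat.cast_nonneg n) (by norm_num) (by norm_num) (by norm_num)
    rwa [sub_zero] at this
  have hU : Integrable (fun y : ℝ => c₁ * (1 + Real.log (1 + |v|) + |y|) * LS.ker 3 y) := by
    refine ker_integrable_of_le h3 (A := c₁ * (2 + Real.log (1 + |v|))) (by fun_prop) fun y => ?_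
    rw [abs_of_nonneg (by positivity)]
    have h7 : |y| ≤ 1 + y ^ 2 := by nlinarith [sq_nonneg (1 - |y|), sq_abs y]
    have h8 : 0 ≤ y ^ 2 := sq_nonneg y
    have : 1 + Real.log (1 + |v|) + |y| ≤ (2 + Real.log (1 + |v|)) * (1 + y ^ 2) := by nlinarith
    calc _ ≤ c₁ * ((2 + Real.log (1 + |v|)) * (1 + y ^ 2)) := by gcongr
      _ = _ := by ring
  have habs : ∀ y : ℝ, |II 0 (3/2) (v + y)| * LS.ker 3 y ≤
      2 * (c₁ * (1 + Real.log (1 + |v|) + |y|) * LS.ker 3 y) - II 0 (3/2) (v + y) * LS.ker 3 y := by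
    intro y
    have hk := ker_pos h3 y
    have h9 := hup (v + y)
    have h10 : Real.log (1 + |v + y|) ≤ Real.log (1 + |v|) + |y| := by
      have h11 : 1 + |v + y| ≤ (1 + |v|) * (1 + |y|) := by
        have := abs_add_le v y
        have := abs_nonneg y
        nlinarith
      have h12 := Real.log_le_log (by have := abs_nonneg (v + y); linarith) h11
      rw [Real.log_mul (by linarith) (by have := abs_nonneg y; linarith)] at h12
      have h13 := log_one_add_le |y| (abs_nonneg y)
      linarith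
    have h14 : II 0 (3/2) (v + y) ≤ c₁ * (1 + Real.log (1 + |v|) + |y|) := by
      refine h9.trans ?_
      have : 0 ≤ c₁ := by positivity
      exact mul_le_mul_of_nonneg_left (by linarith) this
    have h15 : 0 ≤ c₁ * (1 + Real.log (1 + |v|) + |y|) := by positivity
    have h16 : |II 0 (3/2) (v + y)| ≤ 2 * (c₁ * (1 + Real.log (1 + |v|) + |y|)) - II 0 (3/2) (v + y) := by
      rw [abs_le]; constructor <;> linarith
    nlinarith
  have hia : Integrable (fun y => |II 0 (3/2) (v + y)| * LS.ker 3 y) := by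
    refine hi.abs.congr (Eventually.of_forall fun y => ?_)
    simp only
    rw [abs_mul, abs_of_pos (ker_pos h3 y)]
  have hmain : ∫ y, |II 0 (3/2) (v + y)| * LS.ker 3 y ≤
      (2 * (c₁ * (1 + B)) + C2 * (3/2)) * (1 + Real.log (1 + |v|)) := by
    have h17 := integral_mono hia ((hU.const_mul 2).sub hi) habs
    simp only [Pi.sub_apply] at h17
    rw [integral_sub (hU.const_mul 2) hi, integral_const_mul] at h17
    have h18 : ∫ y, c₁ * (1 + Real.log (1 + |v|) + |y|) * LS.ker 3 y ≤
        c₁ * (1 + Real.log (1 + |v|) + B) := by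
      have i1 : Integrable (fun y : ℝ => |y| * LS.ker 3 y) := by
        refine ker_integrable_of_le h3 (A := 1) (by fun_prop) fun y => ?_
        rw [abs_abs]
        nlinarith [sq_nonneg (1 - |y|), sq_abs y]
      have i2 : Integrable (fun y : ℝ => (2 + 2 * (0 + y) ^ 2) * LS.ker 3 y) := by
        refine ker_integrable_of_le h3 (A := 2) (by fun_prop) fun y => ?_
        rw [abs_of_nonneg (by positivity)]
        nlinarith
      have e : ∀ y : ℝ, c₁ * (1 + Real.log (1 + |v|) + |y|) * LS.ker 3 y =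
          c₁ * (1 + Real.log (1 + |v|)) * LS.ker 3 y + c₁ * (|y| * LS.ker 3 y) := fun y => by ring
      simp only [e]
      rw [integral_add ((ker_integrable h3).const_mul _) (i1.const_mul _), integral_const_mul,
        integral_const_mul, integral_ker h3, mul_one]
      have h19 : ∫ y, |y| * LS.ker 3 y ≤ B := by
        have hq : ∫ y, (2 + 2 * (0 + y) ^ 2) * LS.ker 3 y = B := by
          rw [integral_quad_ker h3, hB]; ring
        rw [← hq]
        refine integral_mono i1 i2 fun y => ?_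
        have hk := ker_pos h3 y
        simp only
        gcongr
        nlinarith [sq_nonneg (1 - |y|), sq_abs y]
      have : 0 ≤ c₁ := by positivity
      nlinarith
    have hc10 : 0 ≤ c₁ := by positivity
    have h20 : c₁ * (1 + Real.log (1 + |v|) + B) ≤ c₁ * (1 + B) * (1 + Real.log (1 + |v|)) := by
      nlinarith [mul_nonneg (mul_nonneg hc10 hB0) hl]
    have h21 : C2 * (3/2) ≤ C2 * (3/2) * (1 + Real.log (1 + |v|)) := by
      nlinarith [mul_nonneg hC2 hl]
    linarith
  have hmy : Measurable (fun y => ENNReal.ofReal |II 0 (3/2) (v + y)|) :=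
    (hm.comp (measurable_const_add v)).abs.ennreal_ofReal
  rw [kM_lintegral h3 hmy]
  have e2 : ∀ y, ENNReal.ofReal (LS.ker 3 y) * ENNReal.ofReal |II 0 (3/2) (v + y)| =
      ENNReal.ofReal (|II 0 (3/2) (v + y)| * LS.ker 3 y) := fun y => by
    rw [← ENNReal.ofReal_mul (ker_pos h3 y).le, mul_comm]
  simp only [e2]
  rw [← ofReal_integral_eq_lintegral_ofReal hia (Eventually.of_forall fun y =>
    mul_nonneg (abs_nonneg _) (ker_pos h3 y).le)]
  exact ENNReal.ofReal_le_ofReal hmain

/-- one step of convexity -/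
theorem low_main : ∃ C : ℝ, 0 ≤ C ∧ ∀ T : ℝ, 1 ≤ T →
    2 * (∫ t in (1:ℝ)..T, II 1 (5/2) t) - (∫ t in (1:ℝ)..T, II 2 (7/2) t) - C * (1 + Real.log (1 + T)) ≤
      ∫ t in (1:ℝ)..T, II 0 (3/2) t := by
  obtain ⟨C0', hC0', hL0⟩ := II_Lgr
  obtain ⟨Cr, hCr, hr⟩ := II_right (η := 1/2) (by norm_num)
  have hb1 : ∀ t, |II 1 (5/2) t| ≤ Cr * (3/2) := fun t => by
    have := (hr 1 (5/2) t (by norm_num) (by norm_num) (by norm_num)).1
    norm_num at this ⊢; exact this
  have hb2 : ∀ t, |II 2 (7/2) t| ≤ Cr * (3/2) := fun t => by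
    have := (hr 2 (7/2) t (by norm_num) (by norm_num) (by norm_num)).1
    norm_num at this ⊢; exact this
  obtain ⟨A0, hA0, h0⟩ := transfer hC0' (II_measurable 0 (3/2)) hL0
  obtain ⟨A2, hA2, h2⟩ := transfer (by positivity) (II_measurable 2 (7/2)) (Lgr_const hb2)
  refine ⟨A0 + A2, by positivity, fun T hT => ?_⟩
  obtain ⟨i0, e0⟩ := h0 T hT
  obtain ⟨i2, e2⟩ := h2 T hT
  have i1 : IntervalIntegrable (II 1 (5/2)) volume 1 T :=
    (Lgr_const hb1).ii (by positivity) (II_measurable 1 (5/2)) 1 T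
  have hD : ∀ t ∈ Icc 1 T, 2 * II 1 (5/2) t ≤ (∫ y, II 0 (3/2) (t + y) * LS.ker 1 y) +
      ∫ y, II 2 (7/2) (t + y) * LS.ker 1 y := by
    intro t _
    have := D_ineq (a := 1) (b := 5/2) (h := 1) (by norm_num) (by norm_num) (by norm_num) (by norm_num)
      (by norm_num) t
    rw [show (1:ℝ) - 1 = 0 by norm_num, show (5/2:ℝ) - 1 = 3/2 by norm_num,
      show (1:ℝ) + 1 = 2 by norm_num, show (5/2:ℝ) + 1 = 7/2 by norm_num] at this
    linarith
  have h3 := intervalIntegral.integral_mono_on hT (i1.const_mul 2) (i0.add i2) hD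
  rw [intervalIntegral.integral_const_mul, intervalIntegral.integral_add i0 i2] at h3
  have h4 := (abs_le.1 e0).2
  have h5 := (abs_le.1 e2).2
  nlinarith

end

end Pool.Agent.Y757.EM
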