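import Pool.Agent.Y757.EM.Clo

set_option autoImplicit false

/-! The asymptotic formula for the exponential moments. -/

namespace Pool.Agent.Y757.EM

open MeasureTheory Set Filter Topology Pool.Agent.Y757.LS Real ZU
open scoped ENNReal

noncomputable section

/-- upper bound of `J` by the integral of the positive part -/
lemma JJ_le : ∃ C : ℝ, 0 ≤ C ∧ ∀ t : ℝ, 1 ≤ t → JJ t ≤ WW t + C := by
  have hl5 : 0 ≤ Real.log 5 := Real.log_nonneg (by norm_num)
  have ht0 := tail_nonneg (3/4) 0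
  refine ⟨3/2 * Real.log 5 + 8 * tail (3/4) 0, by positivity, fun t ht => ?_⟩
  have e : Ioi (0:ℝ) = Ioc 0 (3/2) ∪ Ioi (3/2) := (Ioc_union_Ioi_eq_Ioi (by norm_num)).symm
  have hi := lz_int ht
  have h2 : JJ t = (∫ s in Ioc (0:ℝ) (3/2), lz s t) + ∫ s in Ioi (3/2:ℝ), lz s t := by
    unfold JJ
    rw [e]
    exact setIntegral_union (by
      rw [Set.disjoint_left]
      intro x hx hx2
      exact absurd hx.2 (not_le.2 hx2)) measurableSet_Ioi (lz_ioc ht)
      (hi.mono_set (Ioi_subset_Ioi (by norm_num)))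
  have hpr : pr 0 = ∅ := by unfold pr; simp
  have h3 : ∫ s in Ioi (3/2:ℝ), lz s t ≤ 8 * tail (3/4) 0 := by
    have h4 := (Xi_far_int 0 t).2
    have e0 : ∀ s, Xi 0 s t = lz s t := fun s => by unfold Xi; rw [hpr]; simp
    simp only [e0] at h4
    have h5 := norm_integral_le_integral_norm (μ := volume.restrict (Ioi (3/2:ℝ))) (fun s => lz s t)
    simp only [Real.norm_eq_abs] at h5
    exact (le_abs_self _).trans (h5.trans h4)
  have h6 := (J_close (t := t) (by rwa [abs_of_pos (by linarith)])).2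
  rw [J_eq, intervalIntegral.integral_of_le (by norm_num)] at h6
  have h7 : II 0 (3/2) t ≤ WW t := by
    unfold II WW
    refine intervalIntegral.integral_mono_on (by norm_num) (g_intervalIntegrable (by norm_num) (by norm_num) t)
      (vv_int (by norm_num) (by norm_num) (by norm_num)) fun s _ => ?_
    unfold g vv
    rw [posLog_apply]
    exact le_max_right _ _
  unfold lz at h2
  rw [h2]
  unfold lz at h3
  linarith

/-- bounded exponential moments of `J` -/
theorem exp_J {k : ℕ} (hk : 1 ≤ k) (hyp : HypK k) {c : ℝ} (hc : 0 < c) (hc8 : c < 8 * k) :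
    ∃ A : ℝ, 0 ≤ A ∧ ∀ T : ℝ, 1 ≤ T → IntervalIntegrable (fun t => Real.exp (c * JJ t)) volume 1 T ∧
      ∫ t in (1:ℝ)..T, Real.exp (c * JJ t) ≤ A * T := by
  obtain ⟨A, hA, h⟩ := exp_moment hk hyp hc hc8
  obtain ⟨C, hC, hJ⟩ := JJ_le
  refine ⟨Real.exp (c * C) * (2 * A), by positivity, fun T hT => ?_⟩
  have h1 : ∫⁻ t in Ioc 1 T, ENNReal.ofReal (Real.exp (c * JJ t)) ≤
      ENNReal.ofReal (Real.exp (c * C) * (2 * A) * T) := by
    calc _ ≤ ∫⁻ t in Ioc 1 T, ENNReal.ofReal (Real.exp (c * C)) * ENNReal.ofReal (Real.exp (c * WW t)) := by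
          refine setLIntegral_mono' measurableSet_Ioc fun t ht => ?_
          rw [← ENNReal.ofReal_mul (Real.exp_pos _).le, ← Real.exp_add]
          apply ENNReal.ofReal_le_ofReal
          apply Real.exp_le_exp.2
          have := hJ t ht.1.le
          nlinarith
      _ = ENNReal.ofReal (Real.exp (c * C)) * ∫⁻ t in Ioc 1 T, ENNReal.ofReal (Real.exp (c * WW t)) :=
          lintegral_const_mul' _ _ ENNReal.ofReal_ne_top
      _ ≤ ENNReal.ofReal (Real.exp (c * C)) * ENNReal.ofReal (A * (1 + T) ^ (1:ℝ)) := by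
          gcongr
          refine le_trans (lintegral_mono_set ?_) (h T (by linarith))
          intro t ht
          exact ⟨by linarith [ht.1], ht.2⟩
      _ ≤ _ := by
          rw [← ENNReal.ofReal_mul (Real.exp_pos _).le, Real.rpow_one]
          apply ENNReal.ofReal_le_ofReal
          rw [mul_assoc]
          have : A * (1 + T) ≤ 2 * A * T := by nlinarith
          gcongr
  have hm : Measurable (fun t => Real.exp (c * JJ t)) := Real.measurable_exp.comp (JJ_meas.const_mul c)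
  have hi : IntegrableOn (fun t => Real.exp (c * JJ t)) (Ioc 1 T) := by
    refine ⟨hm.aestronglyMeasurable, ?_⟩
    rw [hasFiniteIntegral_iff_ofReal (Eventually.of_forall fun t => (Real.exp_pos _).le)]
    exact h1.trans_lt ENNReal.ofReal_lt_top
  refine ⟨(intervalIntegrable_iff_integrableOn_Ioc_of_le hT).2 hi, ?_⟩
  rw [intervalIntegral.integral_of_le hT]
  rw [← ofReal_integral_eq_lintegral_ofReal hi (Eventually.of_forall fun t => (Real.exp_pos _).le)] at h1
  exact (ENNReal.ofReal_le_ofReal_iff (by positivity)).1 h1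

/-- Lipschitz bound of the exponential on a half line -/
lemma exp_lip (l : ℂ) (hl : 0 ≤ l.re) {K x y : ℝ} (hx : x ≤ K) (hy : y ≤ K) :
    ‖Complex.exp (l * (y:ℂ)) - Complex.exp (l * (x:ℂ))‖ ≤ ‖l‖ * Real.exp (l.re * K) * |y - x| := by
  have hd : ∀ u : ℝ, HasDerivAt (fun u : ℝ => Complex.exp (l * (u:ℂ))) (Complex.exp (l * (u:ℂ)) * (l * 1)) u := by
    intro u
    have h1 : HasDerivAt (fun u : ℝ => l * (u : ℂ)) (l * 1) u := (Complex.ofRealCLM.hasDerivAt (x := u)).const_mul l
    exact h1.cexp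
  have h := Convex.norm_image_sub_le_of_norm_deriv_le (𝕜 := ℝ) (f := fun u : ℝ => Complex.exp (l * (u:ℂ)))
    (C := ‖l‖ * Real.exp (l.re * K)) (s := Iic K) (x := x) (y := y)
    (fun u _ => (hd u).differentiableAt) (fun u hu => by
      rw [(hd u).deriv, norm_mul, Complex.norm_exp, mul_one, Complex.re_mul_ofReal, mul_comm]
      have : u ≤ K := hu
      gcongr) (convex_Iic K) hx hy
  rw [Real.norm_eq_abs] at h
  exact h

lemma exp_cut (l : ℂ) (hl : 0 ≤ l.re) {c : ℝ} (hc : l.re < c) (K x : ℝ) :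
    ‖Complex.exp (l * (x:ℂ)) - Complex.exp (l * ((min x K : ℝ):ℂ))‖ ≤
      2 * Real.exp (-((c - l.re) * K)) * Real.exp (c * x) := by
  rcases le_total x K with h | h
  · rw [min_eq_left h, sub_self, norm_zero]; positivity
  · rw [min_eq_right h]
    refine (norm_sub_le _ _).trans ?_
    rw [Complex.norm_exp, Complex.norm_exp, Complex.re_mul_ofReal, Complex.re_mul_ofReal]
    have h1 : Real.exp (l.re * K) ≤ Real.exp (l.re * x) := by
      apply Real.exp_le_exp.2; gcongr
    have h2 : Real.exp (l.re * x) ≤ Real.exp (-((c - l.re) * K)) * Real.exp (c * x) := by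
      rw [← Real.exp_add]
      apply Real.exp_le_exp.2
      nlinarith
    linarith

/-- comparison of the two exponentials -/
lemma exp_diff (l : ℂ) (hl : 0 ≤ l.re) {c : ℝ} (hc : l.re < c) (K x y : ℝ) :
    ‖Complex.exp (l * (x:ℂ)) - Complex.exp (l * (y:ℂ))‖ ≤
      2 * Real.exp (-((c - l.re) * K)) * (Real.exp (c * x) + Real.exp (c * y)) +
        ‖l‖ * Real.exp (l.re * K) * |x - y| := by
  have h1 := exp_cut l hl hc K x
  have h2 := exp_cut l hl hc K y
  have h3 := exp_lip l hl (K := K) (x := min y K) (y := min x K) (min_le_right _ _) (min_le_right _ _)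
  have h4 : |min x K - min y K| ≤ |x - y| := by
    have := abs_min_sub_min_le_max x K y K
    rw [sub_self, abs_zero, max_eq_left (abs_nonneg _)] at this
    exact this
  have h5 : ‖l‖ * Real.exp (l.re * K) * |min x K - min y K| ≤ ‖l‖ * Real.exp (l.re * K) * |x - y| := by
    gcongr
  have e : Complex.exp (l * (x:ℂ)) - Complex.exp (l * (y:ℂ)) =
      (Complex.exp (l * (x:ℂ)) - Complex.exp (l * ((min x K : ℝ):ℂ))) +
      (Complex.exp (l * ((min x K : ℝ):ℂ)) - Complex.exp (l * ((min y K : ℝ):ℂ))) -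
      (Complex.exp (l * (y:ℂ)) - Complex.exp (l * ((min y K : ℝ):ℂ))) := by ring
  rw [e]
  have h6 := norm_sub_le ((Complex.exp (l * (x:ℂ)) - Complex.exp (l * ((min x K : ℝ):ℂ))) +
      (Complex.exp (l * ((min x K : ℝ):ℂ)) - Complex.exp (l * ((min y K : ℝ):ℂ))))
      (Complex.exp (l * (y:ℂ)) - Complex.exp (l * ((min y K : ℝ):ℂ)))
  have h7 := norm_add_le (Complex.exp (l * (x:ℂ)) - Complex.exp (l * ((min x K : ℝ):ℂ)))
      (Complex.exp (l * ((min x K : ℝ):ℂ)) - Complex.exp (l * ((min y K : ℝ):ℂ)))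
  linarith

/-- exponential moments of the sums over primes are uniformly bounded -/
lemma exp_X (c : ℝ) : ∃ B : ℝ, 0 ≤ B ∧ ∀ N : ℕ, ∃ T₀ : ℝ, 1 ≤ T₀ ∧ ∀ T : ℝ, T₀ ≤ T →
    ∫ t in (1:ℝ)..T, Real.exp (c * XN N t) ≤ B * T := by
  have h1 := (fac_tendsto (c : ℂ)).norm
  obtain ⟨B, hB⟩ := h1.bddAbove_range
  have hB' : ∀ N : ℕ, ‖∏ p ∈ pr N, fac p (c:ℂ)‖ ≤ B := fun N => hB ⟨N, rfl⟩
  have hB0 : 0 ≤ B := (norm_nonneg _).trans (hB' 0)
  refine ⟨B + 1, by positivity, fun N => ?_⟩
  have h2 := (avX N (c:ℂ)).norm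
  have h3 := h2.eventually (gt_mem_nhds (show ‖∏ p ∈ pr N, fac p (c:ℂ)‖ < B + 1 by linarith [hB' N]))
  rw [eventually_atTop] at h3
  obtain ⟨T₀, hT₀⟩ := h3
  refine ⟨max 1 T₀, le_max_left _ _, fun T hT => ?_⟩
  have hT1 : 1 ≤ T := (le_max_left _ _).trans hT
  have hT0 : 0 < T := by linarith
  have h4 := (hT₀ T ((le_max_right _ _).trans hT)).le
  unfold av at h4
  have e : ∀ t : ℝ, Complex.exp ((c:ℂ) * (XN N t : ℂ)) = ((Real.exp (c * XN N t) : ℝ) : ℂ) := by
    intro t; push_cast; rfl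
  simp only [e] at h4
  rw [intervalIntegral.integral_ofReal, ← Complex.ofReal_mul, Complex.norm_real, Real.norm_of_nonneg (by
    have : 0 ≤ ∫ t in (1:ℝ)..T, Real.exp (c * XN N t) :=
      intervalIntegral.integral_nonneg hT1 fun t _ => (Real.exp_pos _).le
    positivity), one_div, inv_mul_le_iff₀ hT0] at h4
  linarith

/-- **the asymptotic formula** from the boundedness of a moment -/
theorem main_of {l : ℂ} (h0 : 0 ≤ l.re) {c A : ℝ} (hc1 : l.re < c) (hA : 0 ≤ A)
    (hJ : ∀ T : ℝ, 1 ≤ T → IntervalIntegrable (fun t => Real.exp (c * JJ t)) volume 1 T ∧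
      ∫ t in (1:ℝ)..T, Real.exp (c * JJ t) ≤ A * T) :
    Tendsto (fun T : ℝ => av T (fun t => Complex.exp (l * (JJ t : ℂ)))) atTop (𝓝 (CC l)) := by
  have hc0 : 0 < c := by linarith
  obtain ⟨B, hB, hX⟩ := exp_X c
  rw [Metric.tendsto_nhds]
  intro ε hε
  -- the cut
  have hcut : Tendsto (fun K : ℝ => 2 * Real.exp (-((c - l.re) * K)) * (A + B)) atTop (𝓝 (2 * 0 * (A + B))) := by
    have a1 : Tendsto (fun K : ℝ => (c - l.re) * K) atTop atTop :=
      tendsto_id.const_mul_atTop (by linarith)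
    exact ((Real.tendsto_exp_neg_atTop_nhds_zero.comp a1).const_mul 2).mul_const _
  rw [mul_zero, zero_mul] at hcut
  obtain ⟨K, hK⟩ := (hcut.eventually (gt_mem_nhds (show (0:ℝ) < ε / 4 by positivity))).exists
  set L : ℝ := ‖l‖ * Real.exp (l.re * K) with hL
  have hL0 : 0 ≤ L := by positivity
  obtain ⟨N₁, hN₁⟩ := close (ε := ε / (4 * (L + 1))) (by positivity)
  have h1 := (fac_tendsto l)
  rw [Metric.tendsto_atTop] at h1
  obtain ⟨N₂, hN₂⟩ := h1 (ε / 4) (by positivity)
  set N := max N₁ N₂ with hN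
  obtain ⟨T₁, hT₁, hcl⟩ := hN₁ N (le_max_left _ _)
  have hprod := hN₂ N (le_max_right _ _)
  obtain ⟨T₂, hT₂, hXN⟩ := hX N
  have h2 := avX N l
  rw [Metric.tendsto_nhds] at h2
  have h3 := h2 (ε / 4) (by positivity)
  filter_upwards [h3, eventually_ge_atTop T₁, eventually_ge_atTop T₂] with T hav hTT₁ hTT₂
  have hT1 : 1 ≤ T := hT₁.trans hTT₁
  have hT0 : 0 < T := by linarith
  obtain ⟨i1, b1⟩ := hcl T hTT₁
  obtain ⟨i2, b2⟩ := hJ T hT1
  have b3 := hXN T hTT₂
  have hXc : Continuous (fun t => Real.exp (c * XN N t)) :=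
    Real.continuous_exp.comp (continuous_const.mul (XN_cont N))
  have i3 : IntervalIntegrable (fun t => Real.exp (c * XN N t)) volume 1 T := hXc.intervalIntegrable _ _
  set Q : ℝ := 2 * Real.exp (-((c - l.re) * K)) with hQ
  have hQ0 : 0 ≤ Q := by positivity
  set R : ℝ → ℝ := fun t => Q * (Real.exp (c * JJ t) + Real.exp (c * XN N t)) + L * |JJ t - XN N t| with hR
  have iR : IntervalIntegrable R volume 1 T := ((i2.add i3).const_mul Q).add (i1.const_mul L)
  have hXc2 : Continuous (fun t => Complex.exp (l * (XN N t : ℂ))) :=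
    Complex.continuous_exp.comp (continuous_const.mul (Complex.continuous_ofReal.comp (XN_cont N)))
  have iX : IntervalIntegrable (fun t => Complex.exp (l * (XN N t : ℂ))) volume 1 T :=
    hXc2.intervalIntegrable _ _
  have hJm : Measurable (fun t => Complex.exp (l * (JJ t : ℂ))) :=
    Complex.measurable_exp.comp ((Complex.measurable_ofReal.comp JJ_meas).const_mul l)
  have hpt : ∀ t, ‖Complex.exp (l * (JJ t : ℂ)) - Complex.exp (l * (XN N t : ℂ))‖ ≤ R t := fun t =>
    exp_diff l h0 hc1 K (JJ t) (XN N t)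
  have iD : IntervalIntegrable (fun t => Complex.exp (l * (JJ t : ℂ)) - Complex.exp (l * (XN N t : ℂ)))
      volume 1 T := by
    rw [intervalIntegrable_iff_integrableOn_Ioc_of_le hT1] at iR ⊢
    exact Integrable.mono' iR (hJm.sub hXc2.measurable).aestronglyMeasurable (Eventually.of_forall hpt)
  have iJ : IntervalIntegrable (fun t => Complex.exp (l * (JJ t : ℂ))) volume 1 T := by
    have := iD.add iX
    refine this.congr ?_
    intro t _
    simp
  have hdiff : ‖av T (fun t => Complex.exp (l * (JJ t : ℂ))) - av T (fun t => Complex.exp (l * (XN N t : ℂ)))‖ ≤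
      ε / 2 := by
    have e1 : av T (fun t => Complex.exp (l * (JJ t : ℂ))) - av T (fun t => Complex.exp (l * (XN N t : ℂ))) =
        ((1 / T : ℝ) : ℂ) * ∫ t in (1:ℝ)..T, (Complex.exp (l * (JJ t : ℂ)) - Complex.exp (l * (XN N t : ℂ))) := by
      unfold av
      rw [intervalIntegral.integral_sub iJ iX]
      ring
    rw [e1, norm_mul, Complex.norm_real, Real.norm_of_nonneg (by positivity)]
    have h5 : ‖∫ t in (1:ℝ)..T, (Complex.exp (l * (JJ t : ℂ)) - Complex.exp (l * (XN N t : ℂ)))‖ ≤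
        ∫ t in (1:ℝ)..T, R t := by
      refine (intervalIntegral.norm_integral_le_integral_norm hT1).trans ?_
      exact intervalIntegral.integral_mono_on hT1 iD.norm iR fun t _ => hpt t
    have h6 : ∫ t in (1:ℝ)..T, R t = Q * ((∫ t in (1:ℝ)..T, Real.exp (c * JJ t)) +
        ∫ t in (1:ℝ)..T, Real.exp (c * XN N t)) + L * ∫ t in (1:ℝ)..T, |JJ t - XN N t| := by
      simp only [hR]
      rw [intervalIntegral.integral_add ((i2.add i3).const_mul Q) (i1.const_mul L),
        intervalIntegral.integral_const_mul, intervalIntegral.integral_const_mul,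
        intervalIntegral.integral_add i2 i3]
    have h7 : L * (ε / (4 * (L + 1))) ≤ ε / 4 := by
      rw [mul_div_assoc', div_le_div_iff₀ (by positivity) (by norm_num)]
      nlinarith
    have h8 : ∫ t in (1:ℝ)..T, R t ≤ ε / 2 * T := by
      rw [h6]
      calc _ ≤ Q * (A * T + B * T) + L * (ε / (4 * (L + 1)) * T) := by gcongr
        _ = (Q * (A + B) + L * (ε / (4 * (L + 1)))) * T := by ring
        _ ≤ (ε / 4 + ε / 4) * T := by gcongr
        _ = _ := by ring
    calc 1 / T * _ ≤ 1 / T * (ε / 2 * T) := by gcongr; exact h5.trans h8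
      _ = ε / 2 := by field_simp
  rw [dist_eq_norm] at hav hprod ⊢
  have e : av T (fun t => Complex.exp (l * (JJ t : ℂ))) - CC l =
      (av T (fun t => Complex.exp (l * (JJ t : ℂ))) - av T (fun t => Complex.exp (l * (XN N t : ℂ)))) +
      ((av T (fun t => Complex.exp (l * (XN N t : ℂ))) - ∏ p ∈ pr N, fac p l) +
      (∏ p ∈ pr N, fac p l - CC l)) := by ring
  rw [e]
  refine lt_of_le_of_lt (norm_add_le _ _) ?_
  have h9 := norm_add_le (av T (fun t => Complex.exp (l * (XN N t : ℂ))) - ∏ p ∈ pr N, fac p l)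
    (∏ p ∈ pr N, fac p l - CC l)
  linarith

/-- **the asymptotic formula** -/
theorem main {k : ℕ} (hk : 1 ≤ k) (hyp : HypK k) {l : ℂ} (h0 : 0 ≤ l.re) (h8 : l.re < 8 * k) :
    Tendsto (fun T : ℝ => av T (fun t => Complex.exp (l * (JJ t : ℂ)))) atTop (𝓝 (CC l)) := by
  have hc1 : l.re < (l.re + 8 * k) / 2 := by linarith
  have hc2 : (l.re + 8 * k) / 2 < 8 * k := by linarith
  obtain ⟨A, hA, hJ⟩ := exp_J hk hyp (by linarith) hc2
  exact main_of h0 hc1 hA hJ

end

end Pool.Agent.Y757.EM
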