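import Pool.Agent.Y757.EM.Car
import Pool.Agent.TH158.FM.Main

set_option autoImplicit false

/-! The mean values of `|zeta| ^ (2 k)` to the right of the critical line; the fourth moment. -/

namespace Pool.Agent.Y757.EM

open MeasureTheory Set Filter Topology Pool.Agent.Y757.LS Real ZU
open scoped ENNReal

noncomputable section

lemma PB_of_ge {f : ℝ → ℝ≥0∞} {A p X : ℝ} (hA : 0 ≤ A) (hp : 0 ≤ p) (hX : 0 ≤ X)
    (h : ∀ T : ℝ, X ≤ T → ∫⁻ t in Icc (-T) T, f t ≤ ENNReal.ofReal (A * (1 + T) ^ p)) :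
    PB 0 f (A * (1 + X) ^ p) p := by
  intro T hT
  have hT1 : (1:ℝ) ≤ (1 + T) ^ p := Real.one_le_rpow (by linarith) hp
  have hX1 : (1:ℝ) ≤ (1 + X) ^ p := Real.one_le_rpow (by linarith) hp
  rcases le_total X T with h1 | h1
  · refine (h T h1).trans (ENNReal.ofReal_le_ofReal ?_)
    have : A * (1 + T) ^ p * 1 ≤ A * (1 + T) ^ p * (1 + X) ^ p := by gcongr
    linarith
  · calc ∫⁻ t in Icc (-T) T, f t ≤ ∫⁻ t in Icc (-X) X, f t :=
          lintegral_mono_set (Icc_subset_Icc (by linarith) h1)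
      _ ≤ _ := h X le_rfl
      _ ≤ _ := ENNReal.ofReal_le_ofReal (by
          have : A * (1 + X) ^ p * 1 ≤ A * (1 + X) ^ p * (1 + T) ^ p := by gcongr
          linarith)

theorem mom {k : ℕ} (hk : 1 ≤ k) (hyp : HypK k) {δ : ℝ} (hδ : 0 < δ) :
    ∃ A : ℝ, 0 ≤ A ∧ ∀ s : ℝ, δ ≤ s → s ≤ 3 / 2 →
      PB 0 (fun t => ENNReal.ofReal (‖GG (pt s t)‖ ^ (2 * k))) A 1 := by
  obtain ⟨A1, c, hA1, hc, h1⟩ := carl hk hyp hδ
  obtain ⟨A2, hA2, h2⟩ := DN_ms k hk hδ
  refine ⟨(2 * A1 + 2 * A2) * (1 + 1) ^ (1:ℝ), by positivity, fun s hs hs2 => ?_⟩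
  refine PB_of_ge (by positivity) zero_le_one zero_le_one fun T hT => ?_
  set N := NT k T with hN
  have hN1 : 1 ≤ N := NT_pos hT
  have h3 := h1 T s hT hs hs2
  have h4 := h2 N T s 0 hN1 (NT_pow hk hT) le_rfl (by linarith)
  have hm2 : Measurable (fun t : ℝ => ENNReal.ofReal (‖DN N (pt s t)‖ ^ (2 * k))) :=
    ((((DN_an N).continuous.measurable.comp (pt_meas s)).norm).pow_const _).ennreal_ofReal
  calc ∫⁻ t in Icc (-T) T, ENNReal.ofReal (‖GG (pt s t)‖ ^ (2 * k))
      ≤ ∫⁻ t in Icc (-T) T, (2 * ENNReal.ofReal (‖GG (pt s t) ^ k -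
          (RR (pt s t) * DN N (pt s t)) ^ k‖ ^ 2) + 2 * ENNReal.ofReal (‖DN N (pt s t)‖ ^ (2 * k))) := by
        refine lintegral_mono fun t => ?_
        simp only
        have e2 : (2 : ℝ≥0∞) = ENNReal.ofReal 2 := by simp
        rw [e2, ← ENNReal.ofReal_mul (by norm_num), ← ENNReal.ofReal_mul (by norm_num),
          ← ENNReal.ofReal_add (by positivity) (by positivity)]
        apply ENNReal.ofReal_le_ofReal
        have h5 : ‖RR (pt s t) * DN N (pt s t)‖ ≤ ‖DN N (pt s t)‖ := by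
          rw [norm_mul]
          exact mul_le_of_le_one_left (norm_nonneg _) (RR_le (by rw [pt_re]; linarith))
        have h6 := two_sq_add (GG (pt s t) ^ k - (RR (pt s t) * DN N (pt s t)) ^ k)
          (-(RR (pt s t) * DN N (pt s t)) ^ k)
        rw [sub_neg_eq_add, sub_add_cancel, norm_neg, norm_pow, norm_pow, ← pow_mul, ← pow_mul,
          mul_comm k 2] at h6
        refine h6.trans ?_
        gcongr
    _ = 2 * (∫⁻ t in Icc (-T) T, ENNReal.ofReal (‖GG (pt s t) ^ k -
          (RR (pt s t) * DN N (pt s t)) ^ k‖ ^ 2)) +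
          2 * (∫⁻ t in Icc (-T) T, ENNReal.ofReal (‖DN N (pt s t)‖ ^ (2 * k))) := by
        rw [lintegral_add_right _ (hm2.const_mul 2), lintegral_const_mul' _ _ (by simp),
          lintegral_const_mul' _ _ (by simp)]
    _ ≤ 2 * ENNReal.ofReal (A1 * (1 + T) ^ (1 - c)) + 2 * ENNReal.ofReal (A2 * T * ((N : ℝ) ^ k) ^ (0:ℝ)) := by
        gcongr
    _ ≤ _ := by
        have e2 : (2 : ℝ≥0∞) = ENNReal.ofReal 2 := by simp
        have h8 : (1 + T) ^ (1 - c) ≤ (1 + T) ^ (1:ℝ) :=
          Real.rpow_le_rpow_of_exponent_le (by linarith) (by linarith)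
        rw [Real.rpow_one] at h8 ⊢
        rw [e2, ← ENNReal.ofReal_mul (by norm_num), ← ENNReal.ofReal_mul (by norm_num), Real.rpow_zero,
          ← ENNReal.ofReal_add (by positivity) (by positivity)]
        apply ENNReal.ofReal_le_ofReal
        nlinarith [mul_le_mul_of_nonneg_left h8 hA1]

lemma GG_le_zeta' {s t : ℝ} (hs : -(3/2) ≤ s) (ht : t ≠ 0) :
    ‖GG (pt s t)‖ ≤ ‖riemannZeta (pt s t)‖ := GG_le_zeta hs ht

lemma zeta_pt_cont (s : ℝ) (hs : s < 1 / 2) : Continuous (fun t : ℝ => riemannZeta (pt s t)) := by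
  rw [continuous_iff_continuousAt]
  intro t
  have hne : pt s t ≠ 1 := by
    intro h
    have := congrArg Complex.re h
    rw [pt_re, Complex.one_re] at this
    linarith
  have h3 : ContinuousAt riemannZeta (pt s t) := (differentiableAt_riemannZeta hne).continuousAt
  have h4 : ContinuousAt (fun t : ℝ => pt s t) t := by unfold pt; fun_prop
  exact ContinuousAt.comp (g := riemannZeta) h3 h4

theorem hyp2 : HypK 2 := by
  intro ε hε
  set A : ℝ := 8 / 5 * (4 / ε) ^ 4 with hA
  refine ⟨A * (1 + 1000) ^ (1 + ε), by positivity, ?_⟩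
  refine PB_of_ge (by positivity) (by linarith) (by norm_num) fun T hT => ?_
  have h1 := Pool.Agent.TH158.FM.fourth_all T hT
  have hm : Measurable (fun t : ℝ => ENNReal.ofReal (‖GG (pt 0 t)‖ ^ (2 * 2))) :=
    (((GG_measurable.comp (pt_meas 0)).norm).pow_const _).ennreal_ofReal
  refine (sym_int (fun t => by rw [GG_conj]) hm T).trans ?_
  have hc := zeta_pt_cont 0 (by norm_num)
  have hi : IntegrableOn (fun t : ℝ => ‖riemannZeta (pt 0 t)‖ ^ 4) (Ioc 0 T) :=
    (hc.norm.pow 4).integrableOn_Ioc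
  have h2 : ∫⁻ t in Ioc 0 T, ENNReal.ofReal (‖GG (pt 0 t)‖ ^ (2 * 2)) ≤
      ENNReal.ofReal (4 / 5 * (T * Real.log T ^ 4)) := by
    calc _ ≤ ∫⁻ t in Ioc 0 T, ENNReal.ofReal (‖riemannZeta (pt 0 t)‖ ^ 4) := by
          refine setLIntegral_mono' measurableSet_Ioc fun t ht => ?_
          apply ENNReal.ofReal_le_ofReal
          have := GG_le_zeta (s := 0) (t := t) (by norm_num) ht.1.ne'
          gcongr
      _ = ENNReal.ofReal (∫ t in Ioc 0 T, ‖riemannZeta (pt 0 t)‖ ^ 4) := by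
          rw [ofReal_integral_eq_lintegral_ofReal hi (Eventually.of_forall fun t => by positivity)]
      _ ≤ _ := by
          apply ENNReal.ofReal_le_ofReal
          rw [← intervalIntegral.integral_of_le (by linarith)]
          refine le_trans (le_of_eq ?_) h1
          refine intervalIntegral.integral_congr fun t _ => ?_
          congr 3
          unfold pt Pool.Agent.TH158.FM.pt
          push_cast
          ring
  have e2 : (2 : ℝ≥0∞) = ENNReal.ofReal 2 := by simp
  calc _ ≤ 2 * ENNReal.ofReal (4 / 5 * (T * Real.log T ^ 4)) := by gcongr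
    _ = ENNReal.ofReal (8 / 5 * (T * Real.log T ^ 4)) := by
        rw [e2, ← ENNReal.ofReal_mul (by norm_num)]
        congr 1; ring
    _ ≤ _ := by
        apply ENNReal.ofReal_le_ofReal
        have hT0 : 0 < T := by linarith
        have hl : Real.log T ≤ T ^ (ε / 4) / (ε / 4) := Real.log_le_rpow_div hT0.le (by positivity)
        have hl0 : 0 ≤ Real.log T := Real.log_nonneg (by linarith)
        have hl4 : Real.log T ^ 4 ≤ (4 / ε) ^ 4 * T ^ ε := by
          calc Real.log T ^ 4 ≤ (T ^ (ε / 4) / (ε / 4)) ^ 4 := by gcongr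
            _ = _ := by
              rw [div_pow, ← Real.rpow_natCast (T ^ (ε / 4)), ← Real.rpow_mul hT0.le]
              rw [show ε / 4 * ((4:ℕ):ℝ) = ε by push_cast; ring]
              field_simp
        have h5 : T * T ^ ε ≤ (1 + T) ^ (1 + ε) := by
          rw [Real.rpow_add (by linarith), Real.rpow_one]
          gcongr
          · linarith
          · linarith
        calc 8 / 5 * (T * Real.log T ^ 4) ≤ 8 / 5 * (T * ((4 / ε) ^ 4 * T ^ ε)) := by gcongr
          _ = A * (T * T ^ ε) := by rw [hA]; ring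
          _ ≤ _ := by gcongr

end

end Pool.Agent.Y757.EM
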