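import Pool.Agent.Y757.EM.Psi

set_option autoImplicit false

/-! Independence and the Euler product. -/

namespace Pool.Agent.Y757.EM

open MeasureTheory Set Filter Topology Pool.Agent.Y757.LS ZU

noncomputable section

lemma pr_two {N p : ℕ} (h : p ∈ pr N) : 2 ≤ p := by
  unfold pr at h
  rw [Finset.mem_filter] at h
  exact h.2.two_le

lemma pr_pr {N p : ℕ} (h : p ∈ pr N) : p.Prime := by
  unfold pr at h
  rw [Finset.mem_filter] at h
  exact h.2

/-- the logarithms of the primes are independent -/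
lemma indep (S : Finset ℕ) (hS : ∀ p ∈ S, p.Prime) (n : ℕ → ℤ)
    (h : ∑ p ∈ S, (n p : ℝ) * Real.log p = 0) : ∀ p ∈ S, n p = 0 := by
  set a : ℕ := ∏ p ∈ S, p ^ (n p).toNat with ha
  set b : ℕ := ∏ p ∈ S, p ^ (-n p).toNat with hb
  have ha0 : a ≠ 0 := Finset.prod_ne_zero_iff.2 fun p hp => pow_ne_zero _ (hS p hp).ne_zero
  have hb0 : b ≠ 0 := Finset.prod_ne_zero_iff.2 fun p hp => pow_ne_zero _ (hS p hp).ne_zero
  have hla : Real.log a = ∑ p ∈ S, ((n p).toNat : ℝ) * Real.log p := by
    rw [ha]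
    push_cast
    rw [Real.log_prod (fun p hp => by
      have := (hS p hp).ne_zero
      positivity)]
    exact Finset.sum_congr rfl fun p _ => Real.log_pow _ _
  have hlb : Real.log b = ∑ p ∈ S, ((-n p).toNat : ℝ) * Real.log p := by
    rw [hb]
    push_cast
    rw [Real.log_prod (fun p hp => by
      have := (hS p hp).ne_zero
      positivity)]
    exact Finset.sum_congr rfl fun p _ => Real.log_pow _ _
  have hab : Real.log a = Real.log b := by
    rw [← sub_eq_zero, hla, hlb, ← Finset.sum_sub_distrib, ← h]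
    refine Finset.sum_congr rfl fun p _ => ?_
    rw [← sub_mul]
    congr 1
    have := Int.toNat_sub_toNat_neg (n p)
    exact_mod_cast this
  have habn : a = b := by
    have h1 : (0:ℝ) < a := by exact_mod_cast Nat.pos_of_ne_zero ha0
    have h2 : (0:ℝ) < b := by exact_mod_cast Nat.pos_of_ne_zero hb0
    exact_mod_cast Real.log_injOn_pos h1 h2 hab
  intro p hp
  have key : ∀ k : ℕ → ℕ, (∏ q ∈ S, q ^ k q).factorization p = k p := by
    intro k
    rw [Nat.factorization_prod (fun q hq => pow_ne_zero _ (hS q hq).ne_zero), Finsupp.finsetSum_apply,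
      Finset.sum_eq_single p]
    · rw [(hS p hp).factorization_pow, Finsupp.single_eq_same]
    · intro q hq hqp
      rw [(hS q hq).factorization_pow, Finsupp.single_apply, if_neg hqp]
    · intro h; exact absurd hp h
  have h1 := key (fun q => (n q).toNat)
  have h2 := key (fun q => (-n q).toNat)
  rw [← ha] at h1
  rw [← hb, ← habn, h1] at h2
  omega

/-- the local factor -/
def fac (p : ℕ) (l : ℂ) : ℂ := ∫ θ in (0:ℝ)..1, Complex.exp (l * (Lp p θ : ℂ))

/-- the sum over the primes up to `N` -/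
def XN (N : ℕ) (t : ℝ) : ℝ := ∑ p ∈ pr N, xp p t

lemma circle_int (f : UnitAddCircle → ℂ) : ∫ x, f x ∂AddCircle.haarAddCircle = ∫ θ in (0:ℝ)..1, f (θ : UnitAddCircle) := by
  have h1 := AddCircle.intervalIntegral_preimage (1:ℝ) 0 f
  rw [zero_add] at h1
  rw [h1, AddCircle.volume_eq_smul_haarAddCircle, integral_smul_measure]
  simp

theorem avX (N : ℕ) (l : ℂ) :
    Tendsto (fun T : ℝ => av T (fun t => Complex.exp (l * (XN N t : ℂ)))) atTop (𝓝 (∏ p ∈ pr N, fac p l)) := by
  set ι := {p // p ∈ pr N} with hι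
  have hp : ∀ i : ι, 2 ≤ i.1 := fun i => pr_two i.2
  set ω : ι → ℝ := fun i => Real.log i.1 / (2 * Real.pi) with hω
  set Φ : C(UnitAddTorus ι, ℂ) :=
    ⟨fun x => ∏ i : ι, Complex.exp (l * ((Dp (hp i) (x i) : ℝ) : ℂ)), by
      refine continuous_finsetProd _ fun i _ => ?_
      refine Complex.continuous_exp.comp (continuous_const.mul (Complex.continuous_ofReal.comp ?_))
      exact (Dp (hp i)).continuous.comp (continuous_apply i)⟩ with hΦ
  have hind : ∀ n : ι → ℤ, ∑ i, (n i : ℝ) * ω i = 0 → n = 0 := by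
    intro n hn
    classical
    set m : ℕ → ℤ := fun p => if h : p ∈ pr N then n ⟨p, h⟩ else 0 with hm
    have h1 : ∑ p ∈ pr N, (m p : ℝ) * Real.log p = 0 := by
      have h2 : ∑ i : ι, (n i : ℝ) * ω i = (∑ i : ι, (m i.1 : ℝ) * Real.log i.1) / (2 * Real.pi) := by
        rw [Finset.sum_div]
        refine Finset.sum_congr rfl fun i _ => ?_
        have : m i.1 = n i := by simp only [hm]; rw [dif_pos i.2]
        rw [this, hω, mul_div_assoc]
      rw [hn] at h2
      have h3 : ∑ i : ι, (m i.1 : ℝ) * Real.log i.1 = 0 := by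
        have := (div_eq_zero_iff.1 h2.symm)
        rcases this with h | h
        · exact h
        · exact absurd h (by positivity)
      rw [← h3]
      exact (Finset.sum_coe_sort (pr N) (fun p => (m p : ℝ) * Real.log p)).symm
    have h4 := indep (pr N) (fun p hp => pr_pr hp) m h1
    funext i
    have h5 := h4 i.1 i.2
    simp only [hm] at h5
    rw [dif_pos i.2] at h5
    exact h5
  have hw := weyl hind Φ
  have hint : ∫ x, Φ x ∂(haarT ι) = ∏ p ∈ pr N, fac p l := by
    unfold haarT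
    simp only [hΦ, ContinuousMap.coe_mk]
    rw [integral_fintype_prod_eq_prod (𝕜 := ℂ) (ι := ι) (E := fun _ => UnitAddCircle)
      (f := fun i x => Complex.exp (l * ((Dp (hp i) x : ℝ) : ℂ))) (μ := fun _ => AddCircle.haarAddCircle)]
    rw [← Finset.prod_coe_sort (pr N) (fun p => fac p l)]
    refine Finset.prod_congr rfl fun i _ => ?_
    rw [circle_int]
    unfold fac
    refine intervalIntegral.integral_congr fun θ _ => ?_
    rw [Dp_coe]
  rw [hint] at hw
  refine hw.congr fun T => ?_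
  congr 1
  funext t
  simp only [hΦ, ContinuousMap.coe_mk]
  unfold XN
  rw [← Finset.sum_coe_sort (pr N) (fun p => xp p t), Complex.ofReal_sum, Finset.mul_sum, Complex.exp_sum]
  refine Finset.prod_congr rfl fun i _ => ?_
  unfold ln
  rw [Dp_coe]
  rfl

/-! ### convergence of the product -/

lemma summable_log : Summable (fun n : ℕ => 1 / ((n : ℝ) * Real.log (2 * n) ^ 2)) := by
  have h0 : ∀ n : ℕ, 0 ≤ 1 / ((n : ℝ) * Real.log (2 * n) ^ 2) := fun n => by positivity
  rw [← summable_condensed_iff_of_nonneg h0]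
  · have h1 : ∀ k : ℕ, (2:ℝ) ^ k * (1 / (((2 ^ k : ℕ) : ℝ) * Real.log (2 * ((2 ^ k : ℕ) : ℝ)) ^ 2)) =
        (1 / Real.log 2 ^ 2) * (1 / (((k + 1 : ℕ) : ℝ)) ^ 2) := by
      intro k
      have e : (2 * ((2 ^ k : ℕ) : ℝ)) = 2 ^ (k + 1) := by push_cast; ring
      rw [e, Real.log_pow]
      have : (0:ℝ) < Real.log 2 := Real.log_pos (by norm_num)
      push_cast
      field_simp
    simp only [h1]
    exact ((summable_nat_add_iff 1).2 (Real.summable_one_div_nat_pow.2 (by norm_num : 1 < 2))).mul_left _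
  · intro m n hm hmn
    have hm0 : (0:ℝ) < m := by exact_mod_cast hm
    have hmn' : (m:ℝ) ≤ n := by exact_mod_cast hmn
    have hm1 : (1:ℝ) ≤ m := by exact_mod_cast hm
    have hl : 0 < Real.log (2 * m) := Real.log_pos (by linarith)
    apply one_div_le_one_div_of_le (by positivity)
    have : Real.log (2 * m) ≤ Real.log (2 * n) := Real.log_le_log (by positivity) (by linarith)
    gcongr

lemma exp_two (z : ℂ) : ‖Complex.exp z - 1 - z‖ ≤ ‖z‖ ^ 2 * Real.exp ‖z‖ := by
  have h := Complex.norm_exp_sub_sum_le_norm_mul_exp z 2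
  have e : ∑ m ∈ Finset.range 2, z ^ m / m.factorial = 1 + z := by
    simp [Finset.sum_range_succ]
  rw [e] at h
  rw [sub_sub]
  exact h

lemma rp_zero_sq {p : ℕ} (hp : 2 ≤ p) : rp p 0 ^ 2 = 1 / p := by
  have hp1 : (0:ℝ) < p := by exact_mod_cast (by omega : 0 < p)
  unfold rp
  rw [← Real.rpow_natCast, ← Real.rpow_mul hp1.le]
  norm_num
  rw [Real.rpow_neg_one]

lemma fac_bound {p : ℕ} (hp : 2 ≤ p) (l : ℂ) : ‖fac p l - 1‖ ≤
    ‖l‖ ^ 2 * Real.exp (‖l‖ * 6) * 64 * (1 / ((p : ℝ) * Real.log (2 * p) ^ 2)) := by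
  have hlog := log_p_pos hp
  have hp1 : (0:ℝ) < p := by exact_mod_cast (by omega : 0 < p)
  have hp2 : (2:ℝ) ≤ p := by exact_mod_cast hp
  set M : ℝ := 4 * rp p 0 / Real.log p with hM
  have hM0 : 0 ≤ M := by have := rp_pos hp 0; positivity
  have hM6 : M ≤ 6 := by
    rw [hM, div_le_iff₀ (by linarith)]
    have := rp_zero_le hp
    linarith
  have hc : Continuous (fun θ : ℝ => Complex.exp (l * (Lp p θ : ℂ))) :=
    Complex.continuous_exp.comp (continuous_const.mul (Complex.continuous_ofReal.comp (Lp_cont hp)))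
  have hc2 : Continuous (fun θ : ℝ => l * (Lp p θ : ℂ)) :=
    continuous_const.mul (Complex.continuous_ofReal.comp (Lp_cont hp))
  have h1 : fac p l - 1 = ∫ θ in (0:ℝ)..1, (Complex.exp (l * (Lp p θ : ℂ)) - 1 - l * (Lp p θ : ℂ)) := by
    have c1 : Continuous (fun θ : ℝ => Complex.exp (l * (Lp p θ : ℂ)) - 1) := hc.sub continuous_const
    have c3 : Continuous (fun _ : ℝ => (1 : ℂ)) := continuous_const
    rw [intervalIntegral.integral_sub (c1.intervalIntegrable _ _)
      (hc2.intervalIntegrable _ _), intervalIntegral.integral_sub (hc.intervalIntegrable _ _)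
      (c3.intervalIntegrable _ _), intervalIntegral.integral_const_mul,
      intervalIntegral.integral_ofReal, Lp_mean hp]
    simp [fac]
  have h2 : ∀ θ : ℝ, ‖Complex.exp (l * (Lp p θ : ℂ)) - 1 - l * (Lp p θ : ℂ)‖ ≤
      (‖l‖ * M) ^ 2 * Real.exp (‖l‖ * 6) := by
    intro θ
    have h3 : ‖l * (Lp p θ : ℂ)‖ ≤ ‖l‖ * M := by
      rw [norm_mul, Complex.norm_real, Real.norm_eq_abs]
      gcongr
      exact Lp_bound hp θ
    refine (exp_two _).trans ?_
    have h4 : ‖l‖ * M ≤ ‖l‖ * 6 := by gcongr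
    have h5 := norm_nonneg (l * (Lp p θ : ℂ))
    gcongr
    exact h3.trans h4
  rw [h1]
  have h6 := intervalIntegral.norm_integral_le_of_norm_le_const (a := 0) (b := 1) (fun θ _ => h2 θ)
  refine h6.trans ?_
  rw [sub_zero, abs_one, mul_one]
  have h7 : M ^ 2 ≤ 64 * (1 / ((p : ℝ) * Real.log (2 * p) ^ 2)) := by
    rw [hM, div_pow, mul_pow, rp_zero_sq hp]
    have h8 : Real.log (2 * p) ≤ 2 * Real.log p := by
      rw [Real.log_mul (by norm_num) hp1.ne']
      have := Real.log_le_log (by norm_num) hp2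
      linarith
    have h9 : 0 < Real.log (2 * p) := Real.log_pos (by linarith)
    have h10 : Real.log (2 * p) ^ 2 ≤ (2 * Real.log p) ^ 2 := by gcongr
    rw [div_le_iff₀ (by positivity)]
    have h11 : 64 * (1 / ((p : ℝ) * Real.log (2 * p) ^ 2)) * Real.log p ^ 2 =
        16 * (1 / p) * ((2 * Real.log p) ^ 2 / Real.log (2 * p) ^ 2) := by
      field_simp; ring
    rw [h11]
    have h12 : 1 ≤ (2 * Real.log p) ^ 2 / Real.log (2 * p) ^ 2 := by
      rw [le_div_iff₀ (by positivity)]; linarith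
    have h13 : 0 ≤ 16 * (1 / (p:ℝ)) := by positivity
    nlinarith
  calc (‖l‖ * M) ^ 2 * Real.exp (‖l‖ * 6) = ‖l‖ ^ 2 * Real.exp (‖l‖ * 6) * M ^ 2 := by ring
    _ ≤ ‖l‖ ^ 2 * Real.exp (‖l‖ * 6) * (64 * (1 / ((p : ℝ) * Real.log (2 * p) ^ 2))) := by gcongr
    _ = _ := by ring

theorem fac_mult (l : ℂ) : Multipliable (fun p : Nat.Primes => fac p l) := by
  have h1 : Summable (fun p : Nat.Primes => ‖fac p l - 1‖) := by
    refine Summable.of_nonneg_of_le (fun p => norm_nonneg _) (fun p => fac_bound p.2.two_le l) ?_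
    exact (summable_log.mul_left (‖l‖ ^ 2 * Real.exp (‖l‖ * 6) * 64)).subtype _
  have h2 := multipliable_one_add_of_summable h1
  simpa using h2

/-- the Euler product -/
def CC (l : ℂ) : ℂ := ∏' p : Nat.Primes, fac p l

theorem fac_tendsto (l : ℂ) : Tendsto (fun N : ℕ => ∏ p ∈ pr N, fac p l) atTop (𝓝 (CC l)) := by
  have h1 := (fac_mult l).hasProd
  have h2 : Tendsto (fun N : ℕ => (Finset.Icc 1 N).subtype Nat.Prime) atTop atTop := by
    refine tendsto_atTop_finset_of_monotone ?_ ?_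
    · intro a b hab
      exact Finset.subtype_mono (Finset.Icc_subset_Icc_right hab)
    · intro p
      exact ⟨p.1, by
        rw [Finset.mem_subtype, Finset.mem_Icc]
        exact ⟨p.2.one_lt.le, le_rfl⟩⟩
  have h3 := h1.comp h2
  refine h3.congr fun N => ?_
  unfold pr
  rw [← Finset.prod_subtype_eq_prod_filter]
  rfl

/-- the finite sums are bounded -/
lemma XN_bound (N : ℕ) : ∃ B : ℝ, ∀ t, |XN N t| ≤ B := by
  refine ⟨∑ p ∈ pr N, 4 * rp p 0 / Real.log p, fun t => ?_⟩
  unfold XN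
  refine (Finset.abs_sum_le_sum_abs _ _).trans (Finset.sum_le_sum fun p hp => ?_)
  exact Lp_bound (pr_two hp) _

lemma XN_cont (N : ℕ) : Continuous (XN N) := by
  unfold XN
  refine continuous_finsetSum _ fun p hp => ?_
  exact (Lp_cont (pr_two hp)).comp (by fun_prop)

end

end Pool.Agent.Y757.EM
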