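import Pool.Agent.Y757.EM.Tor
import Pool.Agent.Y757.LS.D
import Pool.Agent.Helper240.ZU.Defs

set_option autoImplicit false

/-! The local factors. -/

namespace Pool.Agent.Y757.EM

open MeasureTheory Set Filter Topology Pool.Agent.Y757.LS

noncomputable section

/-- `-log |1 - p ^ (-(1/2 + s + it))|` -/
def psi (p : ℕ) (s t : ℝ) : ℝ := -Real.log ‖1 - (p : ℂ) ^ (-pt s t)‖

/-- `p ^ (-(1/2 + s))` -/
def rp (p : ℕ) (s : ℝ) : ℝ := (p : ℝ) ^ (-(1 / 2 + s))

lemma rp_pos {p : ℕ} (hp : 2 ≤ p) (s : ℝ) : 0 < rp p s := by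
  unfold rp
  have : (0:ℝ) < p := by exact_mod_cast (by omega : 0 < p)
  positivity

lemma rp_zero_le {p : ℕ} (hp : 2 ≤ p) : rp p 0 ≤ 3 / 4 := by
  unfold rp
  have h1 : (2:ℝ) ≤ p := by exact_mod_cast hp
  have h0 : (0:ℝ) < p := by linarith
  have h2 : ((p : ℝ) ^ (-(1 / 2 + 0) : ℝ)) ^ 2 ≤ (3 / 4) ^ 2 := by
    rw [← Real.rpow_natCast, ← Real.rpow_mul h0.le]
    norm_num
    rw [Real.rpow_neg_one, inv_le_comm₀ h0 (by norm_num)]
    norm_num
    linarith
  exact le_of_sq_le_sq h2 (by norm_num)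

lemma rp_le {p : ℕ} (hp : 2 ≤ p) {s : ℝ} (hs : 0 ≤ s) : rp p s ≤ rp p 0 := by
  unfold rp
  have h1 : (1:ℝ) ≤ p := by exact_mod_cast (by omega : 1 ≤ p)
  exact Real.rpow_le_rpow_of_exponent_le h1 (by linarith)

lemma rp_le' {p : ℕ} (hp : 2 ≤ p) {s : ℝ} (hs : 0 ≤ s) : rp p s ≤ 3 / 4 :=
  (rp_le hp hs).trans (rp_zero_le hp)

lemma z_norm {p : ℕ} (hp : 2 ≤ p) (s t : ℝ) : ‖(p : ℂ) ^ (-pt s t)‖ = rp p s := by
  rw [Complex.norm_natCast_cpow_of_pos (by omega), Complex.neg_re, pt_re]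
  rfl

lemma z_pow {p : ℕ} (hp : 2 ≤ p) (s t : ℝ) (m : ℕ) : (((p : ℂ) ^ (-pt s t)) ^ m).re =
    rp p s ^ m * Real.cos (m * (t * Real.log p)) := by
  have hp0 : (p : ℂ) ≠ 0 := by exact_mod_cast (by omega : p ≠ 0)
  have hp1 : (0:ℝ) < p := by exact_mod_cast (by omega : 0 < p)
  have e : ((p : ℂ) ^ (-pt s t)) ^ m = ((rp p s ^ m : ℝ) : ℂ) *
      Complex.exp (((-(m * (t * Real.log p)) : ℝ) : ℂ) * Complex.I) := by
    unfold rp
    rw [Complex.cpow_def_of_ne_zero hp0, ← Complex.exp_nat_mul, Real.rpow_def_of_pos hp1,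
      ← Real.exp_nat_mul, Complex.ofReal_exp, ← Complex.exp_add, ← Complex.natCast_log]
    congr 1
    unfold pt
    push_cast
    ring
  rw [e, Complex.re_ofReal_mul, Complex.exp_ofReal_mul_I_re, Real.cos_neg]

lemma psi_hasSum {p : ℕ} (hp : 2 ≤ p) {s : ℝ} (hs : 0 ≤ s) (t : ℝ) :
    HasSum (fun m : ℕ => rp p s ^ (m + 1) / (m + 1) * Real.cos ((m + 1) * (t * Real.log p))) (psi p s t) := by
  have hz : ‖(p : ℂ) ^ (-pt s t)‖ < 1 := by rw [z_norm hp]; linarith [rp_le' hp hs]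
  have h1 := Complex.hasSum_re (Complex.hasSum_taylorSeries_neg_log' hz)
  rw [Complex.neg_re, Complex.log_re] at h1
  unfold psi
  convert h1 using 2 with m
  have e : ((p : ℂ) ^ (-pt s t)) ^ (m + 1) / ((m : ℂ) + 1) =
      ((p : ℂ) ^ (-pt s t)) ^ (m + 1) / (((m + 1 : ℝ)) : ℂ) := by push_cast; ring
  rw [e, Complex.div_ofReal_re, z_pow hp]
  push_cast
  ring

lemma geom_bd {r : ℝ} (h0 : 0 ≤ r) (h1 : r ≤ 3 / 4) : HasSum (fun m : ℕ => r ^ (m + 1)) (r / (1 - r)) ∧
    r / (1 - r) ≤ 4 * r := by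
  constructor
  · have := (hasSum_geometric_of_lt_one h0 (by linarith)).mul_left r
    simpa [pow_succ', div_eq_mul_inv] using this
  · rw [div_le_iff₀ (by linarith)]
    nlinarith

lemma psi_bound {p : ℕ} (hp : 2 ≤ p) {s : ℝ} (hs : 0 ≤ s) (t : ℝ) : |psi p s t| ≤ 4 * rp p s := by
  have hr := rp_le' hp hs
  obtain ⟨h1, h2⟩ := geom_bd (rp_pos hp s).le hr
  have h3 := psi_hasSum hp hs t
  refine le_trans ?_ h2
  rw [← Real.norm_eq_abs, ← h3.tsum_eq]
  refine tsum_of_norm_bounded h1 fun m => ?_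
  rw [norm_mul, Real.norm_eq_abs, Real.norm_eq_abs, abs_div, abs_of_pos (pow_pos (rp_pos hp s) _),
    abs_of_pos (by positivity : (0:ℝ) < m + 1)]
  have h4 := Real.abs_cos_le_one ((m + 1) * (t * Real.log p))
  have h5 : rp p s ^ (m + 1) / ((m : ℝ) + 1) ≤ rp p s ^ (m + 1) := by
    apply div_le_self (pow_pos (rp_pos hp s) _).le
    have : (0:ℝ) ≤ m := by positivity
    linarith
  have h6 := (pow_pos (rp_pos hp s) (m + 1)).le
  calc _ ≤ rp p s ^ (m + 1) * 1 := by gcongr
    _ = _ := mul_one _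

lemma psi_meas (p : ℕ) : Measurable (fun q : ℝ × ℝ => psi p q.1 q.2) := by
  unfold psi
  have h1 : Measurable (fun q : ℝ × ℝ => (p : ℂ) ^ (-pt q.1 q.2)) :=
    (pt_measurable.neg).const_pow _
  exact (Real.measurable_log.comp ((measurable_const.sub h1).norm)).neg

lemma psi_meas_comp (p : ℕ) {α : Type*} [MeasurableSpace α] {u v : α → ℝ} (hu : Measurable u)
    (hv : Measurable v) : Measurable (fun x => psi p (u x) (v x)) := by
  have h1 : Measurable (fun x => (u x, v x)) := hu.prodMk hv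
  have h2 := (psi_meas p).comp h1
  have h3 : ((fun q : ℝ × ℝ => psi p q.1 q.2) ∘ fun x => (u x, v x)) = fun x => psi p (u x) (v x) := by
    funext x
    rfl
  rw [h3] at h2
  exact h2

lemma log_p_pos {p : ℕ} (hp : 2 ≤ p) : 1 / 2 ≤ Real.log p := by
  have h1 : (2:ℝ) ≤ p := by exact_mod_cast hp
  have := Real.log_le_log (by norm_num) h1
  have := Real.log_two_gt_d9
  linarith

lemma int_cos {a : ℝ} (ha : a ≠ 0) (T : ℝ) : ∫ t in (1:ℝ)..T, Real.cos (a * t) =
    (Real.sin (a * T) - Real.sin (a * 1)) / a := by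
  have h1 : ∀ t ∈ uIcc 1 T, HasDerivAt (fun t => Real.sin (a * t) / a) (Real.cos (a * t)) t := by
    intro t _
    have h2 : HasDerivAt (fun t => a * t) a t := by simpa using (hasDerivAt_id t).const_mul a
    have h3 := ((Real.hasDerivAt_sin (a * t)).comp t h2).div_const a
    rw [mul_div_assoc, div_self ha, mul_one] at h3
    exact h3
  rw [intervalIntegral.integral_eq_sub_of_hasDerivAt h1 ((by fun_prop : Continuous fun t => Real.cos (a * t)).intervalIntegrable _ _)]
  ring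

lemma psi_av {p : ℕ} (hp : 2 ≤ p) {s : ℝ} (hs : 0 ≤ s) {T : ℝ} (hT : 1 ≤ T) :
    |∫ t in (1:ℝ)..T, psi p s t| ≤ 12 := by
  have hr := rp_le' hp hs
  obtain ⟨h1, h2⟩ := geom_bd (rp_pos hp s).le hr
  have hlog := log_p_pos hp
  set F : ℕ → ℝ → ℝ := fun m t => rp p s ^ (m + 1) / (m + 1) * Real.cos ((m + 1) * (t * Real.log p)) with hF
  have hle : ∀ (m : ℕ) (t : ℝ), ‖F m t‖ ≤ rp p s ^ (m + 1) := by
    intro m t
    simp only [hF]
    rw [norm_mul, Real.norm_eq_abs, Real.norm_eq_abs, abs_div, abs_of_pos (pow_pos (rp_pos hp s) _),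
      abs_of_pos (by positivity : (0:ℝ) < m + 1)]
    have h4 := Real.abs_cos_le_one ((m + 1) * (t * Real.log p))
    have h5 : rp p s ^ (m + 1) / ((m : ℝ) + 1) ≤ rp p s ^ (m + 1) := by
      apply div_le_self (pow_pos (rp_pos hp s) _).le
      have : (0:ℝ) ≤ m := by positivity
      linarith
    have h6 := (pow_pos (rp_pos hp s) (m + 1)).le
    calc _ ≤ rp p s ^ (m + 1) * 1 := by gcongr
      _ = _ := mul_one _
  have hcont : ∀ m, Continuous (F m) := fun m => by simp only [hF]; fun_prop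
  have hint : ∀ m, Integrable (F m) (volume.restrict (Ioc 1 T)) := fun m => (hcont m).integrableOn_Ioc
  have hsum : Summable fun m => ∫ t, ‖F m t‖ ∂(volume.restrict (Ioc 1 T)) := by
    refine Summable.of_nonneg_of_le (fun m => integral_nonneg fun t => norm_nonneg _) (fun m => ?_)
      (h1.summable.mul_right (T - 1))
    calc ∫ t in Ioc 1 T, ‖F m t‖ ≤ ∫ t in Ioc 1 T, rp p s ^ (m + 1) :=
          integral_mono (hint m).norm (integrable_const _) (hle m)
      _ = _ := by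
          rw [setIntegral_const, smul_eq_mul, mul_comm]
          congr 1
          rw [Measure.real, Real.volume_Ioc, ENNReal.toReal_ofReal (by linarith)]
  have h3 := hasSum_integral_of_summable_integral_norm hint hsum
  have h4 : ∫ t in (1:ℝ)..T, psi p s t = ∑' m, ∫ t in Ioc 1 T, F m t := by
    rw [h3.tsum_eq, intervalIntegral.integral_of_le hT]
    refine integral_congr_ae (Eventually.of_forall fun t => ?_)
    exact (psi_hasSum hp hs t).tsum_eq.symm
  rw [h4, ← Real.norm_eq_abs]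
  have h5 : ∀ m, ‖∫ t in Ioc 1 T, F m t‖ ≤ rp p s ^ (m + 1) * 4 := by
    intro m
    have e : ∫ t in Ioc 1 T, F m t = rp p s ^ (m + 1) / (m + 1) *
        ∫ t in (1:ℝ)..T, Real.cos (((m + 1) * Real.log p) * t) := by
      rw [intervalIntegral.integral_of_le hT, ← integral_const_mul]
      refine integral_congr_ae (Eventually.of_forall fun t => ?_)
      simp only [hF]
      congr 2
      ring
    have hm1 : (1:ℝ) ≤ m + 1 := by
      have : (0:ℝ) ≤ m := by positivity
      linarith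
    have hml : 1 / 2 ≤ (m + 1) * Real.log p := by nlinarith
    rw [e, int_cos (by positivity), norm_mul, Real.norm_eq_abs, Real.norm_eq_abs, abs_div, abs_div,
      abs_of_pos (pow_pos (rp_pos hp s) _), abs_of_pos (by positivity : (0:ℝ) < m + 1),
      abs_of_pos (by positivity : 0 < (m + 1) * Real.log p)]
    have h6 : |Real.sin ((m + 1) * Real.log p * T) - Real.sin ((m + 1) * Real.log p * 1)| ≤ 2 := by
      have a1 := abs_sub (Real.sin ((m + 1) * Real.log p * T)) (Real.sin ((m + 1) * Real.log p * 1))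
      have a2 := Real.abs_sin_le_one ((m + 1) * Real.log p * T)
      have a3 := Real.abs_sin_le_one ((m + 1) * Real.log p * 1)
      linarith
    have h7 : |Real.sin ((m + 1) * Real.log p * T) - Real.sin ((m + 1) * Real.log p * 1)| /
        ((m + 1) * Real.log p) ≤ 4 := by
      rw [div_le_iff₀ (by positivity)]
      linarith
    have h8 : rp p s ^ (m + 1) / ((m : ℝ) + 1) ≤ rp p s ^ (m + 1) :=
      div_le_self (pow_pos (rp_pos hp s) _).le hm1
    have h9 := (pow_pos (rp_pos hp s) (m + 1)).le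
    gcongr
  refine (tsum_of_norm_bounded (h1.mul_right 4) h5).trans ?_
  nlinarith

lemma rp_exp {p : ℕ} (hp : 2 ≤ p) (s : ℝ) (m : ℕ) : rp p s ^ (m + 1) =
    rp p 0 ^ (m + 1) * Real.exp (-((m + 1) * Real.log p) * s) := by
  have hp1 : (0:ℝ) < p := by exact_mod_cast (by omega : 0 < p)
  unfold rp
  rw [Real.rpow_def_of_pos hp1, Real.rpow_def_of_pos hp1, ← Real.exp_nat_mul, ← Real.exp_nat_mul,
    ← Real.exp_add]
  congr 1
  push_cast
  ring

/-- the terms of the local factor -/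
def cf (p m : ℕ) : ℝ := rp p 0 ^ (m + 1) / ((m + 1) ^ 2 * Real.log p)

lemma cf_nonneg {p : ℕ} (hp : 2 ≤ p) (m : ℕ) : 0 ≤ cf p m := by
  unfold cf
  have := rp_pos hp 0
  have := log_p_pos hp
  positivity

lemma cf_le {p : ℕ} (hp : 2 ≤ p) (m : ℕ) : cf p m ≤ rp p 0 ^ (m + 1) / Real.log p := by
  unfold cf
  have h1 := rp_pos hp 0
  have h2 := log_p_pos hp
  have h3 : (1:ℝ) ≤ (m + 1) ^ 2 := one_le_pow₀ (by
    have : (0:ℝ) ≤ m := by positivity
    linarith)
  apply div_le_div_of_nonneg_left (by positivity) (by positivity)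
  nlinarith

/-- `X_p` as a function of the angle -/
def Lp (p : ℕ) (θ : ℝ) : ℝ := ∑' m : ℕ, cf p m * Real.cos (2 * Real.pi * (m + 1) * θ)

lemma cf_summable {p : ℕ} (hp : 2 ≤ p) : Summable (cf p) ∧ ∑' m, cf p m ≤ 4 * rp p 0 / Real.log p := by
  obtain ⟨h1, h2⟩ := geom_bd (rp_pos hp 0).le (rp_zero_le hp)
  have h3 := h1.div_const (Real.log p)
  have hlog := log_p_pos hp
  have hs : Summable (cf p) := Summable.of_nonneg_of_le (cf_nonneg hp) (cf_le hp) h3.summable
  refine ⟨hs, ?_⟩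
  calc ∑' m, cf p m ≤ rp p 0 / (1 - rp p 0) / Real.log p := by
        rw [← h3.tsum_eq]
        exact hs.tsum_le_tsum (cf_le hp) h3.summable
    _ ≤ _ := by gcongr

lemma Lp_hasSum {p : ℕ} (hp : 2 ≤ p) (θ : ℝ) :
    HasSum (fun m : ℕ => cf p m * Real.cos (2 * Real.pi * (m + 1) * θ)) (Lp p θ) := by
  refine Summable.hasSum (Summable.of_norm_bounded (cf_summable hp).1 fun m => ?_)
  rw [norm_mul, Real.norm_eq_abs, Real.norm_eq_abs, abs_of_nonneg (cf_nonneg hp m)]
  have := Real.abs_cos_le_one (2 * Real.pi * (m + 1) * θ)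
  have h2 := cf_nonneg hp m
  calc _ ≤ cf p m * 1 := by gcongr
    _ = _ := mul_one _

lemma Lp_bound {p : ℕ} (hp : 2 ≤ p) (θ : ℝ) : |Lp p θ| ≤ 4 * rp p 0 / Real.log p := by
  refine le_trans ?_ (cf_summable hp).2
  rw [← Real.norm_eq_abs]
  refine tsum_of_norm_bounded (cf_summable hp).1.hasSum fun m => ?_
  rw [norm_mul, Real.norm_eq_abs, Real.norm_eq_abs, abs_of_nonneg (cf_nonneg hp m)]
  have := Real.abs_cos_le_one (2 * Real.pi * (m + 1) * θ)
  have h2 := cf_nonneg hp m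
  calc _ ≤ cf p m * 1 := by gcongr
    _ = _ := mul_one _

/-- `X_p` as a function of `t` -/
def xp (p : ℕ) (t : ℝ) : ℝ := Lp p (t * (Real.log p / (2 * Real.pi)))

lemma psi_integrable {p : ℕ} (hp : 2 ≤ p) (t : ℝ) : IntegrableOn (fun s => psi p s t) (Ioi 0) := by
  have hlog := log_p_pos hp
  have h1 : IntegrableOn (fun s : ℝ => 4 * (rp p 0 * Real.exp (-Real.log p * s))) (Ioi 0) :=
    ((integrableOn_exp_mul_Ioi (by linarith) 0).const_mul _).const_mul _
  have hm : Measurable (fun s => psi p s t) := psi_meas_comp p measurable_id measurable_const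
  refine Integrable.mono' h1 hm.aestronglyMeasurable ?_
  rw [ae_restrict_iff' measurableSet_Ioi]
  refine Eventually.of_forall fun s hs => ?_
  have h3 := psi_bound hp (le_of_lt hs) t
  have h4 := rp_exp hp s 0
  simp only [Nat.cast_zero, zero_add, one_mul, pow_one] at h4
  rw [Real.norm_eq_abs]
  rw [h4] at h3
  exact h3

lemma psi_int {p : ℕ} (hp : 2 ≤ p) (t : ℝ) : ∫ s in Ioi (0:ℝ), psi p s t = xp p t := by
  have hlog := log_p_pos hp
  obtain ⟨h1, h2⟩ := geom_bd (rp_pos hp 0).le (rp_zero_le hp)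
  set F : ℕ → ℝ → ℝ := fun m s => rp p s ^ (m + 1) / (m + 1) * Real.cos ((m + 1) * (t * Real.log p)) with hF
  have hFe : ∀ (m : ℕ) (s : ℝ), F m s = (rp p 0 ^ (m + 1) / (m + 1) * Real.cos ((m + 1) * (t * Real.log p))) *
      Real.exp (-((m + 1) * Real.log p) * s) := by
    intro m s
    simp only [hF]
    rw [rp_exp hp]
    ring
  have hneg : ∀ m : ℕ, -(((m : ℝ) + 1) * Real.log p) < 0 := fun m => by
    have : 0 < ((m : ℝ) + 1) * Real.log p := by positivity
    linarith
  have hint : ∀ m, Integrable (F m) (volume.restrict (Ioi 0)) := fun m => by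
    have := (integrableOn_exp_mul_Ioi (hneg m) 0).const_mul
      (rp p 0 ^ (m + 1) / (m + 1) * Real.cos ((m + 1) * (t * Real.log p)))
    refine this.congr (Eventually.of_forall fun s => ?_)
    exact (hFe m s).symm
  have hval : ∀ m, ∫ s in Ioi (0:ℝ), F m s = cf p m * Real.cos ((m + 1) * (t * Real.log p)) := by
    intro m
    simp only [hFe]
    rw [integral_const_mul, integral_exp_mul_Ioi (hneg m), mul_zero, Real.exp_zero]
    unfold cf
    have : (m : ℝ) + 1 ≠ 0 := by positivity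
    field_simp
  have hnorm : ∀ m, ∫ s in Ioi (0:ℝ), ‖F m s‖ ≤ cf p m := by
    intro m
    have hm1 : (0:ℝ) < (m : ℝ) + 1 := by positivity
    have e : ∀ s, ‖F m s‖ = (rp p 0 ^ (m + 1) / (m + 1) * |Real.cos ((m + 1) * (t * Real.log p))|) *
        Real.exp (-((m + 1) * Real.log p) * s) := by
      intro s
      rw [hFe, norm_mul, norm_mul, Real.norm_eq_abs, Real.norm_eq_abs, Real.norm_eq_abs, abs_div,
        abs_of_pos (pow_pos (rp_pos hp 0) _), abs_of_pos hm1, abs_of_pos (Real.exp_pos _)]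
    simp only [e]
    rw [integral_const_mul, integral_exp_mul_Ioi (hneg m), mul_zero, Real.exp_zero]
    have h3 := Real.abs_cos_le_one ((m + 1) * (t * Real.log p))
    have h4 : cf p m = (rp p 0 ^ (m + 1) / (m + 1) * 1) * (-1 / -((m + 1) * Real.log p)) := by
      unfold cf
      field_simp
    rw [h4]
    have h5 : 0 ≤ -1 / -(((m : ℝ) + 1) * Real.log p) := by
      rw [neg_div_neg_eq]; positivity
    have h6 := (pow_pos (rp_pos hp 0) (m + 1)).le
    gcongr
  have hsum : Summable fun m => ∫ s, ‖F m s‖ ∂(volume.restrict (Ioi 0)) :=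
    Summable.of_nonneg_of_le (fun m => integral_nonneg fun t => norm_nonneg _) hnorm (cf_summable hp).1
  have h3 := hasSum_integral_of_summable_integral_norm hint hsum
  unfold xp Lp
  have h4 : ∫ s in Ioi (0:ℝ), psi p s t = ∫ s in Ioi (0:ℝ), ∑' m, F m s := by
    refine setIntegral_congr_fun measurableSet_Ioi fun s hs => ?_
    exact (psi_hasSum hp (le_of_lt hs) t).tsum_eq.symm
  rw [h4, ← h3.tsum_eq]
  refine tsum_congr fun m => ?_
  rw [hval]
  congr 2
  have := Real.pi_pos.ne'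
  field_simp

/-! ### the local factor as a continuous function on the circle -/

/-- `X_p` on the circle -/
def Dp {p : ℕ} (hp : 2 ≤ p) : C(UnitAddCircle, ℝ) where
  toFun x := ∑' m : ℕ, cf p m * (fourier ((m : ℤ) + 1) x : ℂ).re
  continuous_toFun := by
    refine continuous_tsum (u := cf p) (fun m => ?_) (cf_summable hp).1 fun m x => ?_
    · exact continuous_const.mul (Complex.continuous_re.comp (fourier ((m : ℤ) + 1)).continuous)
    · rw [norm_mul, Real.norm_eq_abs, Real.norm_eq_abs, abs_of_nonneg (cf_nonneg hp m)]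
      have h1 : |(fourier ((m : ℤ) + 1) x : ℂ).re| ≤ 1 := by
        refine (Complex.abs_re_le_norm _).trans ?_
        rw [fourier_apply, Circle.norm_coe]
      have h2 := cf_nonneg hp m
      calc _ ≤ cf p m * 1 := by gcongr
        _ = _ := mul_one _

lemma Dp_coe {p : ℕ} (hp : 2 ≤ p) (θ : ℝ) : Dp hp (θ : UnitAddCircle) = Lp p θ := by
  unfold Dp Lp
  rw [ContinuousMap.coe_mk]
  refine tsum_congr fun m => ?_
  rw [fourier_coe_apply]
  congr 1
  have : 2 * (Real.pi : ℂ) * Complex.I * (((m : ℤ) + 1 : ℤ) : ℂ) * (θ : ℂ) / ((1:ℝ) : ℂ) =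
      ((2 * Real.pi * (m + 1) * θ : ℝ) : ℂ) * Complex.I := by
    push_cast; ring
  rw [this, Complex.exp_ofReal_mul_I_re]

lemma Lp_cont {p : ℕ} (hp : 2 ≤ p) : Continuous (Lp p) := by
  have : Lp p = fun θ : ℝ => Dp hp (θ : UnitAddCircle) := by
    funext θ; rw [Dp_coe]
  rw [this]
  exact (Dp hp).continuous.comp (AddCircle.continuous_mk' 1)

lemma Lp_mean {p : ℕ} (hp : 2 ≤ p) : ∫ θ in (0:ℝ)..1, Lp p θ = 0 := by
  set F : ℕ → ℝ → ℝ := fun m θ => cf p m * Real.cos (2 * Real.pi * (m + 1) * θ) with hF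
  have hcont : ∀ m, Continuous (F m) := fun m => by simp only [hF]; fun_prop
  have hint : ∀ m, Integrable (F m) (volume.restrict (Ioc 0 1)) := fun m => (hcont m).integrableOn_Ioc
  have hle : ∀ m θ, ‖F m θ‖ ≤ cf p m := by
    intro m θ
    simp only [hF]
    rw [norm_mul, Real.norm_eq_abs, Real.norm_eq_abs, abs_of_nonneg (cf_nonneg hp m)]
    have := Real.abs_cos_le_one (2 * Real.pi * (m + 1) * θ)
    have h2 := cf_nonneg hp m
    calc _ ≤ cf p m * 1 := by gcongr
      _ = _ := mul_one _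
  have hsum : Summable fun m => ∫ s, ‖F m s‖ ∂(volume.restrict (Ioc 0 1)) := by
    refine Summable.of_nonneg_of_le (fun m => integral_nonneg fun t => norm_nonneg _) (fun m => ?_)
      (cf_summable hp).1
    calc ∫ t in Ioc (0:ℝ) 1, ‖F m t‖ ≤ ∫ t in Ioc (0:ℝ) 1, cf p m :=
          integral_mono (hint m).norm (integrable_const _) (hle m)
      _ = _ := by simp
  have h3 := hasSum_integral_of_summable_integral_norm hint hsum
  rw [intervalIntegral.integral_of_le zero_le_one]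
  have h4 : ∫ t in Ioc (0:ℝ) 1, Lp p t = ∑' m, ∫ t in Ioc (0:ℝ) 1, F m t := by
    rw [h3.tsum_eq]
    rfl
  rw [h4]
  have h5 : ∀ m, ∫ t in Ioc (0:ℝ) 1, F m t = 0 := by
    intro m
    simp only [hF]
    rw [integral_const_mul, ← intervalIntegral.integral_of_le zero_le_one]
    have ha : 2 * Real.pi * ((m : ℝ) + 1) ≠ 0 := by positivity
    have h1 : ∀ t ∈ uIcc (0:ℝ) 1, HasDerivAt (fun t => Real.sin (2 * Real.pi * ((m : ℝ) + 1) * t) /
        (2 * Real.pi * ((m : ℝ) + 1))) (Real.cos (2 * Real.pi * ((m : ℝ) + 1) * t)) t := by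
      intro t _
      have h2 : HasDerivAt (fun t => 2 * Real.pi * ((m : ℝ) + 1) * t) (2 * Real.pi * ((m : ℝ) + 1)) t := by
        simpa using (hasDerivAt_id t).const_mul (2 * Real.pi * ((m : ℝ) + 1))
      have h3 := ((Real.hasDerivAt_sin (2 * Real.pi * ((m : ℝ) + 1) * t)).comp t h2).div_const
        (2 * Real.pi * ((m : ℝ) + 1))
      rw [mul_div_assoc, div_self ha, mul_one] at h3
      exact h3
    rw [intervalIntegral.integral_eq_sub_of_hasDerivAt h1
      ((by fun_prop : Continuous fun t => Real.cos (2 * Real.pi * ((m : ℝ) + 1) * t)).intervalIntegrable _ _)]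
    have : Real.sin (2 * Real.pi * ((m : ℝ) + 1) * 1) = 0 := by
      have h6 := Real.sin_nat_mul_pi (2 * (m + 1))
      push_cast at h6
      rw [← h6]
      congr 1; ring
    rw [this]
    simp
  simp only [h5, tsum_zero]

end

end Pool.Agent.Y757.EM
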