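import Pool.Agent.Y757.EM.SubF
import Pool.Agent.Y757.LS.R
import Pool.Agent.W186.SD.MainD

set_option autoImplicit false

/-! The second moment of zeta near the critical line. -/

namespace Pool.Agent.Y757.EM

open MeasureTheory Set Filter Topology Pool.Agent.Y757.LS Real
open scoped ENNReal

noncomputable section

lemma step_ineq {x : ℝ} (hx : 0 < x) {N : ℕ} (hN : 1 ≤ N) :
    ((N + 1 : ℕ) : ℝ) ^ (-(1 + x)) ≤ 1 / x * ((N : ℝ) ^ (-x) - ((N + 1 : ℕ) : ℝ) ^ (-x)) := by
  have hN0 : (0:ℝ) < N := by exact_mod_cast hN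
  have hN1 : (0:ℝ) < (N + 1 : ℕ) := by positivity
  set M : ℝ := ((N + 1 : ℕ) : ℝ) with hM
  have hMN : M = N + 1 := by rw [hM]; push_cast; ring
  have h1 : 1 / M ≤ Real.log (M / N) := by
    have h2 := Real.one_sub_inv_le_log_of_pos (div_pos hN1 hN0)
    have e : 1 - (M / N)⁻¹ = 1 / M := by rw [inv_div, hMN]; field_simp; ring
    rwa [e] at h2
  have h3 : 1 + x * Real.log (M / N) ≤ (M / N) ^ x := by
    rw [Real.rpow_def_of_pos (div_pos hN1 hN0)]
    have := Real.add_one_le_exp (Real.log (M / N) * x)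
    linarith
  have h4 : x / M ≤ (M / N) ^ x - 1 := by
    have : x / M = x * (1 / M) := by ring
    rw [this]; nlinarith
  have e1 : M ^ (-(1 + x)) = M ^ (-x) * (1 / M) := by
    rw [show -(1 + x) = -x + -1 by ring, Real.rpow_add hN1, Real.rpow_neg_one, one_div]
  have e2 : (N : ℝ) ^ (-x) = M ^ (-x) * (M / N) ^ x := by
    rw [Real.div_rpow hN1.le hN0.le, Real.rpow_neg hN1.le, Real.rpow_neg hN0.le]
    have := Real.rpow_pos_of_pos hN1 x
    field_simp
  have hp : 0 < M ^ (-x) := Real.rpow_pos_of_pos hN1 _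
  rw [e1, e2]
  have h5 : x * (1 / M) ≤ (M / N) ^ x - 1 := by rw [← div_eq_mul_one_div]; exact h4
  have h6 : 1 / M ≤ 1 / x * ((M / N) ^ x - 1) := by
    rw [one_div x, ← div_eq_inv_mul, le_div_iff₀ hx]; linarith
  calc M ^ (-x) * (1 / M) ≤ M ^ (-x) * (1 / x * ((M / N) ^ x - 1)) := by gcongr
    _ = _ := by ring

lemma sum_range_le {x : ℝ} (hx : 0 < x) (N : ℕ) :
    ∑ n ∈ Finset.range (N + 2), (if n ≤ 1 then 0 else (n : ℝ) ^ (-(1 + x))) ≤
      1 / x * (1 - ((N + 1 : ℕ) : ℝ) ^ (-x)) := by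
  induction N with
  | zero => simp [Finset.sum_range_succ]
  | succ N ih =>
    rw [Finset.sum_range_succ, if_neg (by omega)]
    have h := step_ineq hx (N := N + 1) (by omega)
    linarith

lemma tsum_le {x : ℝ} (hx : 0 < x) :
    Summable (fun n : ℕ => if n ≤ 1 then 0 else (n : ℝ) ^ (-(1 + x))) ∧
    ∑' n : ℕ, (if n ≤ 1 then 0 else (n : ℝ) ^ (-(1 + x))) ≤ 1 / x := by
  have h0 : ∀ n : ℕ, 0 ≤ (if n ≤ 1 then 0 else (n : ℝ) ^ (-(1 + x))) := fun n => by
    split_ifs
    · exact le_rfl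
    · positivity
  have hb : ∀ N : ℕ, ∑ n ∈ Finset.range N, (if n ≤ 1 then 0 else (n : ℝ) ^ (-(1 + x))) ≤ 1 / x := by
    intro N
    have h1 : ∑ n ∈ Finset.range N, (if n ≤ 1 then 0 else (n : ℝ) ^ (-(1 + x))) ≤
        ∑ n ∈ Finset.range (N + 2), (if n ≤ 1 then 0 else (n : ℝ) ^ (-(1 + x))) :=
      Finset.sum_le_sum_of_subset_of_nonneg (Finset.range_mono (by omega)) fun n _ _ => h0 n
    refine h1.trans ((sum_range_le hx N).trans ?_)
    have h2 : 0 ≤ ((N + 1 : ℕ) : ℝ) ^ (-x) := by positivity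
    have h3 : 0 < 1 / x := by positivity
    nlinarith
  exact ⟨summable_of_sum_range_le h0 hb, Real.tsum_le_of_sum_range_le h0 hb⟩

open Pool.Agent.H24R2.DZ in
/-- one dyadic block -/
lemma block : ∃ C T0 : ℝ, 0 < C ∧ 1 ≤ T0 ∧ ∀ T s : ℝ, T0 ≤ T → 0 < s → s ≤ 2 / 5 →
    ∫ t in (T / 4)..(4 * T), ‖riemannZeta (pt s t)‖ ^ 2 ≤ C * T / s := by
  obtain ⟨C, T0, hC, hT0, H⟩ := Pool.Agent.W186.SD.san
  refine ⟨2 * C * 3 + 8, T0, by positivity, hT0, fun T s hT hs hs1 => ?_⟩
  have hTpos : 0 < T := by linarith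
  set b : ℕ → ℂ := fun h => if h = 1 then 1 else 0 with hb
  have h1 := H T (1 / 2 + s) 1 b hT le_rfl (by simp; linarith) (by linarith) (by linarith)
    (fun h hh => by rw [hb]; simp only; rw [if_neg (by omega)])
  have hMM : ∀ z : ℂ, MM 1 b z = 1 := fun z => by unfold MM; simp [hb]
  have hcc : ∀ n : ℕ, 1 < n → cc b n = 1 := by
    intro n hn
    unfold cc
    rw [hb, Finset.sum_ite_eq' n.divisors 1]
    rw [if_pos]
    exact Nat.one_mem_divisors.2 (by omega)
  have hrr : rr 1 b 1 = 1 := by unfold rr; simp [hb]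
  have hb1 : b 1 = 1 := by simp [hb]
  simp only [hMM, mul_one, hb1] at h1
  have ht1 : (∑' n : ℕ, if n ≤ 1 then 0 else ‖cc b n‖ ^ 2 * (n : ℝ) ^ (-(2 * (1 / 2 + s))) *
      Real.exp (-(n / T))) ≤ 1 / (2 * s) := by
    obtain ⟨g1, g2⟩ := tsum_le (x := 2 * s) (by positivity)
    refine le_trans ?_ g2
    have hle : ∀ n : ℕ, (if n ≤ 1 then 0 else ‖cc b n‖ ^ 2 * (n : ℝ) ^ (-(2 * (1 / 2 + s))) *
        Real.exp (-(n / T))) ≤ (if n ≤ 1 then 0 else (n : ℝ) ^ (-(1 + 2 * s))) := by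
      intro n
      split_ifs with hn
      · exact le_rfl
      · rw [hcc n (by omega), norm_one, one_pow, one_mul, show -(2 * (1 / 2 + s)) = -(1 + 2 * s) by ring]
        refine mul_le_of_le_one_right (by positivity) ?_
        rw [Real.exp_le_one_iff]
        have : 0 ≤ (n:ℝ) / T := by positivity
        linarith
    refine Summable.tsum_le_tsum hle ?_ g1
    refine Summable.of_nonneg_of_le (fun n => ?_) hle g1
    split_ifs
    · exact le_rfl
    · positivity
  have hz : ∀ t : ℝ, ((1 / 2 + s : ℝ) : ℂ) + t * Complex.I = pt s t := fun t => by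
    unfold pt; push_cast; ring
  simp only [hz] at h1
  have hsum : (∑ k ∈ Finset.Icc (1:ℕ) 1, (k : ℝ) * (1 + Real.log k) * ‖rr 1 b k‖ ^ 2) = 1 := by
    simp [hrr]
  have hsum2 : ∑ h ∈ Finset.Icc (1:ℕ) 1, ‖b h‖ ^ 2 = 1 := by simp [hb]
  rw [hsum, hsum2, mul_one, mul_one] at h1
  have hp1 : T ^ (1 - 2 * (1 / 2 + s)) ≤ 1 :=
    Real.rpow_le_one_of_one_le_of_nonpos (by linarith) (by linarith)
  have hp2 : T ^ (-(1 / 2) : ℝ) ≤ 1 :=
    Real.rpow_le_one_of_one_le_of_nonpos (by linarith) (by norm_num)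
  have h2 : C * T * ((∑' n : ℕ, if n ≤ 1 then 0 else ‖cc b n‖ ^ 2 * (n : ℝ) ^ (-(2 * (1 / 2 + s))) *
      Real.exp (-(n / T))) + T ^ (1 - 2 * (1 / 2 + s)) + T ^ (-(1 / 2) : ℝ)) ≤
      C * T * (1 / (2 * s) + 1 + 1) := by gcongr
  have hcont : ContinuousOn (fun t : ℝ => riemannZeta (pt s t)) (uIcc (T / 4) (4 * T)) := by
    intro t ht
    rw [uIcc_of_le (by linarith)] at ht
    have hne : pt s t ≠ 1 := by
      intro h
      have := congrArg Complex.im h
      rw [pt_im, Complex.one_im] at this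
      rw [this] at ht
      linarith [ht.1]
    have h3 : ContinuousAt riemannZeta (pt s t) := (differentiableAt_riemannZeta hne).continuousAt
    have h4 : ContinuousAt (fun t : ℝ => pt s t) t := by unfold pt; fun_prop
    exact (ContinuousAt.comp (g := riemannZeta) h3 h4).continuousWithinAt
  have i1 : IntervalIntegrable (fun t : ℝ => ‖riemannZeta (pt s t) - 1‖ ^ 2) volume (T / 4) (4 * T) :=
    ((hcont.sub continuousOn_const).norm.pow 2).intervalIntegrable
  have i2 : IntervalIntegrable (fun t : ℝ => ‖riemannZeta (pt s t)‖ ^ 2) volume (T / 4) (4 * T) :=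
    (hcont.norm.pow 2).intervalIntegrable
  have h5 : ∫ t in (T / 4)..(4 * T), ‖riemannZeta (pt s t)‖ ^ 2 ≤
      ∫ t in (T / 4)..(4 * T), (2 * ‖riemannZeta (pt s t) - 1‖ ^ 2 + 2) := by
    refine intervalIntegral.integral_mono_on (by linarith) i2 ((i1.const_mul 2).add (by simp)) ?_
    intro t _
    have h6 : ‖riemannZeta (pt s t)‖ ≤ ‖riemannZeta (pt s t) - 1‖ + 1 := by
      have := norm_add_le (riemannZeta (pt s t) - 1) 1
      rwa [sub_add_cancel, norm_one] at this
    have h7 := norm_nonneg (riemannZeta (pt s t))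
    have h8 := norm_nonneg (riemannZeta (pt s t) - 1)
    nlinarith [sq_nonneg (‖riemannZeta (pt s t) - 1‖ - 1)]
  rw [intervalIntegral.integral_add (i1.const_mul 2) (by simp), intervalIntegral.integral_const_mul,
    intervalIntegral.integral_const] at h5
  have h9 : (1:ℝ) ≤ 1 / s := by rw [le_div_iff₀ hs]; linarith
  have h10 : C * T * (1 / (2 * s) + 1 + 1) ≤ C * T * (3 * (1 / s)) := by
    apply mul_le_mul_of_nonneg_left _ (by positivity)
    have : 1 / (2 * s) = 1 / 2 * (1 / s) := by field_simp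
    rw [this]; linarith
  have h11 : T ≤ T * (1 / s) := le_mul_of_one_le_right hTpos.le h9
  rw [smul_eq_mul] at h5
  have e : (2 * C * 3 + 8) * T / s = 2 * (C * T * (3 * (1 / s))) + 8 * (T * (1 / s)) := by ring
  rw [e]
  linarith

/-- dyadic summation -/
lemma dyadic {f : ℝ → ℝ≥0∞} {X1 D : ℝ} (hX1 : 0 < X1) (hD : 0 ≤ D)
    (h : ∀ X : ℝ, X1 ≤ X → ∫⁻ t in Ioc (X / 16) X, f t ≤ ENNReal.ofReal (D * X)) (X : ℝ) (hX : 0 ≤ X) :
    ∫⁻ t in Ioc 0 X, f t ≤ (∫⁻ t in Ioc 0 X1, f t) + ENNReal.ofReal (2 * D * X) := by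
  have key : ∀ n : ℕ, ∀ X : ℝ, 0 ≤ X → X ≤ 16 ^ n * X1 →
      ∫⁻ t in Ioc 0 X, f t ≤ (∫⁻ t in Ioc 0 X1, f t) + ENNReal.ofReal (2 * D * X) := by
    intro n
    induction n with
    | zero =>
      intro X hX h1
      rw [pow_zero, one_mul] at h1
      exact (lintegral_mono_set (Ioc_subset_Ioc_right h1)).trans le_self_add
    | succ n ih =>
      intro X hX h1
      rcases le_total X X1 with h2 | h2
      · exact (lintegral_mono_set (Ioc_subset_Ioc_right h2)).trans le_self_add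
      have h3 := ih (X / 16) (by positivity) (by rw [pow_succ] at h1; linarith)
      have h4 := h X h2
      have e : Ioc 0 X = Ioc 0 (X / 16) ∪ Ioc (X / 16) X :=
        (Ioc_union_Ioc_eq_Ioc (by positivity) (by linarith)).symm
      rw [e]
      refine (lintegral_union_le _ _ _).trans ((add_le_add h3 h4).trans ?_)
      rw [add_assoc, ← ENNReal.ofReal_add (by positivity) (by positivity)]
      gcongr
      nlinarith [mul_nonneg hD hX]
  obtain ⟨n, hn⟩ := exists_nat_ge (X / X1)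
  refine key n X hX ?_
  have h2 : (n : ℝ) ≤ 16 ^ n := by
    have : n < 16 ^ n := Nat.lt_pow_self (by norm_num)
    exact_mod_cast this.le
  rw [div_le_iff₀ hX1] at hn
  nlinarith

lemma GG_conj (s t : ℝ) : ‖GG (pt s (-t))‖ = ‖GG (pt s t)‖ := by
  by_cases ht : t = 0
  · subst ht; simp
  have e1 : pt s (-t) = (starRingEnd ℂ) (pt s t) := by
    unfold pt
    simp [Complex.conj_ofReal, map_ofNat]
  have hne : pt s t ≠ 1 := by
    intro h
    have := congrArg Complex.im h
    rw [pt_im, Complex.one_im] at this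
    exact ht this
  have hne' : (starRingEnd ℂ) (pt s t) ≠ 1 := by
    intro h
    apply hne
    have := congrArg (starRingEnd ℂ) h
    simpa using this
  rw [e1, GG_of_ne hne', GG_of_ne hne, riemannZeta_conj]
  have e2 : ((starRingEnd ℂ) (pt s t) - 1) / ((starRingEnd ℂ) (pt s t) + 3) * (starRingEnd ℂ) (riemannZeta (pt s t))
      = (starRingEnd ℂ) ((pt s t - 1) / (pt s t + 3) * riemannZeta (pt s t)) := by
    rw [map_mul, map_div₀, map_sub, map_add, map_one, map_ofNat]
  rw [e2, RCLike.norm_conj]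

lemma sym_int {f : ℝ → ℝ≥0∞} (hf : ∀ t, f (-t) = f t) (hm : Measurable f) (T : ℝ) :
    ∫⁻ t in Icc (-T) T, f t ≤ 2 * ∫⁻ t in Ioc 0 T, f t := by
  have h1 : Icc (-T) T ⊆ Icc (-T) 0 ∪ Ioc 0 T := by
    intro x hx
    rcases le_total x 0 with h | h
    · exact Or.inl ⟨hx.1, h⟩
    · rcases h.eq_or_lt with h' | h'
      · exact Or.inl ⟨hx.1, h'.symm.le⟩
      · exact Or.inr ⟨h', hx.2⟩
  have h2 : ∫⁻ t in Icc (-T) 0, f t = ∫⁻ t in Ioc 0 T, f t := by
    have h3 := (Measure.measurePreserving_neg (volume : Measure ℝ)).setLIntegral_comp_preimage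
      (s := Icc (-T) 0) measurableSet_Icc hm
    have e : (Neg.neg : ℝ → ℝ) ⁻¹' Icc (-T) 0 = Icc 0 T := by
      ext x; simp only [mem_preimage, mem_Icc]; constructor <;> rintro ⟨a, b⟩ <;> constructor <;> linarith
    rw [e] at h3
    rw [← h3]
    simp only [hf]
    exact (setLIntegral_congr Ioc_ae_eq_Icc).symm
  calc _ ≤ ∫⁻ t in Icc (-T) 0 ∪ Ioc 0 T, f t := lintegral_mono_set h1
    _ ≤ _ := lintegral_union_le _ _ _
    _ = _ := by rw [h2, two_mul]

lemma GG_bd (X : ℝ) : ∃ K : ℝ, 0 ≤ K ∧ ∀ s t : ℝ, 0 ≤ s → s ≤ 5 → |t| ≤ X → ‖GG (pt s t)‖ ≤ K := by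
  obtain ⟨C, hC, h⟩ := GG_growth
  refine ⟨C * (12 * (1 + |X|)) ^ 4, by positivity, fun s t hs hs1 ht => ?_⟩
  have h1 := h (pt s t) (by rw [pt_re]; linarith)
  refine h1.trans ?_
  have h2 := pt_norm_le (s := s) (t := t) (by linarith) (by linarith)
  have h3 : |t| ≤ |X| := ht.trans (le_abs_self X)
  have : ‖pt s t‖ + 1 ≤ 12 * (1 + |X|) := h2.trans (by linarith)
  gcongr

lemma GG_le_zeta {s t : ℝ} (hs : -(3/2) ≤ s) (ht : t ≠ 0) : ‖GG (pt s t)‖ ≤ ‖riemannZeta (pt s t)‖ := by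
  have hne : pt s t ≠ 1 := by
    intro h
    have := congrArg Complex.im h
    rw [pt_im, Complex.one_im] at this
    exact ht this
  rw [GG_of_ne hne, norm_mul]
  exact mul_le_of_le_one_left (norm_nonneg _) (ratio_le (by rw [pt_re]; linarith))

/-- (I2) -/
theorem second : ∃ C : ℝ, 0 < C ∧ ∀ s : ℝ, 0 < s → s ≤ 2 / 5 → PB 0 (uS GG s) (C / s) 1 := by
  obtain ⟨C, T0, hC, hT0, H⟩ := block
  obtain ⟨K, hK, hKb⟩ := GG_bd (4 * T0)
  refine ⟨2 * (K ^ 2 * (4 * T0) + 2 * C), by positivity, fun s hs hs1 T hT => ?_⟩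
  have hm := uS_meas GG_measurable s
  have hsym : ∀ t, uS GG s (-t) = uS GG s t := fun t => by unfold uS; rw [GG_conj]
  refine (sym_int hsym hm T).trans ?_
  have hblock : ∀ X : ℝ, 4 * T0 ≤ X → ∫⁻ t in Ioc (X / 16) X, uS GG s t ≤ ENNReal.ofReal (C / s * X) := by
    intro X hX
    have hX0 : 0 < X := by linarith
    have h1 := H (X / 4) s (by linarith) hs hs1
    rw [show X / 4 / 4 = X / 16 by ring, show 4 * (X / 4) = X by ring] at h1
    have hcont : ContinuousOn (fun t : ℝ => ‖riemannZeta (pt s t)‖ ^ 2) (Icc (X / 16) X) := by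
      intro t ht
      have hne : pt s t ≠ 1 := by
        intro h
        have := congrArg Complex.im h
        rw [pt_im, Complex.one_im] at this
        rw [this] at ht
        linarith [ht.1]
      have h3 : ContinuousAt riemannZeta (pt s t) := (differentiableAt_riemannZeta hne).continuousAt
      have h4 : ContinuousAt (fun t : ℝ => pt s t) t := by unfold pt; fun_prop
      exact ((ContinuousAt.comp (g := riemannZeta) h3 h4).norm.pow 2).continuousWithinAt
    have hi : IntegrableOn (fun t : ℝ => ‖riemannZeta (pt s t)‖ ^ 2) (Ioc (X / 16) X) :=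
      (hcont.integrableOn_Icc).mono_set Ioc_subset_Icc_self
    rw [intervalIntegral.integral_of_le (by linarith)] at h1
    calc ∫⁻ t in Ioc (X / 16) X, uS GG s t
        ≤ ∫⁻ t in Ioc (X / 16) X, ENNReal.ofReal (‖riemannZeta (pt s t)‖ ^ 2) := by
          refine setLIntegral_mono' measurableSet_Ioc fun t ht => ?_
          unfold uS
          apply ENNReal.ofReal_le_ofReal
          have ht0 : t ≠ 0 := by
            have := ht.1
            intro h
            rw [h] at this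
            linarith
          exact pow_le_pow_left₀ (norm_nonneg _) (GG_le_zeta (by linarith) ht0) 2
      _ = ENNReal.ofReal (∫ t in Ioc (X / 16) X, ‖riemannZeta (pt s t)‖ ^ 2) :=
          (ofReal_integral_eq_lintegral_ofReal hi (Eventually.of_forall fun t => by positivity)).symm
      _ ≤ ENNReal.ofReal (C / s * X) := by
          apply ENNReal.ofReal_le_ofReal
          refine h1.trans (le_of_eq_of_le ?_ (show C / s * X / 4 ≤ C / s * X by
            have : 0 ≤ C / s * X := by positivity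
            linarith))
          ring
  have h2 := dyadic (f := uS GG s) (X1 := 4 * T0) (D := C / s) (by linarith) (by positivity) hblock T hT
  have h3 : ∫⁻ t in Ioc 0 (4 * T0), uS GG s t ≤ ENNReal.ofReal (K ^ 2 * (4 * T0)) := by
    calc _ ≤ ∫⁻ t in Ioc 0 (4 * T0), ENNReal.ofReal (K ^ 2) := by
          refine setLIntegral_mono' measurableSet_Ioc fun t ht => ?_
          unfold uS
          apply ENNReal.ofReal_le_ofReal
          refine pow_le_pow_left₀ (norm_nonneg _) (hKb s t hs.le (by linarith) ?_) 2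
          rw [abs_of_nonneg ht.1.le]; exact ht.2
      _ = _ := by
          rw [setLIntegral_const, Real.volume_Ioc, ← ENNReal.ofReal_mul (by positivity), sub_zero]
  have h9 : (1:ℝ) ≤ 1 / s := by rw [le_div_iff₀ hs]; linarith
  have hD : 0 ≤ C / s := by positivity
  calc 2 * ∫⁻ t in Ioc 0 T, uS GG s t
      ≤ ENNReal.ofReal 2 * (ENNReal.ofReal (K ^ 2 * (4 * T0)) + ENNReal.ofReal (2 * (C / s) * T)) := by
        rw [show ENNReal.ofReal 2 = 2 by norm_num]
        exact mul_le_mul_right (h2.trans (add_le_add_left h3 _)) 2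
    _ = ENNReal.ofReal (2 * (K ^ 2 * (4 * T0) + 2 * (C / s) * T)) := by
        rw [← ENNReal.ofReal_add (by positivity) (by positivity), ← ENNReal.ofReal_mul (by norm_num)]
    _ ≤ _ := by
        apply ENNReal.ofReal_le_ofReal
        rw [Real.rpow_one]
        have e : 2 * (K ^ 2 * (4 * T0) + 2 * C) / s * (1 + T) =
          2 * (K ^ 2 * (4 * T0)) * (1 / s) * (1 + T) + 2 * (2 * (C / s)) * (1 + T) := by ring
        rw [e]
        have h10 : K ^ 2 * (4 * T0) ≤ K ^ 2 * (4 * T0) * (1 / s) * (1 + T) := by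
          have h11 : 1 ≤ (1 / s) * (1 + T) := by nlinarith
          calc K ^ 2 * (4 * T0) = K ^ 2 * (4 * T0) * 1 := by ring
            _ ≤ K ^ 2 * (4 * T0) * ((1 / s) * (1 + T)) := by gcongr
            _ = _ := by ring
        nlinarith

end

end Pool.Agent.Y757.EM
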