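import Pool.Agent.Y757.EM.Kop
import Pool.Agent.Y757.LS.D

set_option autoImplicit false

/-! The sub-mean value property of `log⁺ |F|` and of `|F| ^ 2` in a strip. -/

namespace Pool.Agent.Y757.EM

open MeasureTheory Set Filter Topology Pool.Agent.Y757.LS Real
open scoped ENNReal

noncomputable section

def uL (F : ℂ → ℂ) (s t : ℝ) : ℝ≥0∞ := ENNReal.ofReal (log⁺ ‖F (pt s t)‖)
def uS (F : ℂ → ℂ) (s t : ℝ) : ℝ≥0∞ := ENNReal.ofReal (‖F (pt s t)‖ ^ 2)

structure StripF (F : ℂ → ℂ) (A B : ℝ) : Prop where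
  meas : Measurable F
  an : ∀ z : ℂ, A ≤ z.re - 1 / 2 → z.re - 1 / 2 ≤ B → AnalyticAt ℂ F z
  gr : ∃ K : ℝ, 0 ≤ K ∧ ∀ z : ℂ, A ≤ z.re - 1 / 2 → z.re - 1 / 2 ≤ B → log⁺ ‖F z‖ ≤ K * (1 + |z.im|)

lemma ofReal_integral_le {α : Type*} [MeasurableSpace α] {μ : Measure α} {f : α → ℝ}
    (h0 : ∀ x, 0 ≤ f x) : ENNReal.ofReal (∫ x, f x ∂μ) ≤ ∫⁻ x, ENNReal.ofReal (f x) ∂μ := by
  by_cases hf : Integrable f μ
  · rw [ofReal_integral_eq_lintegral_ofReal hf (Eventually.of_forall h0)]
  · rw [integral_undef hf, ENNReal.ofReal_zero]; exact bot_le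

lemma pt_meas (s : ℝ) : Measurable (fun t => pt s t) :=
  pt_measurable.comp (measurable_const.prodMk measurable_id)

lemma uL_meas {F : ℂ → ℂ} (hF : Measurable F) (s : ℝ) : Measurable (uL F s) := by
  unfold uL
  exact (Real.continuous_posLog.measurable.comp ((hF.comp (pt_meas s)).norm)).ennreal_ofReal

lemma uS_meas {F : ℂ → ℂ} (hF : Measurable F) (s : ℝ) : Measurable (uS F s) := by
  unfold uS
  exact (((hF.comp (pt_meas s)).norm).pow_const 2).ennreal_ofReal

/-- the basic inequality, with a factor -/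
lemma basic {F : ℂ → ℂ} {A B : ℝ} (hF : StripF F A B) {c : ℝ} (hc : 1 ≤ c) {s h t : ℝ} (hh : 0 < h)
    (h1 : A ≤ s - h) (h2 : s + h ≤ B) :
    ENNReal.ofReal (log⁺ (c * ‖F (pt s t)‖)) ≤ ∫⁻ y, ENNReal.ofReal
      ((log⁺ (c * ‖F (pt (s - h) (t + y))‖) + log⁺ (c * ‖F (pt (s + h) (t + y))‖)) / 2) ∂(kM h) := by
  obtain ⟨K, hK, hg⟩ := hF.gr
  have hlc : 0 ≤ Real.log c := Real.log_nonneg hc
  have hre : (pt s t).re = 1 / 2 + s := pt_re s t
  have him : (pt s t).im = t := pt_im s t
  have hn : ∀ z, ‖(c : ℂ) * F z‖ = c * ‖F z‖ := fun z => by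
    rw [norm_mul, Complex.norm_real, Real.norm_of_nonneg (by linarith)]
  have hs := strip_poisson (F := fun z => (c : ℂ) * F z) (z₀ := pt s t) (h := h)
    (A := Real.log c + K * (1 + |t|)) (B := K) hh hK
    (by
      intro z hz
      rw [hre, abs_le] at hz
      exact analyticAt_const.mul (hF.an z (by linarith [hz.1]) (by linarith [hz.2])))
    (by
      intro z hz
      rw [hre, abs_le] at hz
      rw [hn, him]
      have g1 := hg z (by linarith [hz.1]) (by linarith [hz.2])
      have g2 : log⁺ (c * ‖F z‖) ≤ log⁺ c + log⁺ ‖F z‖ := Real.posLog_mul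
      have g3 : log⁺ c = Real.log c := Real.posLog_eq_log (by rwa [abs_of_nonneg (by linarith)])
      have g4 : |z.im| ≤ |t| + |z.im - t| := by
        have := abs_add_le t (z.im - t)
        rwa [add_sub_cancel] at this
      nlinarith)
  simp only [hn] at hs
  have hp : ∀ y : ℝ, pt s t - h + y * Complex.I = pt (s - h) (t + y) ∧
      pt s t + h + y * Complex.I = pt (s + h) (t + y) := by
    intro y
    constructor
    · unfold pt; push_cast; ring
    · unfold pt; push_cast; ring
  simp only [(hp _).1, (hp _).2] at hs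
  have hmeas : Measurable (fun y : ℝ => ENNReal.ofReal
      ((log⁺ (c * ‖F (pt (s - h) (t + y))‖) + log⁺ (c * ‖F (pt (s + h) (t + y))‖)) / 2)) := by
    have m1 : ∀ s' : ℝ, Measurable (fun y : ℝ => log⁺ (c * ‖F (pt s' (t + y))‖)) := fun s' =>
      Real.continuous_posLog.measurable.comp ((((hF.meas.comp (pt_meas s')).norm).comp
        (measurable_const_add t)).const_mul c)
    exact (((m1 _).add (m1 _)).div_const 2).ennreal_ofReal
  rw [kM_lintegral hh hmeas]
  refine (ENNReal.ofReal_le_ofReal hs).trans ((ofReal_integral_le fun y => ?_).trans (le_of_eq ?_))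
  · have := ker_pos hh y
    have h1 := @posLog_nonneg (c * ‖F (pt (s - h) (t + y))‖)
    have h2 := @posLog_nonneg (c * ‖F (pt (s + h) (t + y))‖)
    positivity
  · refine lintegral_congr fun y => ?_
    rw [mul_comm, ENNReal.ofReal_mul (ker_pos hh y).le]

theorem sub_log {F : ℂ → ℂ} {A B : ℝ} (hF : StripF F A B) : Sub (uL F) A B := by
  refine ⟨uL_meas hF.meas, fun s h t hh h1 h2 => ?_⟩
  have hb := basic hF le_rfl (t := t) hh h1 h2
  simp only [one_mul] at hb
  unfold uL Kop
  refine hb.trans (le_of_eq ?_)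
  have m1 : ∀ s' : ℝ, Measurable (fun y : ℝ => ENNReal.ofReal (log⁺ ‖F (pt s' (t + y))‖)) := fun s' =>
    (uL_meas hF.meas s').comp (measurable_const_add t)
  rw [← lintegral_const_mul _ (m1 _), ← lintegral_const_mul _ (m1 _),
    ← lintegral_add_left ((m1 _).const_mul _)]
  refine lintegral_congr fun y => ?_
  rw [← ENNReal.ofReal_mul (by norm_num), ← ENNReal.ofReal_mul (by norm_num),
    ← ENNReal.ofReal_add (mul_nonneg (by norm_num) posLog_nonneg)
      (mul_nonneg (by norm_num) posLog_nonneg)]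
  congr 1
  ring

lemma exp_two_posLog (x : ℝ) (hx : 0 ≤ x) : x ^ 2 ≤ Real.exp (2 * log⁺ x) ∧
    Real.exp (2 * log⁺ x) ≤ 1 + x ^ 2 := by
  rcases hx.eq_or_lt with h | h
  · subst h
    simp
  have e1 : x ^ 2 = Real.exp (2 * Real.log x) := by
    rw [mul_comm, Real.exp_mul, Real.exp_log h, Real.rpow_two]
  rw [posLog_apply]
  rcases le_total 0 (Real.log x) with h0 | h0
  · rw [max_eq_right h0, ← e1]
    constructor <;> linarith
  · rw [max_eq_left h0, mul_zero, Real.exp_zero]
    have : x ^ 2 ≤ 1 := by rw [e1, Real.exp_le_one_iff]; linarith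
    constructor
    · exact this
    · nlinarith

theorem sub_sq {F : ℂ → ℂ} {A B : ℝ} (hF : StripF F A B) : Sub (uS F) A B := by
  refine ⟨uS_meas hF.meas, fun s h t hh h1 h2 => ?_⟩
  set R : ℝ≥0∞ := ENNReal.ofReal (1 / 2) * Kop (kM h) (uS F (s - h)) t +
    ENNReal.ofReal (1 / 2) * Kop (kM h) (uS F (s + h)) t with hR
  have m1 : ∀ s' : ℝ, Measurable (fun y : ℝ => ENNReal.ofReal (‖F (pt s' (t + y))‖ ^ 2)) := fun s' =>
    (uS_meas hF.meas s').comp (measurable_const_add t)
  have key : ∀ c : ℝ, 1 ≤ c → ENNReal.ofReal (c ^ 2) * uS F s t ≤ 1 + ENNReal.ofReal (c ^ 2) * R := by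
    intro c hc
    have hb := basic hF hc (t := t) hh h1 h2
    have m2 : ∀ s' : ℝ, Measurable (fun y : ℝ => log⁺ (c * ‖F (pt s' (t + y))‖)) := fun s' =>
      Real.continuous_posLog.measurable.comp ((((hF.meas.comp (pt_meas s')).norm).comp
        (measurable_const_add t)).const_mul c)
    have hj := jensen (ρ := kM h) (m := 1) one_pos (kM_good hh).mass
      (f := fun y => (log⁺ (c * ‖F (pt (s - h) (t + y))‖) + log⁺ (c * ‖F (pt (s + h) (t + y))‖)) / 2)
      (((m2 _).add (m2 _)).div_const 2)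
      (fun y => div_nonneg (add_nonneg posLog_nonneg posLog_nonneg) (by norm_num))
      (c := 2) (X := log⁺ (c * ‖F (pt s t)‖)) (C := 0) (by norm_num) le_rfl (by
        rw [ENNReal.ofReal_zero, add_zero]; exact hb)
    simp only [mul_zero, Real.exp_zero, div_one, ENNReal.ofReal_one, one_mul, mul_one] at hj
    have hc0 : 0 ≤ c := by linarith
    calc ENNReal.ofReal (c ^ 2) * uS F s t
        = ENNReal.ofReal ((c * ‖F (pt s t)‖) ^ 2) := by
          unfold uS
          rw [← ENNReal.ofReal_mul (by positivity), mul_pow]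
      _ ≤ ENNReal.ofReal (Real.exp (2 * log⁺ (c * ‖F (pt s t)‖))) :=
          ENNReal.ofReal_le_ofReal (exp_two_posLog _ (by positivity)).1
      _ ≤ _ := hj
      _ ≤ ∫⁻ y, (1 + (ENNReal.ofReal (c ^ 2) * (ENNReal.ofReal (1 / 2) *
            ENNReal.ofReal (‖F (pt (s - h) (t + y))‖ ^ 2)) + ENNReal.ofReal (c ^ 2) *
            (ENNReal.ofReal (1 / 2) * ENNReal.ofReal (‖F (pt (s + h) (t + y))‖ ^ 2)))) ∂(kM h) := by
          refine lintegral_mono fun y => ?_
          set a := ‖F (pt (s - h) (t + y))‖ with ha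
          set b := ‖F (pt (s + h) (t + y))‖ with hb'
          have ha0 : 0 ≤ a := norm_nonneg _
          have hb0 : 0 ≤ b := norm_nonneg _
          have ee : ∀ x : ℝ, ENNReal.ofReal (c ^ 2) * (ENNReal.ofReal (1 / 2) * ENNReal.ofReal (x ^ 2)) =
              ENNReal.ofReal (c ^ 2 * (1 / 2 * x ^ 2)) := fun x => by
            rw [ENNReal.ofReal_mul (sq_nonneg c), ENNReal.ofReal_mul (by norm_num : (0:ℝ) ≤ 1 / 2)]
          rw [ee, ee, ← ENNReal.ofReal_add (by positivity) (by positivity), ← ENNReal.ofReal_one,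
            ← ENNReal.ofReal_add (by norm_num) (by positivity)]
          apply ENNReal.ofReal_le_ofReal
          have e1 := (exp_two_posLog (c * a) (by positivity)).2
          have e2 := (exp_two_posLog (c * b) (by positivity)).2
          set p := log⁺ (c * a)
          set q := log⁺ (c * b)
          have e3 : Real.exp (2 * ((p + q) / 2)) = Real.exp p * Real.exp q := by
            rw [← Real.exp_add]; congr 1; ring
          have e4 : Real.exp (2 * p) = Real.exp p ^ 2 := by rw [← Real.exp_nat_mul]; norm_num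
          have e5 : Real.exp (2 * q) = Real.exp q ^ 2 := by rw [← Real.exp_nat_mul]; norm_num
          rw [e4] at e1
          rw [e5] at e2
          rw [e3]
          nlinarith [sq_nonneg (Real.exp p - Real.exp q)]
      _ = 1 + ENNReal.ofReal (c ^ 2) * R := by
          rw [lintegral_add_left measurable_const, lintegral_one, (kM_good hh).mass,
            ENNReal.ofReal_one, lintegral_add_left (((m1 _).const_mul _).const_mul _),
            lintegral_const_mul _ ((m1 _).const_mul _), lintegral_const_mul _ ((m1 _).const_mul _),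
            lintegral_const_mul _ (m1 _), lintegral_const_mul _ (m1 _), hR, mul_add]
          rfl
  refine ENNReal.le_of_forall_pos_le_add fun ε hε _ => ?_
  set c : ℝ := max 1 (1 / (ε : ℝ)) with hc
  have hc1 : 1 ≤ c := le_max_left _ _
  have hε' : (0:ℝ) < ε := by exact_mod_cast hε
  have hc2 : 1 / c ^ 2 ≤ (ε : ℝ) := by
    have h3 : 1 / (ε : ℝ) ≤ c := le_max_right _ _
    rw [div_le_iff₀ (by positivity)]
    have h4 : 1 ≤ (ε : ℝ) * c := by
      rw [div_le_iff₀ hε'] at h3; linarith
    nlinarith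
  have hk := key c hc1
  have e0 : ENNReal.ofReal (1 / c ^ 2) * ENNReal.ofReal (c ^ 2) = 1 := by
    rw [← ENNReal.ofReal_mul (by positivity), one_div, inv_mul_cancel₀ (by positivity),
      ENNReal.ofReal_one]
  calc uS F s t = ENNReal.ofReal (1 / c ^ 2) * (ENNReal.ofReal (c ^ 2) * uS F s t) := by
        rw [← mul_assoc, e0, one_mul]
    _ ≤ ENNReal.ofReal (1 / c ^ 2) * (1 + ENNReal.ofReal (c ^ 2) * R) := by gcongr
    _ = ENNReal.ofReal (1 / c ^ 2) + R := by rw [mul_add, ← mul_assoc, e0, one_mul, mul_one]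
    _ ≤ R + ε := by
        rw [add_comm]
        gcongr
        rw [← ENNReal.ofReal_coe_nnreal]
        exact ENNReal.ofReal_le_ofReal hc2

end

end Pool.Agent.Y757.EM
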