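import Mathlib

set_option autoImplicit false

/-! Equidistribution of a line in the torus. -/

namespace Pool.Agent.Y757.EM

open MeasureTheory Set Filter Topology

noncomputable section

/-- average over `[1, T]` -/
def av (T : ℝ) (f : ℝ → ℂ) : ℂ := ((1 / T : ℝ) : ℂ) * ∫ t in (1:ℝ)..T, f t

lemma av_const (c : ℂ) : Tendsto (fun T : ℝ => av T (fun _ => c)) atTop (𝓝 c) := by
  unfold av
  have h1 : Tendsto (fun T : ℝ => (1 / T * (T - 1) : ℝ)) atTop (𝓝 1) := by
    have h2 : Tendsto (fun T : ℝ => 1 - T⁻¹) atTop (𝓝 (1 - 0)) :=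
      tendsto_const_nhds.sub tendsto_inv_atTop_zero
    rw [sub_zero] at h2
    refine h2.congr' ?_
    filter_upwards [eventually_gt_atTop 0] with T hT
    field_simp
  have h3 : Tendsto (fun T : ℝ => ((1 / T * (T - 1) : ℝ) : ℂ) * c) atTop (𝓝 (((1:ℝ) : ℂ) * c)) :=
    ((Complex.continuous_ofReal.tendsto 1).comp h1).mul_const c
  rw [Complex.ofReal_one, one_mul] at h3
  refine h3.congr fun T => ?_
  rw [intervalIntegral.integral_const, Complex.real_smul]
  push_cast
  ring

lemma av_bound {f : ℝ → ℂ} {B T : ℝ} (hT : 1 ≤ T) (h : ∀ t, ‖f t‖ ≤ B) : ‖av T f‖ ≤ B := by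
  unfold av
  have hB : 0 ≤ B := (norm_nonneg _).trans (h 0)
  have h1 := intervalIntegral.norm_integral_le_of_norm_le_const (f := f) (C := B) (a := 1) (b := T)
    (fun s _ => h s)
  rw [abs_of_nonneg (by linarith)] at h1
  rw [norm_mul, Complex.norm_real, Real.norm_of_nonneg (by positivity)]
  calc 1 / T * ‖∫ t in (1:ℝ)..T, f t‖ ≤ 1 / T * (B * (T - 1)) := by gcongr
    _ ≤ 1 / T * (B * T) := by gcongr; linarith
    _ = B := by field_simp

lemma av_sub {f g : ℝ → ℂ} (T : ℝ) (hf : Continuous f) (hg : Continuous g) :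
    av T f - av T g = av T (fun t => f t - g t) := by
  unfold av
  rw [intervalIntegral.integral_sub (hf.intervalIntegrable _ _) (hg.intervalIntegrable _ _)]
  ring

lemma av_exp {a : ℝ} (ha : a ≠ 0) :
    Tendsto (fun T : ℝ => av T (fun t => Complex.exp ((a : ℂ) * Complex.I * t))) atTop (𝓝 0) := by
  have hne : (a : ℂ) * Complex.I ≠ 0 := mul_ne_zero (by exact_mod_cast ha) Complex.I_ne_zero
  rw [tendsto_zero_iff_norm_tendsto_zero]
  have hlim : Tendsto (fun T : ℝ => T⁻¹ * (2 / |a|)) atTop (𝓝 0) := by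
    have := (tendsto_inv_atTop_zero (𝕜 := ℝ)).mul_const (2 / |a|)
    rwa [zero_mul] at this
  refine squeeze_zero' (Eventually.of_forall fun T => norm_nonneg _) ?_ hlim
  filter_upwards [eventually_gt_atTop 0] with T hT
  unfold av
  rw [integral_exp_mul_complex hne, norm_mul, Complex.norm_real, Real.norm_of_nonneg (by positivity),
    one_div, norm_div, norm_mul, Complex.norm_real, Complex.norm_I, mul_one, Real.norm_eq_abs]
  have h1 : ∀ x : ℝ, ‖Complex.exp ((a : ℂ) * Complex.I * x)‖ = 1 := by
    intro x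
    have : (a : ℂ) * Complex.I * x = ((a * x : ℝ) : ℂ) * Complex.I := by push_cast; ring
    rw [this, Complex.norm_exp_ofReal_mul_I]
  have h2 := norm_sub_le (Complex.exp ((a : ℂ) * Complex.I * (T:ℝ))) (Complex.exp ((a : ℂ) * Complex.I * (1:ℝ)))
  rw [h1, h1] at h2
  gcongr
  linarith

section torus

variable {ι : Type*} [Fintype ι]

/-- Haar measure of the torus -/
def haarT (ι : Type*) [Fintype ι] : Measure (UnitAddTorus ι) :=
  Measure.pi fun _ : ι => (AddCircle.haarAddCircle : Measure UnitAddCircle)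

instance : IsProbabilityMeasure (haarT ι) := by unfold haarT; infer_instance

/-- the line -/
def ln (ω : ι → ℝ) (t : ℝ) : UnitAddTorus ι := fun i => ((t * ω i : ℝ) : UnitAddCircle)

omit [Fintype ι] in
lemma ln_cont (ω : ι → ℝ) : Continuous (ln ω) := by
  unfold ln
  refine continuous_pi fun i => ?_
  exact (AddCircle.continuous_mk' 1).comp (by fun_prop)

lemma integral_fourier {n : ℤ} (hn : n ≠ 0) :
    ∫ x : UnitAddCircle, (fourier n x : ℂ) ∂AddCircle.haarAddCircle = 0 := by
  have h := orthonormal_iff_ite.1 (orthonormal_fourier (T := (1:ℝ))) 0 n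
  rw [if_neg (Ne.symm hn)] at h
  rw [ContinuousMap.inner_toLp] at h
  simpa using h

lemma mF_line (ω : ι → ℝ) (n : ι → ℤ) (t : ℝ) : UnitAddTorus.mFourier n (ln ω t) =
    Complex.exp (((2 * Real.pi * ∑ i, (n i : ℝ) * ω i : ℝ) : ℂ) * Complex.I * t) := by
  have h1 : ∀ i, fourier (n i) (ln ω t i) = Complex.exp (2 * Real.pi * Complex.I * n i * (t * ω i) / 1) := by
    intro i
    unfold ln
    rw [fourier_coe_apply]
    push_cast
    ring_nf
  unfold UnitAddTorus.mFourier
  rw [ContinuousMap.coe_mk, Finset.prod_congr rfl (fun i _ => h1 i), ← Complex.exp_sum]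
  congr 1
  push_cast
  rw [Finset.mul_sum, Finset.sum_mul, Finset.sum_mul]
  refine Finset.sum_congr rfl fun i _ => ?_
  ring

theorem weyl {ω : ι → ℝ} (hω : ∀ n : ι → ℤ, ∑ i, (n i : ℝ) * ω i = 0 → n = 0)
    (Φ : C(UnitAddTorus ι, ℂ)) :
    Tendsto (fun T : ℝ => av T (fun t => Φ (ln ω t))) atTop (𝓝 (∫ x, Φ x ∂(haarT ι))) := by
  have hmono : ∀ n : ι → ℤ, Tendsto (fun T : ℝ => av T (fun t => UnitAddTorus.mFourier n (ln ω t))) atTop
      (𝓝 (∫ x, UnitAddTorus.mFourier n x ∂(haarT ι))) := by
    intro n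
    by_cases hn : n = 0
    · subst hn
      simp only [UnitAddTorus.mFourier_zero, ContinuousMap.one_apply]
      rw [integral_const, probReal_univ, one_smul]
      exact av_const 1
    · have hne : ∑ i, (n i : ℝ) * ω i ≠ 0 := fun h => hn (hω n h)
      have hint : ∫ x, UnitAddTorus.mFourier n x ∂(haarT ι) = 0 := by
        unfold haarT UnitAddTorus.mFourier
        rw [ContinuousMap.coe_mk]
        have hp := integral_fintype_prod_eq_prod (𝕜 := ℂ) (ι := ι) (E := fun _ => UnitAddCircle)
          (f := fun i x => (fourier (n i) x : ℂ)) (μ := fun _ => AddCircle.haarAddCircle)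
        rw [hp]
        obtain ⟨i, hi⟩ := Function.ne_iff.mp hn
        exact Finset.prod_eq_zero (Finset.mem_univ i) (integral_fourier hi)
      rw [hint]
      simp only [mF_line]
      exact av_exp (mul_ne_zero (mul_ne_zero two_ne_zero Real.pi_pos.ne') hne)
  let S : Submodule ℂ C(UnitAddTorus ι, ℂ) :=
    { carrier := {Φ | Tendsto (fun T : ℝ => av T (fun t => Φ (ln ω t))) atTop (𝓝 (∫ x, Φ x ∂(haarT ι)))}
      add_mem' := by
        intro f g hf hg
        have h1 : ∀ T : ℝ, av T (fun t => (f + g) (ln ω t)) = av T (fun t => f (ln ω t)) +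
            av T (fun t => g (ln ω t)) := by
          intro T
          unfold av
          have c1 : Continuous (fun t => f (ln ω t)) := f.continuous.comp (ln_cont ω)
          have c2 : Continuous (fun t => g (ln ω t)) := g.continuous.comp (ln_cont ω)
          simp only [ContinuousMap.add_apply]
          rw [intervalIntegral.integral_add (c1.intervalIntegrable _ _) (c2.intervalIntegrable _ _)]
          ring
        have h2 : ∫ x, (f + g) x ∂(haarT ι) = ∫ x, f x ∂(haarT ι) + ∫ x, g x ∂(haarT ι) := by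
          simp only [ContinuousMap.add_apply]
          exact integral_add (f.continuous.integrable_of_hasCompactSupport (HasCompactSupport.of_compactSpace _))
            (g.continuous.integrable_of_hasCompactSupport (HasCompactSupport.of_compactSpace _))
        change Tendsto _ _ _
        rw [h2]
        simp only [h1]
        exact Tendsto.add hf hg
      zero_mem' := by
        change Tendsto _ _ _
        simp only [ContinuousMap.zero_apply, integral_zero]
        exact av_const 0
      smul_mem' := by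
        intro c f hf
        change Tendsto _ _ _
        have h1 : ∀ T : ℝ, av T (fun t => (c • f) (ln ω t)) = c * av T (fun t => f (ln ω t)) := by
          intro T
          unfold av
          simp only [ContinuousMap.smul_apply, smul_eq_mul]
          rw [intervalIntegral.integral_const_mul]
          ring
        have h2 : ∫ x, (c • f) x ∂(haarT ι) = c * ∫ x, f x ∂(haarT ι) := by
          simp only [ContinuousMap.smul_apply, smul_eq_mul]
          exact integral_const_mul c _
        rw [h2]
        simp only [h1]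
        exact Tendsto.const_mul c hf }
  have hcl : S.topologicalClosure ≤ S := by
    intro Φ hΦ
    change Tendsto _ _ _
    rw [Metric.tendsto_nhds]
    intro ε hε
    have hΦ' : Φ ∈ closure (S : Set C(UnitAddTorus ι, ℂ)) := hΦ
    rw [Metric.mem_closure_iff] at hΦ'
    obtain ⟨Ψ, hΨ, hd⟩ := hΦ' (ε / 3) (by positivity)
    have hΨ' : Tendsto (fun T : ℝ => av T (fun t => Ψ (ln ω t))) atTop (𝓝 (∫ x, Ψ x ∂(haarT ι))) := hΨ
    rw [Metric.tendsto_nhds] at hΨ'
    filter_upwards [hΨ' (ε / 3) (by positivity), eventually_ge_atTop 1] with T h1 hT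
    have hpt : ∀ x, ‖Φ x - Ψ x‖ ≤ ε / 3 := fun x => by
      rw [← dist_eq_norm]
      exact (ContinuousMap.dist_apply_le_dist x).trans hd.le
    have h2 : ‖av T (fun t => Φ (ln ω t)) - av T (fun t => Ψ (ln ω t))‖ ≤ ε / 3 := by
      have c1 : Continuous (fun t => Φ (ln ω t)) := Φ.continuous.comp (ln_cont ω)
      have c2 : Continuous (fun t => Ψ (ln ω t)) := Ψ.continuous.comp (ln_cont ω)
      rw [av_sub T c1 c2]
      exact av_bound hT fun t => hpt _
    have h3 : ‖∫ x, Φ x ∂(haarT ι) - ∫ x, Ψ x ∂(haarT ι)‖ ≤ ε / 3 := by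
      rw [← integral_sub (Φ.continuous.integrable_of_hasCompactSupport (HasCompactSupport.of_compactSpace _))
        (Ψ.continuous.integrable_of_hasCompactSupport (HasCompactSupport.of_compactSpace _))]
      have := norm_integral_le_of_norm_le_const (μ := haarT ι) (Eventually.of_forall hpt)
      rwa [probReal_univ, mul_one] at this
    rw [dist_eq_norm] at h1 ⊢
    have e : av T (fun t => Φ (ln ω t)) - ∫ x, Φ x ∂(haarT ι) =
        (av T (fun t => Φ (ln ω t)) - av T (fun t => Ψ (ln ω t))) +
        (av T (fun t => Ψ (ln ω t)) - ∫ x, Ψ x ∂(haarT ι)) -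
        (∫ x, Φ x ∂(haarT ι) - ∫ x, Ψ x ∂(haarT ι)) := by ring
    rw [e]
    have h4 := norm_sub_le ((av T (fun t => Φ (ln ω t)) - av T (fun t => Ψ (ln ω t))) +
        (av T (fun t => Ψ (ln ω t)) - ∫ x, Ψ x ∂(haarT ι))) (∫ x, Φ x ∂(haarT ι) - ∫ x, Ψ x ∂(haarT ι))
    have h5 := norm_add_le (av T (fun t => Φ (ln ω t)) - av T (fun t => Ψ (ln ω t)))
        (av T (fun t => Ψ (ln ω t)) - ∫ x, Ψ x ∂(haarT ι))
    linarith
  have hspan : Submodule.span ℂ (range (UnitAddTorus.mFourier (d := ι))) ≤ S := by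
    rw [Submodule.span_le]
    rintro _ ⟨n, rfl⟩
    exact hmono n
  have htop : (⊤ : Submodule ℂ C(UnitAddTorus ι, ℂ)) ≤ S := by
    rw [← UnitAddTorus.span_mFourier_closure_eq_top]
    exact (Submodule.topologicalClosure_mono hspan).trans hcl
  exact htop (Submodule.mem_top (x := Φ))

end torus

end

end Pool.Agent.Y757.EM
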