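import Pool.Agent.Y757.EM.Kop
import Pool.Agent.Y757.LS.L

set_option autoImplicit false

/-! Time averages and averages against the kernels. -/

namespace Pool.Agent.Y757.EM

open MeasureTheory Set Filter Topology Pool.Agent.Y757.LS
open scoped ENNReal

noncomputable section

/-- growth of the local integrals of the absolute value -/
def Lgr (f : ℝ → ℝ) (C : ℝ) : Prop := ∀ c R : ℝ, 0 ≤ R →
  ∫⁻ u in Icc (c - R) (c + R), ENNReal.ofReal |f u| ≤
    ENNReal.ofReal (C * (1 + R) ^ 2 * (1 + Real.log (1 + |c|)))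

lemma Lgr.int {f : ℝ → ℝ} {C : ℝ} (hC : 0 ≤ C) (hm : Measurable f) (h : Lgr f C) {c R : ℝ} (hR : 0 ≤ R) :
    IntegrableOn f (Icc (c - R) (c + R)) ∧
      ∫ u in Icc (c - R) (c + R), |f u| ≤ C * (1 + R) ^ 2 * (1 + Real.log (1 + |c|)) := by
  have hc := abs_nonneg c
  have hl : 0 ≤ Real.log (1 + |c|) := Real.log_nonneg (by linarith)
  have h1 := h c R hR
  have hi : IntegrableOn f (Icc (c - R) (c + R)) := by
    refine ⟨hm.aestronglyMeasurable, ?_⟩
    rw [hasFiniteIntegral_iff_norm]
    simp only [Real.norm_eq_abs]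
    exact h1.trans_lt ENNReal.ofReal_lt_top
  refine ⟨hi, ?_⟩
  have h2 := ofReal_integral_eq_lintegral_ofReal hi.abs (Eventually.of_forall fun u => abs_nonneg _)
  rw [← h2] at h1
  exact (ENNReal.ofReal_le_ofReal_iff (by positivity)).1 h1

lemma Lgr.ii {f : ℝ → ℝ} {C : ℝ} (hC : 0 ≤ C) (hm : Measurable f) (h : Lgr f C) (a b : ℝ) :
    IntervalIntegrable f volume a b := by
  rw [intervalIntegrable_iff]
  have h1 := (h.int hC hm (c := 0) (R := max |a| |b|) (le_max_of_le_left (abs_nonneg _))).1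
  refine h1.mono_set ?_
  intro x hx
  have h2 := uIoc_subset_uIcc hx
  rw [zero_sub, zero_add]
  rw [mem_uIcc] at h2
  have a1 := neg_abs_le a
  have a2 := le_abs_self a
  have b1 := neg_abs_le b
  have b2 := le_abs_self b
  have m1 := le_max_left |a| |b|
  have m2 := le_max_right |a| |b|
  rcases h2 with h2 | h2 <;> constructor <;> linarith [h2.1, h2.2]

lemma Lgr.bd {f : ℝ → ℝ} {C : ℝ} (hC : 0 ≤ C) (hm : Measurable f) (h : Lgr f C) (c y : ℝ) :
    |∫ u in c..(c + y), f u| ≤ C * (1 + |y|) ^ 2 * (1 + Real.log (1 + |c|)) := by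
  obtain ⟨h1, h2⟩ := h.int hC hm (c := c) (R := |y|) (abs_nonneg y)
  refine le_trans ?_ h2
  rw [← Real.norm_eq_abs]
  refine (intervalIntegral.norm_integral_le_integral_norm_uIoc).trans ?_
  simp only [Real.norm_eq_abs]
  refine setIntegral_mono_set h1.abs (Eventually.of_forall fun u => abs_nonneg _) ?_
  refine LE.le.eventuallyLE ?_
  intro x hx
  have h3 := uIoc_subset_uIcc hx
  rw [mem_uIcc] at h3
  have b1 := neg_abs_le y
  have b2 := le_abs_self y
  have b3 := abs_nonneg y
  rcases h3 with h3 | h3 <;> constructor <;> linarith [h3.1, h3.2]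

theorem transfer {f : ℝ → ℝ} {C : ℝ} (hC : 0 ≤ C) (hm : Measurable f) (h : Lgr f C) :
    ∃ C' : ℝ, 0 ≤ C' ∧ ∀ T : ℝ, 1 ≤ T →
      IntervalIntegrable (fun t => ∫ y, f (t + y) * LS.ker 1 y) volume 1 T ∧
      |(∫ t in (1:ℝ)..T, ∫ y, f (t + y) * LS.ker 1 y) - ∫ t in (1:ℝ)..T, f t| ≤
        C' * (1 + Real.log (1 + T)) := by
  have h1 : (0:ℝ) < 1 := one_pos
  have hw : Integrable (fun y : ℝ => (1 + |y|) ^ 2 * LS.ker 1 y) := by
    refine ker_integrable_of_le h1 (A := 2) (by fun_prop) fun y => ?_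
    rw [abs_of_nonneg (by positivity)]
    nlinarith [sq_nonneg (1 - |y|), sq_abs y]
  set W : ℝ := ∫ y, (1 + |y|) ^ 2 * LS.ker 1 y with hW
  have hW0 : 0 ≤ W := integral_nonneg fun y => mul_nonneg (by positivity) (ker_pos h1 y).le
  refine ⟨2 * C * W, by positivity, fun T hT => ?_⟩
  have hlT : 0 ≤ Real.log (1 + T) := Real.log_nonneg (by linarith)
  have hkc : Continuous (LS.ker 1) := ker_continuous h1
  -- the inner integral
  have hshift : ∀ y : ℝ, ∫ t in (1:ℝ)..T, f (t + y) = ∫ t in (1 + y)..(T + y), f t := fun y =>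
    intervalIntegral.integral_comp_add_right f y
  have hD : ∀ y : ℝ, |(∫ t in (1:ℝ)..T, f (t + y)) - ∫ t in (1:ℝ)..T, f t| ≤
      2 * C * (1 + Real.log (1 + T)) * (1 + |y|) ^ 2 := by
    intro y
    rw [hshift]
    have e : (∫ t in (1 + y)..(T + y), f t) - ∫ t in (1:ℝ)..T, f t =
        (∫ t in T..(T + y), f t) - ∫ t in (1:ℝ)..(1 + y), f t := by
      have i := h.ii hC hm
      have e1 := intervalIntegral.integral_add_adjacent_intervals (i 1 (1 + y)) (i (1 + y) (T + y))
      have e2 := intervalIntegral.integral_add_adjacent_intervals (i 1 T) (i T (T + y))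
      linarith
    rw [e]
    have b1 := h.bd hC hm T y
    have b2 := h.bd hC hm 1 y
    rw [abs_one] at b2
    rw [abs_of_pos (by linarith : (0:ℝ) < T)] at b1
    have hl2 : Real.log (1 + 1) ≤ Real.log (1 + T) := Real.log_le_log (by norm_num) (by linarith)
    have b3 : C * (1 + |y|) ^ 2 * (1 + Real.log (1 + 1)) ≤ C * (1 + |y|) ^ 2 * (1 + Real.log (1 + T)) := by
      gcongr
    have b4 := abs_sub (∫ t in T..(T + y), f t) (∫ t in (1:ℝ)..(1 + y), f t)
    linarith
  -- Fubini
  set F : ℝ × ℝ → ℝ := fun p => f (p.1 + p.2) * LS.ker 1 p.2 with hF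
  have hFm : Measurable F := (hm.comp (measurable_fst.add measurable_snd)).mul
    (hkc.measurable.comp measurable_snd)
  have hTT : ∀ y : ℝ, ∫ t in Ioc 1 T, ‖F (t, y)‖ ≤ C * (1 + T) ^ 2 * (2 + T) * ((1 + |y|) ^ 2 * LS.ker 1 y) := by
    intro y
    have hk := ker_pos h1 y
    have e : ∫ t in Ioc 1 T, ‖F (t, y)‖ = (∫ t in Ioc 1 T, |f (t + y)|) * LS.ker 1 y := by
      rw [← integral_mul_const]
      refine integral_congr_ae (Eventually.of_forall fun t => ?_)
      simp only [hF]
      rw [norm_mul, Real.norm_eq_abs, Real.norm_eq_abs, abs_of_pos hk]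
    rw [e]
    have e2 : ∫ t in Ioc 1 T, |f (t + y)| = ∫ t in Ioc (1 + y) (T + y), |f t| := by
      rw [← intervalIntegral.integral_of_le hT, ← intervalIntegral.integral_of_le (by linarith)]
      exact intervalIntegral.integral_comp_add_right (fun t => |f t|) y
    obtain ⟨h2, h3⟩ := h.int hC hm (c := y) (R := T) (by linarith)
    have h4 : ∫ t in Ioc (1 + y) (T + y), |f t| ≤ ∫ t in Icc (y - T) (y + T), |f t| := by
      refine setIntegral_mono_set h2.abs (Eventually.of_forall fun u => abs_nonneg _) ?_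
      refine LE.le.eventuallyLE ?_
      intro x hx
      constructor <;> linarith [hx.1, hx.2]
    have h5 : 1 + Real.log (1 + |y|) ≤ (2 + T) * (1 + |y|) ^ 2 := by
      have h6 := log_one_add_le |y| (abs_nonneg y)
      have h7 := abs_nonneg y
      nlinarith [sq_nonneg |y|]
    rw [e2]
    calc (∫ t in Ioc (1 + y) (T + y), |f t|) * LS.ker 1 y ≤
          (C * (1 + T) ^ 2 * (1 + Real.log (1 + |y|))) * LS.ker 1 y := by
          gcongr
          exact h4.trans h3
      _ ≤ (C * (1 + T) ^ 2 * ((2 + T) * (1 + |y|) ^ 2)) * LS.ker 1 y := by gcongr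
      _ = _ := by ring
  have hint : Integrable F ((volume.restrict (Ioc 1 T)).prod volume) := by
    rw [integrable_prod_iff' hFm.aestronglyMeasurable]
    constructor
    · refine Eventually.of_forall fun y => ?_
      have h2 := (h.int hC hm (c := y) (R := T) (by linarith)).1
      have h3 : IntervalIntegrable (fun t => f (t + y)) volume 1 T := by
        have := (h.ii hC hm (1 + y) (T + y)).comp_add_right y
        simpa using this
      have h4 := (intervalIntegrable_iff_integrableOn_Ioc_of_le hT).1 h3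
      exact h4.mul_const (LS.ker 1 y)
    · refine Integrable.mono' (hw.const_mul (C * (1 + T) ^ 2 * (2 + T))) ?_ ?_
      · exact hFm.stronglyMeasurable.norm.integral_prod_left.aestronglyMeasurable
      · refine Eventually.of_forall fun y => ?_
        rw [Real.norm_of_nonneg (integral_nonneg fun t => norm_nonneg _)]
        exact hTT y
  refine ⟨(intervalIntegrable_iff_integrableOn_Ioc_of_le hT).2 hint.integral_prod_left, ?_⟩
  have hswap : ∫ t in (1:ℝ)..T, ∫ y, f (t + y) * LS.ker 1 y = ∫ y, (∫ t in (1:ℝ)..T, f (t + y)) * LS.ker 1 y := by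
    rw [intervalIntegral.integral_of_le hT, integral_integral_swap hint]
    refine integral_congr_ae (Eventually.of_forall fun y => ?_)
    beta_reduce
    rw [integral_mul_const, intervalIntegral.integral_of_le hT]
  have hconst : ∫ t in (1:ℝ)..T, f t = ∫ y, (∫ t in (1:ℝ)..T, f t) * LS.ker 1 y := by
    rw [integral_const_mul, integral_ker h1, mul_one]
  have hi2 : Integrable (fun y => (∫ t in (1:ℝ)..T, f t) * LS.ker 1 y) := (ker_integrable h1).const_mul _
  have hi1 : Integrable (fun y => (∫ t in (1:ℝ)..T, f (t + y)) * LS.ker 1 y) := by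
    have := hint.integral_prod_right
    refine this.congr (Eventually.of_forall fun y => ?_)
    simp only [hF]
    rw [integral_mul_const, intervalIntegral.integral_of_le hT]
  have hfin : (∫ t in (1:ℝ)..T, ∫ y, f (t + y) * LS.ker 1 y) - ∫ t in (1:ℝ)..T, f t =
      ∫ y, ((∫ t in (1:ℝ)..T, f (t + y)) - ∫ t in (1:ℝ)..T, f t) * LS.ker 1 y := by
    rw [hswap]
    conv_lhs => rw [hconst]
    rw [← integral_sub hi1 hi2]
    refine integral_congr_ae (Eventually.of_forall fun y => ?_)
    simp only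
    ring
  rw [hfin, ← Real.norm_eq_abs]
  refine (norm_integral_le_integral_norm _).trans ?_
  have hle : ∀ y : ℝ, ‖((∫ t in (1:ℝ)..T, f (t + y)) - ∫ t in (1:ℝ)..T, f t) * LS.ker 1 y‖ ≤
      2 * C * (1 + Real.log (1 + T)) * ((1 + |y|) ^ 2 * LS.ker 1 y) := by
    intro y
    have hk := ker_pos h1 y
    rw [norm_mul, Real.norm_eq_abs, Real.norm_eq_abs, abs_of_pos hk, ← mul_assoc]
    exact mul_le_mul_of_nonneg_right (hD y) hk.le
  calc ∫ y, ‖((∫ t in (1:ℝ)..T, f (t + y)) - ∫ t in (1:ℝ)..T, f t) * LS.ker 1 y‖ ≤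
        ∫ y, 2 * C * (1 + Real.log (1 + T)) * ((1 + |y|) ^ 2 * LS.ker 1 y) := by
        refine integral_mono_of_nonneg (Eventually.of_forall fun y => norm_nonneg _)
          (hw.const_mul _) (Eventually.of_forall hle)
    _ = _ := by rw [integral_const_mul]; ring

lemma Lgr_const {f : ℝ → ℝ} {B : ℝ} (hB : ∀ t, |f t| ≤ B) : Lgr f (2 * B) := by
  intro c R hR
  have hB0 : 0 ≤ B := (abs_nonneg _).trans (hB 0)
  have hc := abs_nonneg c
  have hl : 0 ≤ Real.log (1 + |c|) := Real.log_nonneg (by linarith)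
  calc ∫⁻ u in Icc (c - R) (c + R), ENNReal.ofReal |f u| ≤ ∫⁻ u in Icc (c - R) (c + R), ENNReal.ofReal B :=
        lintegral_mono fun u => ENNReal.ofReal_le_ofReal (hB u)
    _ = ENNReal.ofReal (B * (c + R - (c - R))) := by
        rw [setLIntegral_const, Real.volume_Icc, ENNReal.ofReal_mul hB0]
    _ ≤ _ := by
        apply ENNReal.ofReal_le_ofReal
        have h1 : B * (c + R - (c - R)) ≤ 2 * B * (1 + R) ^ 2 := by nlinarith [mul_nonneg hB0 hR, mul_nonneg hB0 (sq_nonneg R)]
        have h2 : 0 ≤ 2 * B * (1 + R) ^ 2 * Real.log (1 + |c|) := by positivity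
        linarith

end

end Pool.Agent.Y757.EM
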