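import Pool.Agent.Y757.EM.Prd
import Pool.Agent.Y757.EM.Low
import Pool.Agent.Y757.LS.R

set_option autoImplicit false

/-! The tail of the Euler product, and the mean value of the horizontal integrals. -/

namespace Pool.Agent.Y757.EM

open MeasureTheory Set Filter Topology Pool.Agent.Y757.LS ZU
open scoped ENNReal

noncomputable section

/-- `log |ζ|` -/
def lz (s t : ℝ) : ℝ := Real.log ‖riemannZeta (pt s t)‖

/-- `log |ζ| - ∑_{p ≤ N} ψ_p` -/
def Xi (N : ℕ) (s t : ℝ) : ℝ := lz s t - ∑ p ∈ pr N, psi p s t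

lemma tail_summable {σ : ℝ} (hσ : 1 / 2 < σ) : Summable (fun n : ℕ => (n : ℝ) ^ (-(2 * σ))) :=
  Real.summable_nat_rpow.2 (by linarith)

lemma tail_tendsto {σ : ℝ} (hσ : 1 / 2 < σ) : Tendsto (fun N : ℕ => tail σ N) atTop (𝓝 0) := by
  unfold tail
  have h := tendsto_tsum_of_dominated_convergence (𝓕 := atTop) (f := fun (N n : ℕ) => if N < n then (n : ℝ) ^ (-(2 * σ)) else 0)
    (g := fun _ => (0:ℝ)) (tail_summable hσ) ?_ ?_
  · simpa using h
  · intro n
    refine tendsto_const_nhds.congr' ?_
    filter_upwards [eventually_ge_atTop n] with N hN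
    rw [if_neg (by omega)]
  · refine Eventually.of_forall fun N n => ?_
    split_ifs
    · rw [Real.norm_of_nonneg (by positivity)]
    · rw [norm_zero]; positivity

lemma tail_nonneg (σ : ℝ) (N : ℕ) : 0 ≤ tail σ N := by
  unfold tail
  refine tsum_nonneg fun n => ?_
  split_ifs <;> positivity

lemma lz_hasSum {s : ℝ} (hs : 1 / 2 < s) (t : ℝ) : HasSum (fun p : Nat.Primes => psi p s t) (lz s t) := by
  have hre : 1 < (pt s t).re := by rw [pt_re]; linarith
  have hsum : Summable (fun p : Nat.Primes => -Complex.log (1 - (p : ℂ) ^ (-pt s t))) := by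
    have h := DirichletCharacter.summable_neg_log_one_sub_mul_prime_cpow (1 : DirichletCharacter ℂ 1) hre
    refine h.congr fun p => ?_
    rw [MulChar.one_apply (isUnit_of_subsingleton _), one_mul]
  have h1 := Complex.hasSum_re hsum.hasSum
  have h2 := riemannZeta_eulerProduct_exp_log hre
  have h3 : lz s t = (∑' p : Nat.Primes, -Complex.log (1 - (p : ℂ) ^ (-pt s t))).re := by
    unfold lz
    rw [← h2, Complex.norm_exp, Real.log_exp]
  have e : (fun p : Nat.Primes => psi p s t) =
      fun p : Nat.Primes => (-Complex.log (1 - (p : ℂ) ^ (-pt s t))).re := by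
    funext p
    rw [Complex.neg_re, Complex.log_re]
    rfl
  rw [h3, e]
  exact h1

lemma Xi_far (N : ℕ) {s : ℝ} (hs : 1 ≤ s) (t : ℝ) :
    |Xi N s t| ≤ 4 * tail (3/4) N * Real.exp (-(Real.log 2) * (s - 1)) := by
  set E := Real.exp (-(Real.log 2) * (s - 1)) with hE
  set b : ℕ → ℝ := fun n => if N < n then (n : ℝ) ^ (-(2 * (3/4 : ℝ))) else 0 with hb
  have hb0 : ∀ n, 0 ≤ b n := fun n => by simp only [hb]; split_ifs <;> positivity
  have hbs : Summable b := by
    refine Summable.of_nonneg_of_le hb0 (fun n => ?_) (tail_summable (σ := 3/4) (by norm_num))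
    simp only [hb]
    split_ifs
    · exact le_rfl
    · positivity
  classical
  set u : Nat.Primes → ℝ := fun p => if (p : ℕ) ∈ pr N then 0 else psi p s t with hu
  obtain ⟨S', hS'⟩ : ∃ S' : Finset Nat.Primes, S' = (Finset.Icc 1 N).subtype Nat.Prime := ⟨_, rfl⟩
  have hmem : ∀ p : Nat.Primes, p ∈ S' ↔ (p : ℕ) ∈ pr N := by
    intro p
    unfold pr
    rw [Finset.mem_filter, hS']
    constructor
    · intro h; exact ⟨Finset.mem_subtype.1 h, p.2⟩
    · intro h; exact Finset.mem_subtype.2 h.1
  have hu1 : HasSum u (Xi N s t) := by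
    have h1 := lz_hasSum (by linarith : 1/2 < s) t
    have h2 : HasSum (fun p : Nat.Primes => if (p : ℕ) ∈ pr N then psi p s t else 0)
        (∑ p ∈ S', psi p s t) := by
      have h3 : HasSum (fun p : Nat.Primes => if (p : ℕ) ∈ pr N then psi p s t else 0)
          (∑ p ∈ S', (if (p : ℕ) ∈ pr N then psi p s t else 0)) :=
        hasSum_sum_of_ne_finset_zero (fun p hp => if_neg fun h => hp ((hmem p).2 h))
      have h3' : ∑ p ∈ S', psi p s t = ∑ p ∈ S', (if (p : ℕ) ∈ pr N then psi p s t else 0) :=
        Finset.sum_congr rfl fun p hp => (if_pos ((hmem p).1 hp)).symm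
      rw [h3']
      exact h3
    have h4 := h1.sub h2
    have h5 : ∑ p ∈ S', psi p s t = ∑ p ∈ pr N, psi p s t := by
      rw [hS']
      unfold pr
      rw [← Finset.sum_subtype_eq_sum_filter]
      rfl
    rw [h5] at h4
    have h6 : u = fun p : Nat.Primes => psi p s t - if (p : ℕ) ∈ pr N then psi p s t else 0 := by
      funext p
      simp only [hu]
      split_ifs <;> ring
    rw [h6]
    exact h4
  have hle : ∀ p : Nat.Primes, ‖u p‖ ≤ 4 * E * b p := by
    intro p
    simp only [hu]
    split_ifs with h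
    · rw [norm_zero]
      have := hb0 p
      have := (Real.exp_pos (-(Real.log 2) * (s - 1))).le
      positivity
    · have hNp : N < p := by
        by_contra h'
        apply h
        unfold pr
        rw [Finset.mem_filter, Finset.mem_Icc]
        exact ⟨⟨p.2.one_lt.le, by omega⟩, p.2⟩
      have hp2 := p.2.two_le
      have hp0 : (0:ℝ) < (p : ℕ) := by exact_mod_cast (by omega : 0 < (p : ℕ))
      have hp2' : (2:ℝ) ≤ (p : ℕ) := by exact_mod_cast hp2
      rw [Real.norm_eq_abs]
      refine (psi_bound hp2 (by linarith) t).trans ?_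
      simp only [hb]
      rw [if_pos hNp, mul_assoc]
      refine mul_le_mul_of_nonneg_left ?_ (by norm_num)
      have e : rp p s = ((p : ℕ) : ℝ) ^ (-(s - 1)) * ((p : ℕ) : ℝ) ^ (-(2 * (3/4 : ℝ))) := by
        unfold rp
        rw [← Real.rpow_add hp0]
        congr 1; ring
      rw [e]
      refine mul_le_mul_of_nonneg_right ?_ (by positivity)
      rw [hE, Real.rpow_def_of_pos hp0]
      apply Real.exp_le_exp.2
      have hl := Real.log_le_log (by norm_num) hp2'
      nlinarith
  have hbp : Summable (fun p : Nat.Primes => b p) := hbs.subtype _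
  have h6 : |Xi N s t| ≤ ∑' p : Nat.Primes, 4 * E * b p := by
    rw [← hu1.tsum_eq, ← Real.norm_eq_abs]
    exact tsum_of_norm_bounded (hbp.mul_left (4 * E)).hasSum hle
  rw [tsum_mul_left] at h6
  have h7 : ∑' p : Nat.Primes, b p ≤ tail (3/4) N :=
    Summable.tsum_subtype_le b {n | Nat.Prime n} hb0 hbs
  have hE0 : 0 ≤ 4 * E := by positivity
  calc |Xi N s t| ≤ 4 * E * ∑' p : Nat.Primes, b p := h6
    _ ≤ 4 * E * tail (3/4) N := mul_le_mul_of_nonneg_left h7 hE0
    _ = _ := by ring

/-- the logarithm of the ratio -/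
lemma log_ratio {s t : ℝ} (hs : -(3/2) ≤ s) (ht : 1 ≤ t) : |Real.log ‖(pt s t - 1) / (pt s t + 3)‖| ≤ 4 / t := by
  have hne := pt_ne_one (s := s) (t := t) (by rw [abs_of_pos (by linarith)]; exact ht)
  have h1 := ratio_le (s := pt s t) (by rw [pt_re]; linarith)
  have ht0 : 0 < t := by linarith
  have h2 := ratio_ge (s := pt s t) (by rw [pt_re]; linarith) (η := t) ht0 (by
    refine (le_of_eq ?_).trans (Complex.abs_im_le_norm _)
    rw [Complex.sub_im, pt_im, Complex.one_im, sub_zero, abs_of_pos ht0])
  have h4 : 0 < 1 + 4 / t := by positivity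
  have h3 : 0 < ‖(pt s t - 1) / (pt s t + 3)‖ := lt_of_lt_of_le (by positivity) h2
  have l1 := Real.log_le_log h3 h1
  have l2 := Real.log_le_log (by positivity) h2
  rw [Real.log_one] at l1
  rw [Real.log_inv] at l2
  have l3 := log_one_add_le (4 / t) (by positivity)
  rw [abs_le]
  constructor <;> linarith

lemma g_split {s t : ℝ} (hs : 1 / 2 < s) (ht : 1 ≤ t) :
    g s t = Real.log ‖(pt s t - 1) / (pt s t + 3)‖ + lz s t := by
  have hne := pt_ne_one (s := s) (t := t) (by rw [abs_of_pos (by linarith)]; exact ht)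
  have hz : riemannZeta (pt s t) ≠ 0 := riemannZeta_ne_zero_of_one_lt_re (by rw [pt_re]; linarith)
  unfold g lz
  rw [GG_of_ne hne, norm_mul, Real.log_mul _ (norm_ne_zero_iff.2 hz)]
  have h2 := ratio_ge (s := pt s t) (by rw [pt_re]; linarith) (η := 1) (by norm_num) (by
    refine ht.trans ((le_of_eq ?_).trans (Complex.abs_im_le_norm _))
    rw [Complex.sub_im, pt_im, Complex.one_im, sub_zero, abs_of_pos (by linarith)])
  have : 0 < ‖(pt s t - 1) / (pt s t + 3)‖ := lt_of_lt_of_le (by norm_num) h2
  exact this.ne'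

lemma psi_ii {p : ℕ} (hp : 2 ≤ p) {a b : ℝ} (ha : 0 ≤ a) (hab : a ≤ b) (t : ℝ) :
    IntervalIntegrable (fun s => psi p s t) volume a b := by
  rw [intervalIntegrable_iff_integrableOn_Ioc_of_le hab]
  refine Integrable.mono' (g := fun _ => 4 * rp p 0) (integrable_const _)
    (psi_meas_comp p measurable_id measurable_const).aestronglyMeasurable ?_
  rw [ae_restrict_iff' measurableSet_Ioc]
  refine Eventually.of_forall fun s hs => ?_
  have hs0 : 0 ≤ s := ha.trans hs.1.le
  rw [Real.norm_eq_abs]
  exact (psi_bound hp hs0 t).trans (by have := rp_le hp hs0; linarith)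

/-- horizontal integral of a local term -/
def PI (p : ℕ) (a b t : ℝ) : ℝ := ∫ s in a..b, psi p s t

lemma psi_le {p : ℕ} (hp : 2 ≤ p) {s : ℝ} (hs : 0 ≤ s) (t : ℝ) : |psi p s t| ≤ 3 := by
  have h1 := psi_bound hp hs t
  have h2 := rp_le' hp hs
  linarith

lemma PI_av {p : ℕ} (hp : 2 ≤ p) {a b : ℝ} (ha : 0 ≤ a) (hab : a ≤ b) {T : ℝ} (hT : 1 ≤ T) :
    IntervalIntegrable (PI p a b) volume 1 T ∧ |∫ t in (1:ℝ)..T, PI p a b t| ≤ 12 * (b - a) := by
  have hm : Measurable (fun q : ℝ × ℝ => psi p q.2 q.1) := psi_meas_comp p measurable_snd measurable_fst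
  have hint : Integrable (fun q : ℝ × ℝ => psi p q.2 q.1)
      ((volume.restrict (Ioc 1 T)).prod (volume.restrict (Ioc a b))) := by
    rw [Measure.prod_restrict]
    refine Integrable.mono' (g := fun _ => (3:ℝ)) ?_ hm.aestronglyMeasurable ?_
    · rw [integrable_const_iff]
      right
      refine ⟨?_⟩
      rw [Measure.restrict_apply_univ, ← Measure.volume_eq_prod, Measure.volume_eq_prod, Measure.prod_prod,
        Real.volume_Ioc, Real.volume_Ioc]
      exact ENNReal.mul_lt_top ENNReal.ofReal_lt_top ENNReal.ofReal_lt_top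
    · rw [ae_restrict_iff' (measurableSet_Ioc.prod measurableSet_Ioc)]
      refine Eventually.of_forall fun q hq => ?_
      rw [Real.norm_eq_abs]
      exact psi_le hp (ha.trans hq.2.1.le) _
  have e : ∀ t, PI p a b t = ∫ s in Ioc a b, psi p s t := fun t => by
    unfold PI; rw [intervalIntegral.integral_of_le hab]
  constructor
  · rw [intervalIntegrable_iff_integrableOn_Ioc_of_le hT]
    refine hint.integral_prod_left.congr (Eventually.of_forall fun t => ?_)
    exact (e t).symm
  · rw [intervalIntegral.integral_of_le hT]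
    simp only [e]
    have hsw := integral_integral_swap (f := fun t s => psi p s t) hint
    rw [hsw, ← intervalIntegral.integral_of_le hab, ← Real.norm_eq_abs]
    have h1 := intervalIntegral.norm_integral_le_of_norm_le_const (a := a) (b := b) (C := 12)
      (f := fun s => ∫ t in Ioc 1 T, psi p s t) (fun s hs => by
        rw [uIoc_of_le hab] at hs
        rw [← intervalIntegral.integral_of_le hT, Real.norm_eq_abs]
        exact psi_av hp (ha.trans hs.1.le) hT)
    rw [abs_of_nonneg (by linarith)] at h1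
    exact h1

lemma PI_bound {p : ℕ} (hp : 2 ≤ p) {a b : ℝ} (ha : 0 ≤ a) (hab : a ≤ b) (t : ℝ) :
    |PI p a b t| ≤ 3 * (b - a) := by
  unfold PI
  rw [← Real.norm_eq_abs]
  have h1 := intervalIntegral.norm_integral_le_of_norm_le_const (a := a) (b := b) (C := 3)
    (f := fun s => psi p s t) (fun s hs => by
      rw [uIoc_of_le hab] at hs
      rw [Real.norm_eq_abs]
      exact psi_le hp (ha.trans hs.1.le) t)
  rwa [abs_of_nonneg (by linarith)] at h1

/-- the mean value of the horizontal integrals to the right of `1` -/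
lemma II_mean {a b : ℝ} (ha : 1 ≤ a) (hab : a ≤ b) (hb : b ≤ 10) (N : ℕ) {T : ℝ} (hT : 1 ≤ T) :
    |∫ t in (1:ℝ)..T, II a b t| ≤ (b - a) * (4 * Real.log T + 4 * tail (3/4) N * T + 12 * (pr N).card) := by
  have hba : 0 ≤ b - a := by linarith
  have h0 : ∀ t ∈ Icc (1:ℝ) T, |II a b t - ∑ p ∈ pr N, PI p a b t| ≤
      (b - a) * (4 / t + 4 * tail (3/4) N) := by
    intro t ht
    have ht0 : 0 < t := by linarith [ht.1]
    have e1 : II a b t - ∑ p ∈ pr N, PI p a b t = ∫ s in a..b, (g s t - ∑ p ∈ pr N, psi p s t) := by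
      unfold II PI
      rw [intervalIntegral.integral_sub (g_intervalIntegrable (by linarith) hab t),
        intervalIntegral.integral_finsetSum]
      · intro p hp; exact psi_ii (pr_two hp) (by linarith) hab t
      · have := IntervalIntegrable.sum (pr N) (f := fun p => fun s => psi p s t) (μ := volume) (a := a) (b := b)
          (fun p hp => psi_ii (pr_two hp) (by linarith) hab t)
        refine this.congr ?_
        intro s _
        simp
    rw [e1, ← Real.norm_eq_abs]
    have h1 := intervalIntegral.norm_integral_le_of_norm_le_const (a := a) (b := b)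
      (C := 4 / t + 4 * tail (3/4) N) (f := fun s => g s t - ∑ p ∈ pr N, psi p s t) (fun s hs => by
        rw [uIoc_of_le hab] at hs
        have hs1 : 1 ≤ s := by linarith [hs.1]
        rw [Real.norm_eq_abs, g_split (by linarith) ht.1]
        have h2 := log_ratio (s := s) (by linarith) ht.1
        have h3 := Xi_far N hs1 t
        unfold Xi at h3
        have h4 : Real.exp (-(Real.log 2) * (s - 1)) ≤ 1 := by
          rw [Real.exp_le_one_iff]
          have := Real.log_pos (by norm_num : (1:ℝ) < 2)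
          nlinarith
        have h5 : 4 * tail (3/4) N * Real.exp (-(Real.log 2) * (s - 1)) ≤ 4 * tail (3/4) N * 1 := by
          have := tail_nonneg (3/4) N
          gcongr
        have h6 := abs_add_le (Real.log ‖(pt s t - 1) / (pt s t + 3)‖) (lz s t - ∑ p ∈ pr N, psi p s t)
        rw [← add_sub_assoc] at h6
        linarith)
    rw [abs_of_nonneg hba] at h1
    linarith
  have hIi : IntervalIntegrable (II a b) volume 1 T := by
    obtain ⟨C, hC, h⟩ := II_right (η := 1/2) (by norm_num)
    exact (Lgr_const (f := II a b) (B := C * (b - a)) (fun t => (h a b t (by linarith) hab hb).1)).ii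
      (by positivity) (II_measurable a b) 1 T
  have hPi : IntervalIntegrable (fun t => ∑ p ∈ pr N, PI p a b t) volume 1 T := by
    have := IntervalIntegrable.sum (pr N) (f := fun p => fun t => PI p a b t) (μ := volume) (a := 1) (b := T)
      (fun p hp => (PI_av (pr_two hp) (by linarith) hab hT).1)
    refine this.congr ?_
    intro s _
    simp
  have hsplit : ∫ t in (1:ℝ)..T, II a b t = (∫ t in (1:ℝ)..T, (II a b t - ∑ p ∈ pr N, PI p a b t)) +
      ∑ p ∈ pr N, ∫ t in (1:ℝ)..T, PI p a b t := by
    rw [intervalIntegral.integral_sub hIi hPi, intervalIntegral.integral_finsetSum]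
    · ring
    · intro p hp; exact (PI_av (pr_two hp) (by linarith) hab hT).1
  have hA : |∫ t in (1:ℝ)..T, (II a b t - ∑ p ∈ pr N, PI p a b t)| ≤
      (b - a) * (4 * Real.log T + 4 * tail (3/4) N * T) := by
    have hc : ContinuousOn (fun t : ℝ => (b - a) * (4 / t + 4 * tail (3/4) N)) (uIcc 1 T) := by
      rw [uIcc_of_le hT]
      intro t ht
      have : t ≠ 0 := by linarith [ht.1]
      exact (ContinuousAt.mul continuousAt_const ((ContinuousAt.div continuousAt_const continuousAt_id this).add
        continuousAt_const)).continuousWithinAt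
    have h2 := intervalIntegral.abs_integral_le_integral_abs (f := fun t => II a b t - ∑ p ∈ pr N, PI p a b t)
      (μ := volume) hT
    have h3 := intervalIntegral.integral_mono_on hT (hIi.sub hPi).abs hc.intervalIntegrable h0
    refine h2.trans (h3.trans ?_)
    rw [intervalIntegral.integral_const_mul]
    refine mul_le_mul_of_nonneg_left ?_ hba
    have c1 : IntervalIntegrable (fun t : ℝ => 4 / t) volume 1 T := by
      refine ContinuousOn.intervalIntegrable ?_
      rw [uIcc_of_le hT]
      intro t ht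
      have : t ≠ 0 := by linarith [ht.1]
      exact (ContinuousAt.div continuousAt_const continuousAt_id this).continuousWithinAt
    rw [intervalIntegral.integral_add c1 intervalIntegrable_const, intervalIntegral.integral_const]
    have e4 : ∫ t in (1:ℝ)..T, 4 / t = 4 * Real.log T := by
      have : ∀ t : ℝ, 4 / t = 4 * t⁻¹ := fun t => by ring
      simp only [this]
      rw [intervalIntegral.integral_const_mul, integral_inv_of_pos one_pos (by linarith), div_one]
    rw [e4, smul_eq_mul]
    have := tail_nonneg (3/4) N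
    nlinarith
  have hB : |∑ p ∈ pr N, ∫ t in (1:ℝ)..T, PI p a b t| ≤ (b - a) * (12 * (pr N).card) := by
    refine (Finset.abs_sum_le_sum_abs _ _).trans ?_
    calc _ ≤ ∑ p ∈ pr N, 12 * (b - a) :=
          Finset.sum_le_sum fun p hp => (PI_av (pr_two hp) (by linarith) hab hT).2
      _ = _ := by rw [Finset.sum_const, nsmul_eq_mul]; ring
  rw [hsplit]
  refine (abs_add_le _ _).trans ?_
  linarith

/-- (P2) -/
theorem low_mean {ε : ℝ} (hε : 0 < ε) : ∃ T₀ : ℝ, 1 ≤ T₀ ∧ ∀ T : ℝ, T₀ ≤ T →
    -(ε * T) ≤ ∫ t in (1:ℝ)..T, II 0 (3/2) t := by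
  obtain ⟨C, hC, h⟩ := low_main
  have h1 := (tail_tendsto (σ := 3/4) (by norm_num)).eventually (gt_mem_nhds (show (0:ℝ) < ε / 72 by positivity))
  obtain ⟨N, hN⟩ := h1.exists
  set D : ℝ := 60 * (pr N).card + C with hD
  have h2 : Tendsto (fun T : ℝ => (D + (C + 20) * Real.log (1 + T)) / T) atTop (𝓝 0) := by
    have a1 : Tendsto (fun T : ℝ => Real.log (1 + T) / (1 + T)) atTop (𝓝 0) := by
      have := Real.isLittleO_log_id_atTop.tendsto_div_nhds_zero
      exact this.comp (tendsto_atTop_add_const_left _ _ tendsto_id)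
    have a2 : Tendsto (fun T : ℝ => T⁻¹) atTop (𝓝 0) := tendsto_inv_atTop_zero
    have a3 : Tendsto (fun T : ℝ => D * T⁻¹ + (C + 20) * (Real.log (1 + T) / (1 + T) * (T⁻¹ + 1))) atTop
        (𝓝 (D * 0 + (C + 20) * (0 * (0 + 1)))) :=
      (a2.const_mul D).add ((a1.mul (a2.add_const 1)).const_mul (C + 20))
    have a4 : D * 0 + (C + 20) * (0 * (0 + 1)) = 0 := by ring
    rw [a4] at a3
    refine a3.congr' ?_
    filter_upwards [eventually_gt_atTop 0] with T hT
    have : 0 < 1 + T := by linarith
    field_simp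
  have h3 := (h2.eventually (gt_mem_nhds (show (0:ℝ) < ε / 2 by positivity)))
  rw [eventually_atTop] at h3
  obtain ⟨T1, hT1⟩ := h3
  refine ⟨max 1 T1, le_max_left _ _, fun T hT => ?_⟩
  have hT1' : 1 ≤ T := (le_max_left _ _).trans hT
  have h4 := hT1 T ((le_max_right _ _).trans hT)
  have h5 := h T hT1'
  have h6 := II_mean (a := 1) (b := 5/2) (by norm_num) (by norm_num) (by norm_num) N hT1'
  have h7 := II_mean (a := 2) (b := 7/2) (by norm_num) (by norm_num) (by norm_num) N hT1'
  rw [div_lt_iff₀ (by linarith)] at h4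
  have h8 := (abs_le.1 h6).1
  have h9 := (abs_le.1 h7).2
  have h10 : Real.log T ≤ Real.log (1 + T) := Real.log_le_log (by linarith) (by linarith)
  have h11 : tail (3/4) N * T ≤ ε / 72 * T := by
    have := hN.le
    gcongr
  have h12 : (0:ℝ) ≤ (pr N).card := by positivity
  have h13 : 0 ≤ Real.log (1 + T) := Real.log_nonneg (by linarith)
  rw [hD] at h4
  norm_num at h8 h9
  nlinarith

end

end Pool.Agent.Y757.EM
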